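import Mathlib
import Pool.Agent.MP_450e1b_mp.Defs

-- part MP_450e1b_mp.Pauli
section

/-
Pauli operators, and the description of maximal mixedness by vanishing Pauli expectations.
-/

namespace Pool.Agent.MP_450e1b_mp

open Matrix Finset

abbrev Z2 := ZMod 2

/-- The sign character of `ZMod 2`. -/
def sg (a : Z2) : ℤ := if a = 0 then 1 else -1

@[simp] theorem sg_zero : sg 0 = 1 := rfl
@[simp] theorem sg_one : sg 1 = -1 := rfl
theorem sg_add (a b : Z2) : sg (a + b) = sg a * sg b := by revert a b; decide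
theorem sg_mul_self (a : Z2) : sg a * sg a = 1 := by revert a; decide
theorem z2_cases (a : Z2) : a = 0 ∨ a = 1 := by revert a; decide
theorem z2_add_self (a : Z2) : a + a = 0 := by revert a; decide

theorem sum_sg_eq_zero {G : Type*} [AddCommGroup G] (U : Finset G)
    (hU : ∀ a ∈ U, ∀ b ∈ U, a + b ∈ U) (hU' : ∀ a ∈ U, ∀ b ∈ U, a - b ∈ U) (φ : G → Z2)
    (hφ : ∀ a b, φ (a + b) = φ a + φ b) (u₀ : G) (hu₀ : u₀ ∈ U) (h1 : φ u₀ = 1) :
    ∑ u ∈ U, sg (φ u) = 0 := by
  have : ∑ u ∈ U, sg (φ u) = ∑ u ∈ U, sg (φ (u + u₀)) := by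
    symm
    apply Finset.sum_nbij' (fun u => u + u₀) (fun u => u - u₀)
    · intro a ha; exact hU a ha u₀ hu₀
    · intro a ha; exact hU' a ha u₀ hu₀
    · intro a _; simp
    · intro a _; simp
    · intro a _; rfl
  have h2 : ∑ u ∈ U, sg (φ (u + u₀)) = - ∑ u ∈ U, sg (φ u) := by
    rw [← Finset.sum_neg_distrib]
    apply Finset.sum_congr rfl
    intro u _
    rw [hφ, h1, sg_add, sg_one]; ring
  linarith

section general
variable {ι : Type*} [Fintype ι] [DecidableEq ι]

/-- The dot product modulo two. -/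
def dot (t x : ι → Z2) : Z2 := ∑ i, t i * x i

omit [DecidableEq ι] in
theorem dot_add_right (t x y : ι → Z2) : dot t (x + y) = dot t x + dot t y := by
  simp [dot, mul_add, Finset.sum_add_distrib]

omit [DecidableEq ι] in
theorem dot_add_left (t t' x : ι → Z2) : dot (t + t') x = dot t x + dot t' x := by
  simp [dot, add_mul, Finset.sum_add_distrib]

omit [DecidableEq ι] in
theorem dot_comm (t x : ι → Z2) : dot t x = dot x t := by
  simp [dot, mul_comm]

omit [DecidableEq ι] in
@[simp] theorem dot_zero_left (x : ι → Z2) : dot 0 x = 0 := by simp [dot]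

omit [DecidableEq ι] in
@[simp] theorem dot_zero_right (x : ι → Z2) : dot x 0 = 0 := by simp [dot]

omit [Fintype ι] [DecidableEq ι] in
theorem cfg_add_self (x : ι → Z2) : x + x = 0 := by
  funext i; exact z2_add_self _

theorem sum_sg_dot (t : ι → Z2) : ∑ x : ι → Z2, sg (dot t x) = if t = 0 then 2 ^ Fintype.card ι else 0 := by
  split_ifs with h
  · subst h; simp
  · obtain ⟨i, hi⟩ := Function.ne_iff.mp h
    apply sum_sg_eq_zero _ (by simp) (by simp) _ (dot_add_right t) (Pi.single i 1) (by simp)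
    have : t i = 1 := (z2_cases _).resolve_left hi
    simp [dot, Pi.single_apply, this]

/-- The Pauli operator `Z^t X^s`. -/
def pauli (s t : ι → Z2) (ψ : (ι → Z2) → ℂ) : (ι → Z2) → ℂ :=
  fun x => (sg (dot t x) : ℂ) * ψ (x + s)

/-- The Hermitian inner product of two vectors. -/
noncomputable def ip (φ ψ : (ι → Z2) → ℂ) : ℂ := ∑ x, star (φ x) * ψ x

/-- The expectation of a Pauli operator. -/
noncomputable def expv (ψ : (ι → Z2) → ℂ) (s t : ι → Z2) : ℂ := ip ψ (pauli s t ψ)

omit [DecidableEq ι] in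
theorem pauli_pauli (s t s' t' : ι → Z2) (ψ : (ι → Z2) → ℂ) :
    pauli s t (pauli s' t' ψ) = (sg (dot t' s) : ℂ) • pauli (s + s') (t + t') ψ := by
  funext x
  simp only [pauli, Pi.smul_apply, smul_eq_mul, dot_add_left, dot_add_right, sg_add, add_assoc]
  push_cast
  ring

theorem ip_pauli (s t s' t' : ι → Z2) (φ ψ : (ι → Z2) → ℂ) :
    ip (pauli s t φ) (pauli s' t' ψ)
      = (sg (dot (t + t') s) : ℂ) * ip φ (pauli (s + s') (t + t') ψ) := by
  unfold ip
  rw [Finset.mul_sum]
  apply Finset.sum_nbij' (fun x => x + s) (fun x => x + s)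
  · simp
  · simp
  · intro x _; rw [add_assoc, cfg_add_self, add_zero]
  · intro x _; rw [add_assoc, cfg_add_self, add_zero]
  · intro x _
    have e : x + s + (s + s') = x + s' := by
      rw [add_assoc, ← add_assoc s s s', cfg_add_self, zero_add]
    have h1 := sg_mul_self (dot t s)
    have h2 := sg_mul_self (dot t' s)
    have h1' : (sg (dot t s) : ℂ) * sg (dot t s) = 1 := by exact_mod_cast h1
    have h2' : (sg (dot t' s) : ℂ) * sg (dot t' s) = 1 := by exact_mod_cast h2
    simp only [pauli, e, dot_add_left, dot_add_right, sg_add, star_mul', star_intCast]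
    push_cast
    linear_combination (-(sg (dot t x) : ℂ) * star (φ (x + s)) * (sg (dot t' x) * ψ (x + s'))
      * (sg (dot t' s) * sg (dot t' s))) * h1'
      - (sg (dot t x) : ℂ) * star (φ (x + s)) * (sg (dot t' x) * ψ (x + s')) * h2'

omit [DecidableEq ι] in
@[simp] theorem pauli_zero (ψ : (ι → Z2) → ℂ) : pauli 0 0 ψ = ψ := by
  funext x; simp [pauli]

theorem ip_self (ψ : (ι → Z2) → ℂ) : ip ψ ψ = ((∑ x, ‖ψ x‖ ^ 2 : ℝ) : ℂ) := by
  unfold ip
  push_cast
  apply Finset.sum_congr rfl
  intro x _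
  rw [mul_comm]
  exact Complex.mul_conj' _

end general

/-- All non-identity Pauli operators supported in `A` have expectation zero. -/
def PM {n : ℕ} (ψ : (Fin n → Z2) → ℂ) (A : Finset (Fin n)) : Prop :=
  ∀ s t : Fin n → Z2, (∀ i, i ∉ A → s i = 0 ∧ t i = 0) → (s ≠ 0 ∨ t ≠ 0) → expv ψ s t = 0

theorem PM.mono {n : ℕ} {ψ : (Fin n → Z2) → ℂ} {A B : Finset (Fin n)} (h : PM ψ B) (hAB : A ⊆ B) :
    PM ψ A := fun s t hs hne => h s t (fun i hi => hs i (fun hA => hi (hAB hA))) hne

/-- Glue a configuration on `A` and one on its complement. -/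
def glue {n : ℕ} (A : Finset (Fin n)) (a : {i // i ∈ A} → Z2) (b : {i // i ∉ A} → Z2) :
    Fin n → Z2 := fun i => if h : i ∈ A then a ⟨i, h⟩ else b ⟨i, h⟩

theorem sum_glue {n : ℕ} (A : Finset (Fin n)) (f : (Fin n → Z2) → ℂ) :
    ∑ x, f x = ∑ a, ∑ b, f (glue A a b) := by
  rw [← Fintype.sum_prod_type' (f := fun a b => f (glue A a b))]
  exact (Equiv.sum_comp (Equiv.piEquivPiSubtypeProd (fun i => i ∈ A) (fun _ => Z2)).symm f).symm

theorem reduced_apply {n : ℕ} (ψ : (Fin n → Z2) → ℂ) (A : Finset (Fin n))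
    (a a' : {i // i ∈ A} → Z2) :
    reduced ψ A a a' = ∑ b, ψ (glue A a b) * star (ψ (glue A a' b)) := by
  unfold reduced
  rw [Matrix.mul_apply]
  rfl

theorem glue_add {n : ℕ} (A : Finset (Fin n)) (a a' : {i // i ∈ A} → Z2)
    (b : {i // i ∉ A} → Z2) : glue A a b + glue A a' 0 = glue A (a + a') b := by
  funext i
  by_cases h : i ∈ A <;> simp [glue, h]

theorem dot_glue {n : ℕ} (A : Finset (Fin n)) (a a' : {i // i ∈ A} → Z2)
    (b : {i // i ∉ A} → Z2) : dot (glue A a' 0) (glue A a b) = dot a' a := by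
  unfold dot
  rw [← Fintype.sum_subtype_add_sum_subtype (fun i => i ∈ A)]
  have h1 : ∑ i : {i // i ∉ A}, glue A a' 0 i * glue A a b i = 0 := by
    apply Finset.sum_eq_zero
    intro i _
    simp [glue, i.2]
  rw [h1, add_zero]
  refine Finset.sum_congr (by ext; simp only [Finset.mem_univ]) ?_
  intro i _
  simp [glue, i.2]

theorem expv_glue {n : ℕ} (ψ : (Fin n → Z2) → ℂ) (A : Finset (Fin n))
    (s t : {i // i ∈ A} → Z2) :
    expv ψ (glue A s 0) (glue A t 0) = ∑ a, (sg (dot t a) : ℂ) * reduced ψ A (a + s) a := by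
  unfold expv ip
  rw [sum_glue A]
  apply Finset.sum_congr rfl
  intro a _
  rw [reduced_apply, Finset.mul_sum]
  apply Finset.sum_congr rfl
  intro b _
  simp only [pauli, glue_add, dot_glue]
  ring

theorem glue_eq_zero {n : ℕ} (A : Finset (Fin n)) (s : {i // i ∈ A} → Z2) :
    glue A s 0 = 0 ↔ s = 0 := by
  constructor
  · intro h
    funext i
    have := congrFun h i
    simpa [glue, i.2] using this
  · rintro rfl
    funext i
    by_cases h : i ∈ A <;> simp [glue, h]

theorem maxMixed_iff {n : ℕ} (ψ : (Fin n → Z2) → ℂ) (hψ : ∑ x, ‖ψ x‖ ^ 2 = 1)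
    (A : Finset (Fin n)) : MaxMixed ψ A ↔ PM ψ A := by
  constructor
  · intro h s t hst hne
    have hs : s = glue A (fun i => s i) 0 := by
      funext i
      by_cases hi : i ∈ A
      · simp [glue, hi]
      · simp [glue, hi, (hst i hi).1]
    have ht : t = glue A (fun i => t i) 0 := by
      funext i
      by_cases hi : i ∈ A
      · simp [glue, hi]
      · simp [glue, hi, (hst i hi).2]
    rw [hs, ht] at hne ⊢
    rw [Ne, Ne, glue_eq_zero, glue_eq_zero] at hne
    generalize (fun i : {i // i ∈ A} => s i) = s' at hne ⊢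
    generalize (fun i : {i // i ∈ A} => t i) = t' at hne ⊢
    rw [expv_glue]
    unfold MaxMixed at h
    have h' : ∀ a a' : {i // i ∈ A} → Z2,
        reduced ψ A a a' = if a = a' then ((2 : ℂ) ^ A.card)⁻¹ else 0 := by
      intro a a'
      rw [h]
      by_cases haa : a = a'
      · subst haa; simp
      · rw [if_neg haa, Matrix.smul_apply, Matrix.one_apply_ne haa, smul_zero]
    simp only [h']
    by_cases hs0 : s' = 0
    · subst hs0
      have ht0 : t' ≠ 0 := hne.resolve_left (by simp)
      simp only [add_zero, if_true]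
      rw [← Finset.sum_mul]
      have := sum_sg_dot t'
      rw [if_neg ht0] at this
      have h2 : ∑ a, (sg (dot t' a) : ℂ) = 0 := by exact_mod_cast this
      rw [h2, zero_mul]
    · apply Finset.sum_eq_zero
      intro a _
      rw [if_neg (by simpa using hs0), mul_zero]
  · intro h
    unfold MaxMixed
    ext a' a
    have key : ∀ s a : {i // i ∈ A} → Z2, (2 : ℂ) ^ A.card * reduced ψ A (a + s) a
        = ∑ t, (sg (dot t a) : ℂ) * expv ψ (glue A s 0) (glue A t 0) := by
      intro s a
      simp only [expv_glue, Finset.mul_sum]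
      rw [Finset.sum_comm]
      have : ∀ y : {i // i ∈ A} → Z2,
          ∑ t, (sg (dot t a) : ℂ) * ((sg (dot t y) : ℂ) * reduced ψ A (y + s) y)
          = if y = a then (2 : ℂ) ^ A.card * reduced ψ A (y + s) y else 0 := by
        intro y
        have h1 := sum_sg_dot (a + y)
        have h2 : ∑ t, (sg (dot t a) : ℂ) * ((sg (dot t y) : ℂ) * reduced ψ A (y + s) y)
            = ((∑ t, sg (dot (a + y) t) : ℤ) : ℂ) * reduced ψ A (y + s) y := by
          push_cast
          rw [Finset.sum_mul]
          apply Finset.sum_congr rfl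
          intro t _
          rw [dot_add_left, sg_add, dot_comm a, dot_comm y]
          push_cast
          ring
        rw [h2, h1]
        by_cases hy : y = a
        · subst hy
          simp [cfg_add_self]
        · have : a + y ≠ 0 := by
            intro h0
            apply hy
            have : a + (a + y) = a + 0 := by rw [h0]
            rwa [← add_assoc, cfg_add_self, zero_add, add_zero] at this
          simp [this, hy]
      simp only [this]
      simp
    have hsupp : ∀ s t : {i // i ∈ A} → Z2, ∀ i, i ∉ A → glue A s 0 i = 0 ∧ glue A t 0 i = 0 := by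
      intro s t i hi
      simp [glue, hi]
    have hpos : (2 : ℂ) ^ A.card ≠ 0 := pow_ne_zero _ two_ne_zero
    have k1 := key (a + a') a
    rw [← add_assoc, cfg_add_self, zero_add] at k1
    by_cases haa : a' = a
    · subst haa
      rw [cfg_add_self, Finset.sum_eq_single 0] at k1
      · have e0 : glue A 0 0 = 0 := (glue_eq_zero A 0).mpr rfl
        rw [e0] at k1
        simp only [dot_zero_left, sg_zero, Int.cast_one, one_mul, expv, pauli_zero, ip_self, hψ]
          at k1
        rw [Matrix.smul_apply, Matrix.one_apply_eq, smul_eq_mul, mul_one]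
        field_simp
        simpa [mul_comm] using k1
      · intro t _ ht
        rw [h _ _ (hsupp 0 t) (Or.inr (by rwa [Ne, glue_eq_zero])), mul_zero]
      · simp
    · have hs : a + a' ≠ 0 := by
        intro h0
        apply haa
        have : a + (a + a') = a + 0 := by rw [h0]
        rwa [← add_assoc, cfg_add_self, zero_add, add_zero] at this
      rw [Finset.sum_eq_zero (fun t _ => by
        rw [h _ _ (hsupp (a + a') t) (Or.inl (by rwa [Ne, glue_eq_zero])), mul_zero])] at k1
      rw [Matrix.smul_apply, Matrix.one_apply_ne haa, smul_zero]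
      exact (mul_eq_zero.mp k1).resolve_left hpos

end Pool.Agent.MP_450e1b_mp

end

-- part MP_450e1b_mp.Stab
section

/-
The quantum Hamming (Rao) bound, and joint eigenvectors of commuting Pauli operators.
-/

namespace Pool.Agent.MP_450e1b_mp

open Matrix Finset

theorem card_le_of_orth {n : ℕ} (ψ : (Fin n → Z2) → ℂ) (hψ : ∑ x, ‖ψ x‖ ^ 2 = 1)
    {κ : Type*} [Fintype κ] [DecidableEq κ] (s t : κ → Fin n → Z2)
    (h : ∀ a b, a ≠ b → expv ψ (s a + s b) (t a + t b) = 0) : Fintype.card κ ≤ 2 ^ n := by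
  let v : κ → EuclideanSpace ℂ (Fin n → Z2) := fun a => WithLp.toLp 2 (pauli (s a) (t a) ψ)
  have hv : Orthonormal ℂ v := by
    rw [orthonormal_iff_ite]
    intro a b
    have e : inner ℂ (v a) (v b) = ip (pauli (s a) (t a) ψ) (pauli (s b) (t b) ψ) := by
      simp only [v, ip, PiLp.inner_apply, RCLike.inner_apply]
      exact Finset.sum_congr rfl fun x _ => mul_comm _ _
    rw [e, ip_pauli]
    split_ifs with hab
    · subst hab
      simp [cfg_add_self, ip_self, hψ]
    · have := h a b hab
      unfold expv at this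
      rw [this, mul_zero]
  have := hv.linearIndependent.fintype_card_le_finrank
  simpa using this

theorem rao {n : ℕ} (ψ : (Fin n → Z2) → ℂ) (hψ : ∑ x, ‖ψ x‖ ^ 2 = 1) (C R : Finset (Fin n))
    (hdisj : Disjoint C R) (hC : PM ψ C)
    (h : ∀ i ∈ R, ∀ j ∈ R, PM ψ (insert i (insert j C))) :
    4 ^ C.card * (1 + 3 * R.card) ≤ 2 ^ n := by
  classical
  let κ := ({i // i ∈ C} → Z2 × Z2) × Option ({i // i ∈ R} × {p : Z2 × Z2 // p ≠ 0})
  let o : Option ({i // i ∈ R} × {p : Z2 × Z2 // p ≠ 0}) → Fin n → Z2 × Z2 := fun z i =>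
    match z with
    | none => 0
    | some (r, p) => if i = r then p else 0
  let w : κ → Fin n → Z2 × Z2 := fun a i => if hi : i ∈ C then a.1 ⟨i, hi⟩ else o a.2 i
  have hRC : ∀ r : {i // i ∈ R}, (r : Fin n) ∉ C := fun r hr =>
    Finset.disjoint_left.mp hdisj hr r.2
  have hinj : Function.Injective w := by
    rintro ⟨c, z⟩ ⟨c', z'⟩ hw
    have h1 : c = c' := by
      funext i
      have := congrFun hw i
      simpa [w, i.2] using this
    have h2 : ∀ r : {i // i ∈ R}, o z r = o z' r := by
      intro r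
      have := congrFun hw r
      simpa [w, hRC r] using this
    have h3 : z = z' := by
      rcases z with _ | ⟨r, p⟩ <;> rcases z' with _ | ⟨r', p'⟩
      · rfl
      · have := h2 r'
        simp only [o, if_true] at this
        exact absurd this.symm p'.2
      · have := h2 r
        simp only [o, if_true] at this
        exact absurd this p.2
      · have := h2 r
        simp only [o, if_true] at this
        by_cases hr : (r : Fin n) = r'
        · rw [if_pos hr] at this
          rw [Subtype.ext hr, Subtype.ext this]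
        · rw [if_neg hr] at this
          exact absurd this p.2
    rw [h1, h3]
  have hcard : Fintype.card κ = 4 ^ C.card * (1 + 3 * R.card) := by
    have h3 : Fintype.card {p : Z2 × Z2 // p ≠ 0} = 3 := by decide
    simp only [κ, Fintype.card_prod, Fintype.card_option, h3, Fintype.card_fun, ZMod.card,
      Fintype.card_coe]
    ring
  rw [← hcard]
  apply card_le_of_orth ψ hψ (fun a i => (w a i).1) (fun a i => (w a i).2)
  intro a b hab
  have hne : (fun i => (w a i).1) + (fun i => (w b i).1) ≠ 0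
      ∨ (fun i => (w a i).2) + (fun i => (w b i).2) ≠ 0 := by
    by_contra hcon
    push Not at hcon
    apply hab
    apply hinj
    funext i
    have e1 := congrFun hcon.1 i
    have e2 := congrFun hcon.2 i
    simp only [Pi.add_apply, Pi.zero_apply] at e1 e2
    have key : ∀ x y : Z2, x + y = 0 → x = y := by decide
    exact Prod.ext (key _ _ e1) (key _ _ e2)
  have hsupp : ∀ D : Finset (Fin n), C ⊆ D → (∀ i, i ∉ D → o a.2 i = 0 ∧ o b.2 i = 0) →
      ∀ i, i ∉ D → ((fun i => (w a i).1) + (fun i => (w b i).1)) i = 0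
        ∧ ((fun i => (w a i).2) + (fun i => (w b i).2)) i = 0 := by
    intro D hCD hD i hi
    have hiC : i ∉ C := fun h => hi (hCD h)
    simp [w, hiC, (hD i hi).1, (hD i hi).2]
  obtain ⟨c, z⟩ := a
  obtain ⟨c', z'⟩ := b
  rcases z with _ | ⟨r, p⟩ <;> rcases z' with _ | ⟨r', p'⟩
  · exact hC _ _ (hsupp C subset_rfl (fun i _ => ⟨rfl, rfl⟩)) hne
  · refine h r' r'.2 r' r'.2 _ _ (hsupp _ (by intro x hx; simp [hx]) ?_) hne
    intro i hi
    simp only [Finset.mem_insert, not_or] at hi
    simp [o, hi.1]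
  · refine h r r.2 r r.2 _ _ (hsupp _ (by intro x hx; simp [hx]) ?_) hne
    intro i hi
    simp only [Finset.mem_insert, not_or] at hi
    simp [o, hi.1]
  · refine h r r.2 r' r'.2 _ _ (hsupp _ (by intro x hx; simp [hx]) ?_) hne
    intro i hi
    simp only [Finset.mem_insert, not_or] at hi
    simp [o, hi.1, hi.2.1]

section eigen
variable {ι : Type*} [Fintype ι] [DecidableEq ι]

/-- The symplectic form on Pauli labels. -/
def sp (p q : (ι → Z2) × (ι → Z2)) : Z2 := dot q.2 p.1 + dot p.2 q.1

omit [DecidableEq ι] in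
theorem pauli_add (s t : ι → Z2) (φ ψ : (ι → Z2) → ℂ) :
    pauli s t (φ + ψ) = pauli s t φ + pauli s t ψ := by
  funext x; simp [pauli, mul_add]

omit [DecidableEq ι] in
theorem pauli_smul (s t : ι → Z2) (c : ℂ) (ψ : (ι → Z2) → ℂ) :
    pauli s t (c • ψ) = c • pauli s t ψ := by
  funext x; simp only [pauli, Pi.smul_apply, smul_eq_mul]; ring

omit [DecidableEq ι] in
theorem pauli_swap (p q : (ι → Z2) × (ι → Z2)) (ψ : (ι → Z2) → ℂ) :
    pauli p.1 p.2 (pauli q.1 q.2 ψ) = (sg (sp p q) : ℂ) • pauli q.1 q.2 (pauli p.1 p.2 ψ) := by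
  rw [pauli_pauli, pauli_pauli, smul_smul, add_comm q.1, add_comm q.2, sp, sg_add]
  congr 1
  have : (sg (dot p.2 q.1) : ℂ) * sg (dot p.2 q.1) = 1 := by exact_mod_cast sg_mul_self _
  push_cast
  rw [mul_assoc, this, mul_one]

theorem exists_eigen (L : Finset ((ι → Z2) × (ι → Z2)))
    (hL : ∀ p ∈ L, ∀ q ∈ L, sp p q = 0) :
    ∃ ψ : (ι → Z2) → ℂ, ψ ≠ 0 ∧ ∀ p ∈ L, ∃ c : ℂ, star c * c = 1 ∧ pauli p.1 p.2 ψ = c • ψ := by
  induction L using Finset.induction_on with
  | empty =>
    refine ⟨fun _ => 1, ?_, by simp⟩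
    intro h
    simpa using congrFun h 0
  | insert p L hp ih =>
    obtain ⟨ψ, hψ, hev⟩ := ih (fun a ha b hb => hL a (by simp [ha]) b (by simp [hb]))
    obtain ⟨l, hl1, hl2⟩ : ∃ l : ℂ, star l * l = 1 ∧ l * l = sg (dot p.2 p.1) := by
      rcases z2_cases (dot p.2 p.1) with h | h
      · exact ⟨1, by simp, by simp [h]⟩
      · exact ⟨Complex.I, by simp, by simp [h]⟩
    have hsq : pauli p.1 p.2 (pauli p.1 p.2 ψ) = (l * l) • ψ := by
      rw [pauli_pauli, cfg_add_self, cfg_add_self, pauli_zero, hl2]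
    by_cases h0 : pauli p.1 p.2 ψ + l • ψ = 0
    · refine ⟨ψ, hψ, ?_⟩
      intro q hq
      rcases Finset.mem_insert.mp hq with rfl | hq
      · refine ⟨-l, by simpa using hl1, ?_⟩
        rw [neg_smul]
        exact eq_neg_of_add_eq_zero_left h0
      · exact hev q hq
    · refine ⟨_, h0, ?_⟩
      intro q hq
      rcases Finset.mem_insert.mp hq with rfl | hq
      · refine ⟨l, hl1, ?_⟩
        rw [pauli_add, hsq, pauli_smul, smul_add, smul_smul, add_comm]
      · obtain ⟨c, hc1, hc2⟩ := hev q hq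
        refine ⟨c, hc1, ?_⟩
        rw [pauli_add, pauli_swap q p, hL q (by simp [hq]) p (by simp), pauli_smul, hc2,
          pauli_smul, smul_add, smul_comm c l]
        simp

theorem ip_smul (c d : ℂ) (φ ψ : (ι → Z2) → ℂ) : ip (c • φ) (d • ψ) = star c * d * ip φ ψ := by
  unfold ip
  rw [Finset.mul_sum]
  apply Finset.sum_congr rfl
  intro x _
  simp only [Pi.smul_apply, smul_eq_mul, star_mul']
  ring

theorem expv_eq_zero (ψ : (ι → Z2) → ℂ) (p q : (ι → Z2) × (ι → Z2)) (c : ℂ) (hc : star c * c = 1)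
    (hp : pauli p.1 p.2 ψ = c • ψ) (hpq : sp p q = 1) : expv ψ q.1 q.2 = 0 := by
  have h1 : ip (pauli p.1 p.2 ψ) (pauli p.1 p.2 (pauli q.1 q.2 ψ)) = expv ψ q.1 q.2 := by
    rw [ip_pauli, cfg_add_self, cfg_add_self]
    simp [expv]
  rw [pauli_swap p q, hpq, hp, pauli_smul, smul_smul, ip_smul] at h1
  simp only [sg_one, Int.cast_neg, Int.cast_one] at h1
  have h2 : star c * (-1 * c) = -1 := by linear_combination -hc
  rw [h2] at h1
  unfold expv at h1 ⊢
  linear_combination (-1 / 2 : ℂ) * h1

theorem exists_stab_state (L : Finset ((ι → Z2) × (ι → Z2)))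
    (hL : ∀ p ∈ L, ∀ q ∈ L, sp p q = 0) :
    ∃ ψ : (ι → Z2) → ℂ, ∑ x, ‖ψ x‖ ^ 2 = 1 ∧
      ∀ q : (ι → Z2) × (ι → Z2), (∃ p ∈ L, sp p q = 1) → expv ψ q.1 q.2 = 0 := by
  obtain ⟨ψ, hψ, hev⟩ := exists_eigen L hL
  set N : ℝ := ∑ x, ‖ψ x‖ ^ 2 with hN
  have hNpos : 0 < N := by
    obtain ⟨x, hx⟩ := Function.ne_iff.mp hψ
    exact Finset.sum_pos' (fun _ _ => by positivity) ⟨x, Finset.mem_univ _, by
      have : ψ x ≠ 0 := hx
      positivity⟩
  refine ⟨(((Real.sqrt N)⁻¹ : ℝ) : ℂ) • ψ, ?_, ?_⟩
  · simp only [Pi.smul_apply, smul_eq_mul, norm_mul, mul_pow, ← Finset.mul_sum, ← hN,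
      Complex.norm_real, Real.norm_eq_abs, sq_abs, inv_pow, Real.sq_sqrt hNpos.le]
    field_simp
  · rintro q ⟨p, hp, hpq⟩
    obtain ⟨c, hc1, hc2⟩ := hev p hp
    apply expv_eq_zero _ p q c hc1 _ hpq
    rw [pauli_smul, hc2, smul_comm]

end eigen

end Pool.Agent.MP_450e1b_mp

end

-- part MP_450e1b_mp.Turan
section

/-
A Turan-type bound: Caro-Wei, a degree power bound, and the recursive count of good sets.
-/

namespace Pool.Agent.MP_450e1b_mp

open Finset

section graph
variable {α : Type*} [DecidableEq α] (adj : α → α → Prop) [DecidableRel adj]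

theorem caro_wei (hsymm : ∀ a b, adj a b → adj b a) (hirr : ∀ a, ¬ adj a a) (ω : ℕ) :
    ∀ W : Finset α, (∀ R ⊆ W, (∀ a ∈ R, ∀ b ∈ R, a ≠ b → adj a b) → R.card ≤ ω) →
      ∑ i ∈ W, (1 : ℝ) / (W.filter (fun j => ¬ adj i j)).card ≤ ω := by
  induction ω with
  | zero =>
    intro W hW
    rcases W.eq_empty_or_nonempty with rfl | ⟨v, hv⟩
    · simp
    · have := hW {v} (by simpa using hv) (by simp)
      simp at this
  | succ ω ih =>
    intro W hW
    rcases W.eq_empty_or_nonempty with rfl | hne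
    · simp; positivity
    obtain ⟨v, hv, hmin⟩ := W.exists_min_image (fun i => (W.filter (fun j => ¬ adj i j)).card) hne
    have hpos : ∀ (U : Finset α), ∀ i ∈ U, 0 < (U.filter (fun j => ¬ adj i j)).card :=
      fun U i hi => Finset.card_pos.mpr ⟨i, by simp [hi, hirr i]⟩
    rw [← Finset.sum_filter_add_sum_filter_not W (fun j => adj v j)]
    have h1 : ∑ i ∈ W.filter (fun j => ¬ adj v j), (1 : ℝ) / (W.filter (fun j => ¬ adj i j)).card
        ≤ 1 := by
      have hv0 : (0 : ℝ) < (W.filter (fun j => ¬ adj v j)).card := by exact_mod_cast hpos W v hv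
      calc _ ≤ ∑ i ∈ W.filter (fun j => ¬ adj v j),
            (1 : ℝ) / (W.filter (fun j => ¬ adj v j)).card := by
            apply Finset.sum_le_sum
            intro i hi
            apply one_div_le_one_div_of_le hv0
            exact_mod_cast hmin i (Finset.mem_filter.mp hi).1
        _ = 1 := by
            rw [Finset.sum_const, nsmul_eq_mul]
            field_simp
    have h2 := ih (W.filter (fun j => adj v j)) (by
      intro R hR hcl
      have hvR : v ∉ R := fun h => hirr v (Finset.mem_filter.mp (hR h)).2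
      have := hW (insert v R) (by
        intro x hx
        rcases Finset.mem_insert.mp hx with rfl | hx
        · exact hv
        · exact (Finset.mem_filter.mp (hR hx)).1) (by
        intro a ha b hb hab
        rcases Finset.mem_insert.mp ha with rfl | ha'
        · rcases Finset.mem_insert.mp hb with rfl | hb'
          · exact absurd rfl hab
          · exact (Finset.mem_filter.mp (hR hb')).2
        · rcases Finset.mem_insert.mp hb with rfl | hb'
          · exact hsymm _ _ (Finset.mem_filter.mp (hR ha')).2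
          · exact hcl a ha' b hb' hab)
      rw [Finset.card_insert_of_notMem hvR] at this
      omega)
    have h3 : ∑ i ∈ W.filter (fun j => adj v j), (1 : ℝ) / (W.filter (fun j => ¬ adj i j)).card
        ≤ ∑ i ∈ W.filter (fun j => adj v j),
          (1 : ℝ) / ((W.filter (fun j => adj v j)).filter (fun j => ¬ adj i j)).card := by
      apply Finset.sum_le_sum
      intro i hi
      apply one_div_le_one_div_of_le
      · exact_mod_cast hpos _ i hi
      · exact_mod_cast Finset.card_le_card (Finset.filter_subset_filter _ (Finset.filter_subset _ _))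
    push_cast
    linarith

theorem tangent_ineq (r : ℕ) (x y : ℝ) (hx1 : 2 * x ≤ 1) (hr : (r + 1) * x ≤ 1)
    (hy0 : 0 < y) (hy1 : y ≤ 1) :
    (1 - y) ^ r ≤ (1 - x) ^ r * (1 - r * x / (1 - x) + r * x ^ 2 / (1 - x) * (1 / y)) := by
  have h1x : 0 < 1 - x := by linarith
  set d := (y - x) / (1 - x) with hd
  have hd' : d * (1 - x) = y - x := by rw [hd]; field_simp
  have hd1 : d ≤ 1 := by rw [hd, div_le_one h1x]; linarith
  have hdm : -1 ≤ d := by rw [hd, le_div_iff₀ h1x]; linarith
  have hr0 : (0 : ℝ) ≤ r := Nat.cast_nonneg r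
  have hrd : 0 < 1 + r * d := by
    have : 0 < (1 + r * d) * (1 - x) := by
      have e : (1 + r * d) * (1 - x) = 1 - (r + 1) * x + r * y := by
        linear_combination r * hd'
      rw [e]
      rcases Nat.eq_zero_or_pos r with rfl | hpos
      · simp; linarith
      · have : (0 : ℝ) < r := by exact_mod_cast hpos
        have := mul_pos this hy0
        linarith
    exact (mul_pos_iff_of_pos_right h1x).mp this
  have b1 : 1 + r * d ≤ (1 + d) ^ r := one_add_mul_le_pow (by linarith) r
  have b2 : (1 - d) ^ r * (1 + r * d) ≤ 1 := by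
    calc (1 - d) ^ r * (1 + r * d) ≤ (1 - d) ^ r * (1 + d) ^ r :=
          mul_le_mul_of_nonneg_left b1 (pow_nonneg (by linarith) r)
      _ = (1 - d ^ 2) ^ r := by rw [← mul_pow]; congr 1; ring
      _ ≤ 1 := pow_le_one₀ (by nlinarith) (by nlinarith)
  have eT : 1 - r * x / (1 - x) + r * x ^ 2 / (1 - x) * (1 / y) = 1 - r * x * d / y := by
    rw [hd]; field_simp; ring
  have b3 : 1 ≤ (1 - r * x * d / y) * (1 + r * d) := by
    have e : (1 - r * x * d / y) * (1 + r * d) = 1 + r * d ^ 2 * (1 - (r + 1) * x) / y := by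
      field_simp
      linear_combination (-(r : ℝ) * d) * hd'
    rw [e]
    have : 0 ≤ r * d ^ 2 * (1 - (r + 1) * x) / y :=
      div_nonneg (mul_nonneg (by positivity) (by linarith)) hy0.le
    linarith
  have b4 : (1 - d) ^ r ≤ 1 - r * x * d / y := le_of_mul_le_mul_right (b2.trans b3) hrd
  have e1 : 1 - y = (1 - x) * (1 - d) := by linear_combination hd'
  rw [eT, e1, mul_pow]
  exact mul_le_mul_of_nonneg_left b4 (pow_nonneg h1x.le r)

theorem deg_pow_sum (hsymm : ∀ a b, adj a b → adj b a) (hirr : ∀ a, ¬ adj a a) (N : ℝ) (r : ℕ)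
    (hN2 : 2 ≤ N) (hNr : r + 1 ≤ N) (W : Finset α)
    (hW : ∀ R ⊆ W, (∀ a ∈ R, ∀ b ∈ R, a ≠ b → adj a b) → (R.card : ℝ) ≤ N) :
    ∑ i ∈ W, ((W.filter (fun j => adj i j)).card : ℝ) ^ r
      ≤ (W.card : ℝ) ^ (r + 1) * (1 - 1 / N) ^ r := by
  rcases W.eq_empty_or_nonempty with rfl | hne
  · simp
  have hN0 : 0 < N := by linarith
  have hw : (0 : ℝ) < W.card := by exact_mod_cast hne.card_pos
  have hcw := caro_wei adj hsymm hirr ⌊N⌋₊ W (fun R hR hcl => Nat.le_floor (hW R hR hcl))
  have hcw' : ∑ i ∈ W, (1 : ℝ) / (W.filter (fun j => ¬ adj i j)).card ≤ N :=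
    hcw.trans (Nat.floor_le hN0.le)
  set x := 1 / N with hx
  have hx0 : 0 < x := by positivity
  have hxN : x * N = 1 := by rw [hx]; field_simp
  have hx1 : 2 * x ≤ 1 := by nlinarith
  have hxr : (r + 1) * x ≤ 1 := by nlinarith
  have h1x : 0 < 1 - x := by linarith
  have step : ∀ i ∈ W, ((W.filter (fun j => adj i j)).card : ℝ) ^ r
      ≤ (W.card : ℝ) ^ r * (1 - x) ^ r * (1 - r * x / (1 - x)
        + r * x ^ 2 / (1 - x) * W.card * (1 / (W.filter (fun j => ¬ adj i j)).card)) := by
    intro i hi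
    have hc : (0 : ℝ) < (W.filter (fun j => ¬ adj i j)).card := by
      exact_mod_cast Finset.card_pos.mpr ⟨i, by simp [hi, hirr i]⟩
    have hsum : ((W.filter (fun j => adj i j)).card : ℝ) + (W.filter (fun j => ¬ adj i j)).card
        = W.card := by exact_mod_cast Finset.card_filter_add_card_filter_not _
    have hd0 : (0 : ℝ) ≤ (W.filter (fun j => adj i j)).card := Nat.cast_nonneg _
    have := tangent_ineq r x ((W.filter (fun j => ¬ adj i j)).card / W.card) hx1 hxr
      (by positivity) (by rw [div_le_one hw]; linarith)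
    have e : ((W.filter (fun j => adj i j)).card : ℝ)
        = W.card * (1 - (W.filter (fun j => ¬ adj i j)).card / W.card) := by
      field_simp; linarith
    rw [e, mul_pow, mul_assoc]
    apply mul_le_mul_of_nonneg_left _ (by positivity)
    have e2 : r * x ^ 2 / (1 - x) * W.card * (1 / ((W.filter (fun j => ¬ adj i j)).card : ℝ))
        = r * x ^ 2 / (1 - x) * (1 / ((W.filter (fun j => ¬ adj i j)).card / W.card)) := by
      field_simp
    rw [e2]
    exact this
  refine (Finset.sum_le_sum step).trans ?_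
  rw [← Finset.mul_sum, Finset.sum_add_distrib, ← Finset.mul_sum, Finset.sum_const, nsmul_eq_mul]
  have hc : 0 ≤ r * x ^ 2 / (1 - x) * W.card := by positivity
  have := mul_le_mul_of_nonneg_left hcw' hc
  have e : (W.card : ℝ) * (1 - r * x / (1 - x)) + r * x ^ 2 / (1 - x) * W.card * N = W.card := by
    have : r * x ^ 2 / (1 - x) * W.card * N = r * x / (1 - x) * W.card * (x * N) := by ring
    rw [this, hxN]; ring
  calc _ ≤ (W.card : ℝ) ^ r * (1 - x) ^ r * W.card := by
        apply mul_le_mul_of_nonneg_left _ (by positivity)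
        linarith
    _ = _ := by ring

end graph

/-- The constant in the upper bound. -/
noncomputable def piU (t j : ℕ) : ℝ :=
  ∏ i ∈ range j, ((2 : ℝ) ^ t * 4 ^ j - 4 ^ i) / (2 ^ t * 4 ^ j - 1)

theorem piU_nonneg (t j : ℕ) : 0 ≤ piU t j := by
  apply Finset.prod_nonneg
  intro i hi
  have h1 : (1 : ℝ) ≤ 2 ^ t := one_le_pow₀ (by norm_num)
  have h2 : (4 : ℝ) ^ i ≤ 4 ^ j := pow_le_pow_right₀ (by norm_num) (Finset.mem_range.mp hi).le
  have h3 : (1 : ℝ) ≤ 4 ^ j := one_le_pow₀ (by norm_num)
  apply div_nonneg <;> nlinarith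

theorem piU_succ (t j : ℕ) :
    piU t (j + 1) = (1 - 1 / (((2 : ℝ) ^ t * 4 ^ (j + 1) - 1) / 3)) ^ j * piU t j := by
  have h1 : (1 : ℝ) ≤ 2 ^ t := one_le_pow₀ (by norm_num)
  have h3 : (1 : ℝ) ≤ 4 ^ j := one_le_pow₀ (by norm_num)
  have h4 : (2 : ℝ) ^ t * 4 ^ (j + 1) - 1 ≠ 0 := by rw [pow_succ]; nlinarith
  unfold piU
  rw [Finset.prod_range_succ', pow_zero, div_self h4, mul_one]
  rw [← Finset.card_range j, ← Finset.prod_const, Finset.card_range, ← Finset.prod_mul_distrib]
  apply Finset.prod_congr rfl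
  intro i hi
  have hj : j ≠ 0 := by have := Finset.mem_range.mp hi; omega
  have h5 : (1 : ℝ) < 4 ^ j := one_lt_pow₀ (by norm_num) hj
  have h6 : (2 : ℝ) ^ t * 4 ^ j - 1 ≠ 0 := by nlinarith
  have e : (2 : ℝ) ^ t * 4 ^ (j + 1) = 4 * (2 ^ t * 4 ^ j) := by ring
  rw [e] at h4 ⊢
  rw [pow_succ]
  generalize (2 : ℝ) ^ t * 4 ^ j = Q at h4 h6 ⊢
  generalize (4 : ℝ) ^ i = z
  have e2 : 1 - 1 / ((4 * Q - 1) / 3) = 4 * (Q - 1) / (4 * Q - 1) := by
    rw [one_div_div, eq_div_iff h4, sub_mul, div_mul_cancel₀ _ h4]; ring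
  rw [e2, div_mul_div_comm, div_eq_div_iff h4 (mul_ne_zero h4 h6)]
  ring

section count
variable {α : Type*} [DecidableEq α] (M : Finset α → Prop) [DecidablePred M]

theorem good_count (hM : ∀ A B, A ⊆ B → M B → M A) (k t : ℕ)
    (hrao : ∀ (C R : Finset α) (j : ℕ), C.card + j = k → Disjoint C R → M C →
      (∀ a ∈ R, ∀ b ∈ R, M (insert a (insert b C))) → 1 + 3 * R.card ≤ 2 ^ t * 4 ^ j) (j : ℕ) :
    ∀ C W : Finset α, C.card + j = k → Disjoint C W →
      (j.factorial : ℝ) * ((W.powersetCard j).filter (fun J => M (C ∪ J))).card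
        ≤ piU t j * (W.card : ℝ) ^ j := by
  induction j with
  | zero =>
    intro C W _ _
    simp only [Nat.factorial_zero, Nat.cast_one, one_mul, piU, range_zero, prod_empty, pow_zero,
      mul_one]
    have : ((W.powersetCard 0).filter (fun J => M (C ∪ J))).card ≤ 1 :=
      (Finset.card_filter_le _ _).trans (by simp)
    exact_mod_cast this
  | succ j ih =>
    intro C W hC hCW
    let adj : α → α → Prop := fun a b => a ≠ b ∧ M (insert a (insert b C))
    set S := (W.powersetCard (j + 1)).filter (fun J => M (C ∪ J)) with hS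
    have dc : (j + 1) * S.card = ∑ i ∈ W, (S.filter (fun J => i ∈ J)).card := by
      have h1 : ∑ J ∈ S, (W.filter (fun i => i ∈ J)).card
          = ∑ i ∈ W, (S.filter (fun J => i ∈ J)).card := by
        simp only [Finset.card_filter]
        exact Finset.sum_comm
      rw [← h1, mul_comm, ← smul_eq_mul, ← Finset.sum_const]
      apply Finset.sum_congr rfl
      intro J hJ
      have hJ' := Finset.mem_powersetCard.mp (Finset.mem_filter.mp hJ).1
      rw [← hJ'.2]
      congr 1
      ext x
      simp only [Finset.mem_filter]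
      exact ⟨fun h => ⟨hJ'.1 h, h⟩, fun h => h.2⟩
    have inj : ∀ i ∈ W, (S.filter (fun J => i ∈ J)).card
        ≤ (((W.filter (fun b => adj i b)).powersetCard j).filter
          (fun J => M (insert i C ∪ J))).card := by
      intro i _
      apply Finset.card_le_card_of_injOn (fun J => J.erase i)
      · intro J hJ
        simp only [Finset.coe_filter, Set.mem_ofPred_eq, hS, Finset.mem_filter,
          Finset.mem_powersetCard] at hJ ⊢
        obtain ⟨⟨⟨h1, h2⟩, h3⟩, h4⟩ := hJ
        refine ⟨⟨?_, by rw [Finset.card_erase_of_mem h4, h2]; rfl⟩, ?_⟩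
        · intro b hb
          obtain ⟨hb1, hb2⟩ := Finset.mem_erase.mp hb
          refine Finset.mem_filter.mpr ⟨h1 hb2, hb1.symm, hM _ _ ?_ h3⟩
          intro x hx
          simp only [Finset.mem_insert, Finset.mem_union] at hx ⊢
          rcases hx with rfl | rfl | hx
          · exact Or.inr h4
          · exact Or.inr hb2
          · exact Or.inl hx
        · refine hM _ _ ?_ h3
          intro x hx
          simp only [Finset.mem_insert, Finset.mem_union, Finset.mem_erase] at hx ⊢
          rcases hx with (rfl | hx) | hx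
          · exact Or.inr h4
          · exact Or.inl hx
          · exact Or.inr hx.2
      · intro J hJ J' hJ' h
        simp only [Finset.coe_filter, Set.mem_ofPred_eq] at hJ hJ'
        rw [← Finset.insert_erase hJ.2, ← Finset.insert_erase hJ'.2]
        simp only at h
        rw [h]
    have each : ∀ i ∈ W, (j.factorial : ℝ) * (S.filter (fun J => i ∈ J)).card
        ≤ piU t j * ((W.filter (fun b => adj i b)).card : ℝ) ^ j := by
      intro i hi
      have hiC : i ∉ C := fun h => Finset.disjoint_left.mp hCW h hi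
      refine le_trans ?_ (ih (insert i C) (W.filter (fun b => adj i b))
        (by rw [Finset.card_insert_of_notMem hiC]; omega) ?_)
      · apply mul_le_mul_of_nonneg_left _ (Nat.cast_nonneg _)
        exact_mod_cast inj i hi
      · rw [Finset.disjoint_left]
        intro x hx hx'
        obtain ⟨h1, h2⟩ := Finset.mem_filter.mp hx'
        rcases Finset.mem_insert.mp hx with rfl | hx
        · exact h2.1 rfl
        · exact Finset.disjoint_left.mp hCW hx h1
    have tot : ((j + 1).factorial : ℝ) * S.card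
        ≤ piU t j * ∑ i ∈ W, ((W.filter (fun b => adj i b)).card : ℝ) ^ j := by
      rw [Finset.mul_sum]
      refine le_trans (le_of_eq ?_) (Finset.sum_le_sum each)
      rw [← Finset.mul_sum, Nat.factorial_succ]
      have : ((j + 1 : ℕ) : ℝ) * S.card = ∑ i ∈ W, ((S.filter (fun J => i ∈ J)).card : ℝ) := by
        exact_mod_cast dc
      rw [← this]
      push_cast
      ring
    refine tot.trans ?_
    rcases Nat.eq_zero_or_pos j with rfl | hj
    · simp [piU_succ]
    have h1 : (1 : ℝ) ≤ 2 ^ t := one_le_pow₀ (by norm_num)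
    have h2 : 1 + (j + 1 : ℕ) * (3 : ℝ) ≤ (1 + 3) ^ (j + 1) := one_add_mul_le_pow (by norm_num) _
    have h3 : (1 : ℝ) ≤ j := by exact_mod_cast hj
    have h4 : (4 : ℝ) ^ (j + 1) ≤ 2 ^ t * 4 ^ (j + 1) := le_mul_of_one_le_left (by positivity) h1
    norm_num at h2
    have hN : (j : ℝ) + 1 ≤ ((2 : ℝ) ^ t * 4 ^ (j + 1) - 1) / 3 := by linarith
    have := deg_pow_sum adj (fun a b h => ⟨h.1.symm, by rw [Finset.insert_comm]; exact h.2⟩)
      (fun a h => h.1 rfl) (((2 : ℝ) ^ t * 4 ^ (j + 1) - 1) / 3) j (by linarith) hN W (by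
        intro R hR hcl
        by_cases hR1 : R.card ≤ 1
        · have : (R.card : ℝ) ≤ 1 := by exact_mod_cast hR1
          linarith
        · push Not at hR1
          have hall : ∀ a ∈ R, ∀ b ∈ R, M (insert a (insert b C)) := by
            intro a ha b hb
            by_cases hab : a = b
            · subst hab
              obtain ⟨c, hc, hca⟩ := Finset.exists_mem_ne hR1 a
              refine hM _ _ ?_ (hcl a ha c hc hca.symm).2
              intro x hx
              simp only [Finset.mem_insert] at hx ⊢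
              tauto
            · exact (hcl a ha b hb hab).2
          obtain ⟨a, ha⟩ := Finset.card_pos.mp (lt_trans zero_lt_one hR1)
          have := hrao C R (j + 1) hC (hCW.mono_right hR)
            (hM _ _ (by intro x hx; simp [hx]) (hall a ha a ha)) hall
          have h5 : (1 : ℝ) + 3 * R.card ≤ 2 ^ t * 4 ^ (j + 1) := by exact_mod_cast this
          linarith)
    rw [piU_succ]
    calc _ ≤ piU t j * ((W.card : ℝ) ^ (j + 1)
          * (1 - 1 / (((2 : ℝ) ^ t * 4 ^ (j + 1) - 1) / 3)) ^ j) :=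
          mul_le_mul_of_nonneg_left this (piU_nonneg t j)
      _ = _ := by ring

theorem total_count [Fintype α] (hM : ∀ A B, A ⊆ B → M B → M A) (k t : ℕ)
    (hrao : ∀ (C R : Finset α) (j : ℕ), C.card + j = k → Disjoint C R → M C →
      (∀ a ∈ R, ∀ b ∈ R, M (insert a (insert b C))) → 1 + 3 * R.card ≤ 2 ^ t * 4 ^ j)
    (c j : ℕ) (hcj : c + j = k) :
    (((univ.powersetCard k).filter M).card : ℝ) * k.choose c * j.factorial
      ≤ (Fintype.card α).choose c * (piU t j * ((Fintype.card α - c : ℕ) : ℝ) ^ j) := by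
  set S := (univ.powersetCard k).filter M with hS
  have dc : S.card * k.choose c
      = ∑ C ∈ (univ : Finset α).powersetCard c, (S.filter (fun A => C ⊆ A)).card := by
    have h1 : ∑ A ∈ S, (((univ : Finset α).powersetCard c).filter (fun C => C ⊆ A)).card
        = ∑ C ∈ (univ : Finset α).powersetCard c, (S.filter (fun A => C ⊆ A)).card := by
      simp only [Finset.card_filter]
      exact Finset.sum_comm
    rw [← h1, ← smul_eq_mul, ← Finset.sum_const]
    apply Finset.sum_congr rfl
    intro A hA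
    have hA' := Finset.mem_powersetCard.mp (Finset.mem_filter.mp hA).1
    rw [← hA'.2, ← Finset.card_powersetCard]
    congr 1
    ext C
    simp only [Finset.mem_filter, Finset.mem_powersetCard, Finset.subset_univ, true_and]
    tauto
  have each : ∀ C ∈ (univ : Finset α).powersetCard c,
      (j.factorial : ℝ) * (S.filter (fun A => C ⊆ A)).card
        ≤ piU t j * ((Fintype.card α - c : ℕ) : ℝ) ^ j := by
    intro C hC
    have hCc := (Finset.mem_powersetCard.mp hC).2
    have := good_count M hM k t hrao j C Cᶜ (by omega) disjoint_compl_right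
    rw [Finset.card_compl, hCc] at this
    refine le_trans ?_ this
    apply mul_le_mul_of_nonneg_left _ (Nat.cast_nonneg _)
    have : (S.filter (fun A => C ⊆ A)).card
        ≤ ((Cᶜ.powersetCard j).filter (fun J => M (C ∪ J))).card := by
      apply Finset.card_le_card_of_injOn (fun A => A \ C)
      · intro A hA
        simp only [Finset.coe_filter, Set.mem_ofPred_eq, hS, Finset.mem_filter,
          Finset.mem_powersetCard] at hA ⊢
        obtain ⟨⟨⟨-, h2⟩, h3⟩, h4⟩ := hA
        refine ⟨⟨?_, ?_⟩, ?_⟩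
        · intro x hx
          simpa using (Finset.mem_sdiff.mp hx).2
        · rw [Finset.card_sdiff_of_subset h4]; omega
        · rwa [Finset.union_sdiff_of_subset h4]
      · intro A hA A' hA' h
        simp only [Finset.coe_filter, Set.mem_ofPred_eq] at hA hA'
        rw [← Finset.union_sdiff_of_subset hA.2, ← Finset.union_sdiff_of_subset hA'.2]
        simp only at h
        rw [h]
    exact_mod_cast this
  have := Finset.sum_le_sum each
  rw [← Finset.mul_sum, Finset.sum_const, Finset.card_powersetCard, Finset.card_univ,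
    nsmul_eq_mul] at this
  have dc' : (S.card : ℝ) * k.choose c
      = ∑ C ∈ (univ : Finset α).powersetCard c, ((S.filter (fun A => C ⊆ A)).card : ℝ) := by
    exact_mod_cast dc
  rw [dc', mul_comm]
  exact this

end count

end Pool.Agent.MP_450e1b_mp

end

-- part MP_450e1b_mp.Upper
section

/-
The upper bound for the density of maximally mixed sets.
-/

namespace Pool.Agent.MP_450e1b_mp

open Finset Filter Topology

open Classical in
theorem mixedCount_eq {n : ℕ} (ψ : (Fin n → Z2) → ℂ) (hψ : ∑ x, ‖ψ x‖ ^ 2 = 1) (k : ℕ) :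
    mixedCount ψ k = ((univ.powersetCard k).filter (PM ψ)).card := by
  unfold mixedCount
  rw [← Set.ncard_coe_finset]
  congr 1
  ext A
  simp [maxMixed_iff ψ hψ, Finset.mem_powersetCard]

theorem bdd_Qex (n k : ℕ) : BddAbove
    {m : ℕ | ∃ ψ : (Fin n → ZMod 2) → ℂ, ∑ x, ‖ψ x‖ ^ 2 = 1 ∧ m = mixedCount ψ k} := by
  classical
  refine ⟨n.choose k, ?_⟩
  rintro m ⟨ψ, hψ, rfl⟩
  rw [mixedCount_eq ψ hψ]
  exact (Finset.card_filter_le _ _).trans (by simp)

theorem le_Qex {n : ℕ} (ψ : (Fin n → Z2) → ℂ) (hψ : ∑ x, ‖ψ x‖ ^ 2 = 1) (k : ℕ) :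
    mixedCount ψ k ≤ Qex n k := le_csSup (bdd_Qex n k) ⟨ψ, hψ, rfl⟩

theorem exists_Qex (n k : ℕ) :
    ∃ ψ : (Fin n → Z2) → ℂ, ∑ x, ‖ψ x‖ ^ 2 = 1 ∧ Qex n k = mixedCount ψ k := by
  apply Nat.sSup_mem _ (bdd_Qex n k)
  obtain ⟨ψ, hψ, -⟩ := exists_stab_state (ι := Fin n) ∅ (by simp)
  exact ⟨_, ψ, hψ, rfl⟩

theorem Qex_upper (k t c j : ℕ) (hcj : c + j = k) :
    (Qex (2 * k + t) k : ℝ) / (2 * k + t).choose k
      ≤ piU t j * (((k + t + j : ℕ) : ℝ) / (k + t + 1 : ℕ)) ^ j := by
  classical
  obtain ⟨ψ, hψ, hQ⟩ := exists_Qex (2 * k + t) k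
  rw [hQ, mixedCount_eq ψ hψ]
  have h := total_count (PM ψ) (fun A B hAB h => h.mono hAB) k t (by
    intro C R j hC hd hM hR
    have h1 := rao ψ hψ C R hd hM hR
    have e : 2 ^ (2 * k + t) = 4 ^ C.card * (2 ^ t * 4 ^ j) := by
      have e4 : ∀ a : ℕ, 4 ^ a = 2 ^ (2 * a) := fun a => by rw [pow_mul]; norm_num
      rw [e4, e4, ← pow_add, ← pow_add]
      congr 1
      omega
    rw [e] at h1
    exact Nat.le_of_mul_le_mul_left h1 (by positivity)) c j hcj
  rw [Fintype.card_fin] at h
  have e1 : 2 * k + t - c = k + t + j := by omega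
  have e2 : k - c = j := by omega
  have hc := Nat.choose_mul (n := 2 * k + t) (k := k) (s := c) (by omega)
  rw [e1, e2] at hc
  rw [e1] at h
  have hd : (k + t + 1) ^ j ≤ (k + t + j).choose j * j.factorial := by
    rw [mul_comm, ← Nat.descFactorial_eq_factorial_mul_choose]
    have := Nat.pow_sub_le_descFactorial (k + t + j) j
    rwa [show k + t + j + 1 - j = k + t + 1 by omega] at this
  have hp1 : (0 : ℝ) < (2 * k + t).choose k := by exact_mod_cast Nat.choose_pos (by omega)
  have hp2 : (0 : ℝ) < (2 * k + t).choose c := by exact_mod_cast Nat.choose_pos (by omega)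
  have hp3 : (0 : ℝ) < ((k + t + 1 : ℕ) : ℝ) ^ j := by positivity
  have hc' : ((2 * k + t).choose k : ℝ) * k.choose c
      = (2 * k + t).choose c * (k + t + j).choose j := by exact_mod_cast hc
  have hd' : ((k + t + 1 : ℕ) : ℝ) ^ j ≤ (k + t + j).choose j * j.factorial := by exact_mod_cast hd
  set m : ℝ := (((univ.powersetCard k).filter (PM ψ)).card : ℝ)
  have hm : 0 ≤ m := Nat.cast_nonneg _
  rw [div_pow, ← mul_div_assoc, div_le_div_iff₀ hp1 hp3]
  apply le_of_mul_le_mul_left _ hp2
  calc ((2 * k + t).choose c : ℝ) * (m * ((k + t + 1 : ℕ) : ℝ) ^ j)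
      ≤ (2 * k + t).choose c * (m * ((k + t + j).choose j * j.factorial)) := by gcongr
    _ = m * ((2 * k + t).choose c * (k + t + j).choose j) * j.factorial := by ring
    _ = (m * k.choose c * j.factorial) * (2 * k + t).choose k := by rw [← hc']; ring
    _ ≤ ((2 * k + t).choose c * (piU t j * ((k + t + j : ℕ) : ℝ) ^ j)) * (2 * k + t).choose k := by
        gcongr
    _ = _ := by ring

end Pool.Agent.MP_450e1b_mp

end
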