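import Mathlib
import Pool.Agent.MP_450e1b_mp.Mg.Upper

/-
Graph states: a verified check that a graph state is maximally mixed on a set.
-/

namespace Pool.Agent.MP_450e1b_mp

open Finset

/-- The bits of a natural number. -/
def bits {n : ℕ} (m : ℕ) : Fin n → Z2 := fun j => if m.testBit j then 1 else 0

theorem bits_xor {n : ℕ} (a b : ℕ) : (bits (a ^^^ b) : Fin n → Z2) = bits a + bits b := by
  funext j
  simp only [bits, Nat.testBit_xor, Pi.add_apply]
  cases a.testBit j <;> cases b.testBit j <;> decide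

/-- Checks that every nonzero combination of the rows in `l` meets the mask `c`. -/
def chk {n : ℕ} (adj : Fin n → ℕ) (c : ℕ) : List (Fin n) → ℕ → Bool → Bool
  | [], acc, nz => !nz || (acc &&& c != 0)
  | i :: l, acc, nz => chk adj c l acc nz && chk adj c l (acc ^^^ adj i) true

theorem chk_sound {n : ℕ} (adj : Fin n → ℕ) (c : ℕ) (hc : c < 2 ^ n) (s : Fin n → Z2)
    (l : List (Fin n)) : ∀ (acc : ℕ) (nz : Bool), chk adj c l acc nz = true →
      (nz = true ∨ ∃ i ∈ l, s i ≠ 0) →
      ∃ j : Fin n, c.testBit j = true ∧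
        bits acc j + (l.map (fun i => s i * bits (adj i) j)).sum ≠ 0 := by
  induction l with
  | nil =>
    intro acc nz h hnz
    have hnz' : nz = true := by simpa using hnz
    simp only [chk, hnz', Bool.not_true, Bool.false_or, bne_iff_ne] at h
    obtain ⟨j, hj⟩ := Nat.exists_testBit_of_ne_zero h
    rw [Nat.testBit_and, Bool.and_eq_true] at hj
    have hjn : j < n := by
      by_contra hcon
      rw [Nat.testBit_eq_false_of_lt (lt_of_lt_of_le hc
        (Nat.pow_le_pow_right (by norm_num) (not_lt.mp hcon)))] at hj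
      exact absurd hj.2 (by simp)
    exact ⟨⟨j, hjn⟩, hj.2, by simp [bits, hj.1]⟩
  | cons i l ih =>
    intro acc nz h hnz
    simp only [chk, Bool.and_eq_true] at h
    rcases z2_cases (s i) with h0 | h1
    · obtain ⟨j, hj1, hj2⟩ := ih acc nz h.1 (by
        rcases hnz with h' | ⟨i', hi', hs⟩
        · exact Or.inl h'
        · rcases List.mem_cons.mp hi' with rfl | hi'
          · exact absurd h0 hs
          · exact Or.inr ⟨i', hi', hs⟩)
      exact ⟨j, hj1, by simpa [h0] using hj2⟩
    · obtain ⟨j, hj1, hj2⟩ := ih _ true h.2 (Or.inl rfl)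
      refine ⟨j, hj1, ?_⟩
      rw [bits_xor] at hj2
      simpa [h1, add_assoc] using hj2

/-- The mask of the complement of a list of vertices. -/
def cmask {n : ℕ} (l : List (Fin n)) : ℕ := l.foldr (fun i m => m &&& ((2 ^ n - 1) ^^^ 2 ^ i.val))
  (2 ^ n - 1)

theorem cmask_lt {n : ℕ} (l : List (Fin n)) : cmask l < 2 ^ n := by
  induction l with
  | nil => simp [cmask]
  | cons i l ih => exact lt_of_le_of_lt Nat.and_le_left ih

theorem cmask_spec {n : ℕ} (l : List (Fin n)) (j : Fin n) (h : (cmask l).testBit j = true) :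
    j ∉ l := by
  induction l with
  | nil => simp
  | cons i l ih =>
    have h' : ((cmask l) &&& ((2 ^ n - 1) ^^^ 2 ^ i.val)).testBit j = true := h
    rw [Nat.testBit_and, Bool.and_eq_true] at h'
    intro hj
    rcases List.mem_cons.mp hj with rfl | hj
    · simp [Nat.testBit_xor, Nat.testBit_two_pow_sub_one] at h'
    · exact ih h'.1 hj

theorem graph_state {n : ℕ} (adj : Fin n → ℕ)
    (hsym : ∀ i j : Fin n, (adj i).testBit j = (adj j).testBit i) :
    ∃ ψ : (Fin n → Z2) → ℂ, ∑ x, ‖ψ x‖ ^ 2 = 1 ∧ ∀ l : List (Fin n), l.Nodup →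
      chk adj (cmask l) l 0 false = true → PM ψ l.toFinset := by
  classical
  have hb : ∀ i j : Fin n, bits (adj i) j = bits (adj j) i := fun i j => by simp [bits, hsym i j]
  have hsp : ∀ (j : Fin n) (s t : Fin n → Z2),
      sp ((Pi.single j 1 : Fin n → Z2), bits (adj j)) (s, t) = t j + ∑ i, s i * bits (adj i) j := by
    intro j s t
    simp only [sp, dot, Pi.single_apply, mul_ite, mul_one, mul_zero, Finset.sum_ite_eq',
      Finset.mem_univ, if_true]
    congr 1
    exact Finset.sum_congr rfl fun i _ => by rw [hb i j, mul_comm]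
  obtain ⟨ψ, hψ, h⟩ := exists_stab_state
    (univ.image (fun j : Fin n => ((Pi.single j 1 : Fin n → Z2), bits (adj j)))) (by
      intro p hp q hq
      obtain ⟨i, -, rfl⟩ := Finset.mem_image.mp hp
      obtain ⟨j, -, rfl⟩ := Finset.mem_image.mp hq
      rw [hsp]
      simp only [Pi.single_apply, ite_mul, one_mul, zero_mul, Finset.sum_ite_eq', Finset.mem_univ,
        if_true]
      exact z2_add_self _)
  refine ⟨ψ, hψ, fun l hl hchk s t hst hne => ?_⟩
  suffices ∃ j, t j + ∑ i, s i * bits (adj i) j ≠ 0 by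
    obtain ⟨j, hj⟩ := this
    apply h (s, t) ⟨_, Finset.mem_image.mpr ⟨j, Finset.mem_univ _, rfl⟩, ?_⟩
    rw [hsp]
    exact (z2_cases _).resolve_left hj
  by_cases hs : s = 0
  · obtain ⟨j, hj⟩ := Function.ne_iff.mp (hne.resolve_left (by simp [hs]))
    exact ⟨j, by simpa [hs] using hj⟩
  · obtain ⟨i, hi⟩ := Function.ne_iff.mp hs
    have hil : i ∈ l := by
      by_contra hcon
      exact hi (hst i (by simpa using hcon)).1
    obtain ⟨j, hj1, hj2⟩ := chk_sound adj _ (cmask_lt l) s l 0 false hchk (Or.inr ⟨i, hil, hi⟩)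
    have hjl := cmask_spec l j hj1
    refine ⟨j, ?_⟩
    rw [(hst j (by simpa using hjl)).2, zero_add]
    rw [← List.sum_toFinset _ hl] at hj2
    rw [← Finset.sum_subset (Finset.subset_univ l.toFinset) (fun i _ hi => by
      rw [(hst i hi).1, zero_mul])]
    simpa [bits] using hj2

theorem le_Qex_of_graph {n : ℕ} (adj : Fin n → ℕ)
    (hsym : ∀ i j : Fin n, (adj i).testBit j = (adj j).testBit i) (k : ℕ) :
    (((List.finRange n).sublistsLen k).filter (fun l => chk adj (cmask l) l 0 false)).length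
      ≤ Qex n k := by
  classical
  obtain ⟨ψ, hψ, h⟩ := graph_state adj hsym
  refine le_trans ?_ (le_Qex ψ hψ k)
  rw [mixedCount_eq ψ hψ]
  set L := ((List.finRange n).sublistsLen k).filter (fun l => chk adj (cmask l) l 0 false)
  have hnd := List.nodup_finRange n
  have hmem : ∀ l ∈ L, l.Sublist (List.finRange n) ∧ l.length = k ∧
      chk adj (cmask l) l 0 false = true := by
    intro l hl
    obtain ⟨h1, h2⟩ := List.mem_filter.mp hl
    obtain ⟨h3, h4⟩ := List.mem_sublistsLen.mp h1
    exact ⟨h3, h4, h2⟩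
  have hL : (L.map List.toFinset).Nodup := by
    apply List.Nodup.map_on _ ((List.nodup_sublistsLen k hnd).filter _)
    intro a ha b hb hab
    have hp := List.pairwise_lt_finRange n
    exact List.Perm.eq_of_pairwise (fun x y _ _ h1 h2 => absurd h1 (lt_asymm h2))
      (hp.sublist (hmem a ha).1) (hp.sublist (hmem b hb).1)
      (List.perm_of_nodup_nodup_toFinset_eq ((hmem a ha).1.nodup hnd) ((hmem b hb).1.nodup hnd)
      hab)
  rw [← List.length_map List.toFinset, ← List.toFinset_card_of_nodup hL]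
  apply Finset.card_le_card
  intro A hA
  obtain ⟨l, hl, rfl⟩ := List.mem_map.mp (List.mem_toFinset.mp hA)
  obtain ⟨h1, h2, h3⟩ := hmem l hl
  refine Finset.mem_filter.mpr ⟨Finset.mem_powersetCard.mpr ⟨Finset.subset_univ _, ?_⟩,
    h l (h1.nodup hnd) h3⟩
  rw [List.toFinset_card_of_nodup (h1.nodup hnd), h2]

/-- Adjacency masks of a graph on twelve vertices. -/
def adj12 : Fin 12 → ℕ := ![2826, 2765, 2274, 227, 1888, 1500, 62, 1070, 3121, 3091, 944, 775]

theorem Qex_12_6 : 720 ≤ Qex 12 6 := by
  have h := le_Qex_of_graph adj12 (by decide +kernel) 6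
  have e : (((List.finRange 12).sublistsLen 6).filter
      (fun l => chk adj12 (cmask l) l 0 false)).length = 720 := by decide +kernel
  rwa [e] at h

end Pool.Agent.MP_450e1b_mp
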