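import Mathlib

-- part MP_450e1b_mp.H55.Basic
section

/-
Definitions for the odd case of the density of maximally mixed sets.
-/

namespace Pool.Agent.MP_450e1b_mp.H55

open Finset

/-- Total weight of the subsets of `D`. -/
noncomputable def NW {n : ℕ} (w : Finset (Fin n) → ℝ) (D : Finset (Fin n)) : ℝ :=
  ∑ S ∈ D.powerset, w S

/-- Weight systems: what a pure state of `n` qubits induces on supports of Pauli words. -/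
structure WS {n : ℕ} (w : Finset (Fin n) → ℝ) : Prop where
  nonneg : ∀ S, 0 ≤ w S
  empty : w ∅ = 1
  dual : ∀ D, NW w Dᶜ * 4 ^ D.card = 2 ^ n * NW w D

/-- Average over `m`-element subsets. -/
noncomputable def avg (n m : ℕ) (f : Finset (Fin n) → ℝ) : ℝ :=
  (∑ D ∈ powersetCard m univ, f D) / n.choose m

/-- Average over pairs `D ⊆ D ∪ {j}` with `|D| = m`, `j ∉ D`. -/
noncomputable def pavg (n m : ℕ) (g : Finset (Fin n) → Finset (Fin n) → ℝ) : ℝ :=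
  (∑ D ∈ powersetCard m univ, ∑ j ∈ Dᶜ, g D (insert j D)) / (n.choose m * ((n : ℝ) - m))

open Classical in
/-- Dual certificates for real-valued chains. -/
def RealCert (u : ℕ) (c : ℝ) : Prop :=
  ∀ ε > (0 : ℝ), ∃ T : ℕ, u < T ∧ ∀ ε₁ > (0 : ℝ), ∃ (C : ℝ) (V lam : ℝ → ℝ → ℝ),
    (∀ N M, 1 ≤ N → 1 ≤ M → 0 ≤ lam N M ∧ lam N M * M ≤ C) ∧
    (∀ N M, V M N = -V N M) ∧
    (∀ N, 1 ≤ N → V N (2 ^ (2 * T + 1) * N) ≤ 1 + ε) ∧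
    ∀ (i : ℕ) (N M N' M' : ℝ), 1 ≤ N → N ≤ N' → N' ≤ 4 * N → 1 ≤ M' →
      M * 4 ^ i = 2 ^ (2 * T + 1) * N → M' * 4 ^ (i + 1) = 2 ^ (2 * T + 1) * N' →
      -ε₁ ≤ V N M - V N' M' - (if N' = 1 ∧ M' = 2 ^ (2 * u + 1) then c else 0)
        - (if M = 1 ∧ N = 2 ^ (2 * u + 1) then c else 0)
        - lam N M * (M' - 1 - (M - 1) / 4) - lam M' N' * (N - 1 - (N' - 1) / 4)

/-- Normalised backward term between the cells `x` and `x₁`. -/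
noncomputable def bf (x x₁ : ℕ) (v v' : ℝ) : ℝ :=
  if x₁ = 0 then 0
  else if x₁ ≤ 2 then
    if x = 0 then -(1 - (1 / 2) ^ x₁) / 4
    else if x = x₁ then 3 / 4 * (1 - (1 / 2) ^ x₁) - (v' - v)
    else ((2 * v - 1) * (5 - 4 * v') - 3 / 4) / 4
  else v * 2 ^ x / 2 ^ x₁ - v' / 4 - 3 / 4 * (1 / 2) ^ x₁

/-- The slack of a lattice certificate on a transition between cells. -/
noncomputable def Gl (V l : ℕ → ℕ → ℝ) (u : ℕ) (c : ℝ) (x y x₁ y₁ : ℕ) (v v' : ℝ) : ℝ :=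
  V x y - V x₁ y₁ - (if x₁ = 0 ∧ y₁ = 2 * u + 1 then c else 0)
    - (if y = 0 ∧ x = 2 * u + 1 then c else 0)
    - l x y * bf y₁ y v' v - l y₁ x₁ * bf x x₁ v v'

/-- Admissible positions inside the cells. -/
def Adm (x y x₁ y₁ : ℕ) (v v' : ℝ) : Prop :=
  1 / 2 ≤ v ∧ v ≤ 1 ∧ 1 / 2 ≤ v' ∧ v' ≤ 1 ∧ (x = 0 ∨ y = 0 → v = 1) ∧ (x₁ = 0 ∨ y₁ = 0 → v' = 1) ∧
    (x₁ = x → v ≤ v') ∧ (x₁ = x + 2 → v' ≤ v)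

/-- Transitions between cells. -/
def Step (x y x₁ y₁ : ℕ) : Prop :=
  Odd (x + y) ∧ x ≤ x₁ ∧ x₁ ≤ x + 2 ∧ y₁ + 2 + x = y + x₁

/-- Dual certificates on the lattice of cells. -/
def LatCert (u : ℕ) (c : ℝ) : Prop :=
  ∃ (C : ℝ) (V l : ℕ → ℕ → ℝ), (∀ x y, V y x = -V x y) ∧ (∀ x y, 0 ≤ l x y ∧ l x y ≤ C) ∧
    (∀ ε > (0 : ℝ), ∃ T, u < T ∧ ∀ x, V x (x + (2 * T + 1)) ≤ 1 + ε) ∧
    ∀ x y x₁ y₁ v v', Step x y x₁ y₁ → Adm x y x₁ y₁ v v' → 0 ≤ Gl V l u c x y x₁ y₁ v v'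

/-- The potential in terms of the edge values. -/
noncomputable def VA (D R : ℕ → ℕ → ℝ) (a b : ℕ) : ℝ :=
  D a b - (1 / 4) ^ b / 2 * (D a b - R a b)

/-- Certificates in terms of edge values. -/
structure DRCert (u : ℕ) (c : ℝ) (D R : ℕ → ℕ → ℝ) : Prop where
  eq0 : ∀ b, VA D R 0 b + (if b = u then c else 0) = D 0 (b + 1)
  eqs : ∀ a b, VA D R (a + 1) b
    = (1 / 4) ^ (a + 1) * D (a + 1) (b + 1) + (1 - (1 / 4) ^ (a + 1)) * R a b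
  cross : ∀ a b, 2 * D a b + R a b + 2 * D b a + R b a = 0
  e0 : ∀ b, R 0 b ≤ D 0 b
  th : ∀ a b, D (a + 1) (b + 1) - R (a + 1) (b + 1) ≤ 2 * (D (b + 1) (a + 1) - R (b + 1) (a + 1))
  eh : ∀ a b, D (a + 1) (b + 1) - R (a + 1) (b + 1) ≤ 4 * (D (a + 1) (b + 1) - R a b)
  he : ∀ a b, D (a + 2) (b + 1) - R (a + 1) b ≤ 4 * (D (a + 1) b - R (a + 1) b)
  d0 : ∀ a b, 2 * R a b + 2 * R b a + D (a + 1) (b + 1) + D (b + 1) (a + 1) ≤ 0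
  d1 : ∀ a b, 2 * R a (b + 1) + R (b + 1) a + D (b + 2) (a + 1) ≤ 0
  d2 : ∀ a, R a 0 + D 1 (a + 1) ≤ 0
  bdd : ∃ C, ∀ a b, |D a b| ≤ C ∧ |R a b| ≤ C
  start : ∀ ε > (0 : ℝ), ∃ T, u < T ∧ ∀ a, VA D R a (a + T) ≤ 1 + ε ∧
    -VA D R (a + T + 1) a ≤ 1 + ε

end Pool.Agent.MP_450e1b_mp.H55

end

-- part MP_450e1b_mp.H55.Forms
section

/-
Edge values generated by an antisymmetric stream function.
-/

namespace Pool.Agent.MP_450e1b_mp.H55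

noncomputable def Dop (p r : ℝ) (f : ℕ → ℕ → ℝ) : ℝ :=
  ((256 - 256 * p - 256 * r + 256 * p * r) * f 0 0 + (128 - 320 * p + 192 * p ^ 2) * f 0 1 +
    (-128 * r + 128 * r ^ 2) * f 1 0 + (-16 + 16 * p - 8 * r - 32 * p * r) * f 1 1 + (-8 + 56 * p
    - 48 * p ^ 2) * f 1 2 + (8 * r - 28 * r ^ 2) * f 2 1 + (6 * r - 8 * p * r) * f 2 2 + (-r ^ 2)
    * f 3 2) / 360

noncomputable def Rop (p r : ℝ) (f : ℕ → ℕ → ℝ) : ℝ :=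
  ((256 - 384 * r + 128 * r ^ 2) * f 1 0 + (128 - 112 * p - 64 * r + 40 * p * r) * f 1 1 + (-32
    * p + 12 * p ^ 2) * f 1 2 + (-16 + 64 * r - 28 * r ^ 2) * f 2 1 + (-8 + 16 * p + 4 * r - 19 /
    2 * p * r) * f 2 2 + (2 * p - 3 * p ^ 2) * f 2 3 + (2 * r - r ^ 2) * f 3 2 + (-1 / 8 * p * r)
    * f 3 3) / 360

theorem op_eqs (p r : ℝ) (f : ℕ → ℕ → ℝ) :
    Dop (p / 4) r (fun i j => f (1 + i) j)
      - r / 2 * (Dop (p / 4) r (fun i j => f (1 + i) j) - Rop (p / 4) r (fun i j => f (1 + i) j))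
      = p / 4 * Dop (p / 4) (r / 4) (fun i j => f (1 + i) (1 + j)) + (1 - p / 4) * Rop p r f := by
  simp only [Dop, Rop, Nat.reduceAdd, add_zero]
  ring

theorem op_eq0 (r : ℝ) (f : ℕ → ℕ → ℝ) :
    Dop 1 r f - r / 2 * (Dop 1 r f - Rop 1 r f) = Dop 1 (r / 4) (fun i j => f i (1 + j)) := by
  simp only [Dop, Rop, Nat.reduceAdd, add_zero]
  ring

theorem op_cross (p r : ℝ) (f : ℕ → ℕ → ℝ) :
    2 * Dop p r f + Rop p r f + 2 * Dop r p (fun i j => -f j i) + Rop r p (fun i j => -f j i)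
      = 0 := by
  simp only [Dop, Rop]
  ring

theorem abs_mul_le' {c x C B : ℝ} (hc : |c| ≤ C) (hx : |x| ≤ B) : |c * x| ≤ C * B := by
  rw [abs_mul]
  exact mul_le_mul hc hx (abs_nonneg _) ((abs_nonneg _).trans hc)

theorem op_bound {p r B : ℝ} {f : ℕ → ℕ → ℝ} (hp0 : 0 ≤ p) (hp1 : p ≤ 1) (hr0 : 0 ≤ r)
    (hr1 : r ≤ 1) (hf : ∀ i j, |f i j| ≤ B) : |Dop p r f| ≤ 30 * B ∧ |Rop p r f| ≤ 30 * B := by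
  have hpr0 : 0 ≤ p * r := mul_nonneg hp0 hr0
  have hpr1 : p * r ≤ 1 := mul_le_one₀ hp1 hr0 hr1
  have hp2 : 0 ≤ p ^ 2 ∧ p ^ 2 ≤ 1 := ⟨by positivity, pow_le_one₀ hp0 hp1⟩
  have hr2 : 0 ≤ r ^ 2 ∧ r ^ 2 ≤ 1 := ⟨by positivity, pow_le_one₀ hr0 hr1⟩
  have hB : 0 ≤ B := (abs_nonneg _).trans (hf 0 0)
  have key : ∀ (c : ℝ) (i j : ℕ), -1024 ≤ c → c ≤ 1024 →
      -(1024 * B) ≤ c * f i j ∧ c * f i j ≤ 1024 * B := fun c i j h1 h2 =>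
    abs_le.mp (abs_mul_le' (abs_le.mpr ⟨h1, h2⟩) (hf i j))
  constructor
  · unfold Dop
    have a1 := key (256 - 256 * p - 256 * r + 256 * p * r) 0 0 (by nlinarith) (by nlinarith)
    have a2 := key (128 - 320 * p + 192 * p ^ 2) 0 1 (by linarith) (by linarith)
    have a3 := key (-128 * r + 128 * r ^ 2) 1 0 (by linarith) (by linarith)
    have a4 := key (-16 + 16 * p - 8 * r - 32 * p * r) 1 1 (by nlinarith) (by nlinarith)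
    have a5 := key (-8 + 56 * p - 48 * p ^ 2) 1 2 (by linarith) (by linarith)
    have a6 := key (8 * r - 28 * r ^ 2) 2 1 (by linarith) (by linarith)
    have a7 := key (6 * r - 8 * p * r) 2 2 (by nlinarith) (by nlinarith)
    have a8 := key (-r ^ 2) 3 2 (by linarith) (by linarith)
    rw [abs_le]
    constructor <;> linarith [a1.1, a1.2, a2.1, a2.2, a3.1, a3.2, a4.1, a4.2, a5.1, a5.2, a6.1,
      a6.2, a7.1, a7.2, a8.1, a8.2]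
  · unfold Rop
    have a1 := key (256 - 384 * r + 128 * r ^ 2) 1 0 (by linarith) (by linarith)
    have a2 := key (128 - 112 * p - 64 * r + 40 * p * r) 1 1 (by nlinarith) (by nlinarith)
    have a3 := key (-32 * p + 12 * p ^ 2) 1 2 (by linarith) (by linarith)
    have a4 := key (-16 + 64 * r - 28 * r ^ 2) 2 1 (by linarith) (by linarith)
    have a5 := key (-8 + 16 * p + 4 * r - 19 / 2 * p * r) 2 2 (by nlinarith) (by nlinarith)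
    have a6 := key (2 * p - 3 * p ^ 2) 2 3 (by linarith) (by linarith)
    have a7 := key (2 * r - r ^ 2) 3 2 (by linarith) (by linarith)
    have a8 := key (-1 / 8 * p * r) 3 3 (by nlinarith) (by nlinarith)
    rw [abs_le]
    constructor <;> linarith [a1.1, a1.2, a2.1, a2.2, a3.1, a3.2, a4.1, a4.2, a5.1, a5.2, a6.1,
      a6.2, a7.1, a7.2, a8.1, a8.2]

/-- One half of the stream function. -/
noncomputable def Ff (u : ℕ) (ψ : ℕ → ℝ) (a b : ℕ) : ℝ :=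
  if a + u < b then ψ a - 1 / 6 * ((1 / 4) ^ b * 4 ^ a * 4 ^ u)
  else (1 / 4) ^ u * ((1 / 4) ^ a * 4 ^ b * (2 / 25 + 11 / 10 * (1 / 4) ^ a) - 9 / 8 * (1 / 4) ^ a)

noncomputable def Phi (u : ℕ) (ψ : ℕ → ℝ) (a b : ℕ) : ℝ := Ff u ψ a b - Ff u ψ b a

noncomputable def Dz (u : ℕ) (ψ : ℕ → ℝ) (a b : ℕ) : ℝ :=
  Dop ((1 / 4) ^ a) ((1 / 4) ^ b) (fun i j => Phi u ψ (a + i) (b + j))

noncomputable def Rz (u : ℕ) (ψ : ℕ → ℝ) (a b : ℕ) : ℝ :=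
  Rop ((1 / 4) ^ a) ((1 / 4) ^ b) (fun i j => Phi u ψ (a + i) (b + j))

theorem q_mul (a : ℕ) : (1 / 4 : ℝ) ^ a * 4 ^ a = 1 := by rw [← mul_pow]; norm_num

theorem q_succ (a : ℕ) : (1 / 4 : ℝ) ^ (a + 1) = (1 / 4) ^ a / 4 := by rw [pow_succ]; ring

theorem q_pos (a : ℕ) : (0 : ℝ) < (1 / 4) ^ a := by positivity

theorem q_le {a b : ℕ} (h : a ≤ b) : (1 / 4 : ℝ) ^ b ≤ (1 / 4) ^ a :=
  pow_le_pow_of_le_one (by norm_num) (by norm_num) h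

theorem q_le_one (a : ℕ) : (1 / 4 : ℝ) ^ a ≤ 1 := by simpa using q_le (Nat.zero_le a)

variable (u : ℕ) (ψ : ℕ → ℝ)

theorem z_eqs (a b : ℕ) : VA (Dz u ψ) (Rz u ψ) (a + 1) b
    = (1 / 4) ^ (a + 1) * Dz u ψ (a + 1) (b + 1) + (1 - (1 / 4) ^ (a + 1)) * Rz u ψ a b := by
  have h := op_eqs ((1 / 4) ^ a) ((1 / 4) ^ b) (fun i j => Phi u ψ (a + i) (b + j))
  simp only [← add_assoc] at h
  simp only [VA, Dz, Rz, q_succ]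
  exact h

theorem z_eq0 (b : ℕ) : VA (Dz u ψ) (Rz u ψ) 0 b = Dz u ψ 0 (b + 1) := by
  have h := op_eq0 ((1 / 4) ^ b) (fun i j => Phi u ψ (0 + i) (b + j))
  simp only [← add_assoc] at h
  simp only [VA, Dz, Rz, q_succ, pow_zero]
  exact h

theorem z_cross (a b : ℕ) :
    2 * Dz u ψ a b + Rz u ψ a b + 2 * Dz u ψ b a + Rz u ψ b a = 0 := by
  have h := op_cross ((1 / 4) ^ a) ((1 / 4) ^ b) (fun i j => Phi u ψ (a + i) (b + j))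
  have e : (fun i j => Phi u ψ (b + i) (a + j)) = fun i j => -Phi u ψ (a + j) (b + i) := by
    funext i j
    simp only [Phi]
    ring
  simp only [Dz, Rz, e]
  exact h

theorem Ff_bound (hψ : ∀ a, |ψ a| ≤ 2) (a b : ℕ) : |Ff u ψ a b| ≤ 3 := by
  unfold Ff
  split_ifs with h
  · have h1 : (1 / 4 : ℝ) ^ b ≤ (1 / 4) ^ (a + u) := q_le h.le
    have h2 : (1 / 4 : ℝ) ^ b * 4 ^ a * 4 ^ u ≤ 1 := by
      have := q_mul (a + u)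
      rw [pow_add (4 : ℝ)] at this
      have h3 : (0 : ℝ) ≤ 4 ^ a * 4 ^ u := by positivity
      nlinarith
    have h3 : (0 : ℝ) ≤ (1 / 4) ^ b * 4 ^ a * 4 ^ u := by positivity
    have := abs_le.mp (hψ a)
    rw [abs_le]
    constructor <;> linarith [this.1, this.2]
  · have h1 : (1 / 4 : ℝ) ^ (a + u) ≤ (1 / 4) ^ b := q_le (by omega)
    have h2 : (1 / 4 : ℝ) ^ u * ((1 / 4) ^ a * 4 ^ b) ≤ 1 := by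
      have := q_mul b
      rw [pow_add] at h1
      have h3 : (0 : ℝ) ≤ 4 ^ b := by positivity
      nlinarith
    have h3 : (0 : ℝ) ≤ (1 / 4 : ℝ) ^ u * ((1 / 4) ^ a * 4 ^ b) := by positivity
    have h4 := q_le_one a
    have h5 := (q_pos a).le
    have h6 := q_le_one u
    have h7 := (q_pos u).le
    have h8 : (1 / 4 : ℝ) ^ u * (1 / 4) ^ a ≤ 1 := mul_le_one₀ h6 h5 h4
    have h9 : (0 : ℝ) ≤ (1 / 4 : ℝ) ^ u * (1 / 4) ^ a := mul_nonneg h7 h5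
    rw [abs_le]
    constructor <;> nlinarith

theorem z_bound (hψ : ∀ a, |ψ a| ≤ 2) (a b : ℕ) : |Dz u ψ a b| ≤ 180 ∧ |Rz u ψ a b| ≤ 180 := by
  have h := op_bound (B := 6) (f := fun i j => Phi u ψ (a + i) (b + j)) (q_pos a).le (q_le_one a)
    (q_pos b).le (q_le_one b) (fun i j => by
      have h1 := abs_le.mp (Ff_bound u ψ hψ (a + i) (b + j))
      have h2 := abs_le.mp (Ff_bound u ψ hψ (b + j) (a + i))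
      rw [abs_le]
      simp only [Phi]
      constructor <;> linarith [h1.1, h1.2, h2.1, h2.2])
  simp only [Dz, Rz]
  constructor <;> linarith [h.1, h.2]

theorem F_lo_p (m j i k : ℕ) (h : j + k ≤ i + u) : Ff u ψ (m + i) (m + j + k)
    = (1 / 4) ^ u * (4 ^ j * (4 ^ k * (1 / 4) ^ i) * (2 / 25 + 11 / 10 * ((1 / 4) ^ m * (1 / 4) ^ i))
      - 9 / 8 * ((1 / 4) ^ m * (1 / 4) ^ i)) := by
  rw [Ff, if_neg (by omega)]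
  simp only [pow_add]
  linear_combination ((1 / 4 : ℝ) ^ u * (4 ^ j * (4 ^ k * (1 / 4) ^ i)
    * (2 / 25 + 11 / 10 * ((1 / 4) ^ m * (1 / 4) ^ i)))) * q_mul m

theorem F_lo_m (m j i k : ℕ) (h : i ≤ j + k + u) : Ff u ψ (m + j + k) (m + i)
    = (1 / 4) ^ u * ((1 / 4) ^ j * (4 ^ i * (1 / 4) ^ k)
        * (2 / 25 + 11 / 10 * ((1 / 4) ^ m * (1 / 4) ^ j * (1 / 4) ^ k))
      - 9 / 8 * ((1 / 4) ^ m * (1 / 4) ^ j * (1 / 4) ^ k)) := by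
  rw [Ff, if_neg (by omega)]
  simp only [pow_add]
  linear_combination ((1 / 4 : ℝ) ^ u * ((1 / 4) ^ j * (4 ^ i * (1 / 4) ^ k)
    * (2 / 25 + 11 / 10 * ((1 / 4) ^ m * (1 / 4) ^ j * (1 / 4) ^ k)))) * q_mul m

theorem F_hi (m l i k : ℕ) (h : i < l + k) : Ff u ψ (m + i) (m + (u + l) + k)
    = ψ (m + i) - 1 / 6 * ((1 / 4) ^ l * (4 ^ i * (1 / 4) ^ k)) := by
  rw [Ff, if_pos (by omega)]
  simp only [pow_add]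
  linear_combination (-(1 / 6) * ((1 / 4 : ℝ) ^ l * (4 ^ i * (1 / 4) ^ k))
    * ((1 / 4) ^ u * 4 ^ u)) * q_mul m - 1 / 6 * ((1 / 4) ^ l * (4 ^ i * (1 / 4) ^ k)) * q_mul u

theorem F_lo_u (m l i k : ℕ) (h : l + k ≤ i) : Ff u ψ (m + i) (m + (u + l) + k)
    = 4 ^ l * (4 ^ k * (1 / 4) ^ i) * (2 / 25 + 11 / 10 * ((1 / 4) ^ m * (1 / 4) ^ i))
      - 9 / 8 * ((1 / 4) ^ u * ((1 / 4) ^ m * (1 / 4) ^ i)) := by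
  rw [F_lo_p u ψ m (u + l) i k (by omega)]
  simp only [pow_add]
  linear_combination ((4 : ℝ) ^ l * (4 ^ k * (1 / 4) ^ i)
    * (2 / 25 + 11 / 10 * ((1 / 4) ^ m * (1 / 4) ^ i))) * q_mul u

theorem F_o_hi (m i k : ℕ) (h : i < k) : Ff 0 ψ (m + i) (m + k)
    = ψ (m + i) - 1 / 6 * (4 ^ i * (1 / 4) ^ k) := by
  have := F_hi 0 ψ m 0 i k (by omega)
  simpa using this

theorem F_o_lo (m i k : ℕ) (h : k ≤ i) : Ff 0 ψ (m + i) (m + k)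
    = 4 ^ k * (1 / 4) ^ i * (2 / 25 + 11 / 10 * ((1 / 4) ^ m * (1 / 4) ^ i))
      - 9 / 8 * ((1 / 4) ^ m * (1 / 4) ^ i) := by
  have := F_lo_u 0 ψ m 0 i k (by omega)
  simpa using this

/-- The recursion and the bounds for `ψ`. -/
def PS (p s s' : ℝ) : Prop :=
  8 * (2 - p) * (1 - p) * s = 15 + (1 - p) * (1 - 2 * p) * s' ∧
    1 + 4 / 3 * p + 80 / 51 * p ^ 2 + 17 / 10 * p ^ 3 ≤ s ∧
    s ≤ 1 + 4 / 3 * p + 80 / 51 * p ^ 2 + 5 / 2 * p ^ 3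

end Pool.Agent.MP_450e1b_mp.H55

/-
Closed forms of the edge values in the five zones.
-/

namespace Pool.Agent.MP_450e1b_mp.H55

set_option linter.unusedVariables false
set_option linter.unusedSimpArgs false

noncomputable def bDp (p z : ℝ) : ℝ :=
  4 / 25 + 1011 / 500 * p - 4981 / 4000 * p * z - 2191 / 500 * p ^ 2 - 3 / 50 * z ^ 2 + 15263 /
  16000 * p * z ^ 2 + 1961 / 2000 * p ^ 2 * z + 11 / 5 * p ^ 3 - 10081 / 16000 * p * z ^ 3 - 1607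
  / 12800 * p ^ 2 * z ^ 2 + 31 / 160 * p ^ 3 * z - 26777 / 64000 * p ^ 2 * z ^ 3 - 12487 / 20480
  * p ^ 3 * z ^ 2 + 35827 / 16000 * p ^ 2 * z ^ 4 + 13201 / 20480 * p ^ 3 * z ^ 3 - 1937 / 5120 *
  p ^ 3 * z ^ 4 - 473 / 320 * p ^ 3 * z ^ 5

noncomputable def bDm (p z : ℝ) : ℝ :=
  -3 / 50 - 10081 / 16000 * p + 15263 / 16000 * p * z + 35827 / 16000 * p ^ 2 + 4 / 25 * z ^ 2 -
  4981 / 4000 * p * z ^ 2 - 26777 / 64000 * p ^ 2 * z - 473 / 320 * p ^ 3 + 1011 / 500 * p * z ^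
  3 - 1607 / 12800 * p ^ 2 * z ^ 2 - 1937 / 5120 * p ^ 3 * z + 1961 / 2000 * p ^ 2 * z ^ 3 +
  13201 / 20480 * p ^ 3 * z ^ 2 - 2191 / 500 * p ^ 2 * z ^ 4 - 12487 / 20480 * p ^ 3 * z ^ 3 + 31
  / 160 * p ^ 3 * z ^ 4 + 11 / 5 * p ^ 3 * z ^ 5

noncomputable def bRp (p z : ℝ) : ℝ :=
  1 / 25 + 771 / 8000 * p - 5221 / 16000 * p * z - 683 / 4000 * p ^ 2 - 6 / 25 * z ^ 2 + 14543 /
  16000 * p * z ^ 2 - 677 / 256000 * p ^ 2 * z + 11 / 320 * p ^ 3 - 11521 / 4000 * p * z ^ 3 +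
  1607 / 6400 * p ^ 2 * z ^ 2 + 817 / 40960 * p ^ 3 * z - 287123 / 256000 * p ^ 2 * z ^ 3 - 671 /
  163840 * p ^ 3 * z ^ 2 + 35651 / 8000 * p ^ 2 * z ^ 4 - 10753 / 163840 * p ^ 3 * z ^ 3 + 14303
  / 40960 * p ^ 3 * z ^ 4 - 473 / 320 * p ^ 3 * z ^ 5

noncomputable def bRm (p z : ℝ) : ℝ :=
  -6 / 25 - 11521 / 4000 * p + 14543 / 16000 * p * z + 35651 / 8000 * p ^ 2 + 1 / 25 * z ^ 2 -
  5221 / 16000 * p * z ^ 2 - 287123 / 256000 * p ^ 2 * z - 473 / 320 * p ^ 3 + 771 / 8000 * p * z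
  ^ 3 + 1607 / 6400 * p ^ 2 * z ^ 2 + 14303 / 40960 * p ^ 3 * z - 677 / 256000 * p ^ 2 * z ^ 3 -
  10753 / 163840 * p ^ 3 * z ^ 2 - 683 / 4000 * p ^ 2 * z ^ 4 - 671 / 163840 * p ^ 3 * z ^ 3 +
  817 / 40960 * p ^ 3 * z ^ 4 + 11 / 320 * p ^ 3 * z ^ 5

noncomputable def fDp (p e w s0 s1 s2 s3 : ℝ) : ℝ :=
  16 / 15 * s0 - 1 / 15 * s1 - 1 / 8 * w - 8 / 5 * p * s0 + 1 / 5 * p * s1 + 17 / 120 * p * w - 3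
  / 50 * e ^ 2 * w + 8 / 15 * p ^ 2 * s0 - 2 / 15 * p ^ 2 * s1 - 1 / 60 * p ^ 2 * w - 32 / 45 * e
  * p * s0 * w - 17 / 45 * e * p * s1 * w + 7 / 180 * e * p * s2 * w + 41 / 120 * e * p * w ^ 2 +
  15263 / 16000 * e ^ 2 * p * w + 32 / 45 * e * p ^ 2 * s0 * w - 4 / 45 * e * p ^ 2 * s1 * w - 1
  / 45 * e * p ^ 2 * s2 * w - 1 / 10 * e * p ^ 2 * w ^ 2 - 16553 / 16000 * e ^ 2 * p ^ 2 * w + 9
  / 64 * e ^ 2 * p ^ 3 * w - 10081 / 16000 * e ^ 3 * p * w ^ 2 + 16 / 45 * e ^ 2 * p ^ 2 * s1 * w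
  ^ 2 - 7 / 90 * e ^ 2 * p ^ 2 * s2 * w ^ 2 - 1 / 360 * e ^ 2 * p ^ 2 * s3 * w ^ 2 - 11 / 60 * e
  ^ 2 * p ^ 2 * w ^ 3 - 26777 / 64000 * e ^ 3 * p ^ 2 * w ^ 2 + 473 / 640 * e ^ 3 * p ^ 3 * w ^ 2
  + 35827 / 16000 * e ^ 4 * p ^ 2 * w ^ 3 - 1937 / 5120 * e ^ 4 * p ^ 3 * w ^ 3 - 473 / 320 * e ^
  5 * p ^ 3 * w ^ 4

noncomputable def fDm (p e w s0 s1 s2 s3 : ℝ) : ℝ :=
  -32 / 45 * s0 - 14 / 45 * s1 + 1 / 45 * s2 + 1 / 3 * w + 16 / 15 * p * s0 - 1 / 60 * p * s2 - 2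
  / 15 * p * w + 4 / 25 * e ^ 2 * w - 16 / 45 * p ^ 2 * s0 + 7 / 90 * p ^ 2 * s1 + 1 / 360 * p ^
  2 * s2 + 11 / 960 * p ^ 2 * w + 32 / 45 * e * p * s0 * w + 38 / 45 * e * p * s1 * w - 7 / 45 *
  e * p * s2 * w - 3 / 5 * e * p * w ^ 2 - 4981 / 4000 * e ^ 2 * p * w - 32 / 45 * e * p ^ 2 * s0
  * w + 4 / 45 * e * p ^ 2 * s1 * w + 1 / 45 * e * p ^ 2 * s2 * w + 1 / 10 * e * p ^ 2 * w ^ 2 +
  58177 / 64000 * e ^ 2 * p ^ 2 * w - 387 / 4096 * e ^ 2 * p ^ 3 * w + 1011 / 500 * e ^ 3 * p * w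
  ^ 2 - 8 / 15 * e ^ 2 * p ^ 2 * s1 * w ^ 2 + 2 / 15 * e ^ 2 * p ^ 2 * s2 * w ^ 2 + 4 / 15 * e ^
  2 * p ^ 2 * w ^ 3 + 1961 / 2000 * e ^ 3 * p ^ 2 * w ^ 2 - 15367 / 20480 * e ^ 3 * p ^ 3 * w ^ 2
  - 2191 / 500 * e ^ 4 * p ^ 2 * w ^ 3 + 31 / 160 * e ^ 4 * p ^ 3 * w ^ 3 + 11 / 5 * e ^ 5 * p ^
  3 * w ^ 4

noncomputable def fRp (p e w s0 s1 s2 s3 : ℝ) : ℝ :=
  16 / 15 * s1 - 1 / 15 * s2 - 1 / 2 * w - 2 / 5 * p * s1 + 1 / 20 * p * s2 + 23 / 480 * p * w -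
  6 / 25 * e ^ 2 * w + 1 / 30 * p ^ 2 * s1 - 1 / 120 * p ^ 2 * s2 - 1 / 960 * p ^ 2 * w - 56 / 45
  * e * p * s1 * w + 17 / 90 * e * p * s2 * w + 1 / 180 * e * p * s3 * w + 37 / 60 * e * p * w ^
  2 + 14543 / 16000 * e ^ 2 * p * w + 1 / 9 * e * p ^ 2 * s1 * w - 19 / 720 * e * p ^ 2 * s2 * w
  - 1 / 2880 * e * p ^ 2 * s3 * w - 9 / 640 * e * p ^ 2 * w ^ 2 - 23303 / 256000 * e ^ 2 * p ^ 2
  * w + 9 / 4096 * e ^ 2 * p ^ 3 * w - 11521 / 4000 * e ^ 3 * p * w ^ 2 + 16 / 45 * e ^ 2 * p ^ 2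
  * s1 * w ^ 2 - 7 / 90 * e ^ 2 * p ^ 2 * s2 * w ^ 2 - 1 / 360 * e ^ 2 * p ^ 2 * s3 * w ^ 2 - 11
  / 60 * e ^ 2 * p ^ 2 * w ^ 3 - 287123 / 256000 * e ^ 3 * p ^ 2 * w ^ 2 + 4727 / 163840 * e ^ 3
  * p ^ 3 * w ^ 2 + 35651 / 8000 * e ^ 4 * p ^ 2 * w ^ 3 + 14303 / 40960 * e ^ 4 * p ^ 3 * w ^ 3
  - 473 / 320 * e ^ 5 * p ^ 3 * w ^ 4

noncomputable def fRm (p e w s0 s1 s2 s3 : ℝ) : ℝ :=
  -32 / 45 * s0 - 14 / 45 * s1 + 1 / 45 * s2 + 1 / 12 * w + 16 / 15 * p * s0 - 1 / 60 * p * s2 -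
  31 / 480 * p * w + 1 / 25 * e ^ 2 * w - 16 / 45 * p ^ 2 * s0 + 7 / 90 * p ^ 2 * s1 + 1 / 360 *
  p ^ 2 * s2 + 11 / 960 * p ^ 2 * w + 14 / 45 * e * p * s1 * w + 2 / 45 * e * p * s2 * w - 1 /
  180 * e * p * s3 * w - 1 / 10 * e * p * w ^ 2 - 5221 / 16000 * e ^ 2 * p * w - 1 / 9 * e * p ^
  2 * s1 * w + 19 / 720 * e * p ^ 2 * s2 * w + 1 / 2880 * e * p ^ 2 * s3 * w + 9 / 640 * e * p ^
  2 * w ^ 2 + 87583 / 256000 * e ^ 2 * p ^ 2 * w - 387 / 4096 * e ^ 2 * p ^ 3 * w + 771 / 8000 *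
  e ^ 3 * p * w ^ 2 - 1 / 30 * e ^ 2 * p ^ 2 * s2 * w ^ 2 + 1 / 120 * e ^ 2 * p ^ 2 * s3 * w ^ 2
  + 1 / 60 * e ^ 2 * p ^ 2 * w ^ 3 - 677 / 256000 * e ^ 3 * p ^ 2 * w ^ 2 - 1031 / 163840 * e ^ 3
  * p ^ 3 * w ^ 2 - 683 / 4000 * e ^ 4 * p ^ 2 * w ^ 3 + 817 / 40960 * e ^ 4 * p ^ 3 * w ^ 3 + 11
  / 320 * e ^ 5 * p ^ 3 * w ^ 4

noncomputable def gDp (p e s0 s1 s2 s3 : ℝ) : ℝ :=
  -1 / 32 + 17 / 480 * p + 16 / 15 * s0 - 1 / 15 * s1 + 23 / 28800 * e * p - 3 / 200 * e ^ 2 - 8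
  / 5 * p * s0 + 1 / 5 * p * s1 - 1 / 240 * p ^ 2 - 8 / 45 * e * p * s0 - 1 / 180 * e * p * s1 +
  1 / 240 * e * p * s2 - 97 / 3200 * e * p ^ 2 + 15263 / 64000 * e ^ 2 * p + 8 / 15 * p ^ 2 * s0
  - 2 / 15 * p ^ 2 * s1 + 8 / 45 * e * p ^ 2 * s0 - 1 / 45 * e * p ^ 2 * s1 - 1 / 180 * e * p ^ 2
  * s2 - 1489 / 6400 * e ^ 2 * p ^ 2 - 10081 / 256000 * e ^ 3 * p + 3353 / 81920 * e ^ 2 * p ^ 3
  - 26777 / 1024000 * e ^ 3 * p ^ 2 + 13201 / 327680 * e ^ 3 * p ^ 3 + 35827 / 1024000 * e ^ 4 *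
  p ^ 2 - 1937 / 327680 * e ^ 4 * p ^ 3 - 473 / 81920 * e ^ 5 * p ^ 3

noncomputable def gDm (p e s0 s1 s2 s3 : ℝ) : ℝ :=
  1 / 900 - 311 / 2400 * p - 32 / 45 * s0 + 2 / 45 * s1 + 15287 / 144000 * e * p + 1 / 25 * e ^ 2
  + 16 / 15 * p * s0 - 1 / 60 * p * s2 + 11 / 3840 * p ^ 2 + 8 / 45 * e * p * s0 - 1 / 90 * e * p
  * s1 + 207 / 3200 * e * p ^ 2 - 4981 / 16000 * e ^ 2 * p - 16 / 45 * p ^ 2 * s0 + 7 / 90 * p ^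
  2 * s1 + 1 / 360 * p ^ 2 * s2 - 8 / 45 * e * p ^ 2 * s0 + 1 / 45 * e * p ^ 2 * s1 + 1 / 180 * e
  * p ^ 2 * s2 + 8473 / 51200 * e ^ 2 * p ^ 2 + 1011 / 8000 * e ^ 3 * p - 2639 / 81920 * e ^ 2 *
  p ^ 3 + 1961 / 32000 * e ^ 3 * p ^ 2 - 12487 / 327680 * e ^ 3 * p ^ 3 - 2191 / 32000 * e ^ 4 *
  p ^ 2 + 31 / 10240 * e ^ 4 * p ^ 3 + 11 / 1280 * e ^ 5 * p ^ 3

noncomputable def gRp (p e s0 s1 s2 s3 : ℝ) : ℝ :=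
  71 / 1800 + 1963 / 9600 * p + 16 / 45 * s1 - 1 / 45 * s2 - 7661 / 36000 * e * p - 3 / 50 * e ^
  2 - 2 / 5 * p * s1 + 1 / 20 * p * s2 - 1 / 3840 * p ^ 2 - 2 / 45 * e * p * s1 + 1 / 360 * e * p
  * s2 - 1821 / 25600 * e * p ^ 2 + 14543 / 64000 * e ^ 2 * p + 1 / 30 * p ^ 2 * s1 - 1 / 120 * p
  ^ 2 * s2 + 1 / 36 * e * p ^ 2 * s1 - 19 / 2880 * e * p ^ 2 * s2 - 1 / 11520 * e * p ^ 2 * s3 +
  323 / 6400 * e ^ 2 * p ^ 2 - 11521 / 64000 * e ^ 3 * p + 259 / 40960 * e ^ 2 * p ^ 3 - 287123 /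
  4096000 * e ^ 3 * p ^ 2 - 10753 / 2621440 * e ^ 3 * p ^ 3 + 35651 / 512000 * e ^ 4 * p ^ 2 +
  14303 / 2621440 * e ^ 4 * p ^ 3 - 473 / 81920 * e ^ 5 * p ^ 3

noncomputable def gRm (p e s0 s1 s2 s3 : ℝ) : ℝ :=
  1 / 48 - 31 / 1920 * p - 32 / 45 * s0 - 14 / 45 * s1 + 1 / 45 * s2 - 1 / 900 * e * p + 1 / 100
  * e ^ 2 + 16 / 15 * p * s0 - 1 / 60 * p * s2 + 11 / 3840 * p ^ 2 + 7 / 90 * e * p * s1 - 1 / 90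
  * e * p * s2 + 61 / 25600 * e * p ^ 2 - 5221 / 64000 * e ^ 2 * p - 16 / 45 * p ^ 2 * s0 + 7 /
  90 * p ^ 2 * s1 + 1 / 360 * p ^ 2 * s2 - 1 / 36 * e * p ^ 2 * s1 + 19 / 2880 * e * p ^ 2 * s2 +
  1 / 11520 * e * p ^ 2 * s3 + 2147 / 25600 * e ^ 2 * p ^ 2 + 771 / 128000 * e ^ 3 * p - 973 /
  40960 * e ^ 2 * p ^ 3 - 677 / 4096000 * e ^ 3 * p ^ 2 - 671 / 2621440 * e ^ 3 * p ^ 3 - 683 /
  256000 * e ^ 4 * p ^ 2 + 817 / 2621440 * e ^ 4 * p ^ 3 + 11 / 81920 * e ^ 5 * p ^ 3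

noncomputable def hDp (p e s0 s1 s2 s3 : ℝ) : ℝ :=
  71 / 1800 + 269 / 360 * p + 16 / 45 * s0 - 1 / 45 * s1 - 1703 / 2000 * e * p - 3 / 50 * e ^ 2 -
  8 / 9 * p * s0 + 7 / 45 * p * s1 - 59 / 75 * p ^ 2 + 97 / 4000 * e * p ^ 2 + 15263 / 16000 * e
  ^ 2 * p + 8 / 15 * p ^ 2 * s0 - 2 / 15 * p ^ 2 * s1 + 121 / 160 * e * p ^ 3 - 1607 / 12800 * e
  ^ 2 * p ^ 2 - 10081 / 16000 * e ^ 3 * p - 12487 / 20480 * e ^ 2 * p ^ 3 - 26777 / 64000 * e ^ 3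
  * p ^ 2 + 13201 / 20480 * e ^ 3 * p ^ 3 + 35827 / 16000 * e ^ 4 * p ^ 2 - 1937 / 5120 * e ^ 4 *
  p ^ 3 - 473 / 320 * e ^ 5 * p ^ 3

noncomputable def hDm (p e s0 s1 s2 s3 : ℝ) : ℝ :=
  -3 / 50 - 108089 / 144000 * p + 15263 / 16000 * e * p + 4 / 25 * e ^ 2 + 16 / 45 * p * s0 - 1 /
  45 * p * s1 + 7667 / 9600 * p ^ 2 - 1577 / 64000 * e * p ^ 2 - 4981 / 4000 * e ^ 2 * p - 16 /
  45 * p ^ 2 * s0 + 7 / 90 * p ^ 2 * s1 + 1 / 360 * p ^ 2 * s2 - 121 / 160 * e * p ^ 3 - 1607 /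
  12800 * e ^ 2 * p ^ 2 + 1011 / 500 * e ^ 3 * p + 13201 / 20480 * e ^ 2 * p ^ 3 + 1961 / 2000 *
  e ^ 3 * p ^ 2 - 12487 / 20480 * e ^ 3 * p ^ 3 - 2191 / 500 * e ^ 4 * p ^ 2 + 31 / 160 * e ^ 4 *
  p ^ 3 + 11 / 5 * e ^ 5 * p ^ 3

noncomputable def hRp (p e s0 s1 s2 s3 : ℝ) : ℝ :=
  1 / 25 + 9109 / 72000 * p - 5221 / 16000 * e * p - 6 / 25 * e ^ 2 - 4 / 45 * p * s1 + 1 / 180 *
  p * s2 - 401 / 4800 * p ^ 2 - 6977 / 256000 * e * p ^ 2 + 14543 / 16000 * e ^ 2 * p + 1 / 30 *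
  p ^ 2 * s1 - 1 / 120 * p ^ 2 * s2 + 1177 / 40960 * e * p ^ 3 + 1607 / 6400 * e ^ 2 * p ^ 2 -
  11521 / 4000 * e ^ 3 * p - 671 / 163840 * e ^ 2 * p ^ 3 - 287123 / 256000 * e ^ 3 * p ^ 2 -
  10753 / 163840 * e ^ 3 * p ^ 3 + 35651 / 8000 * e ^ 4 * p ^ 2 + 14303 / 40960 * e ^ 4 * p ^ 3 -
  473 / 320 * e ^ 5 * p ^ 3

noncomputable def hRm (p e s0 s1 s2 s3 : ℝ) : ℝ :=
  1 / 900 - 431 / 3600 * p - 32 / 45 * s0 + 2 / 45 * s1 + 1943 / 16000 * e * p + 1 / 25 * e ^ 2 +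
  16 / 15 * p * s0 - 8 / 45 * p * s1 - 1 / 180 * p * s2 + 143 / 2400 * p ^ 2 + 7177 / 256000 * e
  * p ^ 2 - 5221 / 16000 * e ^ 2 * p - 16 / 45 * p ^ 2 * s0 + 7 / 90 * p ^ 2 * s1 + 1 / 360 * p ^
  2 * s2 - 1177 / 40960 * e * p ^ 3 + 1607 / 6400 * e ^ 2 * p ^ 2 + 771 / 8000 * e ^ 3 * p -
  10753 / 163840 * e ^ 2 * p ^ 3 - 677 / 256000 * e ^ 3 * p ^ 2 - 671 / 163840 * e ^ 3 * p ^ 3 -
  683 / 4000 * e ^ 4 * p ^ 2 + 817 / 40960 * e ^ 4 * p ^ 3 + 11 / 320 * e ^ 5 * p ^ 3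

noncomputable def oDp (p s0 s1 s2 s3 : ℝ) : ℝ :=
  -37 / 1800 + 2377 / 24000 * p + 16 / 45 * s0 - 1 / 45 * s1 - 8 / 15 * p * s0 + 2 / 15 * p * s1
  - 547 / 4800 * p ^ 2 + 8 / 45 * p ^ 2 * s0 - 1 / 18 * p ^ 2 * s1 + 1 / 360 * p ^ 2 * s2 + 357 /
  10240 * p ^ 3

noncomputable def oRp (p s0 s1 s2 s3 : ℝ) : ℝ :=
  37 / 900 - 2377 / 12000 * p - 32 / 45 * s0 + 2 / 45 * s1 + 16 / 15 * p * s0 - 4 / 15 * p * s1 +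
  547 / 2400 * p ^ 2 - 16 / 45 * p ^ 2 * s0 + 1 / 9 * p ^ 2 * s1 - 1 / 180 * p ^ 2 * s2 - 357 /
  5120 * p ^ 3

variable (u : ℕ) (ψ : ℕ → ℝ)

theorem bDp_eq (m j : ℕ) (h : j < u) : (1 / 4) ^ j * Dz u ψ m (m + j)
    = (1 / 4) ^ u * bDp ((1 / 4) ^ m) ((1 / 4) ^ j) := by
  have hz := q_mul j
  simp (disch := omega) only [Dz, Dop, Phi, F_lo_p u ψ m j, F_lo_m u ψ m j, pow_add, bDp]
  generalize (1 / 4 : ℝ) ^ j = z at *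
  generalize (4 : ℝ) ^ j = Z at *
  generalize (1 / 4 : ℝ) ^ m = p
  generalize (1 / 4 : ℝ) ^ u = e
  linear_combination (4 / 25 * e + 1011 / 500 * e * p - 8 / 125 * e * p * z - 2191 / 500 * e *
    p ^ 2 - 3053 / 4000 * e * p ^ 2 * z + 11 / 5 * e * p ^ 3 + 11 / 2000 * e * p ^ 2 * z ^ 2 +
    121 / 160 * e * p ^ 3 * z + 473 / 20480 * e * p ^ 3 * z ^ 2) * hz

theorem bDm_eq (m j : ℕ) (h : j < u) : (1 / 4) ^ j * Dz u ψ (m + j) m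
    = (1 / 4) ^ u * bDm ((1 / 4) ^ m) ((1 / 4) ^ j) := by
  have hz := q_mul j
  simp (disch := omega) only [Dz, Dop, Phi, F_lo_p u ψ m j, F_lo_m u ψ m j, pow_add, bDm]
  generalize (1 / 4 : ℝ) ^ j = z at *
  generalize (4 : ℝ) ^ j = Z at *
  generalize (1 / 4 : ℝ) ^ m = p
  generalize (1 / 4 : ℝ) ^ u = e
  linear_combination (-3 / 50 * e - 10081 / 16000 * e * p + 17 / 250 * e * p * z + 35827 /
    16000 * e * p ^ 2 + 12487 / 16000 * e * p ^ 2 * z - 473 / 320 * e * p ^ 3 - 1 / 125 * e * p ^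
    2 * z ^ 2 - 121 / 160 * e * p ^ 3 * z - 11 / 320 * e * p ^ 3 * z ^ 2) * hz

theorem bRp_eq (m j : ℕ) (h : j < u) : (1 / 4) ^ j * Rz u ψ m (m + j)
    = (1 / 4) ^ u * bRp ((1 / 4) ^ m) ((1 / 4) ^ j) := by
  have hz := q_mul j
  simp (disch := omega) only [Rz, Rop, Phi, F_lo_p u ψ m j, F_lo_m u ψ m j, pow_add, bRp]
  generalize (1 / 4 : ℝ) ^ j = z at *
  generalize (4 : ℝ) ^ j = Z at *
  generalize (1 / 4 : ℝ) ^ m = p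
  generalize (1 / 4 : ℝ) ^ u = e
  linear_combination (1 / 25 * e + 771 / 8000 * e * p - 31 / 1000 * e * p * z - 683 / 4000 * e
    * p ^ 2 - 28577 / 256000 * e * p ^ 2 * z + 11 / 320 * e * p ^ 3 + 11 / 2000 * e * p ^ 2 * z ^
    2 + 1177 / 40960 * e * p ^ 3 * z + 473 / 20480 * e * p ^ 3 * z ^ 2) * hz

theorem bRm_eq (m j : ℕ) (h : j < u) : (1 / 4) ^ j * Rz u ψ (m + j) m
    = (1 / 4) ^ u * bRm ((1 / 4) ^ m) ((1 / 4) ^ j) := by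
  have hz := q_mul j
  simp (disch := omega) only [Rz, Rop, Phi, F_lo_p u ψ m j, F_lo_m u ψ m j, pow_add, bRm]
  generalize (1 / 4 : ℝ) ^ j = z at *
  generalize (4 : ℝ) ^ j = Z at *
  generalize (1 / 4 : ℝ) ^ m = p
  generalize (1 / 4 : ℝ) ^ u = e
  linear_combination (-6 / 25 * e - 11521 / 4000 * e * p + 23 / 1000 * e * p * z + 35651 / 8000
    * e * p ^ 2 + 19777 / 256000 * e * p ^ 2 * z - 473 / 320 * e * p ^ 3 - 1 / 2000 * e * p ^ 2 *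
    z ^ 2 - 1177 / 40960 * e * p ^ 3 * z - 11 / 20480 * e * p ^ 3 * z ^ 2) * hz

theorem fDp_eq (m l : ℕ) (h : 2 ≤ l) : Dz u ψ m (m + (u + l))
    = fDp ((1 / 4) ^ m) ((1 / 4) ^ u) ((1 / 4) ^ l)
      (ψ (m + 0)) (ψ (m + 1)) (ψ (m + 2)) (ψ (m + 3)) := by
  simp (disch := omega) only [Dz, Dop, Phi, F_hi u ψ m l, F_lo_u u ψ m l,
    F_lo_m u ψ m (u + l), pow_add, fDp]
  generalize (1 / 4 : ℝ) ^ l = w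
  generalize (1 / 4 : ℝ) ^ m = p
  generalize (1 / 4 : ℝ) ^ u = e
  ring

theorem fDm_eq (m l : ℕ) (h : 2 ≤ l) : Dz u ψ (m + (u + l)) m
    = fDm ((1 / 4) ^ m) ((1 / 4) ^ u) ((1 / 4) ^ l)
      (ψ (m + 0)) (ψ (m + 1)) (ψ (m + 2)) (ψ (m + 3)) := by
  simp (disch := omega) only [Dz, Dop, Phi, F_hi u ψ m l, F_lo_u u ψ m l,
    F_lo_m u ψ m (u + l), pow_add, fDm]
  generalize (1 / 4 : ℝ) ^ l = w
  generalize (1 / 4 : ℝ) ^ m = p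
  generalize (1 / 4 : ℝ) ^ u = e
  ring

theorem fRp_eq (m l : ℕ) (h : 2 ≤ l) : Rz u ψ m (m + (u + l))
    = fRp ((1 / 4) ^ m) ((1 / 4) ^ u) ((1 / 4) ^ l)
      (ψ (m + 0)) (ψ (m + 1)) (ψ (m + 2)) (ψ (m + 3)) := by
  simp (disch := omega) only [Rz, Rop, Phi, F_hi u ψ m l, F_lo_u u ψ m l,
    F_lo_m u ψ m (u + l), pow_add, fRp]
  generalize (1 / 4 : ℝ) ^ l = w
  generalize (1 / 4 : ℝ) ^ m = p
  generalize (1 / 4 : ℝ) ^ u = e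
  ring

theorem fRm_eq (m l : ℕ) (h : 2 ≤ l) : Rz u ψ (m + (u + l)) m
    = fRm ((1 / 4) ^ m) ((1 / 4) ^ u) ((1 / 4) ^ l)
      (ψ (m + 0)) (ψ (m + 1)) (ψ (m + 2)) (ψ (m + 3)) := by
  simp (disch := omega) only [Rz, Rop, Phi, F_hi u ψ m l, F_lo_u u ψ m l,
    F_lo_m u ψ m (u + l), pow_add, fRm]
  generalize (1 / 4 : ℝ) ^ l = w
  generalize (1 / 4 : ℝ) ^ m = p
  generalize (1 / 4 : ℝ) ^ u = e
  ring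

theorem gDp_eq (m : ℕ) : Dz u ψ m (m + (u + 1))
    = gDp ((1 / 4) ^ m) ((1 / 4) ^ u)
      (ψ (m + 0)) (ψ (m + 1)) (ψ (m + 2)) (ψ (m + 3)) := by
  simp (disch := omega) only [Dz, Dop, Phi, F_hi u ψ m 1, F_lo_u u ψ m 1,
    F_lo_m u ψ m (u + 1), pow_add, gDp]
  generalize (1 / 4 : ℝ) ^ m = p
  generalize (1 / 4 : ℝ) ^ u = e
  ring

theorem gDm_eq (m : ℕ) : Dz u ψ (m + (u + 1)) m
    = gDm ((1 / 4) ^ m) ((1 / 4) ^ u)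
      (ψ (m + 0)) (ψ (m + 1)) (ψ (m + 2)) (ψ (m + 3)) := by
  simp (disch := omega) only [Dz, Dop, Phi, F_hi u ψ m 1, F_lo_u u ψ m 1,
    F_lo_m u ψ m (u + 1), pow_add, gDm]
  generalize (1 / 4 : ℝ) ^ m = p
  generalize (1 / 4 : ℝ) ^ u = e
  ring

theorem gRp_eq (m : ℕ) : Rz u ψ m (m + (u + 1))
    = gRp ((1 / 4) ^ m) ((1 / 4) ^ u)
      (ψ (m + 0)) (ψ (m + 1)) (ψ (m + 2)) (ψ (m + 3)) := by
  simp (disch := omega) only [Rz, Rop, Phi, F_hi u ψ m 1, F_lo_u u ψ m 1,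
    F_lo_m u ψ m (u + 1), pow_add, gRp]
  generalize (1 / 4 : ℝ) ^ m = p
  generalize (1 / 4 : ℝ) ^ u = e
  ring

theorem gRm_eq (m : ℕ) : Rz u ψ (m + (u + 1)) m
    = gRm ((1 / 4) ^ m) ((1 / 4) ^ u)
      (ψ (m + 0)) (ψ (m + 1)) (ψ (m + 2)) (ψ (m + 3)) := by
  simp (disch := omega) only [Rz, Rop, Phi, F_hi u ψ m 1, F_lo_u u ψ m 1,
    F_lo_m u ψ m (u + 1), pow_add, gRm]
  generalize (1 / 4 : ℝ) ^ m = p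
  generalize (1 / 4 : ℝ) ^ u = e
  ring

theorem hDp_eq (m : ℕ) (h : 1 ≤ u) : Dz u ψ m (m + (u + 0))
    = hDp ((1 / 4) ^ m) ((1 / 4) ^ u)
      (ψ (m + 0)) (ψ (m + 1)) (ψ (m + 2)) (ψ (m + 3)) := by
  simp (disch := omega) only [Dz, Dop, Phi, F_hi u ψ m 0, F_lo_u u ψ m 0,
    F_lo_m u ψ m (u + 0), pow_add, hDp]
  generalize (1 / 4 : ℝ) ^ m = p
  generalize (1 / 4 : ℝ) ^ u = e
  ring

theorem hDm_eq (m : ℕ) (h : 1 ≤ u) : Dz u ψ (m + (u + 0)) m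
    = hDm ((1 / 4) ^ m) ((1 / 4) ^ u)
      (ψ (m + 0)) (ψ (m + 1)) (ψ (m + 2)) (ψ (m + 3)) := by
  simp (disch := omega) only [Dz, Dop, Phi, F_hi u ψ m 0, F_lo_u u ψ m 0,
    F_lo_m u ψ m (u + 0), pow_add, hDm]
  generalize (1 / 4 : ℝ) ^ m = p
  generalize (1 / 4 : ℝ) ^ u = e
  ring

theorem hRp_eq (m : ℕ) (h : 1 ≤ u) : Rz u ψ m (m + (u + 0))
    = hRp ((1 / 4) ^ m) ((1 / 4) ^ u)
      (ψ (m + 0)) (ψ (m + 1)) (ψ (m + 2)) (ψ (m + 3)) := by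
  simp (disch := omega) only [Rz, Rop, Phi, F_hi u ψ m 0, F_lo_u u ψ m 0,
    F_lo_m u ψ m (u + 0), pow_add, hRp]
  generalize (1 / 4 : ℝ) ^ m = p
  generalize (1 / 4 : ℝ) ^ u = e
  ring

theorem hRm_eq (m : ℕ) (h : 1 ≤ u) : Rz u ψ (m + (u + 0)) m
    = hRm ((1 / 4) ^ m) ((1 / 4) ^ u)
      (ψ (m + 0)) (ψ (m + 1)) (ψ (m + 2)) (ψ (m + 3)) := by
  simp (disch := omega) only [Rz, Rop, Phi, F_hi u ψ m 0, F_lo_u u ψ m 0,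
    F_lo_m u ψ m (u + 0), pow_add, hRm]
  generalize (1 / 4 : ℝ) ^ m = p
  generalize (1 / 4 : ℝ) ^ u = e
  ring

theorem oDp_eq (m : ℕ) : Dz 0 ψ m m
    = oDp ((1 / 4) ^ m) (ψ (m + 0)) (ψ (m + 1)) (ψ (m + 2)) (ψ (m + 3)) := by
  simp (disch := omega) only [Dz, Dop, Phi, F_o_hi ψ m, F_o_lo ψ m, oDp]
  generalize (1 / 4 : ℝ) ^ m = p
  ring

theorem oRp_eq (m : ℕ) : Rz 0 ψ m m
    = oRp ((1 / 4) ^ m) (ψ (m + 0)) (ψ (m + 1)) (ψ (m + 2)) (ψ (m + 3)) := by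
  simp (disch := omega) only [Rz, Rop, Phi, F_o_hi ψ m, F_o_lo ψ m, oRp]
  generalize (1 / 4 : ℝ) ^ m = p
  ring

end Pool.Agent.MP_450e1b_mp.H55

end

-- part MP_450e1b_mp.H55.IneqB
section

/-
Polynomial inequalities for the closed forms (band).
-/

namespace Pool.Agent.MP_450e1b_mp.H55

set_option linter.unusedVariables false

theorem b_thp {p z : ℝ}
    (hp0 : 0 ≤ p) (hp1 : p ≤ 1 / 4) (hz0 : 0 ≤ z) (hz1 : z ≤ 1) :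
    bDp p z - bRp p z ≤ 2 * (bDm p z - bRm p z) := by
  have key : ∀ p' z' : ℝ, 0 ≤ p' → 0 ≤ z' → 0 ≤ 314811 / 163840 * p ^ 3 * z ^ 2 * z' + 19857 /
    3200 * p ^ 2 * z ^ 3 * z' + 253041 / 51200 * p * z ^ 3 * p' + 66717 / 40960 * p ^ 2 * z * p'
    + 4821 / 12800 * p ^ 2 * z * z' + 693 / 320 * p ^ 2 * p' + 11817 / 32768 * p * z * p' + 15063
    / 8000 * p * z * z' + 4893 / 6400 * p * p' + 15795717 / 16384000 * p * z' + 374283 / 1024000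
    * p * z ^ 3 + 3 / 50 * z ^ 2 + 23257467 / 16384000 * p + 6 / 25 + 1071 / 10240 * p ^ 3 * z ^
    2 + 44037 / 40960 * p ^ 3 * z ^ 4 + 693 / 160 * p ^ 3 * z ^ 5 := by
    intros
    positivity
  unfold bDm bDp bRm bRp
  linear_combination key _ _ (sub_nonneg.2 hp1) (sub_nonneg.2 hz1)

theorem b_thm {p z : ℝ}
    (hp0 : 0 ≤ p) (hp1 : p ≤ 1 / 4) (hz0 : 0 ≤ z) (hz1 : z ≤ 1) :
    bDm p z - bRm p z ≤ 2 * (bDp p z - bRp p z) := by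
  have key : ∀ p' z' : ℝ, 0 ≤ p' → 0 ≤ z' → 0 ≤ 96 / 25 * p' ^ 3 * z' ^ 5 + 96 / 5 * z * p' ^ 3
    * z' ^ 4 + 1344 / 25 * z ^ 2 * p' ^ 3 * z' ^ 3 + 2112 / 25 * z ^ 3 * p' ^ 3 * z' ^ 2 + 1632 /
    25 * z ^ 4 * p' ^ 3 * z' + 96 / 5 * z ^ 5 * p' ^ 3 + 37137 / 1000 * p * p' ^ 2 * z' ^ 5 +
    155559 / 1000 * p * z * p' ^ 2 * z' ^ 4 + 313089 / 1000 * p * z ^ 2 * p' ^ 2 * z' ^ 3 +
    418479 / 1000 * p * z ^ 3 * p' ^ 2 * z' ^ 2 + 167121 / 500 * p * z ^ 4 * p' ^ 2 * z' + 11043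
    / 100 * p * z ^ 5 * p' ^ 2 + 151731 / 4000 * p ^ 2 * p' * z' ^ 5 + 8605707 / 64000 * p ^ 2 *
    z * p' * z' ^ 4 + 1883109 / 8000 * p ^ 2 * z ^ 2 * p' * z' ^ 3 + 23218767 / 64000 * p ^ 2 * z
    ^ 3 * p' * z' ^ 2 + 11735073 / 32000 * p ^ 2 * z ^ 4 * p' * z' + 28557 / 200 * p ^ 2 * z ^ 5
    * p' + 8967 / 1000 * p ^ 3 * z' ^ 5 + 21336621 / 1024000 * p ^ 3 * z * z' ^ 4 + 89092749 /
    4096000 * p ^ 3 * z ^ 2 * z' ^ 3 + 153229617 / 2048000 * p ^ 3 * z ^ 3 * z' ^ 2 + 493054617 /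
    4096000 * p ^ 3 * z ^ 4 * z' + 2727501 / 51200 * p ^ 3 * z ^ 5 := by
    intros
    positivity
  unfold bDm bDp bRm bRp
  linear_combination key _ _ (sub_nonneg.2 hp1) (sub_nonneg.2 hz1)

theorem b_ehp {p z : ℝ}
    (hp0 : 0 ≤ p) (hp1 : p ≤ 1) (hz0 : 0 ≤ z) (hz1 : z ≤ 1) :
    bDp (p / 4) z - bRp (p / 4) z ≤ 4 * (bDp (p / 4) z - bRp p z) := by
  have key : ∀ p' z' : ℝ, 0 ≤ p' → 0 ≤ z' → 0 ≤ 9 / 25 * p' ^ 3 * z' ^ 5 + 9 / 5 * z * p' ^ 3 *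
    z' ^ 4 + 207 / 50 * z ^ 2 * p' ^ 3 * z' ^ 3 + 261 / 50 * z ^ 3 * p' ^ 3 * z' ^ 2 + 171 / 50 *
    z ^ 4 * p' ^ 3 * z' + 9 / 10 * z ^ 5 * p' ^ 3 + 71523 / 32000 * p * p' ^ 2 * z' ^ 5 + 733773
    / 64000 * p * z * p' ^ 2 * z' ^ 4 + 358989 / 16000 * p * z ^ 2 * p' ^ 2 * z' ^ 3 + 1996707 /
    64000 * p * z ^ 3 * p' ^ 2 * z' ^ 2 + 7443 / 250 * p * z ^ 4 * p' ^ 2 * z' + 75393 / 6400 * p
    * z ^ 5 * p' ^ 2 + 207417 / 64000 * p ^ 2 * p' * z' ^ 5 + 69542619 / 4096000 * p ^ 2 * z * p'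
    * z' ^ 4 + 3932859 / 128000 * p ^ 2 * z ^ 2 * p' * z' ^ 3 + 195423231 / 4096000 * p ^ 2 * z ^
    3 * p' * z' ^ 2 + 77468157 / 2048000 * p ^ 2 * z ^ 4 * p' * z' + 90927 / 12800 * p ^ 2 * z ^
    5 * p' + 681963 / 512000 * p ^ 3 * z' ^ 5 + 463561977 / 65536000 * p ^ 3 * z * z' ^ 4 +
    3092366241 / 262144000 * p ^ 3 * z ^ 2 * z' ^ 3 + 2782186821 / 131072000 * p ^ 3 * z ^ 3 * z'
    ^ 2 + 2663665533 / 262144000 * p ^ 3 * z ^ 4 * z' + 2653551 / 3276800 * p ^ 3 * z ^ 5 := by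
    intros
    positivity
  unfold bDp bRp
  linear_combination key _ _ (sub_nonneg.2 hp1) (sub_nonneg.2 hz1)

theorem b_ehm {p z : ℝ}
    (hp0 : 0 ≤ p) (hp1 : p ≤ 1 / 4) (hz0 : 0 ≤ z) (hz1 : z ≤ 1) :
    bDm (p / 4) z - bRm (p / 4) z ≤ 4 * (bDm (p / 4) z - bRm p z) := by
  have key : ∀ p' z' : ℝ, 0 ≤ p' → 0 ≤ z' → 0 ≤ 693 / 20480 * p ^ 3 * z ^ 4 * z' + 273231 /
    2621440 * p ^ 3 * z ^ 3 * z' + 1221507 / 10485760 * p ^ 3 * z ^ 2 * z' + 1911 / 12800 * p ^ 2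
    * z ^ 3 * z' + 3693753 / 2621440 * p ^ 3 * z' + 207303 / 204800 * p ^ 2 * z * z' + 876909 /
    51200 * p * p' + 43089 / 16000 * p * z' + 36963 / 32000 * p * z ^ 3 + 9 / 25 * z ^ 2 + 18543
    / 64000 * p * z ^ 2 + 3434031 / 1024000 * p + 27 / 50 + 36831 / 819200 * p ^ 2 * z ^ 3 +
    2724273 / 819200 * p ^ 2 * z + 459333 / 2621440 * p ^ 3 * z ^ 2 + 2312667 / 524288 * p ^ 3 :=
    by
    intros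
    positivity
  unfold bDm bRm
  linear_combination key _ _ (sub_nonneg.2 hp1) (sub_nonneg.2 hz1)

theorem b_hep {p z : ℝ}
    (hp0 : 0 ≤ p) (hp1 : p ≤ 1 / 4) (hz0 : 0 ≤ z) (hz1 : z ≤ 1) :
    bDp (p / 4) z - bRp p z ≤ 4 * (bDp p z - bRp p z) := by
  have key : ∀ p' z' : ℝ, 0 ≤ p' → 0 ≤ z' → 0 ≤ 29799 / 20480 * p ^ 3 * z ^ 4 * z' + 1313991 /
    327680 * p ^ 3 * z ^ 3 * z' + 1631637 / 1310720 * p ^ 2 * z ^ 3 * p' + 233079 / 51200 * p ^ 2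
    * z ^ 3 * z' + 3168081 / 1310720 * p ^ 3 * z * z' + 82476393 / 26214400 * p * z ^ 3 * p' +
    2234673 / 1310720 * p ^ 3 * z' + 255513 / 204800 * p ^ 2 * z * z' + 26787 / 1600 * p * p' +
    14763 / 4000 * p * z' + 18651 / 32000 * p' + 27429 / 128000 + 2879106291 / 524288000 * p * z
    ^ 3 + 27 / 50 * z ^ 2 + 54429 / 64000 * p * z ^ 2 + 536787 / 204800 * p ^ 2 * z + 9119439 /
    1310720 * p ^ 3 := by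
    intros
    positivity
  unfold bDp bRp
  linear_combination key _ _ (sub_nonneg.2 hp1) (sub_nonneg.2 hz1)

theorem b_hem {p z : ℝ}
    (hp0 : 0 ≤ p) (hp1 : p ≤ 1 / 4) (hz0 : 0 ≤ z) (hz1 : z ≤ 1) :
    bDm (p / 4) z - bRm p z ≤ 4 * (bDm p z - bRm p z) := by
  have key : ∀ p' z' : ℝ, 0 ≤ p' → 0 ≤ z' → 0 ≤ 3168081 / 1310720 * p ^ 3 * z ^ 2 * z' + 26787
    / 1600 * p ^ 2 * z ^ 3 * z' + 659109 / 51200 * p * z ^ 3 * p' + 837207 / 327680 * p ^ 2 * z *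
    p' + 255513 / 204800 * p ^ 2 * z * z' + 29799 / 20480 * p ^ 2 * p' + 1107891 / 6553600 * p *
    z * p' + 14763 / 4000 * p * z * z' + 2013627 / 409600 * p * p' + 377822847 / 131072000 * p *
    z' + 4172871 / 1024000 * p * z ^ 3 + 9 / 25 * z ^ 2 + 283959057 / 131072000 * p + 27 / 50 +
    228123 / 655360 * p ^ 3 * z ^ 2 + 29169 / 40960 * p ^ 3 * z ^ 4 + 693 / 80 * p ^ 3 * z ^ 5 :=
    by
    intros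
    positivity
  unfold bDm bRm
  linear_combination key _ _ (sub_nonneg.2 hp1) (sub_nonneg.2 hz1)

theorem b_d0 {p z : ℝ}
    (hp0 : 0 ≤ p) (hp1 : p ≤ 1 / 4) (hz0 : 0 ≤ z) (hz1 : z ≤ 1) :
    2 * bRp p z + 2 * bRm p z + bDp (p / 4) z + bDm (p / 4) z ≤ 0 := by
  have key : ∀ p' z' : ℝ, 0 ≤ p' → 0 ≤ z' → 0 ≤ 48195 / 65536 * p ^ 3 * z ^ 3 * z' + 78183 /
    131072 * p ^ 2 * z ^ 3 * p' + 431991 / 51200 * p ^ 2 * z ^ 3 * z' + 83534031 / 13107200 * p *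
    z ^ 3 * p' + 48195 / 65536 * p ^ 3 * z' + 101241 / 102400 * p ^ 2 * z * z' + 13983 / 12800 *
    z ^ 2 * p' + 431991 / 51200 * p * p' + 13983 / 12800 * p * z' + 413289 / 204800 * p + 3 / 10
    + 190132017 / 52428800 * p * z ^ 3 + 1377 / 51200 * z ^ 2 + 250803 / 204800 * p ^ 2 * z +
    18207 / 131072 * p ^ 3 * z ^ 2 + 11781 / 4096 * p ^ 3 * z ^ 5 + 140301 / 65536 * p ^ 3 := by
    intros
    positivity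
  unfold bDm bDp bRm bRp
  linear_combination key _ _ (sub_nonneg.2 hp1) (sub_nonneg.2 hz1)

theorem b_d1p {p z : ℝ}
    (hp0 : 0 ≤ p) (hp1 : p ≤ 1 / 4) (hz0 : 0 ≤ z) (hz1 : z ≤ 1) :
    2 * bRp p z + bRm p z + bDm (p / 4) z ≤ 0 := by
  have key : ∀ p' z' : ℝ, 0 ≤ p' → 0 ≤ z' → 0 ≤ 29547 / 40960 * p ^ 3 * z ^ 3 * z' + 755601 /
    1310720 * p ^ 2 * z ^ 3 * p' + 13549 / 1600 * p ^ 2 * z ^ 3 * z' + 168499157 / 26214400 * p *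
    z ^ 3 * p' + 125559 / 327680 * p ^ 3 * z' + 30533 / 40960 * p ^ 2 * z * z' + 4721 / 4000 * p
    * z * z' + 217847 / 51200 * p * p' + 107203 / 64000 * p * z' + 108813 / 1024000 * p + 11 / 50
    + 1862109399 / 524288000 * p * z ^ 3 + 7 / 25 * z ^ 2 + 5217 / 12800 * p ^ 2 * z + 83559 /
    1310720 * p ^ 3 * z ^ 2 + 231 / 80 * p ^ 3 * z ^ 5 + 343833 / 327680 * p ^ 3 := by
    intros
    positivity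
  unfold bDm bRm bRp
  linear_combination key _ _ (sub_nonneg.2 hp1) (sub_nonneg.2 hz1)

theorem b_d1m {p z : ℝ}
    (hp0 : 0 ≤ p) (hp1 : p ≤ 1 / 4) (hz0 : 0 ≤ z) (hz1 : z ≤ 1) :
    2 * bRm p z + bRp p z + bDp (p / 4) z ≤ 0 := by
  have key : ∀ p' z' : ℝ, 0 ≤ p' → 0 ≤ z' → 0 ≤ 125559 / 327680 * p ^ 3 * z ^ 3 * z' + 418677 /
    1310720 * p ^ 2 * z ^ 3 * p' + 217847 / 51200 * p ^ 2 * z ^ 3 * z' + 83405513 / 26214400 * p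
    * z ^ 3 * p' + 29547 / 40960 * p ^ 3 * z' + 30533 / 40960 * p ^ 2 * z * z' + 31667 / 64000 *
    z ^ 2 * p' + 13549 / 1600 * p * p' + 4721 / 4000 * p * z' + 1074579987 / 524288000 * p * z ^
    3 + 24653 / 256000 * z ^ 2 + 59563 / 32000 * p + 7 / 25 + 294723 / 204800 * p ^ 2 * z +
    189903 / 1310720 * p ^ 3 * z ^ 2 + 17745 / 8192 * p ^ 3 + 29337 / 20480 * p ^ 3 * z ^ 5 := by
    intros
    positivity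
  unfold bDp bRm bRp
  linear_combination key _ _ (sub_nonneg.2 hp1) (sub_nonneg.2 hz1)

theorem b_behm {z e ρ κ : ℝ}
    (hz0 : 0 ≤ z) (hz1 : z ≤ 1) (he0 : 0 ≤ e) (hr : ρ ≤ -2 / 3 * e) :
    e * bDm (1 / 4) z - e * bRm (1 / 4) z ≤ 4 * (e * bDm (1 / 4) z - (e * bRm 1 z + ρ)) := by
  have key : ∀ z' a0 : ℝ, 0 ≤ z' → 0 ≤ a0 → 0 ≤ e * (693 / 20480 * z ^ 4 * z' + 3323019 /
    13107200 * z ^ 3 * z' + 18552897 / 262144000 * z * z' + 284049141 / 262144000 * z ^ 3 +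
    1711139 / 768000 + 43216827 / 262144000 * z) + (4) * a0 := by
    intros
    positivity
  unfold bDm bRm
  linear_combination key _ _ (sub_nonneg.2 hz1) (sub_nonneg.2 hr)

theorem b_bhem {z e ρ κ : ℝ}
    (hz0 : 0 ≤ z) (hz1 : z ≤ 1 / 4) (he0 : 0 ≤ e) (hr : ρ ≤ -2 / 3 * e) (hez : e ≤ z / 4) (hk :
    -(e / 4) * (2 / 3 + 4 / 9 * z + 2 / 5 * z ^ 2 + 9 / 50 * e) ≤ κ ∧ κ ≤ 0) :
    e * bDm (1 / 4) z - (e * bRm 1 z + ρ) ≤ 4 * (e * bDm 1 z - (z * κ + ρ / 2) - (e * bRm 1 z +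
    ρ)) := by
  have key : ∀ z' a0 a1 : ℝ, 0 ≤ z' → 0 ≤ a0 → 0 ≤ a1 → 0 ≤ e * (3282891 / 204800 * z ^ 3 * z'
    + 59415921 / 32768000 * z * z' + 57736929 / 131072000 * z' + 155239647 / 32768000 * z ^ 3 +
    6344730461 / 1572864000 + 693 / 80 * z ^ 5) + (5) * a0 + (4 * z) * a1 := by
    intros
    positivity
  unfold bDm bRm
  linear_combination key _ _ _ (sub_nonneg.2 hz1) (sub_nonneg.2 hr) (neg_nonneg.2 hk.2)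

theorem b_bd0 {z e ρ κ : ℝ}
    (hz0 : 0 ≤ z) (hz1 : z ≤ 1) (he0 : 0 ≤ e) (hr : ρ ≤ -2 / 3 * e) :
    2 * e * bRp 1 z + 2 * (e * bRm 1 z + ρ) + e * bDp (1 / 4) z + e * bDm (1 / 4) z ≤ 0 := by
  have key : ∀ z' a0 : ℝ, 0 ≤ z' → 0 ≤ a0 → 0 ≤ e * (396901 / 307200 * z' ^ 5 + 33646823 /
    4915200 * z * z' ^ 4 + 126022829 / 9830400 * z ^ 2 * z' ^ 3 + 4393763 / 245760 * z ^ 3 * z' ^
    2 + 17786291 / 1966080 * z ^ 4 * z' + 257707 / 196608 * z ^ 5) + (2) * a0 := by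
    intros
    positivity
  unfold bDm bDp bRm bRp
  linear_combination key _ _ (sub_nonneg.2 hz1) (sub_nonneg.2 hr)

theorem b_bd1p {z e ρ κ : ℝ}
    (hz0 : 0 ≤ z) (hz1 : z ≤ 1 / 4) (he0 : 0 ≤ e) (hr : ρ ≤ -2 / 3 * e) :
    2 * e * bRp 1 z + (e * bRm 1 z + ρ) + e * bDm (1 / 4) z ≤ 0 := by
  have key : ∀ z' a0 : ℝ, 0 ≤ z' → 0 ≤ a0 → 0 ≤ e * (1882007 / 204800 * z ^ 3 * z' + 51836817 /
    32768000 * z * z' + 15786753 / 131072000 * z' + 170087199 / 32768000 * z ^ 3 + 231 / 80 * z ^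
    5 + 1382890237 / 1572864000) + (1) * a0 := by
    intros
    positivity
  unfold bDm bRm bRp
  linear_combination key _ _ (sub_nonneg.2 hz1) (sub_nonneg.2 hr)

theorem b_bd2 {z e ρ κ : ℝ}
    (hz0 : 0 ≤ z) (hz1 : z ≤ 1) (he0 : 0 ≤ e) (hr : ρ ≤ -2 / 3 * e) :
    e * bRm 1 z + ρ + e * bDp (1 / 4) z ≤ 0 := by
  have key : ∀ z' a0 : ℝ, 0 ≤ z' → 0 ≤ a0 → 0 ≤ e * (231 / 20480 * z ^ 4 * z' + 1974633 /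
    32768000 * z * z' + 2751151 / 32768000 * z ^ 3 + 287 / 750 + 1644471 / 32768000 * z + 8989 /
    1638400 * z ^ 4) + (1) * a0 := by
    intros
    positivity
  unfold bDp bRm
  linear_combination key _ _ (sub_nonneg.2 hz1) (sub_nonneg.2 hr)

theorem b_be0 {z e ρ κ : ℝ}
    (hz0 : 0 ≤ z) (hz1 : z ≤ 1 / 4) (he0 : 0 ≤ e) (hr : ρ ≤ -2 / 3 * e) (hez : e ≤ z / 4) (hk :
    -(e / 4) * (2 / 3 + 4 / 9 * z + 2 / 5 * z ^ 2 + 9 / 50 * e) ≤ κ ∧ κ ≤ 0) :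
    e * bRp 1 z ≤ e * bDp 1 z + z * κ := by
  have key : ∀ z' a1 a2 : ℝ, 0 ≤ z' → 0 ≤ a1 → 0 ≤ a2 → 0 ≤ e * (219169 / 3000 * z * z' ^ 5 +
    4034827 / 28800 * z ^ 2 * z' ^ 4 + 33349577 / 576000 * z ^ 3 * z' ^ 3 + 794633 / 48000 * z ^
    4 * z' ^ 2 + 31406381 / 576000 * z ^ 5 * z' + 1660427 / 57600 * z ^ 6) + (z) * a1 + (9 / 200
    * e * z) * a2 := by
    intros
    positivity
  unfold bDp bRp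
  linear_combination key _ _ _ (sub_nonneg.2 hz1) (sub_nonneg.2 hk.1) (sub_nonneg.2 hez)

theorem b_be00 {e ρ κ : ℝ}
    (he0 : 0 ≤ e) (hr : ρ ≤ -2 / 3 * e) :
    e * bRp 1 1 + ρ ≤ e * bDp 1 1 - ρ / 2 := by
  have key : ∀ a0 : ℝ, 0 ≤ a0 → 0 ≤ e * (61421 / 51200) + (3 / 2) * a0 := by
    intros
    positivity
  unfold bDp bRp
  linear_combination key _ (sub_nonneg.2 hr)

end Pool.Agent.MP_450e1b_mp.H55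

/-
Polynomial inequalities for the closed forms (diagonal for the level zero).
-/

namespace Pool.Agent.MP_450e1b_mp.H55

set_option linter.unusedVariables false

theorem o_thp {p s0 s1 s2 s3 s4 s5 : ℝ}
    (hp0 : 0 ≤ p) (hp1 : p ≤ 1 / 4) (h0 : PS p s0 s1) (h1 : PS (p / 4) s1 s2) (h2 : PS (p / 4 /
    4) s2 s3) (h3 : PS (p / 4 / 4 / 4) s3 s4) (h4 : PS (p / 4 / 4 / 4 / 4) s4 s5) :
    oDp p s0 s1 s2 s3 - oRp p s0 s1 s2 s3 ≤ 2 * (oDp p s0 s1 s2 s3 - oRp p s0 s1 s2 s3) := by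
  have key : ∀ p' a0 a1 a2 a3 a4 : ℝ, 0 ≤ p' → 0 ≤ a0 → 0 ≤ a1 → 0 ≤ a2 → 0 ≤ a3 → 0 ≤ a4 → 0 ≤
    10141 / 3200 * p ^ 3 * p' + 1805083 / 2611200 * p ^ 2 * p' + 4940699 / 10444800 * p * p' +
    563 / 600 + 79143929 / 208896000 * p + 884893 / 983040 * p ^ 5 + (16 / 15 + 8 / 15 * p ^ 2) *
    a0 + (8 / 5 * p) * a1 + (2 / 5 * p) * a2 + (1 / 15 + 1 / 6 * p ^ 2) * a3 + (1 / 120 * p ^ 2)
    * a4 := by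
    intros
    positivity
  unfold oDp oRp
  linear_combination key _ _ _ _ _ _ (sub_nonneg.2 hp1) (sub_nonneg.2 h0.2.1) (sub_nonneg.2
    h0.2.2) (sub_nonneg.2 h1.2.1) (sub_nonneg.2 h1.2.2) (sub_nonneg.2 h2.2.1)

theorem o_ehp {p s0 s1 s2 s3 s4 s5 : ℝ}
    (hp0 : 0 ≤ p) (hp1 : p ≤ 1 / 4) (h0 : PS p s0 s1) (h1 : PS (p / 4) s1 s2) (h2 : PS (p / 4 /
    4) s2 s3) (h3 : PS (p / 4 / 4 / 4) s3 s4) (h4 : PS (p / 4 / 4 / 4 / 4) s4 s5) :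
    oDp (p / 4) s1 s2 s3 s4 - oRp (p / 4) s1 s2 s3 s4 ≤ 4 * (oDp (p / 4) s1 s2 s3 s4 - oRp p s0
    s1 s2 s3) := by
  have key : ∀ p' a0 a1 a2 a3 a4 a5 a6 : ℝ, 0 ≤ p' → 0 ≤ a0 → 0 ≤ a1 → 0 ≤ a2 → 0 ≤ a3 → 0 ≤ a4
    → 0 ≤ a5 → 0 ≤ a6 → 0 ≤ 20774813 / 2457600 * p ^ 3 * p' + 461566499 / 250675200 * p ^ 2 * p'
    + 1270555427 / 1002700800 * p * p' + 563 / 200 + 21062942801 / 20054016000 * p + 12083916379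
    / 5033164800 * p ^ 5 + (128 / 45 + 64 / 45 * p ^ 2) * a0 + (64 / 15 * p) * a1 + (8 / 45 + 14
    / 15 * p) * a2 + (13 / 30 * p ^ 2) * a3 + (1 / 30 * p + 3 / 160 * p ^ 2) * a4 + (1 / 45) * a5
    + (1 / 5760 * p ^ 2) * a6 := by
    intros
    positivity
  unfold oDp oRp
  linear_combination key _ _ _ _ _ _ _ _ (sub_nonneg.2 hp1) (sub_nonneg.2 h0.2.1) (sub_nonneg.2
    h0.2.2) (sub_nonneg.2 h1.2.1) (sub_nonneg.2 h1.2.2) (sub_nonneg.2 h2.2.1) (sub_nonneg.2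
    h2.2.2) (sub_nonneg.2 h3.2.1)

theorem o_hep {p s0 s1 s2 s3 s4 s5 : ℝ}
    (hp0 : 0 ≤ p) (hp1 : p ≤ 1 / 4) (h0 : PS p s0 s1) (h1 : PS (p / 4) s1 s2) (h2 : PS (p / 4 /
    4) s2 s3) (h3 : PS (p / 4 / 4 / 4) s3 s4) (h4 : PS (p / 4 / 4 / 4 / 4) s4 s5) :
    oDp (p / 4) s1 s2 s3 s4 - oRp p s0 s1 s2 s3 ≤ 4 * (oDp p s0 s1 s2 s3 - oRp p s0 s1 s2 s3) :=
    by
  have key : ∀ p' a0 a1 a2 a3 a4 a5 a6 : ℝ, 0 ≤ p' → 0 ≤ a0 → 0 ≤ a1 → 0 ≤ a2 → 0 ≤ a3 → 0 ≤ a4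
    → 0 ≤ a5 → 0 ≤ a6 → 0 ≤ 25954931 / 2457600 * p ^ 3 * p' + 578719861 / 250675200 * p ^ 2 * p'
    + 1575845749 / 1002700800 * p * p' + 563 / 200 + 24521167543 / 20054016000 * p + 9059997947 /
    3019898880 * p ^ 5 + (32 / 9 + 16 / 9 * p ^ 2) * a0 + (16 / 3 * p) * a1 + (22 / 15 * p) * a2
    + (26 / 45 + 17 / 30 * p ^ 2) * a3 + (1 / 45 + 1 / 32 * p ^ 2) * a4 + (1 / 30 * p) * a5 + (1
    / 5760 * p ^ 2) * a6 := by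
    intros
    positivity
  unfold oDp oRp
  linear_combination key _ _ _ _ _ _ _ _ (sub_nonneg.2 hp1) (sub_nonneg.2 h0.2.1) (sub_nonneg.2
    h0.2.2) (sub_nonneg.2 h1.2.1) (sub_nonneg.2 h1.2.2) (sub_nonneg.2 h2.2.1) (sub_nonneg.2
    h2.2.2) (sub_nonneg.2 h3.2.2)

theorem o_d0 {p s0 s1 s2 s3 s4 s5 : ℝ}
    (hp0 : 0 ≤ p) (hp1 : p ≤ 1 / 4) (h0 : PS p s0 s1) (h1 : PS (p / 4) s1 s2) (h2 : PS (p / 4 /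
    4) s2 s3) (h3 : PS (p / 4 / 4 / 4) s3 s4) (h4 : PS (p / 4 / 4 / 4 / 4) s4 s5) :
    2 * oRp p s0 s1 s2 s3 + 2 * oRp p s0 s1 s2 s3 + oDp (p / 4) s1 s2 s3 s4 + oDp (p / 4) s1 s2
    s3 s4 ≤ 0 := by
  have key : ∀ p' a0 a1 a2 a3 a4 a5 a6 : ℝ, 0 ≤ p' → 0 ≤ a0 → 0 ≤ a1 → 0 ≤ a2 → 0 ≤ a3 → 0 ≤ a4
    → 0 ≤ a5 → 0 ≤ a6 → 0 ≤ 2075671 / 245760 * p ^ 3 * p' + 546221 / 294912 * p ^ 2 * p' +
    36895973 / 29491200 * p * p' + 21942431 / 23592960 * p + 563 / 300 + 724643071 / 301989888 *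
    p ^ 5 + (128 / 45 + 64 / 45 * p ^ 2) * a0 + (64 / 15 * p) * a1 + (4 / 3 * p) * a2 + (8 / 9 +
    7 / 15 * p ^ 2) * a3 + (2 / 45 + 7 / 240 * p ^ 2) * a4 + (1 / 15 * p) * a5 + (1 / 2880 * p ^
    2) * a6 := by
    intros
    positivity
  unfold oDp oRp
  linear_combination key _ _ _ _ _ _ _ _ (sub_nonneg.2 hp1) (sub_nonneg.2 h0.2.1) (sub_nonneg.2
    h0.2.2) (sub_nonneg.2 h1.2.1) (sub_nonneg.2 h1.2.2) (sub_nonneg.2 h2.2.1) (sub_nonneg.2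
    h2.2.2) (sub_nonneg.2 h3.2.2)

theorem o_d1p {p s0 s1 s2 s3 s4 s5 : ℝ}
    (hp0 : 0 ≤ p) (hp1 : p ≤ 1 / 4) (h0 : PS p s0 s1) (h1 : PS (p / 4) s1 s2) (h2 : PS (p / 4 /
    4) s2 s3) (h3 : PS (p / 4 / 4 / 4) s3 s4) (h4 : PS (p / 4 / 4 / 4 / 4) s4 s5) :
    2 * oRp p s0 s1 s2 s3 + oRp p s0 s1 s2 s3 + oDp (p / 4) s1 s2 s3 s4 ≤ 0 := by
  have key : ∀ p' a0 a1 a2 a3 a4 a5 a6 : ℝ, 0 ≤ p' → 0 ≤ a0 → 0 ≤ a1 → 0 ≤ a2 → 0 ≤ a3 → 0 ≤ a4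
    → 0 ≤ a5 → 0 ≤ a6 → 0 ≤ 15570547 / 2457600 * p ^ 3 * p' + 347669237 / 250675200 * p ^ 2 * p'
    + 104826253 / 111411200 * p * p' + 4796914877 / 6684672000 * p + 563 / 360 + 5435476219 /
    3019898880 * p ^ 5 + (32 / 15 + 16 / 15 * p ^ 2) * a0 + (16 / 5 * p) * a1 + (14 / 15 * p) *
    a2 + (22 / 45 + 31 / 90 * p ^ 2) * a3 + (1 / 45 + 29 / 1440 * p ^ 2) * a4 + (1 / 30 * p) * a5
    + (1 / 5760 * p ^ 2) * a6 := by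
    intros
    positivity
  unfold oDp oRp
  linear_combination key _ _ _ _ _ _ _ _ (sub_nonneg.2 hp1) (sub_nonneg.2 h0.2.1) (sub_nonneg.2
    h0.2.2) (sub_nonneg.2 h1.2.1) (sub_nonneg.2 h1.2.2) (sub_nonneg.2 h2.2.1) (sub_nonneg.2
    h2.2.2) (sub_nonneg.2 h3.2.2)

theorem o_behm {s0 s1 s2 s3 s4 s5 ρ κ : ℝ}
    (h1 : PS (1 / 4) s1 s2) (h2 : PS (1 / 4 / 4) s2 s3) (h3 : PS (1 / 4 / 4 / 4) s3 s4) (h4 : PS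
    (1 / 4 / 4 / 4 / 4) s4 s5) (hr : -2 / 3 - 4 / 15 * 1 - 3 / 25 * 1 ^ 2 ≤ ρ ∧ ρ ≤ -2 / 3 - 4 /
    15 * 1 - 7 / 100 * 1 ^ 2) :
    oDp (1 / 4) s1 s2 s3 s4 - oRp (1 / 4) s1 s2 s3 s4 ≤ 4 * (oDp (1 / 4) s1 s2 s3 s4 - (oRp 1 s0
    s1 s2 s3 + ρ)) := by
  have key : ∀ a0 a1 a2 : ℝ, 0 ≤ a0 → 0 ≤ a1 → 0 ≤ a2 → 0 ≤ 45221491169923 / 8984199168000 +
    (109 / 2016) * a0 + (1 / 5760) * a1 + (4) * a2 := by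
    intros
    positivity
  unfold oDp oRp
  linear_combination key _ _ _ (sub_nonneg.2 h2.2.1) (sub_nonneg.2 h3.2.1) (sub_nonneg.2 hr.2)
    - (61 / 945) * h1.1

theorem o_bd0 {s0 s1 s2 s3 s4 s5 ρ κ : ℝ}
    (h1 : PS (1 / 4) s1 s2) (h2 : PS (1 / 4 / 4) s2 s3) (h3 : PS (1 / 4 / 4 / 4) s3 s4) (h4 : PS
    (1 / 4 / 4 / 4 / 4) s4 s5) (hr : -2 / 3 - 4 / 15 * 1 - 3 / 25 * 1 ^ 2 ≤ ρ ∧ ρ ≤ -2 / 3 - 4 /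
    15 * 1 - 7 / 100 * 1 ^ 2) :
    2 * oRp 1 s0 s1 s2 s3 + 2 * (oRp 1 s0 s1 s2 s3 + ρ) + oDp (1 / 4) s1 s2 s3 s4 + oDp (1 / 4)
    s1 s2 s3 s4 ≤ 0 := by
  have key : ∀ a0 a1 a2 : ℝ, 0 ≤ a0 → 0 ≤ a1 → 0 ≤ a2 → 0 ≤ 39553310341 / 19964887040 + (31 /
    5040) * a0 + (1 / 2880) * a1 + (2) * a2 := by
    intros
    positivity
  unfold oDp oRp
  linear_combination key _ _ _ (sub_nonneg.2 h2.2.1) (sub_nonneg.2 h3.2.2) (sub_nonneg.2 hr.2)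
    - (-2 / 945) * h1.1

theorem o_bd2 {s0 s1 s2 s3 s4 s5 ρ κ : ℝ}
    (h1 : PS (1 / 4) s1 s2) (h2 : PS (1 / 4 / 4) s2 s3) (h3 : PS (1 / 4 / 4 / 4) s3 s4) (h4 : PS
    (1 / 4 / 4 / 4 / 4) s4 s5) (hr : -2 / 3 - 4 / 15 * 1 - 3 / 25 * 1 ^ 2 ≤ ρ ∧ ρ ≤ -2 / 3 - 4 /
    15 * 1 - 7 / 100 * 1 ^ 2) :
    oRp 1 s0 s1 s2 s3 + ρ + oDp (1 / 4) s1 s2 s3 s4 ≤ 0 := by
  have key : ∀ a0 a1 a2 : ℝ, 0 ≤ a0 → 0 ≤ a1 → 0 ≤ a2 → 0 ≤ 7391107926757 / 8984199168000 + (13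
    / 2016) * a0 + (1 / 5760) * a1 + (1) * a2 := by
    intros
    positivity
  unfold oDp oRp
  linear_combination key _ _ _ (sub_nonneg.2 h2.2.2) (sub_nonneg.2 h3.2.2) (sub_nonneg.2 hr.2)
    - (-11 / 945) * h1.1

theorem o_be00 {s0 s1 s2 s3 s4 s5 ρ κ : ℝ}
    (h1 : PS (1 / 4) s1 s2) (h2 : PS (1 / 4 / 4) s2 s3) (h3 : PS (1 / 4 / 4 / 4) s3 s4) (h4 : PS
    (1 / 4 / 4 / 4 / 4) s4 s5) (hr : -2 / 3 - 4 / 15 * 1 - 3 / 25 * 1 ^ 2 ≤ ρ ∧ ρ ≤ -2 / 3 - 4 /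
    15 * 1 - 7 / 100 * 1 ^ 2) :
    oRp 1 s0 s1 s2 s3 + ρ ≤ oDp 1 s0 s1 s2 s3 - ρ / 2 := by
  have key : ∀ a0 a1 : ℝ, 0 ≤ a0 → 0 ≤ a1 → 0 ≤ 1284487559 / 731136000 + (1 / 70) * a0 + (3 /
    2) * a1 := by
    intros
    positivity
  unfold oDp oRp
  linear_combination key _ _ (sub_nonneg.2 h2.2.1) (sub_nonneg.2 hr.2) - (1 / 63) * h1.1

end Pool.Agent.MP_450e1b_mp.H55

/-
Polynomial inequalities for the closed forms (inner junction).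
-/

namespace Pool.Agent.MP_450e1b_mp.H55

set_option linter.unusedVariables false

theorem h_thp {p e s0 s1 s2 s3 s4 s5 : ℝ}
    (hp0 : 0 ≤ p) (hp1 : p ≤ 1 / 4) (he0 : 0 ≤ e) (he1 : e ≤ 1 / 4) (h0 : PS p s0 s1) (h1 : PS (p
    / 4) s1 s2) (h2 : PS (p / 4 / 4) s2 s3) (h3 : PS (p / 4 / 4 / 4) s3 s4) (h4 : PS (p / 4 / 4 /
    4 / 4) s4 s5) :
    hDp p e s0 s1 s2 s3 - hRp p e s0 s1 s2 s3 ≤ 2 * (hDm p e s0 s1 s2 s3 - hRm p e s0 s1 s2 s3)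
    := by
  have key : ∀ e' p' a0 a1 a2 a3 a4 a5 : ℝ, 0 ≤ e' → 0 ≤ p' → 0 ≤ a0 → 0 ≤ a1 → 0 ≤ a2 → 0 ≤ a3
    → 0 ≤ a4 → 0 ≤ a5 → 0 ≤ 19857 / 3200 * e ^ 3 * p ^ 2 * e' + 314811 / 163840 * e ^ 2 * p ^ 3 *
    e' + 1306373 / 983040 * p ^ 4 * p' + 14757 / 51200 * e ^ 3 * p * p' + 16279771 / 6553600 * p
    ^ 3 * p' + 4821 / 12800 * e * p ^ 2 * e' + 89397 / 40960 * p ^ 3 * e' + 1125891329 /
    1336934400 * p ^ 2 * p' + 15063 / 8000 * e * p * e' + 3213 / 12800 * p ^ 2 * e' + 373 / 400 *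
    p' + 1565703 / 1024000 * e ^ 3 * p + 3 / 50 * e ^ 2 + 3097 / 4800 + 55023 / 32000 * e * p +
    13434194687 / 5347737600 * p ^ 2 + 1012977 / 655360 * e ^ 2 * p ^ 3 + 44037 / 40960 * e ^ 4 *
    p ^ 3 + 693 / 160 * e ^ 5 * p ^ 3 + (16 / 15) * a0 + (8 / 15 * p + 8 / 15 * p ^ 2) * a1 + (1
    / 15 * p + 1 / 6 * p ^ 2) * a2 + (1 / 15) * a3 + (1 / 60 * p) * a4 + (1 / 120 * p ^ 2) * a5
    := by
    intros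
    positivity
  unfold hDm hDp hRm hRp
  linear_combination key _ _ _ _ _ _ _ _ (sub_nonneg.2 he1) (sub_nonneg.2 hp1) (sub_nonneg.2
    h0.2.1) (sub_nonneg.2 h0.2.2) (sub_nonneg.2 h1.2.1) (sub_nonneg.2 h1.2.2) (sub_nonneg.2
    h2.2.1) (sub_nonneg.2 h2.2.2)

theorem h_thm {p e s0 s1 s2 s3 s4 s5 : ℝ}
    (hp0 : 0 ≤ p) (hp1 : p ≤ 1 / 4) (he0 : 0 ≤ e) (he1 : e ≤ 1 / 4) (h0 : PS p s0 s1) (h1 : PS (p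
    / 4) s1 s2) (h2 : PS (p / 4 / 4) s2 s3) (h3 : PS (p / 4 / 4 / 4) s3 s4) (h4 : PS (p / 4 / 4 /
    4 / 4) s4 s5) :
    hDm p e s0 s1 s2 s3 - hRm p e s0 s1 s2 s3 ≤ 2 * (hDp p e s0 s1 s2 s3 - hRp p e s0 s1 s2 s3)
    := by
  have key : ∀ e' p' a0 a1 a2 a3 a4 a5 : ℝ, 0 ≤ e' → 0 ≤ p' → 0 ≤ a0 → 0 ≤ a1 → 0 ≤ a2 → 0 ≤ a3
    → 0 ≤ a4 → 0 ≤ a5 → 0 ≤ 693 / 320 * e ^ 4 * p ^ 3 * e' + 88893 / 40960 * e ^ 3 * p ^ 3 * e' +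
    357 / 1600 * e ^ 3 * p ^ 2 * e' + 314811 / 163840 * e * p ^ 3 * e' + 499973 / 491520 * p ^ 3
    * p' + 4821 / 12800 * e * p ^ 2 * e' + 1145093 / 1966080 * p ^ 2 * p' + 22440197 / 7864320 *
    p * p' + 15063 / 8000 * p * e' + 48570749 / 786432000 * p' + 140172931 / 3145728000 + 10299 /
    4000 * e ^ 3 * p + 6 / 25 * e ^ 2 + 16143 / 16000 * e ^ 2 * p + 63 / 1024 * e * p ^ 2 + 18813
    / 51200 * e ^ 3 * p ^ 2 + 121527 / 81920 * e ^ 3 * p ^ 3 + 1115541 / 655360 * e * p ^ 3 +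
    884893 / 491520 * p ^ 5 + (16 / 15 * p ^ 2) * a0 + (16 / 15 * p) * a1 + (1 / 3 * p) * a2 + (1
    / 3 * p ^ 2) * a3 + (1 / 60 * p ^ 2) * a4 + (1 / 60 * p) * a5 := by
    intros
    positivity
  unfold hDm hDp hRm hRp
  linear_combination key _ _ _ _ _ _ _ _ (sub_nonneg.2 he1) (sub_nonneg.2 hp1) (sub_nonneg.2
    h0.2.1) (sub_nonneg.2 h0.2.2) (sub_nonneg.2 h1.2.1) (sub_nonneg.2 h1.2.2) (sub_nonneg.2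
    h2.2.1) (sub_nonneg.2 h2.2.2)

theorem h_ehp {p e s0 s1 s2 s3 s4 s5 : ℝ}
    (hp0 : 0 ≤ p) (hp1 : p ≤ 1) (he0 : 0 ≤ e) (he1 : e ≤ 1 / 4) (h1 : PS (p / 4) s1 s2) (h2 : PS
    (p / 4 / 4) s2 s3) (h3 : PS (p / 4 / 4 / 4) s3 s4) (h4 : PS (p / 4 / 4 / 4 / 4) s4 s5) :
    hDp (p / 4) e s1 s2 s3 s4 - hRp (p / 4) e s1 s2 s3 s4 ≤ 4 * (hDp (p / 4) e s1 s2 s3 s4 - hRp
    p e s0 s1 s2 s3) := by
  have key : ∀ e' p' a0 a1 a2 a3 a4 a5 : ℝ, 0 ≤ e' → 0 ≤ p' → 0 ≤ a0 → 0 ≤ a1 → 0 ≤ a2 → 0 ≤ a3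
    → 0 ≤ a4 → 0 ≤ a5 → 0 ≤ 3693753 / 2621440 * e ^ 3 * p ^ 3 * e' + 876909 / 51200 * e ^ 3 * p ^
    2 * e' + 317457 / 5242880 * e ^ 2 * p ^ 3 * e' + 1306373 / 1006632960 * p ^ 4 * p' + 574623 /
    20971520 * e * p ^ 3 * e' + 251027651 / 15099494400 * p ^ 3 * p' + 207303 / 204800 * e * p ^
    2 * e' + 7205247 / 83886080 * p ^ 3 * e' + 6432365243 / 128345702400 * p ^ 2 * p' + 43089 /
    16000 * e * p * e' + 28917 / 204800 * p ^ 2 * e' + 2823 / 32000 * p * e' + 67751 / 384000 * p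
    + 599 / 600 + 661017 / 64000 * e ^ 3 * p + 27 / 50 * e ^ 2 + 45849 / 819200 * e ^ 3 * p ^ 2 +
    29799 / 5120 * e ^ 5 * p ^ 3 + 10152358213 / 128345702400 * p ^ 2 + (16 / 15) * a0 + (14 / 45
    * p + 1 / 30 * p ^ 2) * a1 + (13 / 180 * p + 1 / 96 * p ^ 2) * a2 + (1 / 15) * a3 + (1 / 720
    * p) * a4 + (1 / 1920 * p ^ 2) * a5 := by
    intros
    positivity
  unfold hDp hRp
  linear_combination key _ _ _ _ _ _ _ _ (sub_nonneg.2 he1) (sub_nonneg.2 hp1) (sub_nonneg.2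
    h1.2.1) (sub_nonneg.2 h1.2.2) (sub_nonneg.2 h2.2.1) (sub_nonneg.2 h2.2.2) (sub_nonneg.2
    h3.2.1) (sub_nonneg.2 h3.2.2)

theorem h_ehm {p e s0 s1 s2 s3 s4 s5 : ℝ}
    (hp0 : 0 ≤ p) (hp1 : p ≤ 1 / 4) (he0 : 0 ≤ e) (he1 : e ≤ 1 / 4) (h0 : PS p s0 s1) (h1 : PS (p
    / 4) s1 s2) (h2 : PS (p / 4 / 4) s2 s3) (h3 : PS (p / 4 / 4 / 4) s3 s4) (h4 : PS (p / 4 / 4 /
    4 / 4) s4 s5) :
    hDm (p / 4) e s1 s2 s3 s4 - hRm (p / 4) e s1 s2 s3 s4 ≤ 4 * (hDm (p / 4) e s1 s2 s3 s4 - hRm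
    p e s0 s1 s2 s3) := by
  have key : ∀ e' p' a0 a1 a2 a3 a4 a5 a6 a7 : ℝ, 0 ≤ e' → 0 ≤ p' → 0 ≤ a0 → 0 ≤ a1 → 0 ≤ a2 →
    0 ≤ a3 → 0 ≤ a4 → 0 ≤ a5 → 0 ≤ a6 → 0 ≤ a7 → 0 ≤ 693 / 20480 * e ^ 4 * p ^ 3 * e' + 206703 /
    2621440 * e ^ 3 * p ^ 3 * e' + 1911 / 12800 * e ^ 3 * p ^ 2 * e' + 167643 / 5242880 * e ^ 2 *
    p ^ 3 * e' + 15933481753 / 1887436800 * p ^ 3 * p' + 207303 / 204800 * e ^ 2 * p * p' +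
    1775857297 / 838860800 * p ^ 2 * p' + 18843 / 163840 * e * p * p' + 1628073617 / 3355443200 *
    p * p' + 36963 / 32000 * e ^ 3 * p + 9 / 25 * e ^ 2 + 150237 / 4096000 * e ^ 2 * p +
    40706999681 / 201326592000 * p + 109 / 60 + 3789789 / 16384000 * e * p + 128559 / 819200 * e
    ^ 3 * p ^ 2 + 1190007 / 4194304 * e ^ 2 * p ^ 3 + 207207 / 2621440 * e * p ^ 3 + 1007537353 /
    419430400 * p ^ 5 + (128 / 45 + 64 / 45 * p ^ 2) * a0 + (64 / 15 * p) * a1 + (56 / 45 * p) *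
    a2 + (8 / 9 + 2 / 5 * p ^ 2) * a3 + (2 / 45 + 1 / 120 * p ^ 2) * a4 + (7 / 180 * p) * a5 + (1
    / 1440 * p ^ 2) * a6 + (1 / 720 * p) * a7 := by
    intros
    positivity
  unfold hDm hRm
  linear_combination key _ _ _ _ _ _ _ _ _ _ (sub_nonneg.2 he1) (sub_nonneg.2 hp1)
    (sub_nonneg.2 h0.2.1) (sub_nonneg.2 h0.2.2) (sub_nonneg.2 h1.2.1) (sub_nonneg.2 h1.2.2)
    (sub_nonneg.2 h2.2.1) (sub_nonneg.2 h2.2.2) (sub_nonneg.2 h3.2.1) (sub_nonneg.2 h3.2.2)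

theorem h_hep {p e s0 s1 s2 s3 s4 s5 : ℝ}
    (hp0 : 0 ≤ p) (hp1 : p ≤ 1 / 4) (he0 : 0 ≤ e) (he1 : e ≤ 1 / 4) (h0 : PS p s0 s1) (h1 : PS (p
    / 4) s1 s2) (h2 : PS (p / 4 / 4) s2 s3) (h3 : PS (p / 4 / 4 / 4) s3 s4) (h4 : PS (p / 4 / 4 /
    4 / 4) s4 s5) :
    hDp (p / 4) e s1 s2 s3 s4 - hRp p e s0 s1 s2 s3 ≤ 4 * (hDp p e s0 s1 s2 s3 - hRp p e s0 s1 s2
    s3) := by
  have key : ∀ e' p' a0 a1 a2 a3 a4 a5 : ℝ, 0 ≤ e' → 0 ≤ p' → 0 ≤ a0 → 0 ≤ a1 → 0 ≤ a2 → 0 ≤ a3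
    → 0 ≤ a4 → 0 ≤ a5 → 0 ≤ 29799 / 20480 * e ^ 4 * p ^ 3 * e' + 956403 / 327680 * e ^ 3 * p ^ 3
    * e' + 233079 / 51200 * e ^ 3 * p ^ 2 * e' + 3168081 / 1310720 * e * p ^ 3 * e' + 822533 /
    147456 * p ^ 3 * p' + 255513 / 204800 * e ^ 2 * p * p' + 5420081 / 2949120 * p ^ 2 * p' +
    9422653 / 2359296 * p * p' + 35427 / 16000 * p * e' + 142188343 / 1179648000 * p + 599 / 600
    + 401793 / 64000 * e ^ 3 * p + 27 / 50 * e ^ 2 + 2205891 / 4096000 * e ^ 2 * p + 363 / 2048 *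
    e * p ^ 2 + 59313 / 102400 * e ^ 3 * p ^ 2 + 666981 / 327680 * e ^ 3 * p ^ 3 + 12177711 /
    5242880 * e * p ^ 3 + 884893 / 245760 * p ^ 5 + (64 / 45 + 32 / 15 * p ^ 2) * a0 + (32 / 9 *
    p) * a1 + (10 / 9 * p) * a2 + (4 / 9 + 2 / 3 * p ^ 2) * a3 + (1 / 45 + 1 / 30 * p ^ 2) * a4 +
    (1 / 18 * p) * a5 := by
    intros
    positivity
  unfold hDp hRp
  linear_combination key _ _ _ _ _ _ _ _ (sub_nonneg.2 he1) (sub_nonneg.2 hp1) (sub_nonneg.2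
    h0.2.1) (sub_nonneg.2 h0.2.2) (sub_nonneg.2 h1.2.1) (sub_nonneg.2 h1.2.2) (sub_nonneg.2
    h2.2.1) (sub_nonneg.2 h2.2.2)

theorem h_hem {p e s0 s1 s2 s3 s4 s5 : ℝ}
    (hp0 : 0 ≤ p) (hp1 : p ≤ 1 / 4) (he0 : 0 ≤ e) (he1 : e ≤ 1 / 4) (h0 : PS p s0 s1) (h1 : PS (p
    / 4) s1 s2) (h2 : PS (p / 4 / 4) s2 s3) (h3 : PS (p / 4 / 4 / 4) s3 s4) (h4 : PS (p / 4 / 4 /
    4 / 4) s4 s5) :
    hDm (p / 4) e s1 s2 s3 s4 - hRm p e s0 s1 s2 s3 ≤ 4 * (hDm p e s0 s1 s2 s3 - hRm p e s0 s1 s2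
    s3) := by
  have key : ∀ e' p' a0 a1 a2 a3 a4 a5 a6 : ℝ, 0 ≤ e' → 0 ≤ p' → 0 ≤ a0 → 0 ≤ a1 → 0 ≤ a2 → 0 ≤
    a3 → 0 ≤ a4 → 0 ≤ a5 → 0 ≤ a6 → 0 ≤ 26787 / 1600 * e ^ 3 * p ^ 2 * e' + 3168081 / 1310720 * e
    ^ 2 * p ^ 3 * e' + 1486853777 / 1677721600 * p ^ 4 * p' + 16221 / 51200 * e ^ 3 * p * p' +
    314340813593 / 60397977600 * p ^ 3 * p' + 255513 / 204800 * e * p ^ 2 * e' + 119889 / 40960 *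
    p ^ 3 * e' + 6595957054633 / 4107062476800 * p ^ 2 * p' + 14763 / 4000 * e * p * e' + 403893
    / 819200 * p ^ 2 * e' + 40537 / 38400 * p' + 7387311 / 1024000 * e ^ 3 * p + 9 / 25 * e ^ 2 +
    79501 / 51200 + 146577 / 64000 * e * p + 2146633116911 / 657129996288 * p ^ 2 + 11329227 /
    5242880 * e ^ 2 * p ^ 3 + 29169 / 40960 * e ^ 4 * p ^ 3 + 693 / 80 * e ^ 5 * p ^ 3 + (32 /
    15) * a0 + (16 / 9 * p + 16 / 45 * p ^ 2) * a1 + (16 / 45 * p + 1 / 10 * p ^ 2) * a2 + (2 /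
    15) * a3 + (1 / 45 * p) * a4 + (1 / 480 * p ^ 2) * a5 + (1 / 5760 * p ^ 2) * a6 := by
    intros
    positivity
  unfold hDm hRm
  linear_combination key _ _ _ _ _ _ _ _ _ (sub_nonneg.2 he1) (sub_nonneg.2 hp1) (sub_nonneg.2
    h0.2.1) (sub_nonneg.2 h0.2.2) (sub_nonneg.2 h1.2.1) (sub_nonneg.2 h1.2.2) (sub_nonneg.2
    h2.2.1) (sub_nonneg.2 h2.2.2) (sub_nonneg.2 h3.2.2)

theorem h_d0 {p e s0 s1 s2 s3 s4 s5 : ℝ}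
    (hp0 : 0 ≤ p) (hp1 : p ≤ 1 / 4) (he0 : 0 ≤ e) (he1 : e ≤ 1 / 4) (h0 : PS p s0 s1) (h1 : PS (p
    / 4) s1 s2) (h2 : PS (p / 4 / 4) s2 s3) (h3 : PS (p / 4 / 4 / 4) s3 s4) (h4 : PS (p / 4 / 4 /
    4 / 4) s4 s5) :
    2 * hRp p e s0 s1 s2 s3 + 2 * hRm p e s0 s1 s2 s3 + hDp (p / 4) e s1 s2 s3 s4 + hDm (p / 4) e
    s1 s2 s3 s4 ≤ 0 := by
  have key : ∀ e' p' a0 a1 a2 a3 a4 a5 a6 : ℝ, 0 ≤ e' → 0 ≤ p' → 0 ≤ a0 → 0 ≤ a1 → 0 ≤ a2 → 0 ≤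
    a3 → 0 ≤ a4 → 0 ≤ a5 → 0 ≤ a6 → 0 ≤ 48195 / 65536 * e ^ 4 * p ^ 2 * p' + 56499723 / 6553600 *
    e ^ 3 * p ^ 2 * e' + 2075671 / 491520 * p ^ 3 * p' + 101241 / 102400 * e ^ 2 * p * p' +
    1256305 / 1179648 * p ^ 2 * p' + 548697 / 409600 * e * p * e' + 63 / 40960 * e * p * p' +
    3878453 / 23592960 * p * p' + 92563703 / 471859200 * p + 563 / 600 + 80049 / 1638400 * e * p
    + 66813 / 12800 * e ^ 3 * p + 3 / 10 * e ^ 2 + 1520757 / 26214400 * e ^ 3 * p ^ 2 + 18207 /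
    131072 * e ^ 2 * p ^ 3 + 18207 / 131072 * e ^ 3 * p ^ 3 + 11781 / 4096 * e ^ 5 * p ^ 3 +
    724643071 / 603979776 * p ^ 5 + (64 / 45 + 32 / 45 * p ^ 2) * a0 + (32 / 15 * p) * a1 + (2 /
    3 * p) * a2 + (4 / 9 + 7 / 30 * p ^ 2) * a3 + (1 / 45 + 7 / 480 * p ^ 2) * a4 + (1 / 30 * p)
    * a5 + (1 / 5760 * p ^ 2) * a6 := by
    intros
    positivity
  unfold hDm hDp hRm hRp
  linear_combination key _ _ _ _ _ _ _ _ _ (sub_nonneg.2 he1) (sub_nonneg.2 hp1) (sub_nonneg.2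
    h0.2.1) (sub_nonneg.2 h0.2.2) (sub_nonneg.2 h1.2.1) (sub_nonneg.2 h1.2.2) (sub_nonneg.2
    h2.2.1) (sub_nonneg.2 h2.2.2) (sub_nonneg.2 h3.2.2)

theorem h_d1p {p e s0 s1 s2 s3 s4 s5 : ℝ}
    (hp0 : 0 ≤ p) (hp1 : p ≤ 1 / 4) (he0 : 0 ≤ e) (he1 : e ≤ 1 / 4) (h0 : PS p s0 s1) (h1 : PS (p
    / 4) s1 s2) (h2 : PS (p / 4 / 4) s2 s3) (h3 : PS (p / 4 / 4 / 4) s3 s4) (h4 : PS (p / 4 / 4 /
    4 / 4) s4 s5) :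
    2 * hRp p e s0 s1 s2 s3 + hRm p e s0 s1 s2 s3 + hDm (p / 4) e s1 s2 s3 s4 ≤ 0 := by
  have key : ∀ e' p' a0 a1 a2 a3 a4 a5 : ℝ, 0 ≤ e' → 0 ≤ p' → 0 ≤ a0 → 0 ≤ a1 → 0 ≤ a2 → 0 ≤ a3
    → 0 ≤ a4 → 0 ≤ a5 → 0 ≤ 29547 / 40960 * e ^ 3 * p ^ 3 * e' + 13549 / 1600 * e ^ 3 * p ^ 2 *
    e' + 46473 / 1310720 * e ^ 2 * p ^ 3 * e' + 5194817 / 2457600 * p ^ 3 * p' + 30533 / 40960 *
    e * p ^ 2 * e' + 693 / 40960 * p ^ 3 * e' + 269976119 / 501350400 * p ^ 2 * p' + 4721 / 4000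
    * e * p * e' + 129717 / 819200 * p ^ 2 * e' + 193844203 / 2005401600 * p * p' + 151 / 64000 *
    p * e' + 6534688873 / 40108032000 * p + 581 / 900 + 41269 / 8000 * e ^ 3 * p + 7 / 25 * e ^ 2
    + 691 / 10240 * e ^ 3 * p ^ 2 + 287763 / 5242880 * e ^ 2 * p ^ 3 + 231 / 80 * e ^ 5 * p ^ 3 +
    603651497 / 1006632960 * p ^ 5 + (32 / 45 + 16 / 45 * p ^ 2) * a0 + (16 / 15 * p) * a1 + (4 /
    15 * p) * a2 + (2 / 45 + 11 / 90 * p ^ 2) * a3 + (13 / 1440 * p ^ 2) * a4 + (1 / 5760 * p ^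
    2) * a5 := by
    intros
    positivity
  unfold hDm hRm hRp
  linear_combination key _ _ _ _ _ _ _ _ (sub_nonneg.2 he1) (sub_nonneg.2 hp1) (sub_nonneg.2
    h0.2.1) (sub_nonneg.2 h0.2.2) (sub_nonneg.2 h1.2.1) (sub_nonneg.2 h1.2.2) (sub_nonneg.2
    h2.2.1) (sub_nonneg.2 h3.2.2)

theorem h_d1m {p e s0 s1 s2 s3 s4 s5 : ℝ}
    (hp0 : 0 ≤ p) (hp1 : p ≤ 1 / 4) (he0 : 0 ≤ e) (he1 : e ≤ 1 / 4) (h0 : PS p s0 s1) (h1 : PS (p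
    / 4) s1 s2) (h2 : PS (p / 4 / 4) s2 s3) (h3 : PS (p / 4 / 4 / 4) s3 s4) (h4 : PS (p / 4 / 4 /
    4 / 4) s4 s5) :
    2 * hRm p e s0 s1 s2 s3 + hRp p e s0 s1 s2 s3 + hDp (p / 4) e s1 s2 s3 s4 ≤ 0 := by
  have key : ∀ e' p' a0 a1 a2 a3 a4 a5 : ℝ, 0 ≤ e' → 0 ≤ p' → 0 ≤ a0 → 0 ≤ a1 → 0 ≤ a2 → 0 ≤ a3
    → 0 ≤ a4 → 0 ≤ a5 → 0 ≤ 125559 / 327680 * e ^ 4 * p ^ 2 * p' + 28512211 / 6553600 * e ^ 3 * p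
    ^ 2 * e' + 1037573 / 245760 * p ^ 3 * p' + 30533 / 40960 * e ^ 2 * p * p' + 625979 / 589824 *
    p ^ 2 * p' + 2790013 / 4096000 * e ^ 2 * p' + 1553 / 51200 * e * p * p' + 2232871 / 11796480
    * p * p' + 182081 / 64000 * e ^ 3 * p + 814467 / 16384000 * e ^ 2 + 551 / 600 + 151943729 /
    1179648000 * p + 295659 / 1024000 * e * p + 68533 / 1048576 * e ^ 3 * p ^ 2 + 83559 / 1310720
    * e ^ 3 * p ^ 3 + 189903 / 1310720 * e ^ 2 * p ^ 3 + 693 / 40960 * e * p ^ 3 + 29337 / 20480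
    * e ^ 5 * p ^ 3 + 884893 / 737280 * p ^ 5 + (64 / 45 + 32 / 45 * p ^ 2) * a0 + (32 / 15 * p)
    * a1 + (2 / 3 * p) * a2 + (4 / 9 + 2 / 9 * p ^ 2) * a3 + (1 / 45 + 1 / 90 * p ^ 2) * a4 + (1
    / 30 * p) * a5 := by
    intros
    positivity
  unfold hDp hRm hRp
  linear_combination key _ _ _ _ _ _ _ _ (sub_nonneg.2 he1) (sub_nonneg.2 hp1) (sub_nonneg.2
    h0.2.1) (sub_nonneg.2 h0.2.2) (sub_nonneg.2 h1.2.1) (sub_nonneg.2 h1.2.2) (sub_nonneg.2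
    h2.2.1) (sub_nonneg.2 h2.2.2)

theorem h_behm {e s0 s1 s2 s3 s4 s5 ρ κ : ℝ}
    (he0 : 0 ≤ e) (he1 : e ≤ 1 / 4) (h1 : PS (1 / 4) s1 s2) (h2 : PS (1 / 4 / 4) s2 s3) (h3 : PS
    (1 / 4 / 4 / 4) s3 s4) (h4 : PS (1 / 4 / 4 / 4 / 4) s4 s5) (hr : -2 / 3 - 4 / 15 * e - 3 / 25
    * e ^ 2 ≤ ρ ∧ ρ ≤ -2 / 3 - 4 / 15 * e - 7 / 100 * e ^ 2) :
    hDm (1 / 4) e s1 s2 s3 s4 - hRm (1 / 4) e s1 s2 s3 s4 ≤ 4 * (hDm (1 / 4) e s1 s2 s3 s4 - (hRm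
    1 e s0 s1 s2 s3 + ρ)) := by
  have key : ∀ e' a0 a1 a2 : ℝ, 0 ≤ e' → 0 ≤ a0 → 0 ≤ a1 → 0 ≤ a2 → 0 ≤ 693 / 20480 * e ^ 4 *
    e' + 2990379 / 13107200 * e ^ 3 * e' + 167778813 / 131072000 * e ^ 3 + 54847423 / 262144000 *
    e ^ 2 + 1672311943927 / 748683264000 + 253774493 / 196608000 * e + (31 / 2520) * a0 + (1 /
    1440) * a1 + (4) * a2 := by
    intros
    positivity
  unfold hDm hRm
  linear_combination key _ _ _ _ (sub_nonneg.2 he1) (sub_nonneg.2 h2.2.1) (sub_nonneg.2 h3.2.2)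
    (sub_nonneg.2 hr.2) - (-4 / 945) * h1.1

theorem h_bhem {e s0 s1 s2 s3 s4 s5 ρ κ : ℝ}
    (he0 : 0 ≤ e) (he1 : e ≤ 1 / 4) (h1 : PS (1 / 4) s1 s2) (h2 : PS (1 / 4 / 4) s2 s3) (h3 : PS
    (1 / 4 / 4 / 4) s3 s4) (h4 : PS (1 / 4 / 4 / 4 / 4) s4 s5) (hr : -2 / 3 - 4 / 15 * e - 3 / 25
    * e ^ 2 ≤ ρ ∧ ρ ≤ -2 / 3 - 4 / 15 * e - 7 / 100 * e ^ 2) (hk : -(e / 4) * (2 / 3 + 4 / 9 * e
    + 2 / 5 * e ^ 2 + 9 / 50 * e) ≤ κ ∧ κ ≤ 0) :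
    hDm (1 / 4) e s1 s2 s3 s4 - (hRm 1 e s0 s1 s2 s3 + ρ) ≤ 4 * (hDm 1 e s0 s1 s2 s3 - (κ + ρ /
    2) - (hRm 1 e s0 s1 s2 s3 + ρ)) := by
  have key : ∀ e' a0 a1 a2 a3 : ℝ, 0 ≤ e' → 0 ≤ a0 → 0 ≤ a1 → 0 ≤ a2 → 0 ≤ a3 → 0 ≤ 3282891 /
    204800 * e ^ 3 * e' + 47947121 / 32768000 * e * e' + 155239647 / 32768000 * e ^ 3 +
    2488562197451 / 598946611200 + 421674413 / 393216000 * e + 693 / 80 * e ^ 5 + (319 / 10080) *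
    a0 + (1 / 5760) * a1 + (5) * a2 + (4) * a3 := by
    intros
    positivity
  unfold hDm hRm
  linear_combination key _ _ _ _ _ (sub_nonneg.2 he1) (sub_nonneg.2 h2.2.1) (sub_nonneg.2
    h3.2.2) (sub_nonneg.2 hr.2) (sub_nonneg.2 hk.2) - (29 / 945) * h1.1

theorem h_bd0 {e s0 s1 s2 s3 s4 s5 ρ κ : ℝ}
    (he0 : 0 ≤ e) (he1 : e ≤ 1 / 4) (h1 : PS (1 / 4) s1 s2) (h2 : PS (1 / 4 / 4) s2 s3) (h3 : PS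
    (1 / 4 / 4 / 4) s3 s4) (h4 : PS (1 / 4 / 4 / 4 / 4) s4 s5) (hr : -2 / 3 - 4 / 15 * e - 3 / 25
    * e ^ 2 ≤ ρ ∧ ρ ≤ -2 / 3 - 4 / 15 * e - 7 / 100 * e ^ 2) :
    2 * hRp 1 e s0 s1 s2 s3 + 2 * (hRm 1 e s0 s1 s2 s3 + ρ) + hDp (1 / 4) e s1 s2 s3 s4 + hDm (1
    / 4) e s1 s2 s3 s4 ≤ 0 := by
  have key : ∀ e' a0 a1 a2 : ℝ, 0 ≤ e' → 0 ≤ a0 → 0 ≤ a1 → 0 ≤ a2 → 0 ≤ 15028587 / 1638400 * e
    ^ 3 * e' + 4922393 / 3276800 * e * e' + 258226198169 / 199648870400 + 4249777 / 7864320 * e +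
    34595139 / 6553600 * e ^ 3 + 11781 / 4096 * e ^ 5 + (31 / 10080) * a0 + (1 / 5760) * a1 + (2)
    * a2 := by
    intros
    positivity
  unfold hDm hDp hRm hRp
  linear_combination key _ _ _ _ (sub_nonneg.2 he1) (sub_nonneg.2 h2.2.1) (sub_nonneg.2 h3.2.2)
    (sub_nonneg.2 hr.2) - (-1 / 945) * h1.1

theorem h_bd1p {e s0 s1 s2 s3 s4 s5 ρ κ : ℝ}
    (he0 : 0 ≤ e) (he1 : e ≤ 1 / 4) (h1 : PS (1 / 4) s1 s2) (h2 : PS (1 / 4 / 4) s2 s3) (h3 : PS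
    (1 / 4 / 4 / 4) s3 s4) (h4 : PS (1 / 4 / 4 / 4 / 4) s4 s5) (hr : -2 / 3 - 4 / 15 * e - 3 / 25
    * e ^ 2 ≤ ρ ∧ ρ ≤ -2 / 3 - 4 / 15 * e - 7 / 100 * e ^ 2) :
    2 * hRp 1 e s0 s1 s2 s3 + (hRm 1 e s0 s1 s2 s3 + ρ) + hDm (1 / 4) e s1 s2 s3 s4 ≤ 0 := by
  have key : ∀ e' a0 a1 a2 : ℝ, 0 ≤ e' → 0 ≤ a0 → 0 ≤ a1 → 0 ≤ a2 → 0 ≤ 1882007 / 204800 * e ^
    3 * e' + 49543057 / 32768000 * e * e' + 328426588333 / 359367966720 + 75686221 / 393216000 *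
    e + 170087199 / 32768000 * e ^ 3 + 231 / 80 * e ^ 5 + (127 / 10080) * a0 + (1 / 5760) * a1 +
    (1) * a2 := by
    intros
    positivity
  unfold hDm hRm hRp
  linear_combination key _ _ _ _ (sub_nonneg.2 he1) (sub_nonneg.2 h2.2.1) (sub_nonneg.2 h3.2.2)
    (sub_nonneg.2 hr.2) - (1 / 105) * h1.1

theorem h_bd2 {e s0 s1 s2 s3 s4 s5 ρ κ : ℝ}
    (he0 : 0 ≤ e) (he1 : e ≤ 1 / 4) (h1 : PS (1 / 4) s1 s2) (h2 : PS (1 / 4 / 4) s2 s3) (h3 : PS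
    (1 / 4 / 4 / 4) s3 s4) (h4 : PS (1 / 4 / 4 / 4 / 4) s4 s5) (hr : -2 / 3 - 4 / 15 * e - 3 / 25
    * e ^ 2 ≤ ρ ∧ ρ ≤ -2 / 3 - 4 / 15 * e - 7 / 100 * e ^ 2) :
    hRm 1 e s0 s1 s2 s3 + ρ + hDp (1 / 4) e s1 s2 s3 s4 ≤ 0 := by
  have key : ∀ e' a0 a1 : ℝ, 0 ≤ e' → 0 ≤ a0 → 0 ≤ a1 → 0 ≤ 231 / 20480 * e ^ 4 * e' + 2751151
    / 32768000 * e ^ 3 + 319127 / 32768000 * e ^ 2 + 16647937 / 43868160 + 1061291 / 3072000 * e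
    + 22849 / 1638400 * e ^ 4 + (1 / 105) * a0 + (1) * a1 := by
    intros
    positivity
  unfold hDp hRm
  linear_combination key _ _ _ (sub_nonneg.2 he1) (sub_nonneg.2 h2.2.2) (sub_nonneg.2 hr.2) -
    (-2 / 189) * h1.1

theorem h_be0 {e s0 s1 s2 s3 s4 s5 ρ κ : ℝ}
    (he0 : 0 ≤ e) (he1 : e ≤ 1 / 4) (h1 : PS (1 / 4) s1 s2) (h2 : PS (1 / 4 / 4) s2 s3) (h3 : PS
    (1 / 4 / 4 / 4) s3 s4) (h4 : PS (1 / 4 / 4 / 4 / 4) s4 s5) (hr : -2 / 3 - 4 / 15 * e - 3 / 25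
    * e ^ 2 ≤ ρ ∧ ρ ≤ -2 / 3 - 4 / 15 * e - 7 / 100 * e ^ 2) (hk : -(e / 4) * (2 / 3 + 4 / 9 * e
    + 2 / 5 * e ^ 2 + 9 / 50 * e) ≤ κ ∧ κ ≤ 0) :
    hRp 1 e s0 s1 s2 s3 ≤ hDp 1 e s0 s1 s2 s3 + κ := by
  have key : ∀ e' a0 a1 : ℝ, 0 ≤ e' → 0 ≤ a0 → 0 ≤ a1 → 0 ≤ 3471599 / 8568000 * e' ^ 4 +
    4934653 / 685440 * e * e' ^ 3 + 1248236977 / 274176000 * e ^ 2 * e' ^ 2 + 412199983 /
    121856000 * e ^ 3 * e' + 1469232721 / 548352000 * e ^ 4 + (1 / 210) * a0 + (1) * a1 := by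
    intros
    positivity
  unfold hDp hRp
  linear_combination key _ _ _ (sub_nonneg.2 he1) (sub_nonneg.2 h2.2.1) (sub_nonneg.2 hk.1) -
    (1 / 189) * h1.1

end Pool.Agent.MP_450e1b_mp.H55

end

-- part MP_450e1b_mp.H55.IneqF
section

/-
Polynomial inequalities for the closed forms (far zone).
-/

namespace Pool.Agent.MP_450e1b_mp.H55

set_option linter.unusedVariables false

theorem f_thp {p e w s0 s1 s2 s3 s4 s5 : ℝ}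
    (hp0 : 0 ≤ p) (hp1 : p ≤ 1 / 4) (he0 : 0 ≤ e) (he1 : e ≤ 1) (hw0 : 0 ≤ w) (hw1 : w ≤ 1 / 16)
    (h0 : PS p s0 s1) (h1 : PS (p / 4) s1 s2) (h2 : PS (p / 4 / 4) s2 s3) (h3 : PS (p / 4 / 4 /
    4) s3 s4) (h4 : PS (p / 4 / 4 / 4 / 4) s4 s5) :
    fDp p e w s0 s1 s2 s3 - fRp p e w s0 s1 s2 s3 ≤ 2 * (fDm p e w s0 s1 s2 s3 - fRm p e w s0 s1
    s2 s3) := by
  have key : ∀ e' p' w' a0 a1 a2 a3 a4 a5 a6 a7 : ℝ, 0 ≤ e' → 0 ≤ p' → 0 ≤ w' → 0 ≤ a0 → 0 ≤ a1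
    → 0 ≤ a2 → 0 ≤ a3 → 0 ≤ a4 → 0 ≤ a5 → 0 ≤ a6 → 0 ≤ a7 → 0 ≤ w * (19857 / 3200 * e ^ 4 * p ^ 2
    * w * w' + 1306373 / 31457280 * e ^ 2 * p ^ 5 * w' + 19857 / 51200 * e ^ 3 * p ^ 2 * w * e' +
    360171 / 163840 * e ^ 3 * p ^ 2 * w * p' + 1306373 / 503316480 * e ^ 2 * p ^ 4 * p' + 105 /
    1024 * e ^ 2 * p ^ 4 * w' + 14208773 / 2013265920 * e * p ^ 4 * e' + 21 / 64 * e ^ 2 * p ^ 3
    * w' + 4460561331 / 838860800 * e * p ^ 4 * p' + 651 / 4096 * e ^ 2 * p ^ 2 * p' + 3 / 4 * e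
    ^ 2 * p ^ 2 * w' + 4994109689 / 5033164800 * e * p ^ 3 * p' + 15063 / 8000 * e * p * e' + 29
    / 40 * e * p * w' + 37 / 160 * p' + 25617 / 16000 * e ^ 3 * p * w + 3 / 50 * e ^ 2 + 43 / 640
    + 1067241 / 3276800 * e ^ 3 * p ^ 2 * w + 815397 / 409600 * e ^ 2 * p ^ 2 + 44037 / 40960 * e
    ^ 4 * p ^ 3 * w ^ 2 + 33 / 128 * e * p ^ 2 * w + 693 / 160 * e ^ 5 * p ^ 3 * w ^ 3 + 1 / 2 *
    e ^ 2 * p ^ 2 * w ^ 2 + 1 / 64 * p ^ 2 + 43 / 32 * e * p ^ 2 + 2749 / 16000 * e * p +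
    161174708087 / 342255206400 * e * p ^ 3) + (32 / 15 * e * p * w) * a0 + (32 / 15 * e * p ^ 2
    * w) * a1 + (1 / 5 * e * p * w + 3 / 5 * e * p ^ 2 * w) * a2 + (16 / 15 * e ^ 2 * p ^ 2 * w ^
    2) * a3 + (1 / 3 * e ^ 2 * p ^ 2 * w ^ 2) * a4 + (1 / 4 * e * p * w + 1 / 80 * e * p ^ 2 * w)
    * a5 + (1 / 60 * e * p * w) * a6 + (1 / 960 * e * p ^ 2 * w + 1 / 60 * e ^ 2 * p ^ 2 * w ^ 2)
    * a7 := by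
    intros
    positivity
  unfold fDm fDp fRm fRp
  linear_combination key _ _ _ _ _ _ _ _ _ _ _ (sub_nonneg.2 he1) (sub_nonneg.2 hp1)
    (sub_nonneg.2 hw1) (sub_nonneg.2 h0.2.1) (sub_nonneg.2 h0.2.2) (sub_nonneg.2 h1.2.1)
    (sub_nonneg.2 h1.2.2) (sub_nonneg.2 h2.2.1) (sub_nonneg.2 h2.2.2) (sub_nonneg.2 h3.2.1)
    (sub_nonneg.2 h3.2.2) - (-1 / 15) * h0.1 - (1 / 15) * h1.1

theorem f_thm {p e w s0 s1 s2 s3 s4 s5 : ℝ}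
    (hp0 : 0 ≤ p) (hp1 : p ≤ 1 / 4) (he0 : 0 ≤ e) (he1 : e ≤ 1) (hw0 : 0 ≤ w) (hw1 : w ≤ 1 / 16)
    (h0 : PS p s0 s1) (h1 : PS (p / 4) s1 s2) (h2 : PS (p / 4 / 4) s2 s3) (h3 : PS (p / 4 / 4 /
    4) s3 s4) (h4 : PS (p / 4 / 4 / 4 / 4) s4 s5) :
    fDm p e w s0 s1 s2 s3 - fRm p e w s0 s1 s2 s3 ≤ 2 * (fDp p e w s0 s1 s2 s3 - fRp p e w s0 s1
    s2 s3) := by
  have key : ∀ e' p' w' a0 a1 a2 a3 a4 a5 a6 a7 : ℝ, 0 ≤ e' → 0 ≤ p' → 0 ≤ w' → 0 ≤ a0 → 0 ≤ a1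
    → 0 ≤ a2 → 0 ≤ a3 → 0 ≤ a4 → 0 ≤ a5 → 0 ≤ a6 → 0 ≤ a7 → 0 ≤ w * (693 / 320 * e ^ 5 * p ^ 3 *
    w ^ 2 * w' + 693 / 5120 * e ^ 5 * p ^ 3 * w * w' + 693 / 81920 * e ^ 5 * p ^ 3 * w' + 66717 /
    40960 * e ^ 4 * p ^ 3 * w * w' + 693 / 1310720 * e ^ 4 * p ^ 3 * e' + 66717 / 655360 * e ^ 3
    * p ^ 3 * w * e' + 357 / 1600 * e ^ 4 * p ^ 2 * w * w' + 693 / 1310720 * e ^ 3 * p ^ 3 * e' +
    357 / 25600 * e ^ 3 * p ^ 2 * w * e' + 693 / 1310720 * e ^ 2 * p ^ 3 * e' + 1 / 4 * e ^ 2 * p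
    ^ 2 * w * w' + 105584307 / 52428800 * p ^ 4 * e' + 105584307 / 52428800 * p ^ 3 * p' + 125643
    / 51200 * e ^ 2 * p * p' + 2541 / 4352 * p ^ 3 * e' + 33 / 128 * e * p ^ 2 * w' + 3876520419
    / 3565158400 * p ^ 2 * p' + 1889 / 2048 * p ^ 2 * e' + 1 / 20 * e * p * w' + 17475650019 /
    14260633600 * p * p' + 337 / 320 * p * e' + 62931419619 / 57042534400 * p' + 51153649181 /
    228170137600 + 10299 / 4000 * e ^ 3 * p * w + 6 / 25 * e ^ 2 + 404937 / 1024000 * e ^ 2 * p +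
    4191 / 10240 * e ^ 3 * p ^ 2 * w + 1351791 / 655360 * e ^ 3 * p ^ 3 * w + 362187 / 1310720 *
    e ^ 2 * p ^ 3 + 3022612059 / 838860800 * e * p ^ 5 + 21 / 128 * e ^ 2 * p ^ 3 * w + 23 / 64 *
    e ^ 2 * p ^ 2 * w + 105 / 2048 * e ^ 2 * p ^ 4 * w + 884893 / 62914560 * e ^ 2 * p ^ 5 * w) +
    (32 / 15 * e * p ^ 2 * w) * a0 + (32 / 15 * e * p * w) * a1 + (6 / 5 * e * p * w + 8 / 15 * e
    ^ 2 * p ^ 2 * w ^ 2) * a2 + (3 / 5 * e * p ^ 2 * w) * a3 + (1 / 80 * e * p ^ 2 * w) * a4 + (1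
    / 10 * e * p * w + 1 / 6 * e ^ 2 * p ^ 2 * w ^ 2) * a5 + (1 / 960 * e * p ^ 2 * w + 1 / 120 *
    e ^ 2 * p ^ 2 * w ^ 2) * a6 + (1 / 60 * e * p * w) * a7 := by
    intros
    positivity
  unfold fDm fDp fRm fRp
  linear_combination key _ _ _ _ _ _ _ _ _ _ _ (sub_nonneg.2 he1) (sub_nonneg.2 hp1)
    (sub_nonneg.2 hw1) (sub_nonneg.2 h0.2.1) (sub_nonneg.2 h0.2.2) (sub_nonneg.2 h1.2.1)
    (sub_nonneg.2 h1.2.2) (sub_nonneg.2 h2.2.1) (sub_nonneg.2 h2.2.2) (sub_nonneg.2 h3.2.1)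
    (sub_nonneg.2 h3.2.2) - (2 / 15) * h0.1 - (-2 / 15) * h1.1

theorem f_ehp {p e w s0 s1 s2 s3 s4 s5 : ℝ}
    (hp0 : 0 ≤ p) (hp1 : p ≤ 1) (he0 : 0 ≤ e) (he1 : e ≤ 1) (hw0 : 0 ≤ w) (hw1 : w ≤ 1 / 16) (h1
    : PS (p / 4) s1 s2) (h2 : PS (p / 4 / 4) s2 s3) (h3 : PS (p / 4 / 4 / 4) s3 s4) (h4 : PS (p /
    4 / 4 / 4 / 4) s4 s5) :
    fDp (p / 4) e w s1 s2 s3 s4 - fRp (p / 4) e w s1 s2 s3 s4 ≤ 4 * (fDp (p / 4) e w s1 s2 s3 s4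
    - fRp p e w s0 s1 s2 s3) := by
  have key : ∀ e' p' w' a0 a1 a2 a3 a4 a5 a6 a7 : ℝ, 0 ≤ e' → 0 ≤ p' → 0 ≤ w' → 0 ≤ a0 → 0 ≤ a1
    → 0 ≤ a2 → 0 ≤ a3 → 0 ≤ a4 → 0 ≤ a5 → 0 ≤ a6 → 0 ≤ a7 → 0 ≤ w * (3693753 / 2621440 * e ^ 4 *
    p ^ 2 * w ^ 2 * p' + 242957469 / 13107200 * e ^ 4 * p * w ^ 2 * p' + 1486853777 / 26843545600
    * e ^ 2 * p ^ 4 * w * p' + 242957469 / 13107200 * e ^ 4 * w ^ 2 * p' + 842121 / 10485760 * e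
    ^ 3 * p ^ 2 * w * p' + 5164037777 / 26843545600 * e ^ 2 * p ^ 3 * w * p' + 242957469 /
    13107200 * e ^ 4 * w * w' + 16999839377 / 26843545600 * e ^ 2 * p ^ 2 * w * p' + 31215080371
    / 2576980377600 * e * p ^ 4 * p' + 242957469 / 209715200 * e ^ 4 * w' + 567 / 262144 * e ^ 2
    * p ^ 2 * p' + 44682245777 / 26843545600 * e ^ 2 * p ^ 2 * w' + 242957469 / 3355443200 * e ^
    3 * e' + 242957469 / 3355443200 * e ^ 2 * e' + 43089 / 16000 * e * p * e' + 329 / 160 * e * p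
    * w' + 47 / 640 * p' + 673 / 640 + 661017 / 64000 * e ^ 3 * p * w + 1568981859 / 3355443200 *
    e ^ 2 + 44642487 / 10485760 * e ^ 3 * p ^ 2 * w + 11 / 16 * e ^ 2 * p ^ 2 * w ^ 2 + 29799 /
    5120 * e ^ 5 * p ^ 3 * w ^ 3 + 5003018723 / 85899345920 * e ^ 2 * p ^ 2 + 75 / 2048 * e * p ^
    2 * w + 1 / 1024 * p ^ 2 + 589 / 512 * e * p ^ 2 + 21019 / 64000 * e * p + 92379 / 278528 * e
    * p ^ 3 + 193797468941 / 2576980377600 * e * p ^ 4) + (40 / 9 * e * p * w) * a0 + (14 / 45 *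
    e * p ^ 2 * w + 64 / 45 * e ^ 2 * p ^ 2 * w ^ 2) * a1 + (23 / 240 * e * p ^ 2 * w + 2 / 5 * e
    ^ 2 * p ^ 2 * w ^ 2) * a2 + (27 / 20 * e * p * w) * a3 + (13 / 240 * e * p * w) * a4 + (17 /
    3840 * e * p ^ 2 * w + 1 / 120 * e ^ 2 * p ^ 2 * w ^ 2) * a5 + (1 / 720 * e * p * w) * a6 +
    (1 / 46080 * e * p ^ 2 * w + 1 / 1440 * e ^ 2 * p ^ 2 * w ^ 2) * a7 := by
    intros
    positivity
  unfold fDp fRp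
  linear_combination key _ _ _ _ _ _ _ _ _ _ _ (sub_nonneg.2 he1) (sub_nonneg.2 hp1)
    (sub_nonneg.2 hw1) (sub_nonneg.2 h1.2.1) (sub_nonneg.2 h1.2.2) (sub_nonneg.2 h2.2.1)
    (sub_nonneg.2 h2.2.2) (sub_nonneg.2 h3.2.1) (sub_nonneg.2 h3.2.2) (sub_nonneg.2 h4.2.1)
    (sub_nonneg.2 h4.2.2) - (-1 / 15) * h1.1 - (1 / 15) * h2.1

theorem f_ehm {p e w s0 s1 s2 s3 s4 s5 : ℝ}
    (hp0 : 0 ≤ p) (hp1 : p ≤ 1 / 4) (he0 : 0 ≤ e) (he1 : e ≤ 1) (hw0 : 0 ≤ w) (hw1 : w ≤ 1 / 16)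
    (h0 : PS p s0 s1) (h1 : PS (p / 4) s1 s2) (h2 : PS (p / 4 / 4) s2 s3) (h3 : PS (p / 4 / 4 /
    4) s3 s4) (h4 : PS (p / 4 / 4 / 4 / 4) s4 s5) :
    fDm (p / 4) e w s1 s2 s3 s4 - fRm (p / 4) e w s1 s2 s3 s4 ≤ 4 * (fDm (p / 4) e w s1 s2 s3 s4
    - fRm p e w s0 s1 s2 s3) := by
  have key : ∀ e' p' w' a0 a1 a2 a3 a4 a5 a6 a7 : ℝ, 0 ≤ e' → 0 ≤ p' → 0 ≤ w' → 0 ≤ a0 → 0 ≤ a1
    → 0 ≤ a2 → 0 ≤ a3 → 0 ≤ a4 → 0 ≤ a5 → 0 ≤ a6 → 0 ≤ a7 → 0 ≤ w * (693 / 20480 * e ^ 5 * p ^ 3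
    * w ^ 2 * w' + 693 / 327680 * e ^ 5 * p ^ 3 * w * w' + 693 / 5242880 * e ^ 5 * p ^ 3 * w' +
    184527 / 2621440 * e ^ 4 * p ^ 3 * w * w' + 693 / 83886080 * e ^ 4 * p ^ 3 * e' + 184527 /
    41943040 * e ^ 4 * p ^ 3 * w' + 1911 / 12800 * e ^ 4 * p ^ 2 * w * w' + 190071 / 671088640 *
    e ^ 3 * p ^ 3 * e' + 1911 / 204800 * e ^ 3 * p ^ 2 * w * e' + 105903 / 10485760 * e ^ 3 * p ^
    2 * w * p' + 190071 / 671088640 * e ^ 2 * p ^ 3 * e' + 1 / 64 * e ^ 2 * p ^ 2 * w * w' +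
    963921 / 819200 * e * p ^ 2 * e' + 75 / 2048 * e * p ^ 2 * w' + 236249 / 204800 * p ^ 2 * e'
    + 3 / 40 * e * p * w' + 245049 / 204800 * p * p' + 171 / 640 * p * e' + 347449 / 819200 * p'
    + 36963 / 32000 * e ^ 3 * p * w + 9 / 25 * e ^ 2 + 18543 / 64000 * e ^ 2 * p + 2110151 /
    3276800 + 38252181 / 209715200 * e ^ 3 * p ^ 2 * w + 249471369 / 671088640 * e ^ 2 * p ^ 3 +
    8169 / 278528 * e * p ^ 3 + 94959821 / 40265318400 * e * p ^ 4 + 21145220699 / 2576980377600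
    * e * p ^ 5 + 21 / 8192 * e ^ 2 * p ^ 3 * w + 23 / 1024 * e ^ 2 * p ^ 2 * w + 105 / 524288 *
    e ^ 2 * p ^ 4 * w + 884893 / 64424509440 * e ^ 2 * p ^ 5 * w) + (14 / 45 * e * p ^ 2 * w) *
    a0 + (32 / 45 * e * p * w) * a1 + (8 / 15 * e * p * w + 1 / 30 * e ^ 2 * p ^ 2 * w ^ 2) * a2
    + (23 / 240 * e * p ^ 2 * w) * a3 + (17 / 3840 * e * p ^ 2 * w) * a4 + (1 / 12 * e * p * w +
    1 / 96 * e ^ 2 * p ^ 2 * w ^ 2) * a5 + (1 / 46080 * e * p ^ 2 * w + 1 / 1920 * e ^ 2 * p ^ 2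
    * w ^ 2) * a6 + (1 / 720 * e * p * w) * a7 := by
    intros
    positivity
  unfold fDm fRm
  linear_combination key _ _ _ _ _ _ _ _ _ _ _ (sub_nonneg.2 he1) (sub_nonneg.2 hp1)
    (sub_nonneg.2 hw1) (sub_nonneg.2 h1.2.1) (sub_nonneg.2 h1.2.2) (sub_nonneg.2 h2.2.1)
    (sub_nonneg.2 h2.2.2) (sub_nonneg.2 h3.2.1) (sub_nonneg.2 h3.2.2) (sub_nonneg.2 h4.2.1)
    (sub_nonneg.2 h4.2.2) - (8 / 45) * h0.1 - (-4 / 45) * h1.1 - (-4 / 45) * h2.1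

theorem f_hep {p e w s0 s1 s2 s3 s4 s5 : ℝ}
    (hp0 : 0 ≤ p) (hp1 : p ≤ 1 / 4) (he0 : 0 ≤ e) (he1 : e ≤ 1) (hw0 : 0 ≤ w) (hw1 : w ≤ 1 / 16)
    (h0 : PS p s0 s1) (h1 : PS (p / 4) s1 s2) (h2 : PS (p / 4 / 4) s2 s3) (h3 : PS (p / 4 / 4 /
    4) s3 s4) (h4 : PS (p / 4 / 4 / 4 / 4) s4 s5) :
    fDp (p / 4) e w s1 s2 s3 s4 - fRp p e w s0 s1 s2 s3 ≤ 4 * (fDp p e w s0 s1 s2 s3 - fRp p e w
    s0 s1 s2 s3) := by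
  have key : ∀ e' p' w' a0 a1 a2 a3 a4 a5 a6 a7 : ℝ, 0 ≤ e' → 0 ≤ p' → 0 ≤ w' → 0 ≤ a0 → 0 ≤ a1
    → 0 ≤ a2 → 0 ≤ a3 → 0 ≤ a4 → 0 ≤ a5 → 0 ≤ a6 → 0 ≤ a7 → 0 ≤ w * (29799 / 20480 * e ^ 5 * p ^
    3 * w ^ 2 * w' + 29799 / 327680 * e ^ 5 * p ^ 3 * w * w' + 29799 / 5242880 * e ^ 5 * p ^ 3 *
    w' + 837207 / 327680 * e ^ 4 * p ^ 3 * w * w' + 29799 / 83886080 * e ^ 4 * p ^ 3 * e' +
    837207 / 5242880 * e ^ 3 * p ^ 3 * w * e' + 233079 / 51200 * e ^ 4 * p ^ 2 * w * w' + 29799 /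
    83886080 * e ^ 3 * p ^ 3 * e' + 233079 / 819200 * e ^ 3 * p ^ 2 * w * e' + 29799 / 83886080 *
    e ^ 2 * p ^ 3 * e' + 11 / 64 * e ^ 2 * p ^ 2 * w * w' + 557339331 / 209715200 * p ^ 4 * e' +
    557339331 / 209715200 * p ^ 3 * p' + 97293 / 25600 * e * p ^ 2 * e' + 47397 / 69632 * p ^ 3 *
    e' + 45 / 128 * e * p ^ 2 * w' + 19181674227 / 14260633600 * p ^ 2 * p' + 242311 / 51200 * p
    ^ 2 * e' + 91 / 160 * e * p * w' + 292708425459 / 57042534400 * p * p' + 2107 / 2560 * p * e'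
    + 392087215859 / 228170137600 * p' + 634678403341 / 912680550400 + 401793 / 64000 * e ^ 3 * p
    * w + 27 / 50 * e ^ 2 + 54429 / 64000 * e ^ 2 * p + 1173741 / 819200 * e ^ 3 * p ^ 2 * w +
    14147721 / 5242880 * e ^ 3 * p ^ 3 * w + 46418841 / 83886080 * e ^ 2 * p ^ 3 + 806465203 /
    167772160 * e * p ^ 5 + 903 / 8192 * e ^ 2 * p ^ 3 * w + 253 / 1024 * e ^ 2 * p ^ 2 * w +
    17955 / 524288 * e ^ 2 * p ^ 4 * w + 1007537353 / 107374182400 * e ^ 2 * p ^ 5 * w) + (128 /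
    45 * e * p ^ 2 * w) * a0 + (128 / 45 * e * p * w) * a1 + (12 / 5 * e * p * w + 16 / 45 * e ^
    2 * p ^ 2 * w ^ 2) * a2 + (11 / 15 * e * p ^ 2 * w) * a3 + (19 / 60 * e * p * w + 1 / 240 * e
    * p ^ 2 * w + 1 / 10 * e ^ 2 * p ^ 2 * w ^ 2) * a4 + (7 / 2880 * e * p ^ 2 * w + 1 / 480 * e
    ^ 2 * p ^ 2 * w ^ 2) * a5 + (19 / 720 * e * p * w) * a6 + (1 / 5760 * e ^ 2 * p ^ 2 * w ^ 2)
    * a7 := by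
    intros
    positivity
  unfold fDp fRp
  linear_combination key _ _ _ _ _ _ _ _ _ _ _ (sub_nonneg.2 he1) (sub_nonneg.2 hp1)
    (sub_nonneg.2 hw1) (sub_nonneg.2 h0.2.1) (sub_nonneg.2 h0.2.2) (sub_nonneg.2 h1.2.1)
    (sub_nonneg.2 h1.2.2) (sub_nonneg.2 h2.2.2) (sub_nonneg.2 h3.2.1) (sub_nonneg.2 h3.2.2)
    (sub_nonneg.2 h4.2.1) - (4 / 15) * h0.1 - (-4 / 15) * h1.1

theorem f_hem {p e w s0 s1 s2 s3 s4 s5 : ℝ}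
    (hp0 : 0 ≤ p) (hp1 : p ≤ 1 / 4) (he0 : 0 ≤ e) (he1 : e ≤ 1) (hw0 : 0 ≤ w) (hw1 : w ≤ 1 / 16)
    (h0 : PS p s0 s1) (h1 : PS (p / 4) s1 s2) (h2 : PS (p / 4 / 4) s2 s3) (h3 : PS (p / 4 / 4 /
    4) s3 s4) (h4 : PS (p / 4 / 4 / 4 / 4) s4 s5) :
    fDm (p / 4) e w s1 s2 s3 s4 - fRm p e w s0 s1 s2 s3 ≤ 4 * (fDm p e w s0 s1 s2 s3 - fRm p e w
    s0 s1 s2 s3) := by
  have key : ∀ e' p' w' a0 a1 a2 a3 a4 a5 a6 a7 : ℝ, 0 ≤ e' → 0 ≤ p' → 0 ≤ w' → 0 ≤ a0 → 0 ≤ a1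
    → 0 ≤ a2 → 0 ≤ a3 → 0 ≤ a4 → 0 ≤ a5 → 0 ≤ a6 → 0 ≤ a7 → 0 ≤ w * (26787 / 1600 * e ^ 4 * p ^ 2
    * w * w' + 1306373 / 15728640 * e ^ 2 * p ^ 5 * w' + 26787 / 25600 * e ^ 3 * p ^ 2 * w * e' +
    3893841 / 1310720 * e ^ 3 * p ^ 2 * w * p' + 1306373 / 251658240 * e ^ 2 * p ^ 4 * p' + 105 /
    512 * e ^ 2 * p ^ 4 * w' + 14208773 / 1006632960 * e * p ^ 4 * e' + 21 / 32 * e ^ 2 * p ^ 3 *
    w' + 1189778123 / 167772160 * e * p ^ 4 * p' + 35133 / 262144 * e ^ 2 * p ^ 2 * p' + 3 / 2 *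
    e ^ 2 * p ^ 2 * w' + 12903042199 / 10066329600 * e * p ^ 3 * p' + 14763 / 4000 * e * p * e' +
    39 / 20 * e * p * w' + 49 / 160 * p' + 58347 / 8000 * e ^ 3 * p * w + 9 / 25 * e ^ 2 + 431 /
    640 + 54515307 / 26214400 * e ^ 3 * p ^ 2 * w + 63586443 / 26214400 * e ^ 2 * p ^ 2 + 29169 /
    40960 * e ^ 4 * p ^ 3 * w ^ 2 + 45 / 128 * e * p ^ 2 * w + 693 / 80 * e ^ 5 * p ^ 3 * w ^ 3 +
    1 * e ^ 2 * p ^ 2 * w ^ 2 + 11 / 1024 * p ^ 2 + 151 / 64 * e * p ^ 2 + 3099 / 8000 * e * p +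
    554379405817 / 684510412800 * e * p ^ 3) + (128 / 45 * e * p * w) * a0 + (128 / 45 * e * p ^
    2 * w) * a1 + (34 / 15 * e * p * w + 11 / 15 * e * p ^ 2 * w) * a2 + (32 / 15 * e ^ 2 * p ^ 2
    * w ^ 2) * a3 + (1 / 240 * e * p ^ 2 * w + 2 / 3 * e ^ 2 * p ^ 2 * w ^ 2) * a4 + (29 / 30 * e
    * p * w) * a5 + (1 / 18 * e * p * w) * a6 + (7 / 2880 * e * p ^ 2 * w + 1 / 30 * e ^ 2 * p ^
    2 * w ^ 2) * a7 := by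
    intros
    positivity
  unfold fDm fRm
  linear_combination key _ _ _ _ _ _ _ _ _ _ _ (sub_nonneg.2 he1) (sub_nonneg.2 hp1)
    (sub_nonneg.2 hw1) (sub_nonneg.2 h0.2.1) (sub_nonneg.2 h0.2.2) (sub_nonneg.2 h1.2.1)
    (sub_nonneg.2 h1.2.2) (sub_nonneg.2 h2.2.1) (sub_nonneg.2 h2.2.2) (sub_nonneg.2 h3.2.1)
    (sub_nonneg.2 h3.2.2) - (-2 / 45) * h0.1 - (1 / 45) * h1.1 - (1 / 45) * h2.1

theorem f_d0 {p e w s0 s1 s2 s3 s4 s5 : ℝ}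
    (hp0 : 0 ≤ p) (hp1 : p ≤ 1 / 4) (he0 : 0 ≤ e) (he1 : e ≤ 1) (hw0 : 0 ≤ w) (hw1 : w ≤ 1 / 16)
    (h0 : PS p s0 s1) (h1 : PS (p / 4) s1 s2) (h2 : PS (p / 4 / 4) s2 s3) (h3 : PS (p / 4 / 4 /
    4) s3 s4) (h4 : PS (p / 4 / 4 / 4 / 4) s4 s5) :
    2 * fRp p e w s0 s1 s2 s3 + 2 * fRm p e w s0 s1 s2 s3 + fDp (p / 4) e w s1 s2 s3 s4 + fDm (p
    / 4) e w s1 s2 s3 s4 ≤ 0 := by
  have key : ∀ e' p' w' a0 a1 a2 a3 a4 a5 a6 : ℝ, 0 ≤ e' → 0 ≤ p' → 0 ≤ w' → 0 ≤ a0 → 0 ≤ a1 →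
    0 ≤ a2 → 0 ≤ a3 → 0 ≤ a4 → 0 ≤ a5 → 0 ≤ a6 → 0 ≤ w * (48195 / 65536 * e ^ 4 * p ^ 2 * w ^ 2 *
    p' + 56499723 / 6553600 * e ^ 4 * p * w ^ 2 * p' + 1070003783 / 38654705664 * e ^ 2 * p ^ 4 *
    w * p' + 56499723 / 26214400 * e ^ 4 * w ^ 2 * p' + 11781 / 262144 * e ^ 3 * p ^ 2 * w * p' +
    11629327943 / 154618822656 * e ^ 2 * p ^ 3 * w * p' + 56499723 / 104857600 * e ^ 4 * w * w' +
    146392315463 / 618475290624 * e ^ 2 * p ^ 3 * w' + 56499723 / 1677721600 * e ^ 4 * w' + 63 /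
    128 * e ^ 2 * p * w * p' + 56499723 / 26843545600 * e ^ 3 * e' + 101241 / 204800 * e * p ^ 2
    * e' + 63 / 512 * e ^ 2 * w * p' + 56499723 / 26843545600 * e ^ 2 * e' + 63 / 2048 * e ^ 2 *
    w' + 13983 / 12800 * e ^ 2 * p' + 31 / 32 * e * p * w' + 21 / 1024 * p * p' + 5 / 8 + 66813 /
    12800 * e ^ 3 * p * w + 613835253 / 26843545600 * e ^ 2 + 11545191 / 5242880 * e ^ 3 * p ^ 2
    * w + 21 / 64 * e ^ 2 * p ^ 2 * w ^ 2 + 11781 / 4096 * e ^ 5 * p ^ 3 * w ^ 3 + 107 / 4096 * p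
    + 1672908016057 / 9895604649984 * e ^ 2 * p ^ 3 + 16359 / 204800 * e * p ^ 2 + 641 / 512 * e
    * p + 735 / 4096 * e * p ^ 3 + 6194251 / 125829120 * e * p ^ 4) + (28 / 15 * e * p * w) * a0
    + (32 / 45 * e ^ 2 * p ^ 2 * w ^ 2) * a1 + (7 / 30 * e ^ 2 * p ^ 2 * w ^ 2) * a2 + (7 / 12 *
    e * p * w) * a3 + (7 / 240 * e * p * w) * a4 + (7 / 480 * e ^ 2 * p ^ 2 * w ^ 2) * a5 + (1 /
    5760 * e ^ 2 * p ^ 2 * w ^ 2) * a6 := by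
    intros
    positivity
  unfold fDm fDp fRm fRp
  linear_combination key _ _ _ _ _ _ _ _ _ _ (sub_nonneg.2 he1) (sub_nonneg.2 hp1)
    (sub_nonneg.2 hw1) (sub_nonneg.2 h1.2.1) (sub_nonneg.2 h1.2.2) (sub_nonneg.2 h2.2.1)
    (sub_nonneg.2 h2.2.2) (sub_nonneg.2 h3.2.1) (sub_nonneg.2 h3.2.2) (sub_nonneg.2 h4.2.1) - (4
    / 45) * h0.1 - (-1 / 9) * h1.1 - (1 / 45) * h2.1

theorem f_d1p {p e w s0 s1 s2 s3 s4 s5 : ℝ}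
    (hp0 : 0 ≤ p) (hp1 : p ≤ 1 / 4) (he0 : 0 ≤ e) (he1 : e ≤ 1) (hw0 : 0 ≤ w) (hw1 : w ≤ 1 / 16)
    (h0 : PS p s0 s1) (h1 : PS (p / 4) s1 s2) (h2 : PS (p / 4 / 4) s2 s3) (h3 : PS (p / 4 / 4 /
    4) s3 s4) (h4 : PS (p / 4 / 4 / 4 / 4) s4 s5) :
    2 * fRp p e w s0 s1 s2 s3 + fRm p e w s0 s1 s2 s3 + fDm (p / 4) e w s1 s2 s3 s4 ≤ 0 := by
  have key : ∀ e' p' w' a0 a1 a2 a3 a4 a5 : ℝ, 0 ≤ e' → 0 ≤ p' → 0 ≤ w' → 0 ≤ a0 → 0 ≤ a1 → 0 ≤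
    a2 → 0 ≤ a3 → 0 ≤ a4 → 0 ≤ a5 → 0 ≤ w * (29547 / 40960 * e ^ 4 * p ^ 3 * w * w' + 29547 /
    655360 * e ^ 4 * p ^ 3 * w' + 13549 / 1600 * e ^ 4 * p ^ 2 * w * w' + 1306373 / 47185920 * e
    ^ 2 * p ^ 5 * w' + 29547 / 10485760 * e ^ 3 * p ^ 3 * e' + 13549 / 25600 * e ^ 3 * p ^ 2 * w
    * e' + 52017 / 1310720 * e ^ 3 * p ^ 2 * w * p' + 1306373 / 754974720 * e * p ^ 5 * e' + 35 /
    512 * e ^ 2 * p ^ 4 * w' + 29547 / 10485760 * e ^ 2 * p ^ 3 * e' + 35 / 8192 * e * p ^ 4 * e'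
    + 7 / 32 * e ^ 2 * p ^ 3 * w' + 1306373 / 301989888 * e * p ^ 4 * p' + 1 / 2 * e ^ 2 * p ^ 2
    * w' + 50817 / 204800 * e * p ^ 2 * e' + 4721 / 4000 * e * p * e' + 59 / 60 * e * p * w' + 31
    / 3072 * p * p' + 9 / 20480 * p' + 143333 / 245760 + 41269 / 8000 * e ^ 3 * p * w + 7 / 25 *
    e ^ 2 + 43131403 / 26214400 * e ^ 3 * p ^ 2 * w + 1 / 3 * e ^ 2 * p ^ 2 * w ^ 2 + 231 / 80 *
    e ^ 5 * p ^ 3 * w ^ 3 + 1 / 128 * e * p ^ 2 * w + 787213 / 10485760 * e ^ 2 * p ^ 3 + 196349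
    / 614400 * e * p ^ 2 + 3799 / 24000 * e * p + 2989 / 17408 * e * p ^ 3 + 1237434883 /
    30198988800 * e * p ^ 4) + (2 * e * p * w) * a0 + (1 / 15 * e * p ^ 2 * w + 32 / 45 * e ^ 2 *
    p ^ 2 * w ^ 2) * a1 + (1 / 48 * e * p ^ 2 * w + 2 / 9 * e ^ 2 * p ^ 2 * w ^ 2) * a2 + (19 /
    30 * e * p * w) * a3 + (1 / 30 * e * p * w) * a4 + (1 / 960 * e * p ^ 2 * w + 1 / 90 * e ^ 2
    * p ^ 2 * w ^ 2) * a5 := by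
    intros
    positivity
  unfold fDm fRm fRp
  linear_combination key _ _ _ _ _ _ _ _ _ (sub_nonneg.2 he1) (sub_nonneg.2 hp1) (sub_nonneg.2
    hw1) (sub_nonneg.2 h1.2.1) (sub_nonneg.2 h1.2.2) (sub_nonneg.2 h2.2.1) (sub_nonneg.2 h2.2.2)
    (sub_nonneg.2 h3.2.1) (sub_nonneg.2 h3.2.2) - (2 / 45) * h0.1 - (-1 / 15) * h1.1 - (1 / 45) *
    h2.1

theorem f_d1m {p e w s0 s1 s2 s3 s4 s5 : ℝ}
    (hp0 : 0 ≤ p) (hp1 : p ≤ 1 / 4) (he0 : 0 ≤ e) (he1 : e ≤ 1) (hw0 : 0 ≤ w) (hw1 : w ≤ 1 / 16)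
    (h0 : PS p s0 s1) (h1 : PS (p / 4) s1 s2) (h2 : PS (p / 4 / 4) s2 s3) (h3 : PS (p / 4 / 4 /
    4) s3 s4) (h4 : PS (p / 4 / 4 / 4 / 4) s4 s5) :
    2 * fRm p e w s0 s1 s2 s3 + fRp p e w s0 s1 s2 s3 + fDp (p / 4) e w s1 s2 s3 s4 ≤ 0 := by
  have key : ∀ e' p' w' a0 a1 a2 a3 a4 a5 a6 : ℝ, 0 ≤ e' → 0 ≤ p' → 0 ≤ w' → 0 ≤ a0 → 0 ≤ a1 →
    0 ≤ a2 → 0 ≤ a3 → 0 ≤ a4 → 0 ≤ a5 → 0 ≤ a6 → 0 ≤ w * (125559 / 327680 * e ^ 3 * p ^ 3 * w ^ 2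
    * e' + 217847 / 51200 * e ^ 3 * p ^ 2 * w ^ 2 * e' + 125559 / 327680 * e ^ 2 * p ^ 3 * w ^ 2
    * e' + 891522337 / 64424509440 * e * p ^ 5 * w * e' + 4557 / 163840 * e ^ 3 * p ^ 2 * w * p'
    + 217847 / 51200 * e ^ 3 * p ^ 2 * w * w' + 17885 / 524288 * e * p ^ 4 * w * e' + 125559 /
    327680 * e ^ 2 * p ^ 2 * w ^ 2 * p' + 891522337 / 64424509440 * e * p ^ 5 * w' + 889 / 8192 *
    e ^ 2 * p ^ 3 * w' + 17885 / 524288 * e * p ^ 4 * w' + 31 / 128 * e * p ^ 2 * w * e' + 13531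
    / 25600 * e * p ^ 2 * e' + 1 / 4 * p ^ 2 * w * e' + 1 / 4 * p ^ 2 * w' + 31667 / 64000 * e *
    p * e' + 17693 / 76800 * e * p * p' + 241 / 480 * e * p * w' + 7 / 192 * p * p' + 182081 /
    64000 * e ^ 3 * p * w + 11 / 50 * e ^ 2 + 11 / 24 + 2884019 / 3276800 * e ^ 3 * p ^ 2 * w +
    47 / 1280 * p + 23303 / 131072 * e ^ 2 * p ^ 3 + 29337 / 20480 * e ^ 5 * p ^ 3 * w ^ 3 +
    258203 / 3932160 * e ^ 2 * p ^ 2 * w ^ 2 + 14709 / 512000 * e * p + 6811 / 69632 * e * p ^ 3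
    + 666231 / 26214400 * e * p ^ 4 + 920738527 / 1030792151040 * e * p ^ 5) + (4 / 5 * e * p * w
    + 1 / 15 * e * p ^ 2 * w) * a0 + (16 / 45 * e ^ 2 * p ^ 2 * w ^ 2) * a1 + (11 / 90 * e ^ 2 *
    p ^ 2 * w ^ 2) * a2 + (11 / 60 * e * p * w + 1 / 48 * e * p ^ 2 * w) * a3 + (1 / 960 * e * p
    ^ 2 * w) * a4 + (1 / 240 * e * p * w + 13 / 1440 * e ^ 2 * p ^ 2 * w ^ 2) * a5 + (1 / 5760 *
    e ^ 2 * p ^ 2 * w ^ 2) * a6 := by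
    intros
    positivity
  unfold fDp fRm fRp
  linear_combination key _ _ _ _ _ _ _ _ _ _ (sub_nonneg.2 he1) (sub_nonneg.2 hp1)
    (sub_nonneg.2 hw1) (sub_nonneg.2 h1.2.1) (sub_nonneg.2 h1.2.2) (sub_nonneg.2 h2.2.1)
    (sub_nonneg.2 h2.2.2) (sub_nonneg.2 h3.2.1) (sub_nonneg.2 h3.2.2) (sub_nonneg.2 h4.2.1) - (4
    / 45) * h0.1 - (-4 / 45) * h1.1

end Pool.Agent.MP_450e1b_mp.H55

end
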