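import Mathlib
import Pool.Agent.MP_450e1b_mp.Mg.H55_IneqF
import Pool.Agent.MP_450e1b_mp.Mg.Upper

-- part MP_450e1b_mp.H55.Lat
section

/-
The slack is nonnegative on a pair of cells as soon as it is nonnegative at the corners.
-/

namespace Pool.Agent.MP_450e1b_mp.H55

/-- Mirror symmetry of the slack. -/
theorem Gl_mirror {V l : ℕ → ℕ → ℝ} (hV : ∀ x y, V y x = -V x y) (u : ℕ) (c : ℝ)
    (x y x₁ y₁ : ℕ) (v v' : ℝ) :
    Gl V l u c x y x₁ y₁ v v' = Gl V l u c y₁ x₁ y x v' v := by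
  unfold Gl
  rw [hV x₁ y₁, hV x y]
  ring

theorem Adm_mirror {x y x₁ y₁ : ℕ} {v v' : ℝ} (hs : Step x y x₁ y₁) (h : Adm x y x₁ y₁ v v') :
    Step y₁ x₁ y x ∧ Adm y₁ x₁ y x v' v := by
  obtain ⟨⟨k, hk⟩, h1, h2, h3⟩ := hs
  obtain ⟨a1, a2, a3, a4, a5, a6, a7, a8⟩ := h
  refine ⟨⟨?_, by omega, by omega, by omega⟩, a3, a4, a1, a2, fun h => a6 h.symm,
    fun h => a5 h.symm, fun h => a8 (by omega), fun h => a7 (by omega)⟩
  rw [Nat.odd_iff]
  omega

/-- `bf` is bilinear, and affine unless `x = 1`, `x₁ = 2`. -/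
theorem bf_form (x x₁ : ℕ) : ∃ A B C E : ℝ, (¬(x = 1 ∧ x₁ = 2) → x ≤ x₁ → E = 0) ∧
    ∀ v v', bf x x₁ v v' = A + B * v + C * v' + E * (v * v') := by
  unfold bf
  by_cases h0 : x₁ = 0
  · exact ⟨0, 0, 0, 0, fun _ _ => rfl, fun v v' => by simp [h0]⟩
  by_cases h2 : x₁ ≤ 2
  · by_cases h3 : x = 0
    · exact ⟨-(1 - (1 / 2) ^ x₁) / 4, 0, 0, 0, fun _ _ => rfl, fun v v' => by
        rw [if_neg h0, if_pos h2, if_pos h3]; ring⟩
    by_cases h4 : x = x₁
    · exact ⟨3 / 4 * (1 - (1 / 2) ^ x₁), 1, -1, 0, fun _ _ => rfl, fun v v' => by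
        rw [if_neg h0, if_pos h2, if_neg h3, if_pos h4]; ring⟩
    · exact ⟨-23 / 16, 5 / 2, 1, -2, fun h h' => absurd ⟨by omega, by omega⟩ h, fun v v' => by
        rw [if_neg h0, if_pos h2, if_neg h3, if_neg h4]; ring⟩
  · exact ⟨-(3 / 4 * (1 / 2) ^ x₁), 2 ^ x / 2 ^ x₁, -1 / 4, 0, fun _ _ => rfl, fun v v' => by
      rw [if_neg h0, if_neg h2]; ring⟩

/-- By `bf_form`, `Gl … v v' = A + B v + C v' + E v v'` with `E = 0` unless `x₁ = x + 1`. The
admissible region is a point, a segment, a square (`x₁ = x + 1`) or a triangle with vertices in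
`{1/2, 1}²`; write `(v, v')` as a convex (for the square: bilinear) combination of the admissible
corners. -/
theorem Gl_of_corners {V l : ℕ → ℕ → ℝ} {u : ℕ} {c : ℝ} {x y x₁ y₁ : ℕ} (hs : Step x y x₁ y₁)
    (h : ∀ v v', (v = 1 / 2 ∨ v = 1) → (v' = 1 / 2 ∨ v' = 1) → Adm x y x₁ y₁ v v' →
      0 ≤ Gl V l u c x y x₁ y₁ v v') :
    ∀ v v', Adm x y x₁ y₁ v v' → 0 ≤ Gl V l u c x y x₁ y₁ v v' := by
  obtain ⟨-, h1, h2, h3⟩ := hs
  obtain ⟨A, B, C, E, hE, hG⟩ : ∃ A B C E : ℝ, (x₁ ≠ x + 1 → E = 0) ∧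
      ∀ v v', Gl V l u c x y x₁ y₁ v v' = A + B * v + C * v' + E * (v * v') := by
    obtain ⟨A, B, C, E, hE, hb⟩ := bf_form x x₁
    obtain ⟨A', B', C', E', hE', hb'⟩ := bf_form y₁ y
    refine ⟨V x y - V x₁ y₁ - (if x₁ = 0 ∧ y₁ = 2 * u + 1 then c else 0)
      - (if y = 0 ∧ x = 2 * u + 1 then c else 0) - l x y * A' - l y₁ x₁ * A,
      -(l x y * C') - l y₁ x₁ * B, -(l x y * B') - l y₁ x₁ * C, -(l x y * E') - l y₁ x₁ * E,
      fun hne => ?_, fun v v' => ?_⟩
    · rw [hE (by omega) h1, hE' (by omega) (by omega)]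
      ring
    · unfold Gl
      rw [hb, hb']
      ring
  rintro v v' ⟨a1, a2, a3, a4, a5, a6, a7, a8⟩
  have key : ∀ p q w : ℝ, (p = 1 / 2 ∨ p = 1) → (q = 1 / 2 ∨ q = 1) → 0 ≤ w →
      (v = 1 → w = 0 ∨ p = 1) → (v' = 1 → w = 0 ∨ q = 1) → (x₁ = x → p ≤ q) →
      (x₁ = x + 2 → q ≤ p) → 0 ≤ w * (A + B * p + C * q + E * (p * q)) := by
    intro p q w hp hq hw b1 b2 b3 b4
    by_cases hw0 : w = 0
    · rw [hw0, zero_mul]
    rw [← hG]
    refine mul_nonneg hw (h p q hp hq ⟨?_, ?_, ?_, ?_, fun hh => (b1 (a5 hh)).resolve_left hw0,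
      fun hh => (b2 (a6 hh)).resolve_left hw0, b3, b4⟩)
    · rcases hp with rfl | rfl <;> norm_num
    · rcases hp with rfl | rfl <;> norm_num
    · rcases hq with rfl | rfl <;> norm_num
    · rcases hq with rfl | rfl <;> norm_num
  rw [hG]
  obtain hx | hx | hx : x₁ = x ∨ x₁ = x + 1 ∨ x₁ = x + 2 := by omega
  · have hv := a7 hx
    have k1 := key (1 / 2) (1 / 2) (2 - 2 * v') (Or.inl rfl) (Or.inl rfl) (by linarith)
      (fun _ => Or.inl (by linarith)) (fun _ => Or.inl (by linarith)) (fun _ => le_rfl)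
      (fun _ => le_rfl)
    have k2 := key (1 / 2) 1 (2 * v' - 2 * v) (Or.inl rfl) (Or.inr rfl) (by linarith)
      (fun _ => Or.inl (by linarith)) (fun _ => Or.inr rfl) (fun _ => by norm_num)
      (fun _ => by omega)
    have k3 := key 1 1 (2 * v - 1) (Or.inr rfl) (Or.inr rfl) (by linarith)
      (fun _ => Or.inr rfl) (fun _ => Or.inr rfl) (fun _ => le_rfl) (fun _ => le_rfl)
    rw [hE (by omega)] at k1 k2 k3 ⊢
    linarith
  · have k1 := key (1 / 2) (1 / 2) ((2 - 2 * v) * (2 - 2 * v')) (Or.inl rfl) (Or.inl rfl)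
      (mul_nonneg (by linarith) (by linarith))
      (fun e => Or.inl (by rw [e]; ring)) (fun e => Or.inl (by rw [e]; ring)) (fun _ => le_rfl)
      (fun _ => le_rfl)
    have k2 := key (1 / 2) 1 ((2 - 2 * v) * (2 * v' - 1)) (Or.inl rfl) (Or.inr rfl)
      (mul_nonneg (by linarith) (by linarith))
      (fun e => Or.inl (by rw [e]; ring)) (fun _ => Or.inr rfl) (fun _ => by omega)
      (fun _ => by omega)
    have k3 := key 1 (1 / 2) ((2 * v - 1) * (2 - 2 * v')) (Or.inr rfl) (Or.inl rfl)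
      (mul_nonneg (by linarith) (by linarith))
      (fun _ => Or.inr rfl) (fun e => Or.inl (by rw [e]; ring)) (fun _ => by omega)
      (fun _ => by omega)
    have k4 := key 1 1 ((2 * v - 1) * (2 * v' - 1)) (Or.inr rfl) (Or.inr rfl)
      (mul_nonneg (by linarith) (by linarith))
      (fun _ => Or.inr rfl) (fun _ => Or.inr rfl) (fun _ => le_rfl) (fun _ => le_rfl)
    linarith
  · have hv := a8 hx
    have k1 := key (1 / 2) (1 / 2) (2 - 2 * v) (Or.inl rfl) (Or.inl rfl) (by linarith)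
      (fun _ => Or.inl (by linarith)) (fun _ => Or.inl (by linarith)) (fun _ => le_rfl)
      (fun _ => le_rfl)
    have k2 := key 1 (1 / 2) (2 * v - 2 * v') (Or.inr rfl) (Or.inl rfl) (by linarith)
      (fun _ => Or.inr rfl) (fun _ => Or.inl (by linarith)) (fun _ => by omega)
      (fun _ => by norm_num)
    have k3 := key 1 1 (2 * v' - 1) (Or.inr rfl) (Or.inr rfl) (by linarith)
      (fun _ => Or.inr rfl) (fun _ => Or.inr rfl) (fun _ => le_rfl) (fun _ => le_rfl)
    rw [hE (by omega)] at k1 k2 k3 ⊢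
    linarith

end Pool.Agent.MP_450e1b_mp.H55

/-
From edge values to lattice certificates.
-/

namespace Pool.Agent.MP_450e1b_mp.H55

/-- The potential on cells. -/
noncomputable def Vl (D R : ℕ → ℕ → ℝ) (x y : ℕ) : ℝ :=
  if x % 2 = 0 ∧ y % 2 = 1 then VA D R (x / 2) (y / 2)
  else if x % 2 = 1 ∧ y % 2 = 0 then -VA D R (y / 2) (x / 2) else 0

/-- The multipliers on cells. -/
noncomputable def ll (D R : ℕ → ℕ → ℝ) (x y : ℕ) : ℝ :=
  if x % 2 = 0 ∧ y % 2 = 1 then 4 / 3 * (D (x / 2) (y / 2) - R (x / 2) (y / 2))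
  else if x % 2 = 1 ∧ y % 2 = 0 ∧ y ≠ 0 then
    4 / 3 * (D (y / 2) (x / 2 + 1) - R (y / 2 - 1) (x / 2)) else 0

theorem Vl_even (D R : ℕ → ℕ → ℝ) (a b : ℕ) : Vl D R (2 * a) (2 * b + 1) = VA D R a b := by
  have h1 : 2 * a % 2 = 0 := by omega
  have h2 : (2 * b + 1) % 2 = 1 := by omega
  have h3 : 2 * a / 2 = a := by omega
  have h4 : (2 * b + 1) / 2 = b := by omega
  unfold Vl
  rw [if_pos ⟨h1, h2⟩, h3, h4]

theorem Vl_odd (D R : ℕ → ℕ → ℝ) (a b : ℕ) : Vl D R (2 * b + 1) (2 * a) = -VA D R a b := by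
  have h1 : 2 * a % 2 = 0 := by omega
  have h2 : (2 * b + 1) % 2 = 1 := by omega
  have h3 : 2 * a / 2 = a := by omega
  have h4 : (2 * b + 1) / 2 = b := by omega
  unfold Vl
  rw [if_neg (by omega), if_pos ⟨h2, h1⟩, h3, h4]

theorem ll_even (D R : ℕ → ℕ → ℝ) (a b : ℕ) :
    ll D R (2 * a) (2 * b + 1) = 4 / 3 * (D a b - R a b) := by
  have h1 : 2 * a % 2 = 0 := by omega
  have h2 : (2 * b + 1) % 2 = 1 := by omega
  have h3 : 2 * a / 2 = a := by omega
  have h4 : (2 * b + 1) / 2 = b := by omega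
  unfold ll
  rw [if_pos ⟨h1, h2⟩, h3, h4]

theorem ll_odd (D R : ℕ → ℕ → ℝ) (a b : ℕ) :
    ll D R (2 * b + 1) (2 * (a + 1)) = 4 / 3 * (D (a + 1) (b + 1) - R a b) := by
  have h3 : 2 * (a + 1) / 2 = a + 1 := by omega
  have h4 : (2 * b + 1) / 2 = b := by omega
  unfold ll
  rw [if_neg (by omega), if_pos (by omega), h3, h4, Nat.add_sub_cancel]

theorem Vl_anti (D R : ℕ → ℕ → ℝ) (x y : ℕ) : Vl D R y x = -Vl D R x y := by
  unfold Vl
  split_ifs <;> first | omega | simp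

variable {u : ℕ} {c : ℝ} {D R : ℕ → ℕ → ℝ}

/-- `th` twice for `a, b ≥ 1`; `eh` then gives `H ≥ 0`; `he` for `b = 0`; `e0` for `a = 0`. -/
theorem DRCert.E_nonneg (h : DRCert u c D R) (a b : ℕ) : R a b ≤ D a b := by
  have key : ∀ a b, R (a + 1) (b + 1) ≤ D (a + 1) (b + 1) := fun a b => by
    have h1 := h.th a b
    have h2 := h.th b a
    linarith
  rcases a with _ | a
  · exact h.e0 b
  · rcases b with _ | b
    · have h1 := h.he a 0
      have h2 := h.eh (a + 1) 0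
      have h3 := key (a + 1) 0
      linarith
    · exact key a b

theorem DRCert.H_nonneg (h : DRCert u c D R) (a b : ℕ) : R a b ≤ D (a + 1) (b + 1) := by
  have h1 := h.eh a b
  have h2 := h.E_nonneg (a + 1) (b + 1)
  linarith

theorem lata_ll_zero (D R : ℕ → ℕ → ℝ) (b : ℕ) : ll D R (2 * b + 1) (2 * 0) = 0 := by
  unfold ll
  rw [if_neg (by omega), if_neg (by omega)]

theorem lata_half (n : ℕ) : ((1 : ℝ) / 2) ^ (2 * n) = (1 / 4) ^ n := by
  rw [pow_mul]
  norm_num

theorem lata_bf_up_odd (b : ℕ) (v v' : ℝ) :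
    bf (2 * b + 1) (2 * (b + 1) + 1) v v' = v / 4 - v' / 4 - 3 / 4 * ((1 / 4) ^ (b + 1) / 2) := by
  unfold bf
  rw [if_neg (by omega), if_neg (by omega), pow_succ (1 / 2 : ℝ), lata_half]
  have e : (2 : ℝ) ^ (2 * (b + 1) + 1) = 2 ^ (2 * b + 1) * 4 := by ring
  rw [e]
  have : (2 : ℝ) ^ (2 * b + 1) ≠ 0 := by positivity
  field_simp

theorem lata_bf_up_even (a : ℕ) (v v' : ℝ) :
    bf (2 * (a + 1)) (2 * (a + 1 + 1)) v v' = v / 4 - v' / 4 - 3 / 4 * (1 / 4) ^ (a + 1 + 1) := by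
  unfold bf
  rw [if_neg (by omega), if_neg (by omega), lata_half]
  have e : (2 : ℝ) ^ (2 * (a + 1 + 1)) = 2 ^ (2 * (a + 1)) * 4 := by ring
  rw [e]
  have : (2 : ℝ) ^ (2 * (a + 1)) ≠ 0 := by positivity
  field_simp

theorem lata_bf_up_zero (v v' : ℝ) : bf (2 * 0) (2 * (0 + 1)) v v' = -(3 / 16) := by
  unfold bf
  norm_num

theorem lata_bf_same_even (a : ℕ) (v v' : ℝ) :
    bf (2 * (a + 1 + 1)) (2 * (a + 1 + 1)) v v' = v - v' / 4 - 3 / 4 * (1 / 4) ^ (a + 1 + 1) := by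
  unfold bf
  rw [if_neg (by omega), if_neg (by omega), lata_half]
  have : (2 : ℝ) ^ (2 * (a + 1 + 1)) ≠ 0 := by positivity
  field_simp

theorem lata_bf_same_two (v v' : ℝ) :
    bf (2 * (0 + 1)) (2 * (0 + 1)) v v' = 9 / 16 - (v' - v) := by
  unfold bf
  norm_num

theorem lata_bf_same_odd (b : ℕ) (v v' : ℝ) :
    bf (2 * (b + 1) + 1) (2 * (b + 1) + 1) v v' = v - v' / 4 - 3 / 4 * ((1 / 4) ^ (b + 1) / 2) := by
  unfold bf
  rw [if_neg (by omega), if_neg (by omega), pow_succ (1 / 2 : ℝ), lata_half]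
  have : (2 : ℝ) ^ (2 * (b + 1) + 1) ≠ 0 := by positivity
  field_simp

theorem lata_bf_same_one (v v' : ℝ) :
    bf (2 * 0 + 1) (2 * 0 + 1) v v' = 3 / 8 - (v' - v) := by
  unfold bf
  norm_num

/-- In the four lemmas below the slack vanishes at `(1, 1)` by `eq0`, `eqs`, `cross` (except in
`corner_BA`, where it is one third of `d0`); treat `a = 0`, `a = 1`, `a ≥ 2` and small `b`
separately where `bf` changes its form. Write `E = D - R`, `H (a+1) b = D (a+1) (b+1) - R a b`.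
Here: `(1/2, 1)` gives `eh / 6`; `(1/2, 1/2)` gives `H / 2` or `0`. -/
theorem corner_A0 (h : DRCert u c D R) (a b : ℕ) (v v' : ℝ) (hv : v = 1 / 2 ∨ v = 1)
    (hv' : v' = 1 / 2 ∨ v' = 1) (hA : Adm (2 * a) (2 * (b + 1) + 1) (2 * a) (2 * b + 1) v v') :
    0 ≤ Gl (Vl D R) (ll D R) u c (2 * a) (2 * (b + 1) + 1) (2 * a) (2 * b + 1) v v' := by
  obtain ⟨-, -, -, -, h5, h6, h7, -⟩ := hA
  have h7' := h7 rfl
  unfold Gl
  rw [Vl_even, Vl_even, ll_even, lata_bf_up_odd, if_neg (show ¬(2 * (b + 1) + 1 = 0 ∧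
    2 * a = 2 * u + 1) by omega)]
  have hVA : VA D R a (b + 1)
      = D a (b + 1) - (1 / 4) ^ (b + 1) / 2 * (D a (b + 1) - R a (b + 1)) := rfl
  rw [hVA]
  rcases a with _ | a
  · have h1 := h.eq0 b
    have e : (if 2 * 0 = 0 ∧ 2 * b + 1 = 2 * u + 1 then c else 0) = if b = u then c else 0 := by
      by_cases hb : b = u
      · rw [if_pos hb, if_pos (by omega)]
      · rw [if_neg hb, if_neg (by omega)]
    rw [e, lata_ll_zero, h5 (Or.inl rfl), h6 (Or.inl rfl)]
    linarith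
  · have h1 := h.eqs a b
    have h2 := h.eh a b
    have h3 := h.H_nonneg a b
    rw [if_neg (by omega), ll_odd, h1]
    rcases a with _ | a
    · rw [lata_bf_same_two]
      rcases hv with rfl | rfl <;> rcases hv' with rfl | rfl
      · linarith
      · linarith
      · norm_num at h7'
      · linarith
    · rw [lata_bf_same_even]
      rcases hv with rfl | rfl <;> rcases hv' with rfl | rfl
      · linarith
      · linarith
      · norm_num at h7'
      · linarith

/-- `(1, 1/2)` gives `he / 6` (for `a = 0`: `2 E / 3`); `(1/2, 1/2)` gives `E / 2` or `0`. -/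
theorem corner_A2 (h : DRCert u c D R) (a b : ℕ) (v v' : ℝ) (hv : v = 1 / 2 ∨ v = 1)
    (hv' : v' = 1 / 2 ∨ v' = 1)
    (hA : Adm (2 * a) (2 * b + 1) (2 * (a + 1)) (2 * b + 1) v v') :
    0 ≤ Gl (Vl D R) (ll D R) u c (2 * a) (2 * b + 1) (2 * (a + 1)) (2 * b + 1) v v' := by
  obtain ⟨-, -, -, -, h5, -, -, h8⟩ := hA
  have h8' := h8 (by omega)
  unfold Gl
  rw [Vl_even, Vl_even, ll_even, ll_odd, if_neg (by omega), if_neg (by omega), h.eqs a b]
  have hVA : VA D R a b = D a b - (1 / 4) ^ b / 2 * (D a b - R a b) := rfl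
  rw [hVA]
  have h2 := h.E_nonneg a b
  rcases a with _ | a
  · rw [lata_bf_up_zero, h5 (Or.inl rfl)]
    rcases b with _ | b
    · rw [lata_bf_same_one]
      rcases hv' with rfl | rfl <;> linarith
    · rw [lata_bf_same_odd]
      rcases hv' with rfl | rfl <;> linarith
  · have h3 := h.he a b
    rw [lata_bf_up_even]
    rcases b with _ | b
    · rw [lata_bf_same_one]
      rcases hv with rfl | rfl <;> rcases hv' with rfl | rfl
      · linarith
      · norm_num at h8'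
      · linarith
      · linarith
    · rw [lata_bf_same_odd]
      rcases hv with rfl | rfl <;> rcases hv' with rfl | rfl
      · linarith
      · norm_num at h8'
      · linarith
      · linarith

theorem latb_bf0 (v v' : ℝ) : bf (2 * 0) (2 * 0 + 1) v v' = -1 / 8 := by
  norm_num [bf]

theorem latb_bf1 (a : ℕ) (v v' : ℝ) : bf (2 * (a + 1)) (2 * (a + 1) + 1) v v' =
    v / 2 - v' / 4 - 3 / 8 * (1 / 4) ^ (a + 1) := by
  rw [bf, if_neg (by omega), if_neg (by omega), pow_succ (2 : ℝ), pow_succ (1 / 2 : ℝ),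
    pow_mul (1 / 2 : ℝ)]
  norm_num
  field_simp
  ring

theorem latb_bf2 (v v' : ℝ) : bf (2 * 0 + 1) (2 * (0 + 1)) v v' =
    ((2 * v - 1) * (5 - 4 * v') - 3 / 4) / 4 := by
  norm_num [bf]

theorem latb_bf3 (a : ℕ) (v v' : ℝ) : bf (2 * (a + 1) + 1) (2 * (a + 1 + 1)) v v' =
    v / 2 - v' / 4 - 3 / 4 * (1 / 4) ^ (a + 1 + 1) := by
  rw [bf, if_neg (by omega), if_neg (by omega), pow_mul (1 / 2 : ℝ),
    show 2 * (a + 1 + 1) = 2 * (a + 1) + 1 + 1 by ring, pow_succ (2 : ℝ) (2 * (a + 1) + 1)]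
  norm_num
  field_simp

/-- `(1/2, 1)` and `(1, 1/2)` give `th / 6` (for `a = 0` or `b = 0`: `E / 3`); `(1/2, 1/2)` gives
`(E a b + E b a) / 6`. -/
theorem corner_AB (h : DRCert u c D R) (a b : ℕ) (v v' : ℝ) (hv : v = 1 / 2 ∨ v = 1)
    (hv' : v' = 1 / 2 ∨ v' = 1) (hA : Adm (2 * a) (2 * b + 1) (2 * a + 1) (2 * b) v v') :
    0 ≤ Gl (Vl D R) (ll D R) u c (2 * a) (2 * b + 1) (2 * a + 1) (2 * b) v v' := by
  rw [Gl, Vl_even, Vl_odd, ll_even, ll_even, if_neg (by omega), if_neg (by omega), VA, VA]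
  have hc := h.cross a b
  have h1 := h.E_nonneg a b
  have h2 := h.E_nonneg b a
  obtain ⟨-, -, -, -, h3, h4, -⟩ := hA
  rcases a with _ | a <;> rcases b with _ | b
  · rw [latb_bf0, latb_bf0]
    linarith
  · rw [latb_bf0, latb_bf1, h3 (Or.inl rfl)]
    rcases hv' with rfl | rfl <;> linarith
  · rw [latb_bf0, latb_bf1, h4 (Or.inr rfl)]
    rcases hv with rfl | rfl <;> linarith
  · rw [latb_bf1, latb_bf1]
    have h5 := h.th a b
    have h6 := h.th b a
    rcases hv with rfl | rfl <;> rcases hv' with rfl | rfl <;> linarith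

/-- `(1, 1)` gives `d0 / 3`; `(1/2, 1)` gives `d1 a (b-1) / 2` (for `b = 0`: `d2 a`); `(1, 1/2)`
the same with `a`, `b` exchanged; `(1/2, 1/2)` gives `d0 / 3` plus nonnegative multiples of the
two multipliers. -/
theorem corner_BA (h : DRCert u c D R) (a b : ℕ) (v v' : ℝ) (hv : v = 1 / 2 ∨ v = 1)
    (hv' : v' = 1 / 2 ∨ v' = 1) :
    0 ≤ Gl (Vl D R) (ll D R) u c (2 * a + 1) (2 * (b + 1)) (2 * (a + 1)) (2 * b + 1) v v' := by
  rw [Gl, Vl_even, Vl_odd, ll_odd, ll_odd, if_neg (by omega), if_neg (by omega), h.eqs, h.eqs]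
  have h0 := h.d0 a b
  have h1 := h.H_nonneg a b
  have h2 := h.H_nonneg b a
  rcases a with _ | a <;> rcases b with _ | b
  · rw [latb_bf2, latb_bf2]
    have h3 := h.d2 0
    rcases hv with rfl | rfl <;> rcases hv' with rfl | rfl <;> linarith
  · rw [latb_bf2, latb_bf3]
    have h3 := h.d2 (b + 1)
    have h4 := h.d1 0 b
    rcases hv with rfl | rfl <;> rcases hv' with rfl | rfl <;> linarith
  · rw [latb_bf2, latb_bf3]
    have h3 := h.d2 (a + 1)
    have h4 := h.d1 0 a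
    rcases hv with rfl | rfl <;> rcases hv' with rfl | rfl <;> linarith
  · rw [latb_bf3, latb_bf3]
    have h3 := h.d1 (a + 1) b
    have h4 := h.d1 (b + 1) a
    rcases hv with rfl | rfl <;> rcases hv' with rfl | rfl <;> linarith

/-- Split a `Step` by the parity of `x` and by `x₁ - x ∈ {0, 1, 2}`; the two cases with `x` odd,
`x₁` odd are mirror images (`Gl_mirror`, `Adm_mirror`) of `corner_A0`, `corner_A2`. Then
`Gl_of_corners`. The bound on `ll` is `8 C / 3`. -/
theorem latCert_of_DRCert (h : DRCert u c D R) : LatCert u c := by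
  obtain ⟨C, hC⟩ := h.bdd
  have hC0 : 0 ≤ C := (abs_nonneg _).trans (hC 0 0).1
  refine ⟨8 * C / 3, Vl D R, ll D R, Vl_anti D R, fun x y => ?_, fun ε hε => ?_, ?_⟩
  · unfold ll
    split_ifs with h1 h2
    · have e1 := h.E_nonneg (x / 2) (y / 2)
      have e2 := abs_le.1 (hC (x / 2) (y / 2)).1
      have e3 := abs_le.1 (hC (x / 2) (y / 2)).2
      constructor <;> linarith [e2.2, e3.1]
    · have e1 := h.H_nonneg (y / 2 - 1) (x / 2)
      have e0 : y / 2 - 1 + 1 = y / 2 := by omega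
      rw [e0] at e1
      have e2 := abs_le.1 (hC (y / 2) (x / 2 + 1)).1
      have e3 := abs_le.1 (hC (y / 2 - 1) (x / 2)).2
      constructor <;> linarith [e2.2, e3.1]
    · exact ⟨le_rfl, by positivity⟩
  · obtain ⟨T, hT, hs⟩ := h.start ε hε
    refine ⟨T, hT, fun x => ?_⟩
    rcases Nat.even_or_odd' x with ⟨a, rfl | rfl⟩
    · rw [show 2 * a + (2 * T + 1) = 2 * (a + T) + 1 by ring, Vl_even]
      exact (hs a).1
    · rw [show 2 * a + 1 + (2 * T + 1) = 2 * (a + T + 1) by ring, Vl_odd]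
      exact (hs a).2
  · intro x y x₁ y₁ v v' hs hA
    refine Gl_of_corners hs (fun w w' hw hw' hB => ?_) v v' hA
    obtain ⟨⟨k, hk⟩, h1, h2, h3⟩ := id hs
    rcases Nat.even_or_odd' x with ⟨a, rfl | rfl⟩
    · rcases (show x₁ = 2 * a ∨ x₁ = 2 * a + 1 ∨ x₁ = 2 * (a + 1) by omega) with rfl | rfl | rfl
      · obtain ⟨b, rfl⟩ : ∃ b, y₁ = 2 * b + 1 := ⟨y₁ / 2, by omega⟩
        obtain rfl : y = 2 * (b + 1) + 1 := by omega
        exact corner_A0 h a b w w' hw hw' hB
      · obtain ⟨b, rfl⟩ : ∃ b, y₁ = 2 * b := ⟨y₁ / 2, by omega⟩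
        obtain rfl : y = 2 * b + 1 := by omega
        exact corner_AB h a b w w' hw hw' hB
      · obtain ⟨b, rfl⟩ : ∃ b, y₁ = 2 * b + 1 := ⟨y₁ / 2, by omega⟩
        obtain rfl : y = 2 * b + 1 := by omega
        exact corner_A2 h a b w w' hw hw' hB
    · rcases (show x₁ = 2 * a + 1 ∨ x₁ = 2 * (a + 1) ∨ x₁ = 2 * (a + 1) + 1 by omega) with
        rfl | rfl | rfl
      · obtain ⟨b, rfl⟩ : ∃ b, y₁ = 2 * b := ⟨y₁ / 2, by omega⟩
        obtain rfl : y = 2 * (b + 1) := by omega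
        rw [Gl_mirror (Vl_anti D R)]
        exact corner_A2 h b a w' w hw' hw (Adm_mirror hs hB).2
      · obtain ⟨b, rfl⟩ : ∃ b, y₁ = 2 * b + 1 := ⟨y₁ / 2, by omega⟩
        obtain rfl : y = 2 * (b + 1) := by omega
        exact corner_BA h a b w w' hw hw'
      · obtain ⟨b, rfl⟩ : ∃ b, y₁ = 2 * b := ⟨y₁ / 2, by omega⟩
        obtain rfl : y = 2 * b := by omega
        rw [Gl_mirror (Vl_anti D R)]
        exact corner_A0 h b a w' w hw' hw (Adm_mirror hs hB).2

end Pool.Agent.MP_450e1b_mp.H55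

end

-- part MP_450e1b_mp.H55.Real
section

/-
Cells of real numbers, and the comparison of real multipliers with lattice multipliers.
-/

namespace Pool.Agent.MP_450e1b_mp.H55

theorem cell_ex (δ N : ℝ) (hδ : 0 ≤ δ) : ∃ s : ℕ, N ≤ (1 + δ) * 2 ^ s := by
  obtain ⟨s, hs⟩ := pow_unbounded_of_one_lt N (one_lt_two : (1 : ℝ) < 2)
  have : (0 : ℝ) < 2 ^ s := by positivity
  exact ⟨s, by nlinarith⟩

open Classical in
/-- The least `s` with `N ≤ (1 + δ) 2^s`. -/
noncomputable def cell (δ N : ℝ) : ℕ := sInf {s : ℕ | N ≤ (1 + δ) * 2 ^ s}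

/-- Position of `N` in its cell. -/
noncomputable def pos (δ N : ℝ) : ℝ := N / ((1 + δ) * 2 ^ cell δ N)

/-- Position rounded up to one on the boundary of the lattice. -/
noncomputable def rpos (δ N M : ℝ) : ℝ := if cell δ N = 0 ∨ cell δ M = 0 then 1 else pos δ N

/-- The real multiplier per unit of lattice multiplier. -/
noncomputable def mult (δ M : ℝ) : ℝ :=
  if cell δ M = 0 then 0
  else if cell δ M ≤ 2 then (1 - (1 / 2) ^ cell δ M) / (M - 1) else 1 / ((1 + δ) * 2 ^ cell δ M)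

variable {δ : ℝ}

theorem le_cell (h0 : 0 < δ) (N : ℝ) : N ≤ (1 + δ) * 2 ^ cell δ N :=
  Nat.sInf_mem (s := {s : ℕ | N ≤ (1 + δ) * 2 ^ s}) (cell_ex δ N h0.le)

theorem cell_le {N : ℝ} {s : ℕ} (h : N ≤ (1 + δ) * 2 ^ s) : cell δ N ≤ s :=
  Nat.sInf_le (s := {s : ℕ | N ≤ (1 + δ) * 2 ^ s}) h

theorem lt_cell (h0 : 0 < δ) (N : ℝ) (s : ℕ) (h : cell δ N = s + 1) : (1 + δ) * 2 ^ s < N := by
  have _ := h0
  by_contra hc
  have := cell_le (not_lt.1 hc)
  omega

theorem cell_eq (h0 : 0 < δ) (N : ℝ) (s : ℕ) (h1 : (1 + δ) * 2 ^ s < N)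
    (h2 : N ≤ (1 + δ) * 2 ^ (s + 1)) : cell δ N = s + 1 := by
  refine le_antisymm (cell_le h2) ?_
  by_contra hc
  have h3 : (2 : ℝ) ^ cell δ N ≤ 2 ^ s := pow_le_pow_right₀ one_le_two (by omega)
  have h4 := le_cell h0 N
  have h5 : (1 + δ) * 2 ^ cell δ N ≤ (1 + δ) * 2 ^ s := mul_le_mul_of_nonneg_left h3 (by linarith)
  linarith

theorem cell_two_pow (h0 : 0 < δ) (h1 : δ < 1) (s : ℕ) : cell δ (2 ^ s) = s := by
  cases s with
  | zero => exact Nat.le_zero.1 (cell_le (by simpa using h0.le))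
  | succ s =>
    have : (0 : ℝ) < 2 ^ s := by positivity
    refine cell_eq h0 _ s ?_ ?_
    · rw [pow_succ]
      nlinarith
    · rw [pow_succ]
      nlinarith

theorem cell_mono (h0 : 0 < δ) {N N' : ℝ} (h : N ≤ N') : cell δ N ≤ cell δ N' :=
  cell_le (h.trans (le_cell h0 N'))

theorem cell_four (h0 : 0 < δ) {N N' : ℝ} (h : N' ≤ 4 * N) : cell δ N' ≤ cell δ N + 2 := by
  refine cell_le ?_
  have := le_cell h0 N
  rw [pow_add]
  linarith

theorem cell_double (h0 : 0 < δ) (h1 : δ < 1) {N : ℝ} (hN : 1 ≤ N) :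
    cell δ (2 * N) = cell δ N + 1 := by
  have h2 := le_cell h0 N
  refine cell_eq h0 _ _ ?_ (by rw [pow_succ]; linarith)
  cases hc : cell δ N with
  | zero =>
    rw [pow_zero]
    linarith
  | succ s =>
    have := lt_cell h0 N s hc
    rw [pow_succ]
    linarith

/-- Doubling a number `≥ 1` raises the cell by one (as `δ < 1`); iterate. -/
theorem cell_mul (h0 : 0 < δ) (h1 : δ < 1) {N : ℝ} (hN : 1 ≤ N) (t : ℕ) :
    cell δ (2 ^ t * N) = cell δ N + t := by
  induction t with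
  | zero => simp
  | succ t ih =>
    have h2 : (1 : ℝ) ≤ 2 ^ t * N := one_le_mul_of_one_le_of_one_le (one_le_pow₀ one_le_two) hN
    rw [pow_succ', mul_assoc, cell_double h0 h1 h2, ih, add_assoc]

theorem cell_rel (h0 : 0 < δ) (h1 : δ < 1) {N M : ℝ} (hN : 1 ≤ N) (hM : 1 ≤ M) {a b : ℕ}
    (h : M * 2 ^ a = 2 ^ b * N) : cell δ M + a = cell δ N + b ∧ pos δ M = pos δ N := by
  have e : cell δ M + a = cell δ N + b := by
    rw [← cell_mul h0 h1 hM a, ← cell_mul h0 h1 hN b, ← h, mul_comm]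
  refine ⟨e, ?_⟩
  have e2 : (2 : ℝ) ^ cell δ M * 2 ^ a = 2 ^ cell δ N * 2 ^ b := by
    rw [← pow_add, ← pow_add, e]
  unfold pos
  rw [div_eq_div_iff (by positivity) (by positivity)]
  refine mul_right_cancel₀ (b := (2 : ℝ) ^ a) (by positivity) ?_
  calc M * ((1 + δ) * 2 ^ cell δ N) * 2 ^ a = M * 2 ^ a * ((1 + δ) * 2 ^ cell δ N) := by ring
    _ = N * (1 + δ) * (2 ^ cell δ N * 2 ^ b) := by rw [h]; ring
    _ = N * ((1 + δ) * 2 ^ cell δ M) * 2 ^ a := by rw [← e2]; ring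

theorem pos_bounds (h0 : 0 < δ) (h1 : δ < 1) {N : ℝ} (hN : 1 ≤ N) :
    1 / 2 ≤ pos δ N ∧ pos δ N ≤ 1 ∧ (cell δ N = 0 → 1 - δ ≤ pos δ N) := by
  have hp : 0 < (1 + δ) * 2 ^ cell δ N := by positivity
  unfold pos
  refine ⟨?_, (div_le_one hp).2 (le_cell h0 N), fun hc => ?_⟩
  · rw [le_div_iff₀ hp]
    cases hc : cell δ N with
    | zero =>
      rw [pow_zero]
      linarith
    | succ s =>
      have := lt_cell h0 N s hc
      rw [pow_succ]
      linarith
  · rw [le_div_iff₀ hp, hc, pow_zero]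
    nlinarith

theorem cell_big (h0 : 0 < δ) {M : ℝ} (h : cell δ M ≠ 0) : 1 + δ < M := by
  obtain ⟨s, hs⟩ := Nat.exists_eq_succ_of_ne_zero h
  have h1 := lt_cell h0 M s hs
  have h2 : (1 : ℝ) ≤ 2 ^ s := one_le_pow₀ one_le_two
  nlinarith

theorem cell_pos_mul (h0 : 0 < δ) (N : ℝ) : N = (1 + δ) * 2 ^ cell δ N * pos δ N := by
  unfold pos
  have hp : 0 < (1 + δ) * 2 ^ cell δ N := by positivity
  field_simp

theorem mult_bounds (h0 : 0 < δ) (h1 : δ < 1) {M : ℝ} (hM : 1 ≤ M) :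
    0 ≤ mult δ M ∧ mult δ M * M ≤ 8 / δ := by
  have h8 : 0 < 8 / δ := by positivity
  unfold mult
  split_ifs with ha hb
  · exact ⟨le_rfl, by rw [zero_mul]; exact h8.le⟩
  · have h2 := cell_big h0 ha
    have h3 : (0 : ℝ) < (1 / 2) ^ cell δ M := by positivity
    have h4 : ((1 : ℝ) / 2) ^ cell δ M ≤ 1 := pow_le_one₀ (by norm_num) (by norm_num)
    have h5 : 0 < M - 1 := by linarith
    refine ⟨div_nonneg (by linarith) h5.le, ?_⟩
    rw [div_mul_eq_mul_div, div_le_div_iff₀ h5 h0]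
    have h6 : (1 - (1 / 2) ^ cell δ M) * M * δ ≤ M * δ := by
      have : 0 ≤ M * δ := by positivity
      nlinarith
    nlinarith
  · have hp : 0 < (1 + δ) * 2 ^ cell δ M := by positivity
    refine ⟨by positivity, ?_⟩
    have h2 : 1 / ((1 + δ) * 2 ^ cell δ M) * M ≤ 1 := by
      rw [one_div_mul_eq_div]
      exact (div_le_one hp).2 (le_cell h0 M)
    have h3 : 1 ≤ 8 / δ := by
      rw [le_div_iff₀ h0]
      linarith
    linarith

theorem cell_same {c P p p' v v' : ℝ} (h0 : 0 < δ) (hP : 0 < P * p' - 1) (hP0 : 0 < P)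
    (hc : (1 - δ) * (P - 1) ≤ c * P) (h1 : δ ≤ 1 / 2) (hp : 1 / 2 ≤ p) (hpp : p ≤ p') (hp' : p' ≤ 1)
    (hv : p ≤ v) (hv' : v' ≤ p' + δ) :
    c / (P * p' - 1) * (P * p - 1 - (P * p' - 1) / 4) ≤ 3 / 4 * c - (v' - v) + 3 * δ := by
  have e : c / (P * p' - 1) * (P * p - 1 - (P * p' - 1) / 4) =
      3 / 4 * c - c * P * (p' - p) / (P * p' - 1) := by
    field_simp
    ring
  have h2 : (1 - δ) * (p' - p) ≤ c * P * (p' - p) / (P * p' - 1) := by
    rw [le_div_iff₀ hP]
    have h3 : (1 - δ) * (P * p' - 1) ≤ c * P := by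
      have : P * p' ≤ P := by nlinarith
      nlinarith
    have := mul_le_mul_of_nonneg_right h3 (sub_nonneg.2 hpp)
    linarith
  rw [e]
  nlinarith

theorem cell_next {p p' v v' : ℝ} (h0 : 0 < δ) (hp : 1 / 2 ≤ p) (hp1 : p ≤ 1) (hq : 1 / 2 ≤ p')
    (hp' : p' ≤ 1) (hv : p ≤ v) (hv1 : v' ≤ 1) (hv' : v' ≤ p' + δ) :
    3 / 4 / ((1 + δ) * 4 * p' - 1) * ((1 + δ) * 2 * p - 1 - ((1 + δ) * 4 * p' - 1) / 4) ≤
      ((2 * v - 1) * (5 - 4 * v') - 3 / 4) / 4 + 3 * δ := by
  have hd : 0 ≤ δ * p' := by positivity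
  have hP : 0 < (1 + δ) * 4 * p' - 1 := by nlinarith
  have e : 3 / 4 / ((1 + δ) * 4 * p' - 1) * ((1 + δ) * 2 * p - 1 - ((1 + δ) * 4 * p' - 1) / 4) =
      (3 * ((1 + δ) * 2 * p - 1) / ((1 + δ) * 4 * p' - 1) - 3 / 4) / 4 := by
    have hP' := hP.ne'
    generalize (1 + δ) * 4 * p' - 1 = Q at hP' ⊢
    field_simp
  have h2 : 3 * ((1 + δ) * 2 * p - 1) / ((1 + δ) * 4 * p' - 1) ≤
      (2 * p - 1) * (5 - 4 * p') + 6 * δ := by
    rw [div_le_iff₀ hP]
    have h3 : 3 ≤ (5 - 4 * p') * ((1 + δ) * 4 * p' - 1) := by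
      have h4 : 3 ≤ (5 - 4 * p') * (4 * p' - 1) := by nlinarith
      have h5 : 0 ≤ (5 - 4 * p') * (δ * p') := mul_nonneg (by linarith) hd
      nlinarith
    have h4 := mul_le_mul_of_nonneg_left h3 (show 0 ≤ 2 * p - 1 by linarith)
    have h5 : p ≤ (1 + δ) * 4 * p' - 1 := by nlinarith
    have h6 := mul_le_mul_of_nonneg_left h5 h0.le
    nlinarith
  have h3 : (2 * p - 1) * (5 - 4 * v') ≤ (2 * v - 1) * (5 - 4 * v') :=
    mul_le_mul_of_nonneg_right (by linarith) (by linarith)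
  have h4 : (2 * p - 1) * (5 - 4 * p' - 4 * δ) ≤ (2 * p - 1) * (5 - 4 * v') :=
    mul_le_mul_of_nonneg_left (by linarith) (by linarith)
  have h5 : (2 * p - 1) * δ ≤ δ := by nlinarith
  rw [e]
  nlinarith

theorem cell_far {A B p p' v v' : ℝ} (h0 : 0 < δ) (hA : 0 < A) (hB : 1 ≤ B) (hv : p ≤ v)
    (hv' : v' ≤ p' + δ) :
    1 / ((1 + δ) * B) * ((1 + δ) * A * p - 1 - ((1 + δ) * B * p' - 1) / 4) ≤
      v * A / B - v' / 4 - 3 / 4 * (1 / B) + 3 * δ := by
  have hB0 : 0 < B := by linarith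
  have e : 1 / ((1 + δ) * B) * ((1 + δ) * A * p - 1 - ((1 + δ) * B * p' - 1) / 4) =
      p * A / B - p' / 4 - 3 / 4 * (1 / ((1 + δ) * B)) := by
    field_simp
    ring
  have h2 : p * A / B ≤ v * A / B :=
    div_le_div_of_nonneg_right (mul_le_mul_of_nonneg_right hv hA.le) hB0.le
  have h3 : 1 / B - 1 / ((1 + δ) * B) ≤ δ := by
    have e2 : 1 / B - 1 / ((1 + δ) * B) = δ / ((1 + δ) * B) := by
      field_simp
      ring
    rw [e2]
    exact div_le_self h0.le (by nlinarith)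
  rw [e]
  linarith

open Classical in
/-- The key comparison. Put `x = cell δ N`, `x₁ = cell δ N'`, `N = (1+δ) p 2^x`,
`N' = (1+δ) p' 2^x₁` with `p = pos δ N`, `p' = pos δ N'`. Cases: `x₁ = 0` (both sides vanish up to
the nonnegative error); `x₁ ≥ 3` (direct); `x₁ ∈ {1,2}` and `x = 0` (the term is
`(1 - 2^-x₁) ((N-1)/(N'-1) - 1/4)` and `(N-1)/(N'-1) ≤ 1`, and `≤ η` unless the bad event holds);
`x = x₁ ∈ {1,2}` (`(N-1)/(N'-1) = 1 - (N'-N)/(N'-1)` and
`(1 - 2^-x₁)(N'-N)/(N'-1) ≥ (1-δ)(p'-p)`); `x = 1`, `x₁ = 2`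
(`(N-1)/(N'-1) ≤ (2p-1)/(4p'-1) + 2δ` and `3 ≤ (4p'-1)(5-4p')`). -/
theorem term_le (h0 : 0 < δ) (h1 : δ ≤ 1 / 2) {η : ℝ} (hη : 0 < η) {N N' v v' : ℝ} (hN : 1 ≤ N)
    (hNN : N ≤ N') (h4 : N' ≤ 4 * N) (hv : pos δ N ≤ v) (hv1 : v ≤ 1) (hv' : pos δ N' ≤ v')
    (hv'1 : v' ≤ 1) (hv'2 : v' ≤ pos δ N' + δ) :
    mult δ N' * (N - 1 - (N' - 1) / 4) ≤ bf (cell δ N) (cell δ N') v v' + 3 * δ + η
      + (if N ≤ 1 + δ ∧ 1 + δ < N' ∧ η * (N' - 1) < N - 1 then 1 else 0) := by
  have h1' : δ < 1 := by linarith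
  have hN' : 1 ≤ N' := hN.trans hNN
  have hi : (0 : ℝ) ≤ if N ≤ 1 + δ ∧ 1 + δ < N' ∧ η * (N' - 1) < N - 1 then 1 else 0 := by
    split_ifs <;> norm_num
  obtain ⟨a1, a2, -⟩ := pos_bounds h0 h1' hN
  obtain ⟨b1, b2, -⟩ := pos_bounds h0 h1' hN'
  have hm := cell_mono h0 hNN
  have e := cell_pos_mul h0 N
  have e' := cell_pos_mul h0 N'
  have _ := h4
  have _ := hv1
  have _ := hv'
  unfold mult bf
  by_cases c0 : cell δ N' = 0
  · simp only [c0, if_true, zero_mul]
    linarith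
  have hb := cell_big h0 c0
  have hd : 0 < N' - 1 := by linarith
  by_cases c2 : cell δ N' ≤ 2
  · simp only [c0, c2, if_true, if_false]
    by_cases c3 : cell δ N = 0
    · simp only [c3, if_true]
      have h3 : (0 : ℝ) < (1 / 2) ^ cell δ N' := by positivity
      have h5 : ((1 : ℝ) / 2) ^ cell δ N' ≤ 1 := pow_le_one₀ (by norm_num) (by norm_num)
      have h6 : N ≤ 1 + δ := by simpa [c3] using le_cell h0 N
      have e2 : (1 - (1 / 2) ^ cell δ N') / (N' - 1) * (N - 1 - (N' - 1) / 4) =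
          -(1 - (1 / 2) ^ cell δ N') / 4 + (1 - (1 / 2) ^ cell δ N') * ((N - 1) / (N' - 1)) := by
        field_simp
        ring
      have h7 : 0 ≤ (N - 1) / (N' - 1) := div_nonneg (by linarith) hd.le
      have h8 : (1 - (1 / 2) ^ cell δ N') * ((N - 1) / (N' - 1)) ≤ (N - 1) / (N' - 1) := by
        nlinarith
      rw [e2]
      by_cases c4 : η * (N' - 1) < N - 1
      · have h9 : (N - 1) / (N' - 1) ≤ 1 := (div_le_one hd).2 (by linarith)
        rw [if_pos ⟨h6, hb, c4⟩]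
        linarith
      · have h9 : (N - 1) / (N' - 1) ≤ η := (div_le_iff₀ hd).2 (not_lt.1 c4)
        linarith
    by_cases c4 : cell δ N = cell δ N'
    · simp only [c4, c0, if_true, if_false]
      rw [c4] at e
      have hP : 0 < (1 + δ) * 2 ^ cell δ N' := by positivity
      have hpp : pos δ N ≤ pos δ N' := le_of_mul_le_mul_left (by rw [← e, ← e']; exact hNN) hP
      have hc : (1 - δ) * ((1 + δ) * 2 ^ cell δ N' - 1) ≤
          (1 - (1 / 2) ^ cell δ N') * ((1 + δ) * 2 ^ cell δ N') := by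
        have : cell δ N' = 1 ∨ cell δ N' = 2 := by omega
        rcases this with h | h <;> rw [h] <;> nlinarith
      have := cell_same h0 (by rw [← e']; exact hd) hP hc h1 a1 hpp b2 hv hv'2
      rw [← e, ← e'] at this
      linarith
    · simp only [c4, c3, if_false]
      have x1 : cell δ N = 1 := by omega
      have x2 : cell δ N' = 2 := by omega
      have := cell_next h0 a1 a2 b1 b2 hv hv'1 hv'2
      rw [x1] at e
      rw [x2] at e'
      rw [show (1 + δ) * 2 * pos δ N = N by rw [pow_one] at e; exact e.symm,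
        show (1 + δ) * 4 * pos δ N' = N' by norm_num at e'; exact e'.symm] at this
      rw [x2, show (1 : ℝ) - (1 / 2) ^ 2 = 3 / 4 by norm_num]
      linarith
  · simp only [c0, c2, if_false]
    have := cell_far (A := 2 ^ cell δ N) (B := 2 ^ cell δ N') h0 (by positivity)
      (one_le_pow₀ one_le_two) hv hv'2
    rw [← e, ← e'] at this
    rw [one_div_pow]
    linarith

end Pool.Agent.MP_450e1b_mp.H55

/-
From lattice certificates to real certificates.
-/

namespace Pool.Agent.MP_450e1b_mp.H55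

open Finset

/-- The cells of a real transition form a `Step`, and the rounded positions are admissible
(`cell_rel` with `a = 2 i`, `b = 2 T + 1`, `cell_mono`, `cell_four`, `pos_bounds`; note
`M = 4 M' N / N' ≥ 1`). -/
theorem step_adm {δ : ℝ} (h0 : 0 < δ) (h1 : δ ≤ 1 / 2) {T i : ℕ} {N M N' M' : ℝ} (hN : 1 ≤ N)
    (hNN : N ≤ N') (h4 : N' ≤ 4 * N) (hM' : 1 ≤ M') (hM : M * 4 ^ i = 2 ^ (2 * T + 1) * N)
    (hMM : M' * 4 ^ (i + 1) = 2 ^ (2 * T + 1) * N') :
    M' ≤ M ∧ M ≤ 4 * M' ∧ Step (cell δ N) (cell δ M) (cell δ N') (cell δ M') ∧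
      Adm (cell δ N) (cell δ M) (cell δ N') (cell δ M') (rpos δ N M) (rpos δ N' M') ∧
      pos δ M = pos δ N ∧ pos δ M' = pos δ N' ∧
      pos δ N ≤ rpos δ N M ∧ rpos δ N M ≤ pos δ N + δ ∧
      pos δ N' ≤ rpos δ N' M' ∧ rpos δ N' M' ≤ pos δ N' + δ := by
  have h1' : δ < 1 := by linarith
  have hp : (0 : ℝ) < 4 ^ i := by positivity
  have hq : (0 : ℝ) < 2 ^ (2 * T + 1) := by positivity
  have e : M * N' = 4 * M' * N := by
    refine mul_right_cancel₀ hp.ne' ?_
    rw [pow_succ] at hMM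
    linear_combination N' * hM - N * hMM
  have hA : M' ≤ M := by
    by_contra hn
    push Not at hn
    nlinarith
  have hB : M ≤ 4 * M' := by
    by_contra hn
    push Not at hn
    nlinarith
  obtain ⟨c1, p1⟩ := cell_rel h0 h1' hN (hM'.trans hA) (a := 2 * i) (b := 2 * T + 1)
    (by rw [pow_mul]; norm_num; exact hM)
  obtain ⟨c2, p2⟩ := cell_rel h0 h1' (hN.trans hNN) hM' (a := 2 * (i + 1)) (b := 2 * T + 1)
    (by rw [pow_mul]; norm_num; exact hMM)
  have m1 := cell_mono h0 hNN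
  have m2 := cell_four h0 h4
  obtain ⟨b1, b2, b3⟩ := pos_bounds h0 h1' hN
  obtain ⟨b4, b5, b6⟩ := pos_bounds h0 h1' (hN.trans hNN)
  obtain ⟨-, -, b7⟩ := pos_bounds h0 h1' (hM'.trans hA)
  obtain ⟨-, -, b8⟩ := pos_bounds h0 h1' hM'
  rw [p1] at b7
  rw [p2] at b8
  have r : ∀ X Y : ℝ, pos δ X ≤ 1 → (cell δ X = 0 → 1 - δ ≤ pos δ X) → (cell δ Y = 0 → 1 - δ ≤ pos δ X) →
      pos δ X ≤ rpos δ X Y ∧ rpos δ X Y ≤ pos δ X + δ ∧ rpos δ X Y ≤ 1 := by
    intro X Y g1 g2 g3
    unfold rpos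
    split_ifs with g
    · exact ⟨g1, by linarith [g.elim g2 g3], le_rfl⟩
    · exact ⟨le_rfl, by linarith, g1⟩
  obtain ⟨r1, r2, r3⟩ := r N M b2 b3 b7
  obtain ⟨r4, r5, r6⟩ := r N' M' b5 b6 b8
  have hδ : 0 < 1 + δ := by linarith
  refine ⟨hA, hB, ⟨Nat.odd_iff.2 (by omega), m1, m2, by omega⟩,
    ⟨by linarith, r3, by linarith, r6, fun g => if_pos g, fun g => if_pos g, fun g => ?_, fun g => ?_⟩,
    p1, p2, r1, r2, r4, r5⟩
  · by_cases g' : cell δ N' = 0 ∨ cell δ M' = 0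
    · rw [show rpos δ N' M' = 1 from if_pos g']
      exact r3
    · rw [show rpos δ N M = pos δ N from if_neg (by omega)]
      refine le_trans ?_ r4
      unfold pos
      rw [g]
      exact div_le_div_of_nonneg_right hNN (by positivity)
  · by_cases g' : cell δ N = 0 ∨ cell δ M = 0
    · rw [show rpos δ N M = 1 from if_pos g']
      exact r6
    · rw [show rpos δ N' M' = pos δ N' from if_neg (by omega)]
      refine le_trans ?_ r1
      unfold pos
      rw [g, div_le_div_iff₀ (by positivity) (by positivity), pow_add]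
      have h5 : 0 < (1 + δ) * 2 ^ cell δ N := by positivity
      nlinarith

open Classical in
/-- At most one of the thresholds `δ₀ η^k` is bad. -/
theorem bad_sum {δ₀ η : ℝ} (h0 : 0 < δ₀) (hη : 0 < η) (hη1 : η < 1) (N N' : ℝ) (K : ℕ) :
    ∑ k ∈ range K, (if N ≤ 1 + δ₀ * η ^ k ∧ 1 + δ₀ * η ^ k < N' ∧ η * (N' - 1) < N - 1
      then (1 : ℝ) else 0) ≤ 1 := by
  rw [sum_boole, Nat.cast_le_one, card_le_one]
  have key : ∀ k k' : ℕ, k < k' → N ≤ 1 + δ₀ * η ^ k' → 1 + δ₀ * η ^ k < N' → η * (N' - 1) < N - 1 →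
      False := by
    intro k k' h g1 g2 g3
    have h2 : η ^ k' ≤ η ^ (k + 1) := pow_le_pow_of_le_one hη.le hη1.le h
    have h3 := mul_le_mul_of_nonneg_left h2 h0.le
    have h4 := mul_lt_mul_of_pos_left g2 hη
    rw [pow_succ] at h3
    nlinarith
  intro k hk k' hk'
  rw [mem_filter] at hk hk'
  rcases lt_trichotomy k k' with h | h | h
  · exact (key k k' h hk'.2.1 hk.2.2.1 hk.2.2.2).elim
  · exact h
  · exact (key k' k h hk.2.1 hk'.2.2.1 hk.2.2.2).elim

/-- Plan. Take `T` from the lattice certificate. Given `ε₁`, choose `K ≥ 1`, `δ₀ ≤ 1/2`, `η < 1`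
with `2 C (3 δ₀ + η + 1/K) ≤ ε₁`. With `δ k = δ₀ η^k` define
`V' N M = (∑ k ∈ range K, V (cell (δ k) N) (cell (δ k) M)) / K` and
`lam N M = (∑ k ∈ range K, l (cell (δ k) N) (cell (δ k) M) * mult (δ k) M) / K`; the bound is
`C * 8 / (δ₀ η^K)` (`mult_bounds`). For each `k` apply the lattice inequality to the data of
`step_adm`, and `term_le` twice (once for `N, N'`, once for `M', M`); the real reward conditions
imply the lattice ones (`cell_two_pow`); average over `k` with `bad_sum`. The start bound uses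
`cell_mul`. -/
theorem realCert_of_latCert {u : ℕ} {c : ℝ} (hc : 0 ≤ c) (h : LatCert u c) : RealCert u c := by
  classical
  obtain ⟨C, V, l, hV, hl, hT, hG⟩ := h
  intro ε hε
  obtain ⟨T, huT, hst⟩ := hT ε hε
  refine ⟨T, huT, fun ε₁ hε₁ => ?_⟩
  have hC : 0 ≤ C := (hl 0 0).1.trans (hl 0 0).2
  obtain ⟨τ, t0, t1, t2⟩ : ∃ τ : ℝ, 0 < τ ∧ τ ≤ 1 / 2 ∧ 10 * C * τ ≤ ε₁ := by
    refine ⟨min (1 / 2) (ε₁ / (10 * (C + 1))), by positivity, min_le_left _ _, ?_⟩
    have h1 : min (1 / 2) (ε₁ / (10 * (C + 1))) ≤ ε₁ / (10 * (C + 1)) := min_le_right _ _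
    have h2 : 0 < min (1 / 2) (ε₁ / (10 * (C + 1))) := by positivity
    rw [le_div_iff₀ (by positivity)] at h1
    nlinarith
  obtain ⟨K, hK⟩ := exists_nat_gt (1 / τ)
  have hK0 : (0 : ℝ) < K := lt_trans (by positivity) hK
  have hK1 : 1 ≤ K * τ := by
    rw [div_lt_iff₀ t0] at hK
    exact hK.le
  have d0 : ∀ k : ℕ, 0 < τ * τ ^ k := fun k => by positivity
  have d1 : ∀ k : ℕ, τ * τ ^ k ≤ τ := fun k =>
    mul_le_of_le_one_right t0.le (pow_le_one₀ t0.le (by linarith))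
  have d2 : ∀ k : ℕ, τ * τ ^ k < 1 := fun k => by linarith [d1 k]
  refine ⟨(∑ k ∈ range K, C * (8 / (τ * τ ^ k))) / K,
    fun N M => (∑ k ∈ range K, V (cell (τ * τ ^ k) N) (cell (τ * τ ^ k) M)) / K,
    fun N M => (∑ k ∈ range K, l (cell (τ * τ ^ k) N) (cell (τ * τ ^ k) M) * mult (τ * τ ^ k) M) / K,
    fun N M _ hM => ⟨?_, ?_⟩, fun N M => ?_, fun N hN => ?_, fun i N M N' M' hN hNN h4 hM' hM hMM => ?_⟩
  · exact div_nonneg (sum_nonneg fun k _ => mul_nonneg (hl _ _).1 (mult_bounds (d0 k) (d2 k) hM).1) hK0.le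
  · rw [div_mul_eq_mul_div, sum_mul]
    refine div_le_div_of_nonneg_right (sum_le_sum fun k _ => ?_) hK0.le
    rw [mul_assoc]
    exact mul_le_mul (hl _ _).2 (mult_bounds (d0 k) (d2 k) hM).2
      (mul_nonneg (mult_bounds (d0 k) (d2 k) hM).1 (by linarith)) hC
  · rw [← neg_div, ← sum_neg_distrib]
    exact congrArg (· / (K : ℝ)) (sum_congr rfl fun k _ => hV _ _)
  · rw [div_le_iff₀ hK0]
    refine (sum_le_card_nsmul _ _ (1 + ε) fun k _ => ?_).trans (by rw [card_range, nsmul_eq_mul, mul_comm])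
    rw [cell_mul (d0 k) (d2 k) hN]
    exact hst _
  · set A : ℝ := if N' = 1 ∧ M' = 2 ^ (2 * u + 1) then c else 0 with hA
    set B : ℝ := if M = 1 ∧ N = 2 ^ (2 * u + 1) then c else 0 with hB
    have key : ∀ k ∈ range K, -(8 * C * τ)
        - C * (if M' ≤ 1 + τ * τ ^ k ∧ 1 + τ * τ ^ k < M ∧ τ * (M - 1) < M' - 1 then (1 : ℝ) else 0)
        - C * (if N ≤ 1 + τ * τ ^ k ∧ 1 + τ * τ ^ k < N' ∧ τ * (N' - 1) < N - 1 then (1 : ℝ) else 0) ≤
        V (cell (τ * τ ^ k) N) (cell (τ * τ ^ k) M) - V (cell (τ * τ ^ k) N') (cell (τ * τ ^ k) M') - A - B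
        - l (cell (τ * τ ^ k) N) (cell (τ * τ ^ k) M) * mult (τ * τ ^ k) M * (M' - 1 - (M - 1) / 4)
        - l (cell (τ * τ ^ k) M') (cell (τ * τ ^ k) N') * mult (τ * τ ^ k) N' * (N - 1 - (N' - 1) / 4) := by
      intro k _
      have e0 := d0 k
      have e1 := d1 k
      have e2 := d2 k
      generalize τ * τ ^ k = δ at e0 e1 e2 ⊢
      obtain ⟨s1, s2, s3, s4, s5, s6, s7, s8, s9, s10⟩ := step_adm e0 (e1.trans t1) hN hNN h4 hM' hM hMM
      have g := hG _ _ _ _ _ _ s3 s4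
      have g1 := term_le e0 (e1.trans t1) t0 hN hNN h4 s7 s4.2.1 s9 s4.2.2.2.1 s10
      have g2 := term_le e0 (e1.trans t1) t0 hM' s1 s2 (s6 ▸ s9) s4.2.2.2.1 (s5 ▸ s7) s4.2.1 (s5 ▸ s8)
      have c0 : cell δ 1 = 0 := by simpa using cell_two_pow e0 e2 0
      have a1 : A ≤ if cell δ N' = 0 ∧ cell δ M' = 2 * u + 1 then c else 0 := by
        rw [hA]
        split_ifs with x1 x2 x2
        · exact le_rfl
        · exact absurd ⟨x1.1 ▸ c0, x1.2 ▸ cell_two_pow e0 e2 _⟩ x2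
        · exact hc
        · exact le_rfl
      have a2 : B ≤ if cell δ M = 0 ∧ cell δ N = 2 * u + 1 then c else 0 := by
        rw [hB]
        split_ifs with x1 x2 x2
        · exact le_rfl
        · exact absurd ⟨x1.1 ▸ c0, x1.2 ▸ cell_two_pow e0 e2 _⟩ x2
        · exact hc
        · exact le_rfl
      unfold Gl at g
      generalize hb1 : (if N ≤ 1 + δ ∧ 1 + δ < N' ∧ τ * (N' - 1) < N - 1 then (1 : ℝ) else 0) = b1 at g1 ⊢
      generalize hb2 : (if M' ≤ 1 + δ ∧ 1 + δ < M ∧ τ * (M - 1) < M' - 1 then (1 : ℝ) else 0) = b2 at g2 ⊢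
      have n1 : 0 ≤ b1 := by rw [← hb1]; split_ifs <;> norm_num
      have n2 : 0 ≤ b2 := by rw [← hb2]; split_ifs <;> norm_num
      obtain ⟨l1, l2⟩ := hl (cell δ N) (cell δ M)
      obtain ⟨l3, l4⟩ := hl (cell δ M') (cell δ N')
      have k1 := mul_le_mul_of_nonneg_left g2 l1
      have k2 := mul_le_mul_of_nonneg_left g1 l3
      have k3 := mul_le_mul_of_nonneg_right l2 (show 0 ≤ 3 * δ + τ + b2 by positivity)
      have k4 := mul_le_mul_of_nonneg_right l4 (show 0 ≤ 3 * δ + τ + b1 by positivity)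
      have k5 := mul_le_mul_of_nonneg_left e1 hC
      nlinarith
    have h5 := sum_le_sum key
    have b1 := mul_le_mul_of_nonneg_left (bad_sum t0 t0 (by linarith) N N' K) hC
    have b2 := mul_le_mul_of_nonneg_left (bad_sum t0 t0 (by linarith) M' M K) hC
    simp only [sum_sub_distrib, ← mul_sum, ← sum_mul, sum_const, card_range, nsmul_eq_mul] at h5
    rw [← mul_le_mul_iff_left₀ hK0]
    have k1 := mul_le_mul_of_nonneg_left hK1 hC
    have k2 := mul_le_mul_of_nonneg_left t2 hK0.le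
    field_simp
    nlinarith

end Pool.Agent.MP_450e1b_mp.H55

end

-- part MP_450e1b_mp.H55.Chain
section

/-
Averages over subsets and over pairs; elementary facts on weight systems.
-/

namespace Pool.Agent.MP_450e1b_mp.H55

open Finset

variable {n : ℕ}

theorem avg_mono {m : ℕ} {f g : Finset (Fin n) → ℝ} (h : ∀ D, D.card = m → f D ≤ g D) :
    avg n m f ≤ avg n m g := by
  unfold avg
  refine div_le_div_of_nonneg_right (sum_le_sum fun D hD => h D ?_) (Nat.cast_nonneg _)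
  exact (mem_powersetCard.1 hD).2

theorem avg_const {m : ℕ} (hm : m ≤ n) (c : ℝ) : avg n m (fun _ => c) = c := by
  unfold avg
  have h : (0 : ℝ) < n.choose m := by exact_mod_cast Nat.choose_pos hm
  rw [sum_const, card_powersetCard, card_univ, Fintype.card_fin, nsmul_eq_mul]
  field_simp

theorem avg_mul (m : ℕ) (c : ℝ) (f : Finset (Fin n) → ℝ) :
    avg n m (fun D => c * f D) = c * avg n m f := by
  unfold avg
  rw [← mul_sum, mul_div_assoc]

theorem avg_add (m : ℕ) (f g : Finset (Fin n) → ℝ) :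
    avg n m (fun D => f D + g D) = avg n m f + avg n m g := by
  unfold avg
  rw [sum_add_distrib, add_div]

theorem avg_sub (m : ℕ) (f g : Finset (Fin n) → ℝ) :
    avg n m (fun D => f D - g D) = avg n m f - avg n m g := by
  unfold avg
  rw [sum_sub_distrib, sub_div]

/-- Complementation is a bijection between `m`-sets and `(n - m)`-sets. -/
theorem avg_compl {m m' : ℕ} (h : m + m' = n) (f : Finset (Fin n) → ℝ) :
    avg n m f = avg n m' (fun E => f Eᶜ) := by
  unfold avg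
  have hc : n.choose m = n.choose m' := by
    rw [← h]; exact Nat.choose_symm_add
  rw [hc]
  congr 1
  refine sum_nbij' (fun D => Dᶜ) (fun E => Eᶜ) ?_ ?_ ?_ ?_ ?_
  · intro D hD
    have := (mem_powersetCard.1 hD).2
    refine mem_powersetCard.2 ⟨subset_univ _, ?_⟩
    rw [card_compl, Fintype.card_fin]; omega
  · intro D hD
    have := (mem_powersetCard.1 hD).2
    refine mem_powersetCard.2 ⟨subset_univ _, ?_⟩
    rw [card_compl, Fintype.card_fin]; omega
  · intro D _; simp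
  · intro D _; simp
  · intro D _; simp

theorem pavg_mono {m : ℕ} (hm : m < n) {f g : Finset (Fin n) → Finset (Fin n) → ℝ}
    (h : ∀ D j, D.card = m → j ∉ D → f D (insert j D) ≤ g D (insert j D)) :
    pavg n m f ≤ pavg n m g := by
  unfold pavg
  have h1 : (0 : ℝ) ≤ (n : ℝ) - m := by
    have : (m : ℝ) ≤ n := by exact_mod_cast hm.le
    linarith
  refine div_le_div_of_nonneg_right (sum_le_sum fun D hD => sum_le_sum fun j hj => ?_)
    (mul_nonneg (Nat.cast_nonneg _) h1)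
  exact h D j (mem_powersetCard.1 hD).2 (mem_compl.1 hj)

theorem pavg_mul (m : ℕ) (c : ℝ) (f : Finset (Fin n) → Finset (Fin n) → ℝ) :
    pavg n m (fun D D' => c * f D D') = c * pavg n m f := by
  unfold pavg
  simp only [← mul_sum]
  rw [mul_div_assoc]

theorem pavg_add (m : ℕ) (f g : Finset (Fin n) → Finset (Fin n) → ℝ) :
    pavg n m (fun D D' => f D D' + g D D') = pavg n m f + pavg n m g := by
  unfold pavg
  simp only [sum_add_distrib]
  rw [add_div]

theorem pavg_sub (m : ℕ) (f g : Finset (Fin n) → Finset (Fin n) → ℝ) :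
    pavg n m (fun D D' => f D D' - g D D') = pavg n m f - pavg n m g := by
  unfold pavg
  simp only [sum_sub_distrib]
  rw [sub_div]

theorem pavg_fst {m : ℕ} (hm : m < n) (f : Finset (Fin n) → ℝ) :
    pavg n m (fun D _ => f D) = avg n m f := by
  unfold pavg avg
  have h1 : (0 : ℝ) < (n : ℝ) - m := by
    have : (m : ℝ) < n := by exact_mod_cast hm
    linarith
  have h2 : (0 : ℝ) < n.choose m := by exact_mod_cast Nat.choose_pos hm.le
  have h3 : ∑ D ∈ powersetCard m (univ : Finset (Fin n)), ∑ _j ∈ Dᶜ, f D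
      = (∑ D ∈ powersetCard m (univ : Finset (Fin n)), f D) * ((n : ℝ) - m) := by
    rw [sum_mul]
    refine sum_congr rfl fun D hD => ?_
    have := (mem_powersetCard.1 hD).2
    rw [sum_const, card_compl, Fintype.card_fin, this, nsmul_eq_mul, Nat.cast_sub hm.le, mul_comm]
  rw [h3]
  field_simp

/-- Pairs `(D, j)` with `j ∉ D` correspond to pairs `(D', j)` with `j ∈ D'`
(`Finset.sum_sigma'`, `Finset.sum_bij'`/`sum_nbij'`; `Nat.choose_succ_right_eq`). -/
theorem pavg_erase {m : ℕ} (hm : m < n) (g : Finset (Fin n) → Finset (Fin n) → ℝ) :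
    pavg n m g = avg n (m + 1) (fun D' => (∑ j ∈ D', g (D'.erase j) D') / ((m : ℝ) + 1)) := by
  unfold pavg avg
  have h3 : ∑ D ∈ powersetCard m (univ : Finset (Fin n)), ∑ j ∈ Dᶜ, g D (insert j D)
      = ∑ D' ∈ powersetCard (m + 1) (univ : Finset (Fin n)), ∑ j ∈ D', g (D'.erase j) D' := by
    rw [sum_sigma', sum_sigma']
    refine sum_nbij' (fun x => ⟨insert x.2 x.1, x.2⟩) (fun x => ⟨x.1.erase x.2, x.2⟩)
      ?_ ?_ ?_ ?_ ?_
    · rintro ⟨D, j⟩ hx
      simp only [mem_sigma, mem_powersetCard, mem_compl] at hx ⊢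
      refine ⟨⟨subset_univ _, ?_⟩, mem_insert_self _ _⟩
      rw [card_insert_of_notMem hx.2, hx.1.2]
    · rintro ⟨D, j⟩ hx
      simp only [mem_sigma, mem_powersetCard, mem_compl] at hx ⊢
      refine ⟨⟨subset_univ _, ?_⟩, notMem_erase _ _⟩
      rw [card_erase_of_mem hx.2, hx.1.2]; rfl
    · rintro ⟨D, j⟩ hx
      simp only [mem_sigma, mem_powersetCard, mem_compl] at hx
      simp [erase_insert hx.2]
    · rintro ⟨D, j⟩ hx
      simp only [mem_sigma, mem_powersetCard] at hx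
      simp [insert_erase hx.2]
    · rintro ⟨D, j⟩ hx
      simp only [mem_sigma, mem_powersetCard, mem_compl] at hx
      simp [erase_insert hx.2]
  have h4 : (n.choose m : ℝ) * ((n : ℝ) - m) = ((m : ℝ) + 1) * n.choose (m + 1) := by
    have := Nat.choose_succ_right_eq n m
    have h5 : ((n.choose (m + 1) * (m + 1) : ℕ) : ℝ) = ((n.choose m * (n - m) : ℕ) : ℝ) := by
      rw [this]
    push_cast [Nat.cast_sub hm.le] at h5
    linarith
  rw [h3, h4, ← sum_div, div_div]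

theorem pavg_snd {m : ℕ} (hm : m < n) (f : Finset (Fin n) → ℝ) :
    pavg n m (fun _ D' => f D') = avg n (m + 1) f := by
  rw [pavg_erase hm]
  unfold avg
  congr 1
  refine sum_congr rfl fun D hD => ?_
  have := (mem_powersetCard.1 hD).2
  have h1 : (0 : ℝ) < (m : ℝ) + 1 := by positivity
  simp only [sum_const, this, nsmul_eq_mul]
  push_cast
  field_simp

/-- From `pavg_erase` and `avg_compl`: `(insert j E)ᶜ = Eᶜ.erase j`. -/
theorem pavg_compl {m m' : ℕ} (h : m + m' + 1 = n) (g : Finset (Fin n) → Finset (Fin n) → ℝ) :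
    pavg n m g = pavg n m' (fun E E' => g E'ᶜ Eᶜ) := by
  rw [pavg_erase (by omega), avg_compl (m' := m') (by omega)]
  unfold pavg avg
  have h1 : (n : ℝ) - m' = (m : ℝ) + 1 := by
    rw [← h]; push_cast; ring
  rw [h1, ← sum_div, div_div, mul_comm]
  congr 1
  refine sum_congr rfl fun E _ => sum_congr rfl fun j _ => ?_
  simp only [compl_insert]

theorem NW_mono {w : Finset (Fin n) → ℝ} (hw : WS w) {D D' : Finset (Fin n)} (h : D ⊆ D') :
    NW w D ≤ NW w D' := by
  unfold NW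
  exact sum_le_sum_of_subset_of_nonneg (powerset_mono.2 h) fun S _ _ => hw.nonneg S

theorem one_le_NW {w : Finset (Fin n) → ℝ} (hw : WS w) (D : Finset (Fin n)) : 1 ≤ NW w D := by
  have h := NW_mono hw (empty_subset D)
  have h0 : NW w ∅ = 1 := by simp [NW, hw.empty]
  rwa [h0] at h

/-- Use `hw.dual` for `D` and for `insert j D`, and `NW_mono` for the complements. -/
theorem NW_insert_le {w : Finset (Fin n) → ℝ} (hw : WS w) (D : Finset (Fin n)) (j : Fin n) :
    NW w (insert j D) ≤ 4 * NW w D := by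
  by_cases hj : j ∈ D
  · rw [insert_eq_of_mem hj]
    have := one_le_NW hw D
    linarith
  · have h1 := hw.dual D
    have h2 := hw.dual (insert j D)
    rw [card_insert_of_notMem hj, pow_succ] at h2
    have h3 : NW w (insert j D)ᶜ ≤ NW w Dᶜ :=
      NW_mono hw (compl_subset_compl.2 (subset_insert j D))
    have h4 : (0 : ℝ) < 4 ^ D.card := by positivity
    have h5 : (0 : ℝ) < 2 ^ n := by positivity
    have h6 : (2 : ℝ) ^ n * NW w (insert j D) ≤ 2 ^ n * (4 * NW w D) := by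
      have := mul_le_mul_of_nonneg_right h3 h4.le
      nlinarith
    exact le_of_mul_le_mul_left h6 h5

/-- Double counting: a subset `S` of `D` lies in `D.erase j` for `|D| - |S|` choices of `j`. -/
theorem sum_erase_powerset (D : Finset (Fin n)) (f : Finset (Fin n) → ℝ) :
    ∑ j ∈ D, ∑ S ∈ (D.erase j).powerset, f S
      = ∑ S ∈ D.powerset, f S * ((D.card : ℝ) - S.card) := by
  have h1 : ∀ j ∈ D, ∑ S ∈ (D.erase j).powerset, f S
      = ∑ S ∈ D.powerset, if j ∉ S then f S else 0 := by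
    intro j _
    rw [← sum_filter]
    refine sum_congr ?_ fun _ _ => rfl
    ext S
    simp only [mem_powerset, mem_filter, subset_erase]
  rw [sum_congr rfl h1, sum_comm]
  refine sum_congr rfl fun S hS => ?_
  have hS' := mem_powerset.1 hS
  rw [← sum_filter, sum_const, nsmul_eq_mul, mul_comm]
  congr 1
  have : filter (fun j => j ∉ S) D = D \ S := by
    ext j; simp
  rw [this, card_sdiff_of_subset hS', Nat.cast_sub (card_le_card hS')]

end Pool.Agent.MP_450e1b_mp.H55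

/-
Heavy words carry a small part of the weight; the averaged backward and forward inequalities.
-/

namespace Pool.Agent.MP_450e1b_mp.H55

open Finset

open Classical in
/-- Weight of the subsets of `D` with more than `t` elements. -/
noncomputable def hv {n : ℕ} (w : Finset (Fin n) → ℝ) (t : ℝ) (D : Finset (Fin n)) : ℝ :=
  ∑ S ∈ D.powerset, if t < S.card then w S else 0

theorem heavy_hv_nonneg {n : ℕ} {w : Finset (Fin n) → ℝ} (hw : WS w) (t : ℝ)
    (D : Finset (Fin n)) : 0 ≤ hv w t D :=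
  sum_nonneg fun S _ => by
    split_ifs
    · exact hw.nonneg S
    · exact le_rfl

theorem heavy_hv_le {n : ℕ} {w : Finset (Fin n) → ℝ} (hw : WS w) (t : ℝ)
    (D : Finset (Fin n)) : hv w t D ≤ NW w D :=
  sum_le_sum fun S _ => by
    split_ifs
    · exact le_rfl
    · exact hw.nonneg S

theorem heavy_hv_anti {n : ℕ} {w : Finset (Fin n) → ℝ} (hw : WS w) {t t' : ℝ} (h : t ≤ t')
    (D : Finset (Fin n)) : hv w t' D ≤ hv w t D :=
  sum_le_sum fun S _ => by
    by_cases h1 : t' < S.card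
    · rw [if_pos h1, if_pos (h.trans_lt h1)]
    · rw [if_neg h1]
      split_ifs
      · exact hw.nonneg S
      · exact le_rfl

theorem heavy_NW_pos {n : ℕ} {w : Finset (Fin n) → ℝ} (hw : WS w) (D : Finset (Fin n)) :
    0 < NW w D := one_pos.trans_le (one_le_NW hw D)

theorem heavy_erase {n : ℕ} {w : Finset (Fin n) → ℝ} (hw : WS w) (t : ℝ) (D : Finset (Fin n)) :
    ∑ j ∈ D, hv w t (D.erase j) ≤ ((D.card : ℝ) - t) * hv w t D := by
  unfold hv
  rw [sum_erase_powerset, mul_sum]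
  refine sum_le_sum fun S _ => ?_
  split_ifs with h
  · rw [mul_comm]
    exact mul_le_mul_of_nonneg_right (by linarith) (hw.nonneg S)
  · simp

theorem heavy_erase_NW {n : ℕ} {w : Finset (Fin n) → ℝ} (hw : WS w) {η : ℝ} (hη : 0 < η)
    (D : Finset (Fin n)) :
    (D.card : ℝ) * ((1 / 4 - η) * NW w D - hv w ((3 / 4 + η) * D.card) D / 4 + (3 / 4 + η))
      ≤ ∑ j ∈ D, NW w (D.erase j) := by
  classical
  have h1 : (3 / 4 + η : ℝ) = ∑ S ∈ D.powerset, if S = ∅ then (3 / 4 + η : ℝ) else 0 := by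
    rw [sum_ite_eq', if_pos (empty_mem_powerset D)]
  have h2 : (1 / 4 - η) * NW w D - hv w ((3 / 4 + η) * D.card) D / 4 + (3 / 4 + η)
      = ∑ S ∈ D.powerset, ((1 / 4 - η) * w S
        - (if (3 / 4 + η) * (D.card : ℝ) < S.card then w S else 0) / 4
        + if S = ∅ then (3 / 4 + η : ℝ) else 0) := by
    rw [sum_add_distrib, sum_sub_distrib, ← h1, ← mul_sum, ← sum_div]
    rfl
  rw [h2, mul_sum]
  unfold NW
  rw [sum_erase_powerset]
  refine sum_le_sum fun S hS => ?_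
  have h3 : (S.card : ℝ) ≤ D.card := by exact_mod_cast card_le_card (mem_powerset.mp hS)
  have h4 := hw.nonneg S
  have h5 : (0 : ℝ) ≤ D.card := Nat.cast_nonneg _
  by_cases h6 : S = ∅
  · subst h6
    have h7 : (0 : ℝ) ≤ (3 / 4 + η) * D.card := mul_nonneg (by linarith) h5
    rw [if_pos rfl, hw.empty, card_empty, Nat.cast_zero, if_neg (not_lt.mpr h7)]
    linarith
  · rw [if_neg h6]
    split_ifs with h7
    · have h8 := mul_nonneg h4 (sub_nonneg.mpr h3)
      have h9 := mul_nonneg (mul_nonneg h5 hη.le) h4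
      linarith
    · have h8 := mul_nonneg h4 (sub_nonneg.mpr (not_lt.mp h7))
      linarith

/-- One step. Write the left side as a `pavg` (`pavg_fst`), bound `1 / NW w D` by
`4 / NW w D'` (`NW_insert_le`), use `pavg_erase` and `sum_erase_powerset`:
`∑ j ∈ D', hv w t (D'.erase j) ≤ (l + 1 - t) * hv w t D'`. -/
theorem hv_step {n : ℕ} {w : Finset (Fin n) → ℝ} (hw : WS w) (t : ℝ) {l : ℕ} (hl : l < n)
    (ht : t ≤ (l : ℝ) + 1) :
    avg n l (fun D => hv w t D / NW w D)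
      ≤ 4 * (1 - t / ((l : ℝ) + 1)) * avg n (l + 1) (fun D => hv w t D / NW w D) := by
  have _ := ht
  have hl1 : (0 : ℝ) < (l : ℝ) + 1 := by positivity
  rw [← pavg_fst hl, ← avg_mul]
  refine (pavg_mono hl (g := fun D D' => hv w t D * (4 / NW w D')) fun D j _ _ => ?_).trans ?_
  · have h1 := heavy_NW_pos hw D
    have h2 := heavy_NW_pos hw (insert j D)
    rw [div_eq_mul_one_div]
    refine mul_le_mul_of_nonneg_left ?_ (heavy_hv_nonneg hw t D)
    rw [div_le_div_iff₀ h1 h2, one_mul]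
    exact NW_insert_le hw D j
  · rw [pavg_erase hl]
    refine avg_mono fun D hD => ?_
    have h1 := heavy_NW_pos hw D
    have h2 := heavy_erase hw t D
    rw [hD, Nat.cast_succ] at h2
    rw [← sum_mul, div_le_iff₀ hl1]
    refine (mul_le_mul_of_nonneg_right h2 (by positivity)).trans_eq ?_
    field_simp

/-- Iterate `hv_step` `T` times from level `m` (the threshold `(3/4 + η) m` stays fixed): WLOG
`η ≤ 1/8`; choose `T` with `(1 - 2η)^T ≤ ε`, then `L ≥ T` so large that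
`4 (1 - (3/4 + η) m / (l + 1)) ≤ 1 - 2η` for `m ≥ L`, `m ≤ l < m + T`; at level `m + T` the
average is at most `1` since `hv ≤ NW`. -/
theorem heavy (η ε : ℝ) (hη : 0 < η) (hε : 0 < ε) : ∃ L : ℕ, ∀ (n : ℕ) (w : Finset (Fin n) → ℝ),
    WS w → ∀ m : ℕ, L ≤ m → m + L ≤ n →
      avg n m (fun D => hv w ((3 / 4 + η) * m) D / NW w D) ≤ ε := by
  obtain ⟨θ, h0, h1, h2⟩ : ∃ θ : ℝ, 0 < θ ∧ θ ≤ η ∧ θ ≤ 1 / 8 :=
    ⟨min η (1 / 8), by positivity, min_le_left _ _, min_le_right _ _⟩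
  obtain ⟨T, hT⟩ := exists_pow_lt_of_lt_one hε (show 1 - 2 * θ < 1 by linarith)
  obtain ⟨L, hL⟩ := exists_nat_ge ((3 + 2 * θ) * T / (2 * θ))
  rw [div_le_iff₀ (by positivity)] at hL
  refine ⟨max L T, fun n w hw m hm hn => ?_⟩
  have hm0 : (0 : ℝ) ≤ m := Nat.cast_nonneg m
  have hLm : (L : ℝ) ≤ m := by exact_mod_cast (le_max_left L T).trans hm
  have hT' : m + T ≤ n := le_trans (Nat.add_le_add_left (le_max_right L T) m) hn
  have hq : 0 ≤ 1 - 2 * θ := by linarith
  have key : ∀ k ≤ T, avg n m (fun D => hv w ((3 / 4 + θ) * m) D / NW w D)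
      ≤ (1 - 2 * θ) ^ k * avg n (m + k) (fun D => hv w ((3 / 4 + θ) * m) D / NW w D) := by
    intro k hk
    induction k with
    | zero => simp
    | succ k ih =>
      refine (ih (by omega)).trans ?_
      rw [pow_succ, mul_assoc ((1 - 2 * θ) ^ k)]
      refine mul_le_mul_of_nonneg_left ?_ (pow_nonneg hq k)
      have hk0 : (0 : ℝ) ≤ k := Nat.cast_nonneg k
      have hkT : (k : ℝ) + 1 ≤ T := by exact_mod_cast hk
      have h3 := mul_le_mul_of_nonneg_right h2 hm0
      refine (hv_step hw _ (l := m + k) (by omega) (by push_cast; linarith)).trans ?_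
      refine mul_le_mul_of_nonneg_right ?_ ?_
      · have h4 : (3 + 2 * θ) / 4 ≤ (3 / 4 + θ) * m / (((m + k : ℕ) : ℝ) + 1) := by
          rw [le_div_iff₀ (by positivity)]
          push_cast
          have h5 := mul_le_mul_of_nonneg_left hkT (show 0 ≤ 3 + 2 * θ by positivity)
          have h6 := mul_le_mul_of_nonneg_right hLm (show 0 ≤ 2 * θ by positivity)
          linarith
        linarith
      · rw [← avg_const (n := n) (m := m + k + 1) (by omega) 0]
        exact avg_mono fun D _ => div_nonneg (heavy_hv_nonneg hw _ D) (heavy_NW_pos hw D).le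
  have h3 : avg n (m + T) (fun D => hv w ((3 / 4 + θ) * m) D / NW w D) ≤ 1 := by
    rw [← avg_const (n := n) hT' 1]
    exact avg_mono fun D _ => (div_le_one (heavy_NW_pos hw D)).mpr (heavy_hv_le hw _ D)
  have h4 := mul_le_mul_of_nonneg_left h3 (pow_nonneg hq T)
  refine le_trans (avg_mono fun D _ => ?_) ((key T le_rfl).trans (by linarith))
  exact div_le_div_of_nonneg_right
    (heavy_hv_anti hw (mul_le_mul_of_nonneg_right (by linarith) hm0) D) (heavy_NW_pos hw D).le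

/-- By `pavg_erase` and `sum_erase_powerset`, the mean over `j ∈ D'` of `NW w (D'.erase j)` is
`∑ S ⊆ D', w S (1 - |S| / (m+1))`, which is at least
`1 + (1/4 - η) (NW w D' - 1) - hv w ((3/4 + η)(m+1)) D' / 4` (the empty set has weight one; WLOG
`η ≤ 1/4`). So the integrand is at least `-η - hv / (4 NW)`; apply `heavy` at level `m + 1`. -/
theorem backward (ε : ℝ) (hε : 0 < ε) : ∃ L : ℕ, ∀ (n : ℕ) (w : Finset (Fin n) → ℝ),
    WS w → ∀ m : ℕ, L ≤ m → m + 1 + L ≤ n → ∀ (C : ℝ) (α : Finset (Fin n) → ℝ),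
      (∀ D, 0 ≤ α D) → (∀ D, α D * NW w D ≤ C) →
      -(C * ε) ≤ pavg n m (fun D D' => α D' * (NW w D - 1 - (NW w D' - 1) / 4)) := by
  obtain ⟨L, hL⟩ := heavy (ε / 2) ε (half_pos hε) hε
  refine ⟨L, fun n w hw m hm hn C α h0 hC => ?_⟩
  have hC0 : 0 ≤ C := (mul_nonneg (h0 ∅) (heavy_NW_pos hw ∅).le).trans (hC ∅)
  have h1 := hL n w hw (m + 1) (by omega) hn
  have hm1 : (0 : ℝ) < (m : ℝ) + 1 := by positivity
  rw [pavg_erase (by omega)]
  refine le_trans ?_ (avg_mono (f := fun D => -(C * (ε / 2)) -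
    C / 4 * (hv w ((3 / 4 + ε / 2) * ((m + 1 : ℕ) : ℝ)) D / NW w D)) fun D hD => ?_)
  · rw [avg_sub, avg_const (by omega), avg_mul]
    have h2 := mul_le_mul_of_nonneg_left h1 (show 0 ≤ C / 4 by positivity)
    have h3 := mul_nonneg hC0 hε.le
    linarith
  · have h2 := heavy_erase_NW hw (half_pos hε) D
    rw [hD] at h2
    have h3 := heavy_NW_pos hw D
    have h4 := heavy_hv_nonneg hw ((3 / 4 + ε / 2) * ((m + 1 : ℕ) : ℝ)) D
    generalize hv w ((3 / 4 + ε / 2) * ((m + 1 : ℕ) : ℝ)) D = H at h2 h4 ⊢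
    rw [← mul_sum, sum_sub_distrib, sum_sub_distrib, sum_const, sum_const, hD, nsmul_eq_mul,
      nsmul_eq_mul, mul_div_assoc]
    rw [Nat.cast_succ] at h2 ⊢
    have h5 : -(ε / 2 * NW w D) - H / 4 ≤ (∑ j ∈ D, NW w (D.erase j) - ((m : ℝ) + 1) * 1 -
        ((m : ℝ) + 1) * ((NW w D - 1) / 4)) / ((m : ℝ) + 1) := by
      rw [le_div_iff₀ hm1]
      have h6 := mul_nonneg hm1.le hε.le
      linarith
    refine le_trans ?_ (mul_le_mul_of_nonneg_left h5 (h0 D))
    have h6 := mul_le_mul_of_nonneg_right (hC D) hε.le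
    have h7 : α D * H ≤ C * (H / NW w D) := by
      rw [← mul_div_assoc, le_div_iff₀ h3, mul_right_comm]
      exact mul_le_mul_of_nonneg_right (hC D) h4
    linarith

/-- From `backward` by `pavg_compl`. -/
theorem forward (ε : ℝ) (hε : 0 < ε) : ∃ L : ℕ, ∀ (n : ℕ) (w : Finset (Fin n) → ℝ),
    WS w → ∀ m : ℕ, L ≤ m → m + 1 + L ≤ n → ∀ (C : ℝ) (α : Finset (Fin n) → ℝ),
      (∀ D, 0 ≤ α D) → (∀ D, α D * NW w Dᶜ ≤ C) →
      -(C * ε) ≤ pavg n m (fun D D' => α D * (NW w D'ᶜ - 1 - (NW w Dᶜ - 1) / 4)) := by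
  obtain ⟨L, hL⟩ := backward ε hε
  refine ⟨L, fun n w hw m hm hn C α h0 hC => ?_⟩
  rw [pavg_compl (m' := n - m - 1) (by omega)]
  simp only [compl_compl]
  exact hL n w hw (n - m - 1) (by omega) (by omega) C (fun D => α Dᶜ) (fun D => h0 _)
    fun D => by simpa using hC Dᶜ

end Pool.Agent.MP_450e1b_mp.H55

/-
Telescoping a real certificate along a random chain of subsets.
-/

namespace Pool.Agent.MP_450e1b_mp.H55

open Finset

theorem chain_rel {n T i m : ℕ} {w : Finset (Fin n) → ℝ} (hw : WS w) (hn : n = 2 * m + (2 * T + 1))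
    {D : Finset (Fin n)} (hD : D.card = m + i) :
    NW w Dᶜ * 4 ^ i = 2 ^ (2 * T + 1) * NW w D := by
  have h := hw.dual D
  rw [hD, pow_add] at h
  have e : (2 : ℝ) ^ n = 4 ^ m * 2 ^ (2 * T + 1) := by
    rw [hn, pow_add, pow_mul]
    norm_num
  rw [e] at h
  have h4 : (0 : ℝ) < 4 ^ m := by positivity
  apply mul_left_cancel₀ h4.ne'
  linarith

theorem chain_tel (a r : ℕ → ℝ) (η : ℝ) (N : ℕ) (h : ∀ i < N, a (i + 1) + r i ≤ a i + η) :
    a N + ∑ i ∈ range N, r i ≤ a 0 + N * η := by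
  induction N with
  | zero => simp
  | succ N ih =>
    have h1 := ih fun i hi => h i (by omega)
    have h2 := h N (by omega)
    rw [Finset.sum_range_succ]
    push_cast
    linarith

open Classical in
theorem chain {u : ℕ} {c : ℝ} (hc : 0 ≤ c) (h : RealCert u c) (ε : ℝ) (hε : 0 < ε) :
    ∃ K : ℕ, ∀ k ≥ K, ∀ w : Finset (Fin (2 * k + 2 * u + 1)) → ℝ, WS w →
      c * avg (2 * k + 2 * u + 1) k (fun D => if NW w D = 1 then 1 else 0) ≤ 1 + ε := by
  obtain ⟨T, huT, hT⟩ := h (ε / 3) (by positivity)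
  have hT0 : (0 : ℝ) < 2 * T + 1 := by positivity
  obtain ⟨C, V, lam, hl, hV, hs, hG⟩ := hT (ε / (3 * (2 * T + 1))) (by positivity)
  have hC : 0 ≤ C := by
    have := hl 1 1 le_rfl le_rfl
    linarith [this.1, this.2]
  set ε₂ : ℝ := ε / (6 * (C + 1) * (2 * T + 1)) with hε₂
  have hε₂0 : 0 < ε₂ := by positivity
  obtain ⟨L₁, hb⟩ := backward ε₂ hε₂0
  obtain ⟨L₂, hf⟩ := forward ε₂ hε₂0
  refine ⟨L₁ + L₂ + T + 1, fun k hk w hw => ?_⟩
  obtain ⟨m, hm⟩ : ∃ m, k + u = m + T := ⟨k + u - T, by omega⟩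
  obtain ⟨v, hv⟩ : ∃ v, T = u + 1 + v := ⟨T - u - 1, by omega⟩
  generalize hn : 2 * k + 2 * u + 1 = n at w hw
  have hn' : n = 2 * m + (2 * T + 1) := by omega
  set P := avg n k (fun D => if NW w D = 1 then (1 : ℝ) else 0) with hP
  set a : ℕ → ℝ := fun i => avg n (m + i) (fun D => V (NW w D) (NW w Dᶜ)) with ha
  set r₁ : ℕ → ℝ := fun i => avg n (m + i + 1)
    (fun D => if NW w D = 1 ∧ NW w Dᶜ = 2 ^ (2 * u + 1) then c else 0) with hr₁
  set r₂ : ℕ → ℝ := fun i => avg n (m + i)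
    (fun D => if NW w Dᶜ = 1 ∧ NW w D = 2 ^ (2 * u + 1) then c else 0) with hr₂
  have step : ∀ i < 2 * T + 1, a (i + 1) + (r₁ i + r₂ i)
      ≤ a i + (ε / (3 * (2 * T + 1)) + 2 * (C * ε₂)) := by
    intro i hi
    have hmi : m + i < n := by omega
    have h1 := hf n w hw (m + i) (by omega) (by omega) C (fun D => lam (NW w D) (NW w Dᶜ))
      (fun D => (hl _ _ (one_le_NW hw _) (one_le_NW hw _)).1)
      (fun D => (hl _ _ (one_le_NW hw _) (one_le_NW hw _)).2)
    have h2 := hb n w hw (m + i) (by omega) (by omega) C (fun D => lam (NW w Dᶜ) (NW w D))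
      (fun D => (hl _ _ (one_le_NW hw _) (one_le_NW hw _)).1)
      (fun D => (hl _ _ (one_le_NW hw _) (one_le_NW hw _)).2)
    have h3 := pavg_mono hmi (f := fun _ _ => -(ε / (3 * (2 * T + 1))))
      (g := fun D D' => V (NW w D) (NW w Dᶜ) - V (NW w D') (NW w D'ᶜ)
        - (if NW w D' = 1 ∧ NW w D'ᶜ = 2 ^ (2 * u + 1) then c else 0)
        - (if NW w Dᶜ = 1 ∧ NW w D = 2 ^ (2 * u + 1) then c else 0)
        - lam (NW w D) (NW w Dᶜ) * (NW w D'ᶜ - 1 - (NW w Dᶜ - 1) / 4)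
        - lam (NW w D'ᶜ) (NW w D') * (NW w D - 1 - (NW w D' - 1) / 4))
      (fun D j hD hj => hG i _ _ _ _ (one_le_NW hw _) (NW_mono hw (Finset.subset_insert j D))
        (NW_insert_le hw D j) (one_le_NW hw _) (chain_rel hw hn' hD)
        (chain_rel hw hn' (by rw [Finset.card_insert_of_notMem hj, hD, add_assoc])))
    rw [pavg_sub, pavg_sub, pavg_sub, pavg_sub, pavg_sub, pavg_fst hmi, pavg_fst hmi,
      pavg_fst hmi, pavg_snd hmi, pavg_snd hmi, avg_const hmi.le] at h3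
    simp only [ha, hr₁, hr₂, ← add_assoc]
    linarith
  have tel := chain_tel a (fun i => r₁ i + r₂ i) _ _ step
  have nn : ∀ (l : ℕ) (f : Finset (Fin n) → ℝ), (∀ D, 0 ≤ f D) → 0 ≤ avg n l f :=
    fun l f hf => div_nonneg (Finset.sum_nonneg fun D _ => hf D) (Nat.cast_nonneg _)
  have s1 : c * P ≤ ∑ i ∈ range (2 * T + 1), r₁ i := by
    refine le_trans ?_ (Finset.single_le_sum (f := r₁) (fun i _ => nn _ _ fun D => by
      split_ifs <;> linarith) (Finset.mem_range.mpr (show v < 2 * T + 1 by omega)))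
    simp only [hr₁, hP, show m + v + 1 = k by omega, ← avg_mul]
    apply avg_mono
    intro D hD
    by_cases h1 : NW w D = 1
    · have h2 := chain_rel (i := 0) (T := u) (m := k) hw (by omega) hD
      rw [h1] at h2
      rw [if_pos h1, if_pos ⟨h1, by linarith⟩, mul_one]
    · rw [if_neg h1, mul_zero]
      split_ifs <;> linarith
  have s2 : c * P ≤ ∑ i ∈ range (2 * T + 1), r₂ i := by
    refine le_trans ?_ (Finset.single_le_sum (f := r₂) (fun i _ => nn _ _ fun D => by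
      split_ifs <;> linarith) (Finset.mem_range.mpr (show T + u + 1 < 2 * T + 1 by omega)))
    simp only [hr₂, hP, ← avg_mul]
    rw [avg_compl (m' := m + (T + u + 1)) (by omega)]
    apply avg_mono
    intro D hD
    by_cases h1 : NW w Dᶜ = 1
    · have h2 := chain_rel (i := 0) (T := u) (m := k) hw (by omega) (D := Dᶜ) (by
        rw [Finset.card_compl, hD, Fintype.card_fin]
        omega)
      rw [h1, compl_compl] at h2
      rw [if_pos h1, if_pos ⟨h1, by linarith⟩, mul_one]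
    · rw [if_neg h1, mul_zero]
      split_ifs <;> linarith
  have a0 : a 0 ≤ 1 + ε / 3 := by
    rw [← avg_const (n := n) (m := m + 0) (by omega) (1 + ε / 3)]
    apply avg_mono
    intro D hD
    have h2 := chain_rel hw hn' hD
    rw [pow_zero, mul_one] at h2
    rw [h2]
    exact hs _ (one_le_NW hw _)
  have a1 : -(1 + ε / 3) ≤ a (2 * T + 1) := by
    rw [← avg_const (n := n) (m := m + (2 * T + 1)) (by omega) (-(1 + ε / 3))]
    apply avg_mono
    intro D hD
    have h2 := chain_rel (i := 0) hw hn' (D := Dᶜ) (by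
      rw [Finset.card_compl, hD, Fintype.card_fin]
      omega)
    rw [pow_zero, mul_one, compl_compl] at h2
    rw [hV, h2]
    linarith [hs _ (one_le_NW hw Dᶜ)]
  have e1 : ((2 * T + 1 : ℕ) : ℝ) * (ε / (3 * (2 * T + 1)) + 2 * (C * ε₂))
      = ε / 3 + ε / 3 * (C / (C + 1)) := by
    rw [hε₂]
    push_cast
    field_simp
    ring
  have e2 : ε / 3 * (C / (C + 1)) ≤ ε / 3 :=
    mul_le_of_le_one_right (by positivity) (div_le_one_of_le₀ (by linarith) (by linarith))
  rw [Finset.sum_add_distrib, e1] at tel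
  linarith

end Pool.Agent.MP_450e1b_mp.H55

end

-- part MP_450e1b_mp.H55.Quantum
section

/-
The weight system of a pure state.
-/

namespace Pool.Agent.MP_450e1b_mp.H55

open Finset Pool.Agent.MP_450e1b_mp

/-- The support of a Pauli word. -/
def quantum_supp {n : ℕ} (p : (Fin n → Z2) × (Fin n → Z2)) : Finset (Fin n) :=
  univ.filter (fun i => p.1 i ≠ 0 ∨ p.2 i ≠ 0)

/-- The weight system of a state. -/
noncomputable def quantum_w {n : ℕ} (ψ : (Fin n → Z2) → ℂ) (S : Finset (Fin n)) : ℝ :=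
  ∑ p ∈ univ.filter (fun p => quantum_supp p = S), ‖expv ψ p.1 p.2‖ ^ 2

theorem quantum_NW {n : ℕ} (ψ : (Fin n → Z2) → ℂ) (D : Finset (Fin n)) :
    NW (quantum_w ψ) D = ∑ s : {i // i ∈ D} → Z2, ∑ t : {i // i ∈ D} → Z2,
      ‖expv ψ (glue D s 0) (glue D t 0)‖ ^ 2 := by
  have h1 : NW (quantum_w ψ) D
      = ∑ p ∈ univ.filter (fun p => quantum_supp p ⊆ D), ‖expv ψ p.1 p.2‖ ^ 2 := by
    unfold NW quantum_w
    rw [← Finset.sum_fiberwise_of_maps_to (s := univ.filter (fun p => quantum_supp p ⊆ D))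
      (t := D.powerset) (g := quantum_supp) (by
        intro p hp
        exact Finset.mem_powerset.mpr (Finset.mem_filter.mp hp).2)]
    apply Finset.sum_congr rfl
    intro S hS
    apply Finset.sum_congr _ (fun _ _ => rfl)
    ext p
    simp only [Finset.mem_filter, Finset.mem_univ, true_and]
    constructor
    · intro h
      exact ⟨h ▸ Finset.mem_powerset.mp hS, h⟩
    · exact fun h => h.2
  rw [h1, ← Fintype.sum_prod_type'
    (f := fun s t : {i // i ∈ D} → Z2 => ‖expv ψ (glue D s 0) (glue D t 0)‖ ^ 2)]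
  symm
  apply Finset.sum_nbij'
    (fun q : ({i // i ∈ D} → Z2) × ({i // i ∈ D} → Z2) => (glue D q.1 0, glue D q.2 0))
    (fun p : (Fin n → Z2) × (Fin n → Z2) =>
      (fun i : {i // i ∈ D} => p.1 i, fun i : {i // i ∈ D} => p.2 i))
  · intro q _
    simp only [Finset.mem_filter, Finset.mem_univ, true_and]
    intro i hi
    by_contra hD
    simp [quantum_supp, glue, hD] at hi
  · intro p _
    exact Finset.mem_univ _
  · intro q _
    ext i <;> simp [glue, i.2]
  · intro p hp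
    have hp' := (Finset.mem_filter.mp hp).2
    have h0 : ∀ i, i ∉ D → p.1 i = 0 ∧ p.2 i = 0 := by
      intro i hi
      by_contra hne
      apply hi
      apply hp'
      simp only [quantum_supp, Finset.mem_filter, Finset.mem_univ, true_and]
      exact not_and_or.mp hne
    ext i
    · by_cases hi : i ∈ D
      · simp [glue, hi]
      · simp [glue, hi, (h0 i hi).1]
    · by_cases hi : i ∈ D
      · simp [glue, hi]
      · simp [glue, hi, (h0 i hi).2]
  · intro q _
    rfl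

theorem quantum_normsq (z : ℂ) : ((‖z‖ ^ 2 : ℝ) : ℂ) = z * star z := by
  push_cast
  exact (Complex.mul_conj' z).symm

theorem quantum_parseval {ι : Type*} [Fintype ι] [DecidableEq ι] (g : (ι → Z2) → ℂ) :
    ∑ t : ι → Z2, ‖∑ a, (sg (dot t a) : ℂ) * g a‖ ^ 2
      = 2 ^ Fintype.card ι * ∑ a, ‖g a‖ ^ 2 := by
  apply Complex.ofReal_injective
  rw [Complex.ofReal_mul, Complex.ofReal_sum, Complex.ofReal_sum]
  simp only [quantum_normsq]
  have h1 : ∀ t : ι → Z2, (∑ a, (sg (dot t a) : ℂ) * g a) * star (∑ a, (sg (dot t a) : ℂ) * g a)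
      = ∑ a, ∑ b, (sg (dot (a + b) t) : ℂ) * (g a * star (g b)) := by
    intro t
    rw [star_sum, Finset.sum_mul_sum]
    apply Finset.sum_congr rfl
    intro a _
    apply Finset.sum_congr rfl
    intro b _
    rw [dot_add_left, sg_add, dot_comm a, dot_comm b, star_mul', star_intCast]
    push_cast
    ring
  simp only [h1]
  rw [Finset.sum_comm, Finset.mul_sum]
  apply Finset.sum_congr rfl
  intro a _
  rw [Finset.sum_comm, Finset.sum_eq_single a]
  · rw [← Finset.sum_mul]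
    have h2 := sum_sg_dot (a + a)
    rw [if_pos (cfg_add_self a)] at h2
    have h3 : ∑ t, (sg (dot (a + a) t) : ℂ) = 2 ^ Fintype.card ι := by exact_mod_cast h2
    rw [h3]
    push_cast
    ring
  · intro b _ hb
    rw [← Finset.sum_mul]
    have hne : a + b ≠ 0 := by
      intro h0
      apply hb
      have : a + (a + b) = a + 0 := by rw [h0]
      rwa [← add_assoc, cfg_add_self, zero_add, add_zero] at this
    have h2 := sum_sg_dot (a + b)
    rw [if_neg hne] at h2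
    have h3 : ∑ t, (sg (dot (a + b) t) : ℂ) = 0 := by exact_mod_cast h2
    rw [h3, zero_mul]
  · intro h
    exact absurd (Finset.mem_univ a) h

/-- The purity of the reduced state. -/
noncomputable def quantum_pur {n : ℕ} (ψ : (Fin n → Z2) → ℂ) (D : Finset (Fin n)) : ℝ :=
  ∑ a, ∑ a', ‖reduced ψ D a a'‖ ^ 2

theorem quantum_NW_pur {n : ℕ} (ψ : (Fin n → Z2) → ℂ) (D : Finset (Fin n)) :
    NW (quantum_w ψ) D = 2 ^ D.card * quantum_pur ψ D := by
  rw [quantum_NW]
  simp only [expv_glue, quantum_parseval]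
  rw [← Finset.mul_sum, Fintype.card_coe]
  congr 1
  unfold quantum_pur
  rw [Finset.sum_comm, Finset.sum_comm (f := fun a a' => ‖reduced ψ D a a'‖ ^ 2)]
  apply Finset.sum_congr rfl
  intro a _
  exact Equiv.sum_comp (Equiv.addLeft a) (fun b => ‖reduced ψ D b a‖ ^ 2)

theorem quantum_piece {n : ℕ} (D : Finset (Fin n)) (a a' : {i // i ∈ D} → Z2)
    (b b' : {i // i ∉ D} → Z2) : D.piecewise (glue D a b) (glue D a' b') = glue D a b' := by
  funext i
  by_cases h : i ∈ D <;> simp [glue, h, Finset.piecewise]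

theorem quantum_pur_eq {n : ℕ} (ψ : (Fin n → Z2) → ℂ) (D : Finset (Fin n)) :
    (quantum_pur ψ D : ℂ) = ∑ x, ∑ y,
      ψ x * ψ y * star (ψ (D.piecewise x y)) * star (ψ (D.piecewise y x)) := by
  unfold quantum_pur
  rw [Complex.ofReal_sum, sum_glue D]
  apply Finset.sum_congr rfl
  intro a _
  rw [Complex.ofReal_sum]
  simp only [quantum_normsq, reduced_apply, star_sum, Finset.sum_mul_sum]
  rw [Finset.sum_comm]
  apply Finset.sum_congr rfl
  intro b _
  rw [sum_glue D]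
  apply Finset.sum_congr rfl
  intro a' _
  apply Finset.sum_congr rfl
  intro b' _
  rw [quantum_piece, quantum_piece, star_mul', star_star]
  ring

theorem quantum_pur_compl {n : ℕ} (ψ : (Fin n → Z2) → ℂ) (D : Finset (Fin n)) :
    quantum_pur ψ Dᶜ = quantum_pur ψ D := by
  apply Complex.ofReal_injective
  rw [quantum_pur_eq, quantum_pur_eq]
  apply Finset.sum_congr rfl
  intro x _
  apply Finset.sum_congr rfl
  intro y _
  rw [Finset.piecewise_compl, Finset.piecewise_compl]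
  ring

theorem quantum_expv_zero {n : ℕ} (ψ : (Fin n → Z2) → ℂ) (hψ : ∑ x, ‖ψ x‖ ^ 2 = 1) :
    expv ψ 0 0 = 1 := by
  simp only [expv, pauli_zero, ip_self, hψ, Complex.ofReal_one]

theorem quantum_NW_one {n : ℕ} (ψ : (Fin n → Z2) → ℂ) (hψ : ∑ x, ‖ψ x‖ ^ 2 = 1)
    (D : Finset (Fin n)) (h : PM ψ D) : NW (quantum_w ψ) D = 1 := by
  rw [quantum_NW]
  have hsupp : ∀ s t : {i // i ∈ D} → Z2, ∀ i, i ∉ D → glue D s 0 i = 0 ∧ glue D t 0 i = 0 := by
    intro s t i hi
    simp [glue, hi]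
  have e0 : glue D 0 0 = 0 := (glue_eq_zero D 0).mpr rfl
  rw [Finset.sum_eq_single 0, Finset.sum_eq_single 0]
  · rw [e0, quantum_expv_zero ψ hψ]
    simp
  · intro t _ ht
    rw [h _ _ (hsupp 0 t) (Or.inr (by rwa [Ne, glue_eq_zero]))]
    simp
  · intro h
    exact absurd (Finset.mem_univ _) h
  · intro s _ hs
    apply Finset.sum_eq_zero
    intro t _
    rw [h _ _ (hsupp s t) (Or.inl (by rwa [Ne, glue_eq_zero]))]
    simp
  · intro h
    exact absurd (Finset.mem_univ _) h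

/-- Plan. `w S = ∑ ‖expv ψ s t‖^2` over pairs `(s, t)` with `{i | s i ≠ 0 ∨ t i ≠ 0} = S`. Then
`NW w D` is the sum over pairs supported in `D`, that is over `glue D s 0`, `glue D t 0`; by
`expv_glue` and Parseval for the characters `sg (dot t a)` (`sum_sg_dot`),
`NW w D = 2^|D| * ∑ a a', ‖reduced ψ D a a'‖^2`. The purity `∑ a a', ‖reduced ψ D a a'‖^2` equals
`∑ a a' b b', ψ(a,b) ψ*(a',b) ψ(a',b') ψ*(a,b')`, which is the same for `D` and `Dᶜ` (transport
along the equivalences between `{i // i ∈ Dᶜ}` and `{i // i ∉ D}`, or rewrite it as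
`∑ x y, ψ x * ψ y * star (ψ (D.piecewise x y)) * star (ψ (D.piecewise y x))` and use
`Finset.piecewise_compl`). If `MaxMixed ψ D`, then `maxMixed_iff` kills every term but `(0,0)`. -/
theorem exists_WS {n : ℕ} (ψ : (Fin n → ZMod 2) → ℂ) (hψ : ∑ x, ‖ψ x‖ ^ 2 = 1) :
    ∃ w : Finset (Fin n) → ℝ, WS w ∧ ∀ D, MaxMixed ψ D → NW w D = 1 := by
  refine ⟨quantum_w ψ, ⟨?_, ?_, ?_⟩, fun D hD =>
    quantum_NW_one ψ hψ D ((maxMixed_iff ψ hψ D).mp hD)⟩
  · intro S
    exact Finset.sum_nonneg (fun _ _ => by positivity)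
  · have h : PM ψ ∅ := by
      intro s t hst hne
      exfalso
      rcases hne with h | h
      · exact h (funext fun i => (hst i (Finset.notMem_empty i)).1)
      · exact h (funext fun i => (hst i (Finset.notMem_empty i)).2)
    have h1 := quantum_NW_one ψ hψ ∅ h
    simpa [NW] using h1
  · intro D
    rw [quantum_NW_pur, quantum_NW_pur, quantum_pur_compl]
    have h1 : Dᶜ.card + D.card = n := by
      rw [Finset.card_compl_add_card, Fintype.card_fin]
    have h2 : (2 : ℝ) ^ n = 2 ^ Dᶜ.card * 2 ^ D.card := by rw [← pow_add, h1]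
    have h3 : (4 : ℝ) ^ D.card = 2 ^ D.card * 2 ^ D.card := by
      rw [← mul_pow]; norm_num
    rw [h2, h3]
    ring

end Pool.Agent.MP_450e1b_mp.H55

/-
Projecting one qubit.
-/

namespace Pool.Agent.MP_450e1b_mp.H55

open Finset Pool.Agent.MP_450e1b_mp

/-- Insert the value `a` at position `i`. -/
def project_ins {n : ℕ} (i : Fin (n + 1)) (a : Z2) (x : Fin n → Z2) : Fin (n + 1) → Z2 :=
  Fin.insertNth (α := fun _ => Z2) i a x

theorem project_same {n : ℕ} (i : Fin (n + 1)) (a : Z2) (x : Fin n → Z2) :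
    project_ins i a x i = a := by
  simp [project_ins]

theorem project_other {n : ℕ} (i : Fin (n + 1)) (a : Z2) (x : Fin n → Z2) (j : Fin n) :
    project_ins i a x (i.succAbove j) = x j := by
  simp [project_ins]

theorem project_add {n : ℕ} (i : Fin (n + 1)) (a b : Z2) (x y : Fin n → Z2) :
    project_ins i a x + project_ins i b y = project_ins i (a + b) (x + y) := by
  funext j
  refine Fin.succAboveCases i ?_ (fun j => ?_) j <;>
    simp only [Pi.add_apply, project_same, project_other]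

theorem project_dot {n : ℕ} (i : Fin (n + 1)) (a b : Z2) (x y : Fin n → Z2) :
    dot (project_ins i a x) (project_ins i b y) = a * b + dot x y := by
  unfold dot
  rw [Fin.sum_univ_succAbove _ i]
  simp only [project_same, project_other]

theorem project_sum {n : ℕ} (i : Fin (n + 1)) (f : (Fin (n + 1) → Z2) → ℂ) :
    ∑ x, f x = ∑ y, f (project_ins i 0 y) + ∑ y, f (project_ins i 1 y) := by
  rw [← (Fin.insertNthEquiv (fun _ => Z2) i).sum_comp, Fintype.sum_prod_type]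
  exact Fin.sum_univ_two (fun a : Z2 => ∑ y, f (project_ins i a y))

theorem project_eq_zero {n : ℕ} {i : Fin (n + 1)} {a : Z2} {x : Fin n → Z2}
    (h : project_ins i a x = 0) : a = 0 ∧ x = 0 :=
  ⟨by rw [← project_same i a x, h]; rfl, funext fun j => by rw [← project_other i a x j, h]; rfl⟩

/-- The projected state. -/
noncomputable def project_st {n : ℕ} (ψ : (Fin (n + 1) → Z2) → ℂ) (i : Fin (n + 1)) :
    (Fin n → Z2) → ℂ := fun x => (Real.sqrt 2 : ℂ) * ψ (project_ins i 0 x)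

theorem project_expv {n : ℕ} (ψ : (Fin (n + 1) → Z2) → ℂ) (i : Fin (n + 1)) (s t : Fin n → Z2) :
    expv (project_st ψ i) s t = expv ψ (project_ins i 0 s) (project_ins i 0 t) +
      expv ψ (project_ins i 0 s) (project_ins i 1 t) := by
  have h2 : (Real.sqrt 2 : ℂ) * (Real.sqrt 2 : ℂ) = 2 := by
    rw [← Complex.ofReal_mul, Real.mul_self_sqrt (by norm_num)]
    norm_num
  unfold expv ip pauli
  rw [project_sum i, project_sum i (fun x => star (ψ x) *
    ((sg (dot (project_ins i 1 t) x) : ℂ) * ψ (x + project_ins i 0 s)))]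
  simp only [project_add, project_dot, ← Finset.sum_add_distrib, project_st]
  refine Finset.sum_congr rfl fun y _ => ?_
  simp only [mul_zero, zero_add, add_zero, mul_one, sg_add, sg_one, star_mul',
    Complex.star_def, Complex.conj_ofReal]
  push_cast
  linear_combination ((starRingEnd ℂ) (ψ (project_ins i 0 y)) * (sg (dot t y) : ℂ) *
    ψ (project_ins i 0 (y + s))) * h2

theorem project_supp {n : ℕ} {i : Fin (n + 1)} {A : Finset (Fin (n + 1))} (hi : i ∈ A) (a b : Z2)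
    {s t : Fin n → Z2} (h : ∀ j, i.succAbove j ∉ A → s j = 0 ∧ t j = 0) :
    ∀ j, j ∉ A → project_ins i a s j = 0 ∧ project_ins i b t j = 0 := by
  intro j
  refine Fin.succAboveCases i (fun hj => absurd hi hj) (fun j hj => ?_) j
  rw [project_other, project_other]
  exact h j hj

theorem project_norm {n : ℕ} {ψ : (Fin (n + 1) → Z2) → ℂ} (hψ : ∑ x, ‖ψ x‖ ^ 2 = 1)
    {i : Fin (n + 1)} {A : Finset (Fin (n + 1))} (hi : i ∈ A) (hA : PM ψ A) :
    ∑ x, ‖project_st ψ i x‖ ^ 2 = 1 := by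
  have h0 : ∀ {m : ℕ} (φ : (Fin m → Z2) → ℂ), expv φ 0 0 = ((∑ x, ‖φ x‖ ^ 2 : ℝ) : ℂ) := by
    intro m φ
    rw [← ip_self]
    unfold expv
    congr 1
    funext x
    simp [pauli]
  have h1 := project_expv ψ i 0 0
  have h2 : project_ins i 0 (0 : Fin n → Z2) = 0 := by
    funext j
    refine Fin.succAboveCases i ?_ (fun j => ?_) j <;>
      simp only [Pi.zero_apply, project_same, project_other]
  rw [hA (project_ins i 0 0) (project_ins i 1 0) (project_supp hi _ _ fun _ _ => ⟨rfl, rfl⟩)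
    (Or.inr fun h => absurd (project_eq_zero h).1 (by decide)), h2, h0, h0, hψ, add_zero] at h1
  exact_mod_cast h1

theorem project_PM {n : ℕ} {ψ : (Fin (n + 1) → Z2) → ℂ} {i : Fin (n + 1)}
    {A : Finset (Fin (n + 1))} (hi : i ∈ A) (hA : PM ψ A) :
    PM (project_st ψ i) (univ.filter fun j => i.succAbove j ∈ A) := by
  intro s t hs hne
  have hs' : ∀ j, i.succAbove j ∉ A → s j = 0 ∧ t j = 0 := fun j hj => hs j (by simpa using hj)
  rw [project_expv, hA _ _ (project_supp hi _ _ hs')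
    (hne.imp (fun h e => h (project_eq_zero e).2) fun h e => h (project_eq_zero e).2),
    hA _ _ (project_supp hi _ _ hs') (Or.inr fun h => absurd (project_eq_zero h).1 (by decide)),
    add_zero]

theorem project_insert {n : ℕ} {i : Fin (n + 1)} {A : Finset (Fin (n + 1))} (hi : i ∈ A) :
    A = insert i ((univ.filter fun j => i.succAbove j ∈ A).map i.succAboveEmb) := by
  ext j
  refine Fin.succAboveCases i (by simp [hi]) (fun j => ?_) j
  simp [Fin.succAbove_ne]

theorem project_card {n : ℕ} {i : Fin (n + 1)} {A : Finset (Fin (n + 1))} (hi : i ∈ A) :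
    A.card = (univ.filter fun j => i.succAbove j ∈ A).card + 1 := by
  conv_lhs => rw [project_insert hi]
  rw [Finset.card_insert_of_notMem (by simp [Fin.succAbove_ne]), Finset.card_map]

/-- Plan. Take an optimal `ψ` on `n + 1` qubits (`exists_Qex`, `mixedCount_eq`: good sets are those
with `PM ψ A`). Double counting: `(k+1) * Qex (n+1) (k+1) = ∑ i, g i` with `g i` the number of
good `(k+1)`-sets containing `i`; it suffices to show `g i ≤ Qex n k`. If `g i > 0`, put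
`φ x = √2 * ψ (Fin.insertNth i 0 x)`. For `s, t : Fin n → Z2`,
`expv φ s t = expv ψ s₀ t₀ + expv ψ s₀ t₁` where `s₀ = insertNth i 0 s`, `t₀ = insertNth i 0 t`,
`t₁ = insertNth i 1 t` (sum over configurations through `Fin.insertNthEquiv`; the terms with
`x i = 1` cancel). Taking `s = t = 0` and one good set containing `i` gives that `φ` is
normalised (`ip_self`); for a good `A ∋ i` the set `{j | i.succAbove j ∈ A}` has `k` elements,
satisfies `PM φ`, and determines `A`. Conclude with `le_Qex`. -/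
theorem Qex_project (n k : ℕ) : (k + 1) * Qex (n + 1) (k + 1) ≤ (n + 1) * Qex n k := by
  classical
  obtain ⟨ψ, hψ, hQ⟩ := exists_Qex (n + 1) (k + 1)
  rw [hQ, mixedCount_eq ψ hψ]
  set S := (univ.powersetCard (k + 1)).filter (PM ψ) with hS
  have hmem : ∀ A ∈ S, A.card = k + 1 ∧ PM ψ A := fun A hA => by
    simpa [hS, Finset.mem_powersetCard] using hA
  have h1 : (k + 1) * S.card = ∑ i : Fin (n + 1), (S.filter fun A => i ∈ A).card := by
    simp only [Finset.card_filter]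
    rw [Finset.sum_comm, mul_comm, ← smul_eq_mul, ← Finset.sum_const]
    refine Finset.sum_congr rfl fun A hA => ?_
    rw [← Finset.card_filter, ← (hmem A hA).1]
    simp
  have h2 : ∀ i : Fin (n + 1), (S.filter fun A => i ∈ A).card ≤ Qex n k := by
    intro i
    rcases (S.filter fun A => i ∈ A).eq_empty_or_nonempty with h | ⟨A0, hA0⟩
    · rw [h]
      exact Nat.zero_le _
    obtain ⟨hA1, hA2⟩ := Finset.mem_filter.1 hA0
    have hn := project_norm hψ hA2 (hmem _ hA1).2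
    refine le_trans ?_ (le_Qex _ hn k)
    rw [mixedCount_eq _ hn]
    refine Finset.card_le_card_of_injOn (fun A => univ.filter fun j => i.succAbove j ∈ A) ?_ ?_
    · intro A hA
      obtain ⟨h3, h4⟩ := Finset.mem_filter.1 (Finset.mem_coe.1 hA)
      refine Finset.mem_coe.2 (Finset.mem_filter.2 ⟨Finset.mem_powersetCard.2
        ⟨Finset.subset_univ _, ?_⟩, project_PM h4 (hmem _ h3).2⟩)
      have := project_card h4
      rw [(hmem _ h3).1] at this
      exact (Nat.add_right_cancel this).symm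
    · intro A hA B hB e
      have e' : (univ.filter fun j => i.succAbove j ∈ A) = univ.filter fun j => i.succAbove j ∈ B :=
        e
      rw [project_insert (Finset.mem_filter.1 (Finset.mem_coe.1 hA)).2,
        project_insert (Finset.mem_filter.1 (Finset.mem_coe.1 hB)).2, e']
  rw [h1]
  refine (Finset.sum_le_sum fun i _ => h2 i).trans ?_
  simp

/-- From `Qex_project` and `Nat.add_one_mul_choose_eq`. -/
theorem density_project {n k : ℕ} (h : k ≤ n) :
    (Qex (n + 1) (k + 1) : ℝ) / (n + 1).choose (k + 1) ≤ (Qex n k : ℝ) / n.choose k := by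
  have h1 : ((k : ℝ) + 1) * Qex (n + 1) (k + 1) ≤ (n + 1) * Qex n k := by
    exact_mod_cast Qex_project n k
  have h2 : ((n : ℝ) + 1) * n.choose k = (n + 1).choose (k + 1) * (k + 1) := by
    exact_mod_cast Nat.add_one_mul_choose_eq n k
  have h3 : (0 : ℝ) < n.choose k := by exact_mod_cast Nat.choose_pos h
  have h4 : (0 : ℝ) < (n + 1).choose (k + 1) := by
    exact_mod_cast Nat.choose_pos (Nat.succ_le_succ h)
  rw [div_le_div_iff₀ h4 h3]
  refine le_of_mul_le_mul_left ?_ (by positivity : (0 : ℝ) < k + 1)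
  calc ((k : ℝ) + 1) * (Qex (n + 1) (k + 1) * n.choose k)
      = ((k + 1) * Qex (n + 1) (k + 1)) * n.choose k := by ring
    _ ≤ ((n + 1) * Qex n k) * n.choose k := mul_le_mul_of_nonneg_right h1 h3.le
    _ = Qex n k * ((n + 1) * n.choose k) := by ring
    _ = _ := by rw [h2]; ring

end Pool.Agent.MP_450e1b_mp.H55

end
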