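import Mathlib
import Pool.Agent.MP_450e1b_mp.Mg.H55_IneqF
import Pool.Agent.MP_450e1b_mp.Mg.Upper

-- part MP_450e1b_mp.H55.IneqG
section

/-
Polynomial inequalities for the closed forms (far zone, boundary).
-/

namespace Pool.Agent.MP_450e1b_mp.H55

set_option linter.unusedVariables false

theorem f_s1 {p e w s0 s1 s2 s3 s4 s5 : ℝ}
    (hp0 : 0 ≤ p) (hp1 : p ≤ 1 / 4) (he0 : 0 ≤ e) (he1 : e ≤ 1) (hw0 : 0 ≤ w) (hw1 : w ≤ 1 / 16)
    (h0 : PS p s0 s1) (h1 : PS (p / 4) s1 s2) (h2 : PS (p / 4 / 4) s2 s3) (h3 : PS (p / 4 / 4 /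
    4) s3 s4) (h4 : PS (p / 4 / 4 / 4 / 4) s4 s5) :
    fDp p e w s0 s1 s2 s3 ≤ 1 + 10 * w := by
  have key : ∀ e' p' w' a0 a1 a2 a3 a4 a5 a6 : ℝ, 0 ≤ e' → 0 ≤ p' → 0 ≤ w' → 0 ≤ a0 → 0 ≤ a1 →
    0 ≤ a2 → 0 ≤ a3 → 0 ≤ a4 → 0 ≤ a5 → 0 ≤ a6 → 0 ≤ w * (35827 / 16000 * e ^ 4 * p ^ 2 * w * w'
    + 13076719 / 943718400 * e ^ 2 * p ^ 5 * w' + 35827 / 256000 * e ^ 3 * p ^ 2 * w * e' + 473 /
    640 * e ^ 3 * p ^ 2 * w * p' + 13076719 / 15099494400 * e ^ 2 * p ^ 4 * p' + 1197 / 34816 * e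
    ^ 2 * p ^ 4 * w' + 2428614623 / 1026765619200 * e * p ^ 4 * e' + 43 / 384 * e ^ 2 * p ^ 3 *
    w' + 3272431 / 1843200 * e * p ^ 4 * p' + 907 / 6144 * e ^ 2 * p ^ 2 * p' + 11 / 40 * e ^ 2 *
    p ^ 2 * w' + 342872913887 / 1026765619200 * e * p ^ 3 * p' + 15263 / 16000 * e * p * e' + 41
    / 120 * e * p * w' + 17 / 120 * p' + 4843 / 480 + 10081 / 16000 * e ^ 3 * p * w + 3 / 50 * e
    ^ 2 + 23981 / 256000 * e ^ 3 * p ^ 2 * w + 11 / 60 * e ^ 2 * p ^ 2 * w ^ 2 + 473 / 320 * e ^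
    5 * p ^ 3 * w ^ 3 + 1937 / 5120 * e ^ 4 * p ^ 3 * w ^ 2 + 3012001 / 3072000 * e ^ 2 * p ^ 2 +
    1 / 10 * e * p ^ 2 * w + 1 / 60 * p ^ 2 + 113 / 240 * e * p ^ 2 + 1793 / 24000 * e * p +
    624753018913 / 4107062476800 * e * p ^ 3) + (32 / 45 * e * p * w) * a0 + (32 / 45 * e * p ^ 2
    * w) * a1 + (17 / 45 * e * p * w + 4 / 45 * e * p ^ 2 * w) * a2 + (16 / 45 * e ^ 2 * p ^ 2 *
    w ^ 2) * a3 + (1 / 45 * e * p ^ 2 * w + 7 / 90 * e ^ 2 * p ^ 2 * w ^ 2) * a4 + (7 / 180 * e *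
    p * w) * a5 + (1 / 360 * e ^ 2 * p ^ 2 * w ^ 2) * a6 := by
    intros
    positivity
  unfold fDp
  linear_combination key _ _ _ _ _ _ _ _ _ _ (sub_nonneg.2 he1) (sub_nonneg.2 hp1)
    (sub_nonneg.2 hw1) (sub_nonneg.2 h0.2.1) (sub_nonneg.2 h0.2.2) (sub_nonneg.2 h1.2.1)
    (sub_nonneg.2 h1.2.2) (sub_nonneg.2 h2.2.1) (sub_nonneg.2 h2.2.2) (sub_nonneg.2 h3.2.1) - (-1
    / 15) * h0.1

theorem f_s2 {p e w s0 s1 s2 s3 s4 s5 : ℝ}
    (hp0 : 0 ≤ p) (hp1 : p ≤ 1 / 4) (he0 : 0 ≤ e) (he1 : e ≤ 1) (hw0 : 0 ≤ w) (hw1 : w ≤ 1 / 16)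
    (h0 : PS p s0 s1) (h1 : PS (p / 4) s1 s2) (h2 : PS (p / 4 / 4) s2 s3) (h3 : PS (p / 4 / 4 /
    4) s3 s4) (h4 : PS (p / 4 / 4 / 4 / 4) s4 s5) :
    -fDm p e w s0 s1 s2 s3 ≤ 1 + 10 * w := by
  have key : ∀ e' p' w' a0 a1 a2 a3 a4 a5 : ℝ, 0 ≤ e' → 0 ≤ p' → 0 ≤ w' → 0 ≤ a0 → 0 ≤ a1 → 0 ≤
    a2 → 0 ≤ a3 → 0 ≤ a4 → 0 ≤ a5 → 0 ≤ w * (2191 / 500 * e ^ 4 * p ^ 2 * w * w' + 6383 / 307200
    * e ^ 2 * p ^ 5 * w' + 2191 / 8000 * e ^ 3 * p ^ 2 * w * e' + 15367 / 20480 * e ^ 3 * p ^ 2 *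
    w * p' + 6383 / 4915200 * e ^ 2 * p ^ 4 * p' + 7 / 136 * e ^ 2 * p ^ 4 * w' + 1183711 /
    334233600 * e * p ^ 4 * e' + 1 / 6 * e ^ 2 * p ^ 3 * w' + 3272431 / 1843200 * e * p ^ 4 * p'
    + 1289 / 12288 * e ^ 2 * p ^ 2 * p' + 2 / 5 * e ^ 2 * p ^ 2 * w' + 107886119 / 334233600 * e
    * p ^ 3 * p' + 4981 / 4000 * e * p * e' + 3 / 5 * e * p * w' + 2 / 15 * p' + 103 / 10 + 1011
    / 500 * e ^ 3 * p * w + 4 / 25 * e ^ 2 + 1062993 / 2048000 * e ^ 3 * p ^ 2 * w + 5270267 /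
    6144000 * e ^ 2 * p ^ 2 + 11 / 960 * p ^ 2 + 31 / 160 * e ^ 4 * p ^ 3 * w ^ 2 + 1 / 10 * e *
    p ^ 2 * w + 11 / 5 * e ^ 5 * p ^ 3 * w ^ 3 + 4 / 15 * e ^ 2 * p ^ 2 * w ^ 2 + 37 / 60 * e * p
    ^ 2 + 469 / 4000 * e * p + 267307481 / 1336934400 * e * p ^ 3) + (32 / 45 * e * p * w) * a0 +
    (32 / 45 * e * p ^ 2 * w) * a1 + (38 / 45 * e * p * w + 4 / 45 * e * p ^ 2 * w) * a2 + (8 /
    15 * e ^ 2 * p ^ 2 * w ^ 2) * a3 + (1 / 45 * e * p ^ 2 * w + 2 / 15 * e ^ 2 * p ^ 2 * w ^ 2)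
    * a4 + (7 / 45 * e * p * w) * a5 := by
    intros
    positivity
  unfold fDm
  linear_combination key _ _ _ _ _ _ _ _ _ (sub_nonneg.2 he1) (sub_nonneg.2 hp1) (sub_nonneg.2
    hw1) (sub_nonneg.2 h0.2.1) (sub_nonneg.2 h0.2.2) (sub_nonneg.2 h1.2.1) (sub_nonneg.2 h1.2.2)
    (sub_nonneg.2 h2.2.1) (sub_nonneg.2 h2.2.2) - (-2 / 45) * h0.1 - (-1 / 45) * h1.1

theorem f_s3 {p e w s0 s1 s2 s3 s4 s5 : ℝ}
    (hp0 : 0 ≤ p) (hp1 : p ≤ 1 / 4) (he0 : 0 ≤ e) (he1 : e ≤ 1) (hw0 : 0 ≤ w) (hw1 : w ≤ 1 / 16)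
    (h0 : PS p s0 s1) (h1 : PS (p / 4) s1 s2) (h2 : PS (p / 4 / 4) s2 s3) (h3 : PS (p / 4 / 4 /
    4) s3 s4) (h4 : PS (p / 4 / 4 / 4 / 4) s4 s5) :
    -fRm p e w s0 s1 s2 s3 ≤ 1 + 10 * w := by
  have key : ∀ e' p' w' a0 a1 a2 a3 a4 a5 : ℝ, 0 ≤ e' → 0 ≤ p' → 0 ≤ w' → 0 ≤ a0 → 0 ≤ a1 → 0 ≤
    a2 → 0 ≤ a3 → 0 ≤ a4 → 0 ≤ a5 → 0 ≤ w * (683 / 4000 * e ^ 4 * p * w ^ 2 * p' + 6383 /
    314572800 * e ^ 2 * p ^ 4 * w * p' + 683 / 16000 * e ^ 4 * w ^ 2 * p' + 1031 / 163840 * e ^ 3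
    * p ^ 2 * w * p' + 4409311 / 21390950400 * e ^ 2 * p ^ 3 * w * p' + 683 / 64000 * e ^ 4 * w *
    w' + 69103 / 16384000 * e ^ 3 * p * w * p' + 227231711 / 85563801600 * e ^ 2 * p ^ 2 * w * p'
    + 6537059 / 1509949440 * e * p ^ 4 * p' + 683 / 1024000 * e ^ 4 * w' + 387 / 4096 * e ^ 2 * p
    ^ 2 * p' + 8783611871 / 342255206400 * e ^ 2 * p ^ 2 * w' + 604331189 / 171127603200 * e * p
    ^ 3 * p' + 683 / 16384000 * e ^ 3 * e' + 1127685863 / 228170137600 * e * p ^ 2 * p' + 683 /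
    16384000 * e ^ 2 * e' + 5221 / 16000 * e * p * e' + 1 / 10 * e * p * w' + 31 / 480 * p' +
    6443 / 640 + 6246929 / 65536000 * e ^ 3 * p * w + 654677 / 16384000 * e ^ 2 + 8676757969061 /
    27380416512000 * e ^ 2 * p ^ 2 + 11 / 960 * p ^ 2 + 817 / 40960 * e ^ 4 * p ^ 3 * w ^ 2 + 9 /
    640 * e * p ^ 2 * w + 11 / 320 * e ^ 5 * p ^ 3 * w ^ 3 + 1 / 60 * e ^ 2 * p ^ 2 * w ^ 2 +
    59363730251 / 2738041651200 * e * p ^ 2 + 279 / 16000 * e * p) + (14 / 45 * e * p * w) * a0 +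
    (1 / 9 * e * p ^ 2 * w) * a1 + (2 / 45 * e * p * w + 19 / 720 * e * p ^ 2 * w) * a2 + (1 / 30
    * e ^ 2 * p ^ 2 * w ^ 2) * a3 + (1 / 2880 * e * p ^ 2 * w + 1 / 120 * e ^ 2 * p ^ 2 * w ^ 2)
    * a4 + (1 / 180 * e * p * w) * a5 := by
    intros
    positivity
  unfold fRm
  linear_combination key _ _ _ _ _ _ _ _ _ (sub_nonneg.2 he1) (sub_nonneg.2 hp1) (sub_nonneg.2
    hw1) (sub_nonneg.2 h1.2.1) (sub_nonneg.2 h1.2.2) (sub_nonneg.2 h2.2.1) (sub_nonneg.2 h2.2.2)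
    (sub_nonneg.2 h3.2.1) (sub_nonneg.2 h3.2.2) - (-2 / 45) * h0.1 - (-1 / 45) * h1.1

theorem f_bs1 {e w s0 s1 s2 s3 s4 s5 ρ κ : ℝ}
    (he0 : 0 ≤ e) (he1 : e ≤ 1) (hw0 : 0 ≤ w) (hw1 : w ≤ 1 / 16) (h1 : PS (1 / 4) s1 s2) (h2 : PS
    (1 / 4 / 4) s2 s3) (h3 : PS (1 / 4 / 4 / 4) s3 s4) (h4 : PS (1 / 4 / 4 / 4 / 4) s4 s5) (hr :
    -2 / 3 - 4 / 15 * (e * w) - 3 / 25 * (e * w) ^ 2 ≤ ρ ∧ ρ ≤ -2 / 3 - 4 / 15 * (e * w) - 7 /
    100 * (e * w) ^ 2) (hk : 1 + 2 / 3 * (e * w) - 1 / 5 * (e * w) ^ 2 ≤ κ ∧ κ ≤ 1 + 2 / 3 * (e *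
    w) + (e * w) ^ 2) :
    fDp 1 e w s0 s1 s2 s3 + κ ≤ 1 + 10 * w := by
  have key : ∀ e' w' a0 a1 a2 a3 a4 a5 : ℝ, 0 ≤ e' → 0 ≤ w' → 0 ≤ a0 → 0 ≤ a1 → 0 ≤ a2 → 0 ≤ a3
    → 0 ≤ a4 → 0 ≤ a5 → 0 ≤ w * (238191 / 128000 * e ^ 3 * w ^ 2 * e' + 238191 / 128000 * e ^ 3 *
    w * w' + 23025483743 / 16043212800 * e * w * e' + 26902593503 / 16043212800 * w * e' +
    26902593503 / 16043212800 * w' + 62179 / 13926400 * e' + 2538865371169 / 256691404800 +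
    395441 / 2048000 * e ^ 3 * w + 11 / 60 * e ^ 2 * w ^ 2 + 473 / 320 * e ^ 5 * w ^ 3) + (7 / 15
    * e * w) * a0 + (16 / 45 * e ^ 2 * w ^ 2) * a1 + (7 / 90 * e ^ 2 * w ^ 2) * a2 + (1 / 60 * e
    * w) * a3 + (1 / 360 * e ^ 2 * w ^ 2) * a4 + (1) * a5 := by
    intros
    positivity
  unfold fDp
  linear_combination key _ _ _ _ _ _ _ _ (sub_nonneg.2 he1) (sub_nonneg.2 hw1) (sub_nonneg.2
    h1.2.1) (sub_nonneg.2 h1.2.2) (sub_nonneg.2 h2.2.1) (sub_nonneg.2 h2.2.2) (sub_nonneg.2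
    h3.2.1) (sub_nonneg.2 hk.2)

theorem f_bs2 {e w s0 s1 s2 s3 s4 s5 ρ κ : ℝ}
    (he0 : 0 ≤ e) (he1 : e ≤ 1) (hw0 : 0 ≤ w) (hw1 : w ≤ 1 / 16) (h1 : PS (1 / 4) s1 s2) (h2 : PS
    (1 / 4 / 4) s2 s3) (h3 : PS (1 / 4 / 4 / 4) s3 s4) (h4 : PS (1 / 4 / 4 / 4 / 4) s4 s5) (hr :
    -2 / 3 - 4 / 15 * (e * w) - 3 / 25 * (e * w) ^ 2 ≤ ρ ∧ ρ ≤ -2 / 3 - 4 / 15 * (e * w) - 7 /
    100 * (e * w) ^ 2) (hk : 1 + 2 / 3 * (e * w) - 1 / 5 * (e * w) ^ 2 ≤ κ ∧ κ ≤ 1 + 2 / 3 * (e *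
    w) + (e * w) ^ 2) :
    -(fDm 1 e w s0 s1 s2 s3 - (κ + ρ / 2)) ≤ 1 + 10 * w := by
  have key : ∀ e' w' a0 a1 a2 a3 a4 a5 : ℝ, 0 ≤ e' → 0 ≤ w' → 0 ≤ a0 → 0 ≤ a1 → 0 ≤ a2 → 0 ≤ a3
    → 0 ≤ a4 → 0 ≤ a5 → 0 ≤ w * (16753 / 4000 * e ^ 3 * w ^ 2 * e' + 16753 / 4000 * e ^ 3 * w *
    w' + 8376287 / 5222400 * e * w * e' + 138607 / 512000 * e * e' + 10987487 / 5222400 * e * w'
    + 9803 / 960 + 1019081 / 512000 * e ^ 3 * w + 11 / 5 * e ^ 5 * w ^ 3 + 4 / 15 * e ^ 2 * w ^ 2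
    + 38973271 / 139264000 * e) + (14 / 15 * e * w) * a0 + (8 / 15 * e ^ 2 * w ^ 2) * a1 + (2 /
    15 * e ^ 2 * w ^ 2) * a2 + (2 / 15 * e * w) * a3 + (1 / 2) * a4 + (1) * a5 := by
    intros
    positivity
  unfold fDm
  linear_combination key _ _ _ _ _ _ _ _ (sub_nonneg.2 he1) (sub_nonneg.2 hw1) (sub_nonneg.2
    h1.2.1) (sub_nonneg.2 h1.2.2) (sub_nonneg.2 h2.2.1) (sub_nonneg.2 h2.2.2) (sub_nonneg.2 hr.2)
    (sub_nonneg.2 hk.2) - (-1 / 45) * h1.1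

theorem f_bs3 {e w s0 s1 s2 s3 s4 s5 ρ κ : ℝ}
    (he0 : 0 ≤ e) (he1 : e ≤ 1) (hw0 : 0 ≤ w) (hw1 : w ≤ 1 / 16) (h1 : PS (1 / 4) s1 s2) (h2 : PS
    (1 / 4 / 4) s2 s3) (h3 : PS (1 / 4 / 4 / 4) s3 s4) (h4 : PS (1 / 4 / 4 / 4 / 4) s4 s5) (hr :
    -2 / 3 - 4 / 15 * (e * w) - 3 / 25 * (e * w) ^ 2 ≤ ρ ∧ ρ ≤ -2 / 3 - 4 / 15 * (e * w) - 7 /
    100 * (e * w) ^ 2) :
    -(fRm 1 e w s0 s1 s2 s3 + ρ) ≤ 1 + 10 * w := by
  have key : ∀ e' w' a0 a1 a2 a3 a4 a5 : ℝ, 0 ≤ e' → 0 ≤ w' → 0 ≤ a0 → 0 ≤ a1 → 0 ≤ a2 → 0 ≤ a3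
    → 0 ≤ a4 → 0 ≤ a5 → 0 ≤ w * (154423 / 1024000 * e ^ 3 * w ^ 2 * e' + 154423 / 1024000 * e ^ 3
    * w * w' + 790532063 / 5347737600 * e * w * e' + 19801 / 512000 * e * e' + 1250103263 /
    5347737600 * e * w' + 9629 / 960 + 1278157 / 16384000 * e ^ 3 * w + 11 / 320 * e ^ 5 * w ^ 3
    + 1 / 60 * e ^ 2 * w ^ 2 + 18617391011 / 427819008000 * e) + (1 / 5 * e * w) * a0 + (17 / 240
    * e * w) * a1 + (1 / 30 * e ^ 2 * w ^ 2) * a2 + (1 / 120 * e ^ 2 * w ^ 2) * a3 + (1 / 192 * e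
    * w) * a4 + (1) * a5 := by
    intros
    positivity
  unfold fRm
  linear_combination key _ _ _ _ _ _ _ _ (sub_nonneg.2 he1) (sub_nonneg.2 hw1) (sub_nonneg.2
    h1.2.1) (sub_nonneg.2 h2.2.1) (sub_nonneg.2 h2.2.2) (sub_nonneg.2 h3.2.1) (sub_nonneg.2
    h3.2.2) (sub_nonneg.2 hr.1) - (-1 / 45) * h1.1

theorem f_behm {e w s0 s1 s2 s3 s4 s5 ρ κ : ℝ}
    (he0 : 0 ≤ e) (he1 : e ≤ 1) (hw0 : 0 ≤ w) (hw1 : w ≤ 1 / 16) (h1 : PS (1 / 4) s1 s2) (h2 : PS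
    (1 / 4 / 4) s2 s3) (h3 : PS (1 / 4 / 4 / 4) s3 s4) (h4 : PS (1 / 4 / 4 / 4 / 4) s4 s5) (hr :
    -2 / 3 - 4 / 15 * (e * w) - 3 / 25 * (e * w) ^ 2 ≤ ρ ∧ ρ ≤ -2 / 3 - 4 / 15 * (e * w) - 7 /
    100 * (e * w) ^ 2) :
    fDm (1 / 4) e w s1 s2 s3 s4 - fRm (1 / 4) e w s1 s2 s3 s4 ≤ 4 * (fDm (1 / 4) e w s1 s2 s3 s4
    - (fRm 1 e w s0 s1 s2 s3 + ρ)) := by
  have key : ∀ e' w' a0 a1 a2 a3 a4 a5 : ℝ, 0 ≤ e' → 0 ≤ w' → 0 ≤ a0 → 0 ≤ a1 → 0 ≤ a2 → 0 ≤ a3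
    → 0 ≤ a4 → 0 ≤ a5 → 0 ≤ w * (693 / 20480 * e ^ 5 * w ^ 2 * w' + 693 / 327680 * e ^ 5 * w * w'
    + 693 / 5242880 * e ^ 5 * w' + 2879499 / 13107200 * e ^ 4 * w * w' + 693 / 83886080 * e ^ 4 *
    e' + 2879499 / 209715200 * e ^ 3 * w * e' + 693 / 83886080 * e ^ 3 * e' + 1 / 64 * e ^ 2 * w
    * w' + 693 / 83886080 * e ^ 2 * e' + 324871341 / 2097152000 * e * e' + 1143 / 10240 * e * w'
    + 1389908589 / 1048576000 * e ^ 3 * w + 1087 / 1280 + 155842941753007 / 219043332096000 * e +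
    98324177681 / 322122547200 * e ^ 2 * w) + (2 / 5 * e * w) * a0 + (7 / 16 * e * w + 1 / 30 * e
    ^ 2 * w ^ 2) * a1 + (101 / 1280 * e * w + 1 / 96 * e ^ 2 * w ^ 2) * a2 + (1 / 1920 * e ^ 2 *
    w ^ 2) * a3 + (7 / 5120 * e * w) * a4 + (4) * a5 := by
    intros
    positivity
  unfold fDm fRm
  linear_combination key _ _ _ _ _ _ _ _ (sub_nonneg.2 he1) (sub_nonneg.2 hw1) (sub_nonneg.2
    h1.2.2) (sub_nonneg.2 h2.2.1) (sub_nonneg.2 h3.2.2) (sub_nonneg.2 h4.2.1) (sub_nonneg.2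
    h4.2.2) (sub_nonneg.2 hr.2) - (-4 / 45) * h1.1 - (-4 / 45) * h2.1

theorem f_bhem {e w s0 s1 s2 s3 s4 s5 ρ κ : ℝ}
    (he0 : 0 ≤ e) (he1 : e ≤ 1) (hw0 : 0 ≤ w) (hw1 : w ≤ 1 / 16) (h1 : PS (1 / 4) s1 s2) (h2 : PS
    (1 / 4 / 4) s2 s3) (h3 : PS (1 / 4 / 4 / 4) s3 s4) (h4 : PS (1 / 4 / 4 / 4 / 4) s4 s5) (hr :
    -2 / 3 - 4 / 15 * (e * w) - 3 / 25 * (e * w) ^ 2 ≤ ρ ∧ ρ ≤ -2 / 3 - 4 / 15 * (e * w) - 7 /
    100 * (e * w) ^ 2) (hk : 1 + 2 / 3 * (e * w) - 1 / 5 * (e * w) ^ 2 ≤ κ ∧ κ ≤ 1 + 2 / 3 * (e *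
    w) + (e * w) ^ 2) :
    fDm (1 / 4) e w s1 s2 s3 s4 - (fRm 1 e w s0 s1 s2 s3 + ρ) ≤ 4 * (fDm 1 e w s0 s1 s2 s3 - (κ +
    ρ / 2) - (fRm 1 e w s0 s1 s2 s3 + ρ)) := by
  have key : ∀ e' w' a0 a1 a2 a3 a4 a5 a6 a7 : ℝ, 0 ≤ e' → 0 ≤ w' → 0 ≤ a0 → 0 ≤ a1 → 0 ≤ a2 →
    0 ≤ a3 → 0 ≤ a4 → 0 ≤ a5 → 0 ≤ a6 → 0 ≤ a7 → 0 ≤ w * (3282891 / 204800 * e ^ 3 * w ^ 2 * e' +
    3282891 / 204800 * e ^ 3 * w * w' + 95856389 / 15728640 * e * w * e' + 28536681 / 32768000 *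
    e * e' + 120997637 / 15728640 * e * w' + 235582377 / 32768000 * e ^ 3 * w + 2327 / 5120 + 693
    / 80 * e ^ 5 * w ^ 3 + 1 * e ^ 2 * w ^ 2 + 148423035077 / 213909504000 * e) + (3 * e * w) *
    a0 + (32 / 15 * e ^ 2 * w ^ 2) * a1 + (2 / 3 * e ^ 2 * w ^ 2) * a2 + (77 / 80 * e * w) * a3 +
    (17 / 320 * e * w) * a4 + (1 / 30 * e ^ 2 * w ^ 2) * a5 + (5) * a6 + (4) * a7 := by
    intros
    positivity
  unfold fDm fRm
  linear_combination key _ _ _ _ _ _ _ _ _ _ (sub_nonneg.2 he1) (sub_nonneg.2 hw1)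
    (sub_nonneg.2 h1.2.1) (sub_nonneg.2 h1.2.2) (sub_nonneg.2 h2.2.1) (sub_nonneg.2 h2.2.2)
    (sub_nonneg.2 h3.2.1) (sub_nonneg.2 h3.2.2) (sub_nonneg.2 hr.2) (sub_nonneg.2 hk.2) - (1 /
    45) * h1.1 - (1 / 45) * h2.1

theorem f_bd0 {e w s0 s1 s2 s3 s4 s5 ρ κ : ℝ}
    (he0 : 0 ≤ e) (he1 : e ≤ 1) (hw0 : 0 ≤ w) (hw1 : w ≤ 1 / 16) (h1 : PS (1 / 4) s1 s2) (h2 : PS
    (1 / 4 / 4) s2 s3) (h3 : PS (1 / 4 / 4 / 4) s3 s4) (h4 : PS (1 / 4 / 4 / 4 / 4) s4 s5) (hr :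
    -2 / 3 - 4 / 15 * (e * w) - 3 / 25 * (e * w) ^ 2 ≤ ρ ∧ ρ ≤ -2 / 3 - 4 / 15 * (e * w) - 7 /
    100 * (e * w) ^ 2) :
    2 * fRp 1 e w s0 s1 s2 s3 + 2 * (fRm 1 e w s0 s1 s2 s3 + ρ) + fDp (1 / 4) e w s1 s2 s3 s4 +
    fDm (1 / 4) e w s1 s2 s3 s4 ≤ 0 := by
  have key : ∀ e' w' a0 a1 a2 a3 a4 a5 a6 a7 : ℝ, 0 ≤ e' → 0 ≤ w' → 0 ≤ a0 → 0 ≤ a1 → 0 ≤ a2 →
    0 ≤ a3 → 0 ≤ a4 → 0 ≤ a5 → 0 ≤ a6 → 0 ≤ a7 → 0 ≤ w * (15028587 / 1638400 * e ^ 3 * w ^ 2 * e'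
    + 15028587 / 1638400 * e ^ 3 * w * w' + 643655642351 / 966367641600 * e * w * e' + 7228053 /
    6553600 * e * e' + 1579824295151 / 966367641600 * e * w' + 651 / 1024 + 178646817 / 26214400
    * e ^ 3 * w + 21 / 64 * e ^ 2 * w ^ 2 + 11781 / 4096 * e ^ 5 * w ^ 3 + 22321301222161 /
    15461882265600 * e) + (28 / 15 * e * w) * a0 + (32 / 45 * e ^ 2 * w ^ 2) * a1 + (7 / 30 * e ^
    2 * w ^ 2) * a2 + (7 / 12 * e * w) * a3 + (7 / 240 * e * w) * a4 + (7 / 480 * e ^ 2 * w ^ 2)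
    * a5 + (1 / 5760 * e ^ 2 * w ^ 2) * a6 + (2) * a7 := by
    intros
    positivity
  unfold fDm fDp fRm fRp
  linear_combination key _ _ _ _ _ _ _ _ _ _ (sub_nonneg.2 he1) (sub_nonneg.2 hw1)
    (sub_nonneg.2 h1.2.1) (sub_nonneg.2 h1.2.2) (sub_nonneg.2 h2.2.1) (sub_nonneg.2 h2.2.2)
    (sub_nonneg.2 h3.2.1) (sub_nonneg.2 h3.2.2) (sub_nonneg.2 h4.2.1) (sub_nonneg.2 hr.2) - (-1 /
    9) * h1.1 - (1 / 45) * h2.1

theorem f_bd1p {e w s0 s1 s2 s3 s4 s5 ρ κ : ℝ}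
    (he0 : 0 ≤ e) (he1 : e ≤ 1) (hw0 : 0 ≤ w) (hw1 : w ≤ 1 / 16) (h1 : PS (1 / 4) s1 s2) (h2 : PS
    (1 / 4 / 4) s2 s3) (h3 : PS (1 / 4 / 4 / 4) s3 s4) (h4 : PS (1 / 4 / 4 / 4 / 4) s4 s5) (hr :
    -2 / 3 - 4 / 15 * (e * w) - 3 / 25 * (e * w) ^ 2 ≤ ρ ∧ ρ ≤ -2 / 3 - 4 / 15 * (e * w) - 7 /
    100 * (e * w) ^ 2) :
    2 * fRp 1 e w s0 s1 s2 s3 + (fRm 1 e w s0 s1 s2 s3 + ρ) + fDm (1 / 4) e w s1 s2 s3 s4 ≤ 0 :=
    by
  have key : ∀ e' w' a0 a1 a2 a3 a4 a5 a6 : ℝ, 0 ≤ e' → 0 ≤ w' → 0 ≤ a0 → 0 ≤ a1 → 0 ≤ a2 → 0 ≤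
    a3 → 0 ≤ a4 → 0 ≤ a5 → 0 ≤ a6 → 0 ≤ w * (1882007 / 204800 * e ^ 3 * w ^ 2 * e' + 1882007 /
    204800 * e ^ 3 * w * w' + 175719193 / 235929600 * e * w * e' + 33605737 / 32768000 * e * e' +
    405873433 / 235929600 * e * w' + 8837 / 15360 + 220499409 / 32768000 * e ^ 3 * w + 1 / 3 * e
    ^ 2 * w ^ 2 + 231 / 80 * e ^ 5 * w ^ 3 + 845518426327 / 641728512000 * e) + (29 / 15 * e * w)
    * a0 + (32 / 45 * e ^ 2 * w ^ 2) * a1 + (2 / 9 * e ^ 2 * w ^ 2) * a2 + (49 / 80 * e * w) * a3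
    + (31 / 960 * e * w) * a4 + (1 / 90 * e ^ 2 * w ^ 2) * a5 + (1) * a6 := by
    intros
    positivity
  unfold fDm fRm fRp
  linear_combination key _ _ _ _ _ _ _ _ _ (sub_nonneg.2 he1) (sub_nonneg.2 hw1) (sub_nonneg.2
    h1.2.1) (sub_nonneg.2 h1.2.2) (sub_nonneg.2 h2.2.1) (sub_nonneg.2 h2.2.2) (sub_nonneg.2
    h3.2.1) (sub_nonneg.2 h3.2.2) (sub_nonneg.2 hr.2) - (-1 / 15) * h1.1 - (1 / 45) * h2.1

theorem f_bd2 {e w s0 s1 s2 s3 s4 s5 ρ κ : ℝ}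
    (he0 : 0 ≤ e) (he1 : e ≤ 1) (hw0 : 0 ≤ w) (hw1 : w ≤ 1 / 16) (h1 : PS (1 / 4) s1 s2) (h2 : PS
    (1 / 4 / 4) s2 s3) (h3 : PS (1 / 4 / 4 / 4) s3 s4) (h4 : PS (1 / 4 / 4 / 4 / 4) s4 s5) (hr :
    -2 / 3 - 4 / 15 * (e * w) - 3 / 25 * (e * w) ^ 2 ≤ ρ ∧ ρ ≤ -2 / 3 - 4 / 15 * (e * w) - 7 /
    100 * (e * w) ^ 2) :
    fRm 1 e w s0 s1 s2 s3 + ρ + fDp (1 / 4) e w s1 s2 s3 s4 ≤ 0 := by
  have key : ∀ e' w' a0 a1 a2 a3 a4 : ℝ, 0 ≤ e' → 0 ≤ w' → 0 ≤ a0 → 0 ≤ a1 → 0 ≤ a2 → 0 ≤ a3 →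
    0 ≤ a4 → 0 ≤ w * (231 / 20480 * e ^ 4 * w ^ 3 * e' + 231 / 20480 * e ^ 4 * w ^ 2 * w' + 1 /
    192 * e ^ 2 * w * w' + 19801 / 256000 * e * e' + 346847 / 4096000 * e ^ 3 * w + 29 / 480 +
    13157 / 819200 * e ^ 4 * w ^ 2 + 13 / 1920 * e * w + 8548303027 / 71303168000 * e +
    75775599377 / 966367641600 * e ^ 2 * w) + (1 / 15 * e * w) * a0 + (7 / 240 * e * w + 1 / 90 *
    e ^ 2 * w ^ 2) * a1 + (1 / 320 * e * w + 1 / 288 * e ^ 2 * w ^ 2) * a2 + (1 / 5760 * e ^ 2 *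
    w ^ 2) * a3 + (1) * a4 := by
    intros
    positivity
  unfold fDp fRm
  linear_combination key _ _ _ _ _ _ _ (sub_nonneg.2 he1) (sub_nonneg.2 hw1) (sub_nonneg.2
    h1.2.2) (sub_nonneg.2 h2.2.1) (sub_nonneg.2 h3.2.2) (sub_nonneg.2 h4.2.1) (sub_nonneg.2 hr.2)
    - (-2 / 45) * h1.1

theorem f_be0 {e w s0 s1 s2 s3 s4 s5 ρ κ : ℝ}
    (he0 : 0 ≤ e) (he1 : e ≤ 1) (hw0 : 0 ≤ w) (hw1 : w ≤ 1 / 16) (h1 : PS (1 / 4) s1 s2) (h2 : PS
    (1 / 4 / 4) s2 s3) (h3 : PS (1 / 4 / 4 / 4) s3 s4) (h4 : PS (1 / 4 / 4 / 4 / 4) s4 s5) (hr :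
    -2 / 3 - 4 / 15 * (e * w) - 3 / 25 * (e * w) ^ 2 ≤ ρ ∧ ρ ≤ -2 / 3 - 4 / 15 * (e * w) - 7 /
    100 * (e * w) ^ 2) (hk : 1 + 2 / 3 * (e * w) - 1 / 5 * (e * w) ^ 2 ≤ κ ∧ κ ≤ 1 + 2 / 3 * (e *
    w) + (e * w) ^ 2) :
    fRp 1 e w s0 s1 s2 s3 ≤ fDp 1 e w s0 s1 s2 s3 + κ := by
  have key : ∀ e' w' a0 a1 a2 a3 : ℝ, 0 ≤ e' → 0 ≤ w' → 0 ≤ a0 → 0 ≤ a1 → 0 ≤ a2 → 0 ≤ a3 → 0 ≤
    w * (24123 / 8192 * e ^ 3 * w ^ 2 * e' + 24123 / 8192 * e ^ 3 * w * w' + 1 / 5 * e * w * e' +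
    59403 / 102400 * e * e' + 359 / 640 * e * w' + 57008757 / 16384000 * e ^ 3 * w + 29 / 64 +
    36756915379 / 42781900800 * e) + (2 / 3 * e * w) * a0 + (7 / 48 * e * w) * a1 + (1 / 192 * e
    * w) * a2 + (1) * a3 := by
    intros
    positivity
  unfold fDp fRp
  linear_combination key _ _ _ _ _ _ (sub_nonneg.2 he1) (sub_nonneg.2 hw1) (sub_nonneg.2
    h1.2.1) (sub_nonneg.2 h2.2.2) (sub_nonneg.2 h3.2.2) (sub_nonneg.2 hk.1) - (-1 / 15) * h1.1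

end Pool.Agent.MP_450e1b_mp.H55

/-
Polynomial inequalities for the closed forms (outer junction).
-/

namespace Pool.Agent.MP_450e1b_mp.H55

set_option linter.unusedVariables false

theorem g_thp {p e s0 s1 s2 s3 s4 s5 : ℝ}
    (hp0 : 0 ≤ p) (hp1 : p ≤ 1 / 4) (he0 : 0 ≤ e) (he1 : e ≤ 1) (h0 : PS p s0 s1) (h1 : PS (p /
    4) s1 s2) (h2 : PS (p / 4 / 4) s2 s3) (h3 : PS (p / 4 / 4 / 4) s3 s4) (h4 : PS (p / 4 / 4 / 4
    / 4) s4 s5) :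
    gDp p e s0 s1 s2 s3 - gRp p e s0 s1 s2 s3 ≤ 2 * (gDm p e s0 s1 s2 s3 - gRm p e s0 s1 s2 s3)
    := by
  have key : ∀ e' p' a0 a1 a2 a3 a4 a5 a6 : ℝ, 0 ≤ e' → 0 ≤ p' → 0 ≤ a0 → 0 ≤ a1 → 0 ≤ a2 → 0 ≤
    a3 → 0 ≤ a4 → 0 ≤ a5 → 0 ≤ a6 → 0 ≤ 32 * p' ^ 5 * e' ^ 5 + 160 * e * p' ^ 5 * e' ^ 4 + 8384 /
    25 * e ^ 2 * p' ^ 5 * e' ^ 3 + 9152 / 25 * e ^ 3 * p' ^ 5 * e' ^ 2 + 5152 / 25 * e ^ 4 * p' ^
    5 * e' + 1184 / 25 * e ^ 5 * p' ^ 5 + 726 / 5 * p * p' ^ 4 * e' ^ 5 + 20316 / 25 * e * p * p'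
    ^ 4 * e' ^ 4 + 219357 / 125 * e ^ 2 * p * p' ^ 4 * e' ^ 3 + 373269 / 200 * e ^ 3 * p * p' ^ 4
    * e' ^ 2 + 496341 / 500 * e ^ 4 * p * p' ^ 4 * e' + 213753 / 1000 * e ^ 5 * p * p' ^ 4 + 5221
    / 20 * p ^ 2 * p' ^ 3 * e' ^ 5 + 669369 / 400 * e * p ^ 2 * p' ^ 3 * e' ^ 4 + 7566683 / 2000
    * e ^ 2 * p ^ 2 * p' ^ 3 * e' ^ 3 + 51552127 / 12800 * e ^ 3 * p ^ 2 * p' ^ 3 * e' ^ 2 +
    66791361 / 32000 * e ^ 4 * p ^ 2 * p' ^ 3 * e' + 27564103 / 64000 * e ^ 5 * p ^ 2 * p' ^ 3 +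
    142626967 / 652800 * p ^ 3 * p' ^ 2 * e' ^ 5 + 1096421957 / 652800 * e * p ^ 3 * p' ^ 2 * e'
    ^ 4 + 26431065853 / 6528000 * e ^ 2 * p ^ 3 * p' ^ 2 * e' ^ 3 + 36941243999 / 8355840 * e ^ 3
    * p ^ 3 * p' ^ 2 * e' ^ 2 + 481064188117 / 208896000 * e ^ 4 * p ^ 3 * p' ^ 2 * e' +
    49084673719 / 104448000 * e ^ 5 * p ^ 3 * p' ^ 2 + 171555751 / 2088960 * p ^ 4 * p' * e' ^ 5
    + 11520739753 / 13926400 * e * p ^ 4 * p' * e' ^ 4 + 113149777121 / 52224000 * e ^ 2 * p ^ 4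
    * p' * e' ^ 3 + 12906379453 / 5222400 * e ^ 3 * p ^ 4 * p' * e' ^ 2 + 46067173323 / 34816000
    * e ^ 4 * p ^ 4 * p' * e' + 57204546707 / 208896000 * e ^ 5 * p ^ 4 * p' + 283015333 /
    27852800 * p ^ 5 * e' ^ 5 + 27465919515479 / 171127603200 * e * p ^ 5 * e' ^ 4 +
    99037228866739 / 213909504000 * e ^ 2 * p ^ 5 * e' ^ 3 + 15866977518423 / 28521267200 * e ^ 3
    * p ^ 5 * e' ^ 2 + 66084904354483 / 213909504000 * e ^ 4 * p ^ 5 * e' + 56075464669363 /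
    855638016000 * e ^ 5 * p ^ 5 + (8 / 5 * p + 8 / 15 * e * p) * a0 + (16 / 15 + 8 / 15 * p ^ 2
    + 8 / 15 * e * p ^ 2) * a1 + (17 / 15 + 1 / 6 * p ^ 2 + 3 / 20 * e * p ^ 2) * a2 + (3 / 5 * p
    + 13 / 60 * e * p) * a3 + (1 / 20 * p + 1 / 48 * e * p) * a4 + (1 / 15 + 1 / 120 * p ^ 2 + 1
    / 320 * e * p ^ 2) * a5 + (1 / 3840 * e * p ^ 2) * a6 := by
    intros
    positivity
  unfold gDm gDp gRm gRp
  linear_combination key _ _ _ _ _ _ _ _ _ (sub_nonneg.2 he1) (sub_nonneg.2 hp1) (sub_nonneg.2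
    h0.2.1) (sub_nonneg.2 h0.2.2) (sub_nonneg.2 h1.2.1) (sub_nonneg.2 h1.2.2) (sub_nonneg.2
    h2.2.1) (sub_nonneg.2 h2.2.2) (sub_nonneg.2 h3.2.2)

theorem g_thm {p e s0 s1 s2 s3 s4 s5 : ℝ}
    (hp0 : 0 ≤ p) (hp1 : p ≤ 1 / 4) (he0 : 0 ≤ e) (he1 : e ≤ 1) (h0 : PS p s0 s1) (h1 : PS (p /
    4) s1 s2) (h2 : PS (p / 4 / 4) s2 s3) (h3 : PS (p / 4 / 4 / 4) s3 s4) (h4 : PS (p / 4 / 4 / 4
    / 4) s4 s5) :
    gDm p e s0 s1 s2 s3 - gRm p e s0 s1 s2 s3 ≤ 2 * (gDp p e s0 s1 s2 s3 - gRp p e s0 s1 s2 s3)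
    := by
  have key : ∀ e' p' a0 a1 a2 a3 a4 a5 a6 : ℝ, 0 ≤ e' → 0 ≤ p' → 0 ≤ a0 → 0 ≤ a1 → 0 ≤ a2 → 0 ≤
    a3 → 0 ≤ a4 → 0 ≤ a5 → 0 ≤ a6 → 0 ≤ 693 / 81920 * e ^ 4 * p ^ 3 * e' + 88893 / 2621440 * e ^
    3 * p ^ 3 * e' + 357 / 102400 * e ^ 3 * p ^ 2 * e' + 249199 / 491520 * p ^ 4 * e' + 16796609
    / 2457600 * p ^ 3 * p' + 33171 / 51200 * e ^ 2 * p * p' + 651 / 4096 * p ^ 3 * e' + 313816801
    / 167116800 * p ^ 2 * p' + 1281 / 5120 * p ^ 2 * e' + 416654561 / 668467200 * p * p' + 881 /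
    16000 * p * e' + 1144076389 / 13369344000 * p' + 45826885531 / 53477376000 + 10299 / 64000 *
    e ^ 3 * p + 3 / 50 * e ^ 2 + 92433 / 1024000 * e ^ 2 * p + 18813 / 819200 * e ^ 3 * p ^ 2 +
    6363 / 81920 * e ^ 2 * p ^ 3 + 121527 / 1310720 * e ^ 3 * p ^ 3 + 3022612059 / 3355443200 * e
    * p ^ 5 + 884893 / 491520 * p ^ 5 + (32 / 15 + 16 / 15 * p ^ 2 + 8 / 15 * e * p ^ 2) * a0 +
    (16 / 5 * p + 8 / 15 * e * p) * a1 + (6 / 5 * p + 1 / 6 * e * p) * a2 + (6 / 5 + 1 / 3 * p ^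
    2 + 3 / 20 * e * p ^ 2) * a3 + (1 / 15 + 1 / 60 * p ^ 2 + 1 / 320 * e * p ^ 2) * a4 + (1 / 10
    * p + 1 / 120 * e * p) * a5 + (1 / 3840 * e * p ^ 2) * a6 := by
    intros
    positivity
  unfold gDm gDp gRm gRp
  linear_combination key _ _ _ _ _ _ _ _ _ (sub_nonneg.2 he1) (sub_nonneg.2 hp1) (sub_nonneg.2
    h0.2.1) (sub_nonneg.2 h0.2.2) (sub_nonneg.2 h1.2.1) (sub_nonneg.2 h1.2.2) (sub_nonneg.2
    h2.2.1) (sub_nonneg.2 h2.2.2) (sub_nonneg.2 h3.2.1)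

theorem g_ehp {p e s0 s1 s2 s3 s4 s5 : ℝ}
    (hp0 : 0 ≤ p) (hp1 : p ≤ 1) (he0 : 0 ≤ e) (he1 : e ≤ 1) (h1 : PS (p / 4) s1 s2) (h2 : PS (p /
    4 / 4) s2 s3) (h3 : PS (p / 4 / 4 / 4) s3 s4) (h4 : PS (p / 4 / 4 / 4 / 4) s4 s5) :
    gDp (p / 4) e s1 s2 s3 s4 - gRp (p / 4) e s1 s2 s3 s4 ≤ 4 * (gDp (p / 4) e s1 s2 s3 s4 - gRp
    p e s0 s1 s2 s3) := by
  have key : ∀ e' p' a0 a1 a2 a3 a4 a5 a6 : ℝ, 0 ≤ e' → 0 ≤ p' → 0 ≤ a0 → 0 ≤ a1 → 0 ≤ a2 → 0 ≤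
    a3 → 0 ≤ a4 → 0 ≤ a5 → 0 ≤ a6 → 0 ≤ 3693753 / 167772160 * e ^ 3 * p ^ 3 * e' + 876909 /
    3276800 * e ^ 3 * p ^ 2 * e' + 317457 / 83886080 * e ^ 2 * p ^ 3 * e' + 31215080371 /
    10307921510400 * p ^ 5 * e' + 14864113297 / 3435973836800 * p ^ 4 * p' + 2269953 / 83886080 *
    e * p ^ 3 * e' + 47672267 / 7549747200 * p ^ 4 * e' + 102396707609 / 30923764531200 * p ^ 3 *
    p' + 1551 / 6400 * e * p ^ 2 * e' + 66761681 / 1426063360 * p ^ 3 * e' + 43089 / 64000 * e *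
    p * e' + 4169 / 409600 * p ^ 2 * e' + 4291 / 2400 + 661017 / 1024000 * e ^ 3 * p + 27 / 200 *
    e ^ 2 + 7067 / 48000 * e * p + 45849 / 13107200 * e ^ 3 * p ^ 2 + 29799 / 1310720 * e ^ 5 * p
    ^ 3 + 69 / 512 * p + 107931 / 409600 * p ^ 2 + 13271020497751 / 525703997030400 * p ^ 3 + (16
    / 9 + 2 / 5 * p + 2 / 45 * e * p) * a0 + (1 / 30 * p ^ 2 + 7 / 90 * e * p ^ 2) * a1 + (11 /
    45 + 1 / 96 * p ^ 2 + 23 / 960 * e * p ^ 2) * a2 + (3 / 20 * p + 19 / 720 * e * p) * a3 + (1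
    / 80 * p + 11 / 2880 * e * p) * a4 + (1 / 45 + 1 / 1920 * p ^ 2 + 17 / 15360 * e * p ^ 2) *
    a5 + (1 / 184320 * e * p ^ 2) * a6 := by
    intros
    positivity
  unfold gDp gRp
  linear_combination key _ _ _ _ _ _ _ _ _ (sub_nonneg.2 he1) (sub_nonneg.2 hp1) (sub_nonneg.2
    h1.2.1) (sub_nonneg.2 h1.2.2) (sub_nonneg.2 h2.2.1) (sub_nonneg.2 h2.2.2) (sub_nonneg.2
    h3.2.1) (sub_nonneg.2 h3.2.2) (sub_nonneg.2 h4.2.2)

theorem g_ehm {p e s0 s1 s2 s3 s4 s5 : ℝ}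
    (hp0 : 0 ≤ p) (hp1 : p ≤ 1 / 4) (he0 : 0 ≤ e) (he1 : e ≤ 1) (h0 : PS p s0 s1) (h1 : PS (p /
    4) s1 s2) (h2 : PS (p / 4 / 4) s2 s3) (h3 : PS (p / 4 / 4 / 4) s3 s4) (h4 : PS (p / 4 / 4 / 4
    / 4) s4 s5) :
    gDm (p / 4) e s1 s2 s3 s4 - gRm (p / 4) e s1 s2 s3 s4 ≤ 4 * (gDm (p / 4) e s1 s2 s3 s4 - gRm
    p e s0 s1 s2 s3) := by
  have key : ∀ e' p' a0 a1 a2 a3 a4 a5 a6 a7 a8 : ℝ, 0 ≤ e' → 0 ≤ p' → 0 ≤ a0 → 0 ≤ a1 → 0 ≤ a2
    → 0 ≤ a3 → 0 ≤ a4 → 0 ≤ a5 → 0 ≤ a6 → 0 ≤ a7 → 0 ≤ a8 → 0 ≤ 693 / 5242880 * e ^ 4 * p ^ 3 *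
    e' + 206703 / 167772160 * e ^ 3 * p ^ 3 * e' + 1911 / 819200 * e ^ 3 * p ^ 2 * e' + 167643 /
    83886080 * e ^ 2 * p ^ 3 * e' + 53140993 / 6291456 * p ^ 3 * p' + 245103 / 819200 * e * p ^ 2
    * e' + 7711087187 / 3565158400 * p ^ 2 * p' + 242653 / 819200 * p ^ 2 * e' + 35986615033 /
    42781900800 * p * p' + 7913 / 192000 * p * e' + 57226577823 / 285212672000 * p' + 36963 /
    512000 * e ^ 3 * p + 9 / 100 * e ^ 2 + 18543 / 256000 * e ^ 2 * p + 3048371333411 /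
    3422552064000 + 128559 / 13107200 * e ^ 3 * p ^ 2 + 1529073 / 16777216 * e ^ 2 * p ^ 3 +
    1007537353 / 419430400 * p ^ 5 + 1799 / 262144 * e * p ^ 3 + 420883 / 754974720 * e * p ^ 4 +
    21145220699 / 10307921510400 * e * p ^ 5 + (128 / 45 + 64 / 45 * p ^ 2) * a0 + (64 / 15 * p)
    * a1 + (16 / 15 * p + 7 / 90 * e * p ^ 2) * a2 + (8 / 5 + 8 / 45 * e * p + 2 / 5 * p ^ 2) *
    a3 + (1 / 15 * p + 1 / 18 * e * p + 1 / 120 * p ^ 2) * a4 + (4 / 15 + 23 / 960 * e * p ^ 2) *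
    a5 + (1 / 45 + 1 / 1440 * p ^ 2 + 17 / 15360 * e * p ^ 2) * a6 + (1 / 60 * p + 1 / 360 * e *
    p) * a7 + (1 / 184320 * e * p ^ 2) * a8 := by
    intros
    positivity
  unfold gDm gRm
  linear_combination key _ _ _ _ _ _ _ _ _ _ _ (sub_nonneg.2 he1) (sub_nonneg.2 hp1)
    (sub_nonneg.2 h0.2.1) (sub_nonneg.2 h0.2.2) (sub_nonneg.2 h1.2.1) (sub_nonneg.2 h1.2.2)
    (sub_nonneg.2 h2.2.1) (sub_nonneg.2 h2.2.2) (sub_nonneg.2 h3.2.1) (sub_nonneg.2 h3.2.2)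
    (sub_nonneg.2 h4.2.1)

theorem g_hep {p e s0 s1 s2 s3 s4 s5 : ℝ}
    (hp0 : 0 ≤ p) (hp1 : p ≤ 1 / 4) (he0 : 0 ≤ e) (he1 : e ≤ 1) (h0 : PS p s0 s1) (h1 : PS (p /
    4) s1 s2) (h2 : PS (p / 4 / 4) s2 s3) (h3 : PS (p / 4 / 4 / 4) s3 s4) (h4 : PS (p / 4 / 4 / 4
    / 4) s4 s5) :
    gDp (p / 4) e s1 s2 s3 s4 - gRp p e s0 s1 s2 s3 ≤ 4 * (gDp p e s0 s1 s2 s3 - gRp p e s0 s1 s2
    s3) := by
  have key : ∀ e' p' a0 a1 a2 a3 a4 a5 a6 a7 : ℝ, 0 ≤ e' → 0 ≤ p' → 0 ≤ a0 → 0 ≤ a1 → 0 ≤ a2 →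
    0 ≤ a3 → 0 ≤ a4 → 0 ≤ a5 → 0 ≤ a6 → 0 ≤ a7 → 0 ≤ 29799 / 5242880 * e ^ 4 * p ^ 3 * e' +
    956403 / 20971520 * e ^ 3 * p ^ 3 * e' + 233079 / 3276800 * e ^ 3 * p ^ 2 * e' + 204191491 /
    301989888 * p ^ 4 * e' + 100647759691 / 7549747200 * p ^ 3 * p' + 109311 / 102400 * e * p ^ 2
    * e' + 3493 / 16384 * p ^ 3 * e' + 1830991627259 / 513382809600 * p ^ 2 * p' + 137381 /
    102400 * p ^ 2 * e' + 838059963391 / 410706247680 * p * p' + 2388326155259 / 8214124953600 *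
    p' + 56356357471237 / 32856499814400 + 401793 / 1024000 * e ^ 3 * p + 27 / 200 * e ^ 2 +
    54429 / 256000 * e ^ 2 * p + 18151 / 192000 * e * p + 59313 / 1638400 * e ^ 3 * p ^ 2 +
    755559 / 5242880 * e ^ 2 * p ^ 3 + 666981 / 5242880 * e ^ 3 * p ^ 3 + 806465203 / 671088640 *
    e * p ^ 5 + 884893 / 245760 * p ^ 5 + (64 / 15 + 32 / 15 * p ^ 2 + 32 / 45 * e * p ^ 2) * a0
    + (32 / 5 * p + 32 / 45 * e * p) * a1 + (12 / 5 * p + 7 / 45 * e * p) * a2 + (12 / 5 + 2 / 3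
    * p ^ 2 + 11 / 60 * e * p ^ 2) * a3 + (2 / 15 + 7 / 720 * e * p + 1 / 30 * p ^ 2) * a4 + (1 /
    5 * p + 1 / 960 * e * p ^ 2) * a5 + (7 / 11520 * e * p ^ 2) * a6 + (1 / 960 * e * p) * a7 :=
    by
    intros
    positivity
  unfold gDp gRp
  linear_combination key _ _ _ _ _ _ _ _ _ _ (sub_nonneg.2 he1) (sub_nonneg.2 hp1)
    (sub_nonneg.2 h0.2.1) (sub_nonneg.2 h0.2.2) (sub_nonneg.2 h1.2.1) (sub_nonneg.2 h1.2.2)
    (sub_nonneg.2 h2.2.1) (sub_nonneg.2 h2.2.2) (sub_nonneg.2 h3.2.1) (sub_nonneg.2 h3.2.2)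

theorem g_hem {p e s0 s1 s2 s3 s4 s5 : ℝ}
    (hp0 : 0 ≤ p) (hp1 : p ≤ 1 / 4) (he0 : 0 ≤ e) (he1 : e ≤ 1) (h0 : PS p s0 s1) (h1 : PS (p /
    4) s1 s2) (h2 : PS (p / 4 / 4) s2 s3) (h3 : PS (p / 4 / 4 / 4) s3 s4) (h4 : PS (p / 4 / 4 / 4
    / 4) s4 s5) :
    gDm (p / 4) e s1 s2 s3 s4 - gRm p e s0 s1 s2 s3 ≤ 4 * (gDm p e s0 s1 s2 s3 - gRm p e s0 s1 s2
    s3) := by
  have key : ∀ e' p' a0 a1 a2 a3 a4 a5 a6 a7 : ℝ, 0 ≤ e' → 0 ≤ p' → 0 ≤ a0 → 0 ≤ a1 → 0 ≤ a2 →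
    0 ≤ a3 → 0 ≤ a4 → 0 ≤ a5 → 0 ≤ a6 → 0 ≤ a7 → 0 ≤ 26787 / 102400 * e ^ 3 * p ^ 2 * e' +
    3168081 / 20971520 * e ^ 2 * p ^ 3 * e' + 1189778123 / 671088640 * p ^ 5 * e' + 8922598169 /
    3355443200 * p ^ 4 * p' + 16221 / 819200 * e ^ 2 * p ^ 2 * e' + 4365333 / 20971520 * e ^ 2 *
    p ^ 2 * p' + 16400503 / 31334400 * p ^ 2 * p' + 14763 / 16000 * e * p * e' + 18481 / 192000 *
    p * e' + 18481 / 192000 * p' + 58347 / 128000 * e ^ 3 * p + 9 / 100 * e ^ 2 + 234693 / 256000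
    + 137643927 / 419430400 * e ^ 2 * p ^ 2 + 1155 / 2048 * e * p ^ 2 + 29169 / 2621440 * e ^ 4 *
    p ^ 3 + 693 / 20480 * e ^ 5 * p ^ 3 + 1072097 / 125337600 * p ^ 2 + 13727 / 69632 * e * p ^ 3
    + 182161 / 1843200 * e * p ^ 4 + 23763706613 / 40265318400 * p ^ 4 + (16 / 15 * p + 32 / 45 *
    e * p) * a0 + (32 / 45 + 16 / 45 * p ^ 2 + 32 / 45 * e * p ^ 2) * a1 + (82 / 45 + 1 / 10 * p
    ^ 2 + 11 / 60 * e * p ^ 2) * a2 + (4 / 15 * p + 29 / 90 * e * p) * a3 + (13 / 360 * e * p + 1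
    / 960 * e * p ^ 2) * a4 + (1 / 9 + 1 / 60 * p + 1 / 480 * p ^ 2) * a5 + (1 / 240 * p) * a6 +
    (1 / 5760 * p ^ 2 + 7 / 11520 * e * p ^ 2) * a7 := by
    intros
    positivity
  unfold gDm gRm
  linear_combination key _ _ _ _ _ _ _ _ _ _ (sub_nonneg.2 he1) (sub_nonneg.2 hp1)
    (sub_nonneg.2 h0.2.1) (sub_nonneg.2 h0.2.2) (sub_nonneg.2 h1.2.1) (sub_nonneg.2 h1.2.2)
    (sub_nonneg.2 h2.2.1) (sub_nonneg.2 h2.2.2) (sub_nonneg.2 h3.2.1) (sub_nonneg.2 h3.2.2)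

theorem g_d0 {p e s0 s1 s2 s3 s4 s5 : ℝ}
    (hp0 : 0 ≤ p) (hp1 : p ≤ 1 / 4) (he0 : 0 ≤ e) (he1 : e ≤ 1) (h0 : PS p s0 s1) (h1 : PS (p /
    4) s1 s2) (h2 : PS (p / 4 / 4) s2 s3) (h3 : PS (p / 4 / 4 / 4) s3 s4) (h4 : PS (p / 4 / 4 / 4
    / 4) s4 s5) :
    2 * gRp p e s0 s1 s2 s3 + 2 * gRm p e s0 s1 s2 s3 + gDp (p / 4) e s1 s2 s3 s4 + gDm (p / 4) e
    s1 s2 s3 s4 ≤ 0 := by
  have key : ∀ e' p' a0 a1 a2 a3 a4 a5 a6 a7 : ℝ, 0 ≤ e' → 0 ≤ p' → 0 ≤ a0 → 0 ≤ a1 → 0 ≤ a2 →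
    0 ≤ a3 → 0 ≤ a4 → 0 ≤ a5 → 0 ≤ a6 → 0 ≤ a7 → 0 ≤ 48195 / 4194304 * e ^ 4 * p ^ 2 * p' +
    56499723 / 419430400 * e ^ 3 * p ^ 2 * e' + 1306373 / 503316480 * e * p ^ 3 * p' + 176828961
    / 41943040 * p ^ 3 * p' + 216657 / 819200 * e ^ 2 * p * p' + 14208773 / 2013265920 * e * p ^
    2 * p' + 1566708521 / 1509949440 * p ^ 2 * p' + 1111569 / 3276800 * e * p * e' + 771920681 /
    6039797760 * p * p' + 1266511063 / 24159191040 * p + 2183 / 2400 + 9827 / 655360 * e * p +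
    66813 / 204800 * e ^ 3 * p + 3 / 40 * e ^ 2 + 910635259 / 8053063680 * e * p ^ 2 + 1520757 /
    419430400 * e ^ 3 * p ^ 2 + 18207 / 524288 * e ^ 2 * p ^ 3 + 18207 / 2097152 * e ^ 3 * p ^ 3
    + 11781 / 1048576 * e ^ 5 * p ^ 3 + 724643071 / 603979776 * p ^ 5 + (64 / 45 + 32 / 45 * p ^
    2) * a0 + (32 / 15 * p) * a1 + (14 / 15 * p) * a2 + (4 / 9 + 1 / 15 * e * p + 7 / 30 * p ^ 2)
    * a3 + (1 / 45 + 1 / 48 * e * p + 7 / 480 * p ^ 2) * a4 + (7 / 60 * p) * a5 + (1 / 240 * p) *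
    a6 + (1 / 960 * e * p + 1 / 5760 * p ^ 2) * a7 := by
    intros
    positivity
  unfold gDm gDp gRm gRp
  linear_combination key _ _ _ _ _ _ _ _ _ _ (sub_nonneg.2 he1) (sub_nonneg.2 hp1)
    (sub_nonneg.2 h0.2.1) (sub_nonneg.2 h0.2.2) (sub_nonneg.2 h1.2.1) (sub_nonneg.2 h1.2.2)
    (sub_nonneg.2 h2.2.1) (sub_nonneg.2 h2.2.2) (sub_nonneg.2 h3.2.1) (sub_nonneg.2 h3.2.2)

theorem g_d1p {p e s0 s1 s2 s3 s4 s5 : ℝ}
    (hp0 : 0 ≤ p) (hp1 : p ≤ 1 / 4) (he0 : 0 ≤ e) (he1 : e ≤ 1) (h0 : PS p s0 s1) (h1 : PS (p /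
    4) s1 s2) (h2 : PS (p / 4 / 4) s2 s3) (h3 : PS (p / 4 / 4 / 4) s3 s4) (h4 : PS (p / 4 / 4 / 4
    / 4) s4 s5) :
    2 * gRp p e s0 s1 s2 s3 + gRm p e s0 s1 s2 s3 + gDm (p / 4) e s1 s2 s3 s4 ≤ 0 := by
  have key : ∀ e' p' a0 a1 a2 a3 a4 a5 a6 a7 : ℝ, 0 ≤ e' → 0 ≤ p' → 0 ≤ a0 → 0 ≤ a1 → 0 ≤ a2 →
    0 ≤ a3 → 0 ≤ a4 → 0 ≤ a5 → 0 ≤ a6 → 0 ≤ a7 → 0 ≤ 29547 / 2621440 * e ^ 4 * p ^ 2 * p' +
    7084823 / 52428800 * e ^ 3 * p ^ 2 * e' + 1306373 / 2013265920 * p ^ 5 * e' + 7129 / 2457600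
    * e * p ^ 3 * p' + 441816229 / 209715200 * p ^ 3 * p' + 31973 / 163840 * e ^ 2 * p * p' +
    1515593 / 167116800 * e * p ^ 2 * p' + 12754708409 / 25669140480 * p ^ 2 * p' + 5633629 /
    16384000 * e * p * e' + 37 / 480 * p + 1079 / 1200 + 1540073 / 49152000 * e * p + 41269 /
    128000 * e ^ 3 * p + 7 / 100 * e ^ 2 + 74492087 / 668467200 * e * p ^ 2 + 14677 / 10485760 *
    e ^ 3 * p ^ 2 + 60879 / 5242880 * e ^ 2 * p ^ 3 + 189903 / 20971520 * e ^ 3 * p ^ 3 + 231 /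
    20480 * e ^ 5 * p ^ 3 + 1024071751 / 102676561920 * p ^ 2 + 1205996621 / 2013265920 * p ^ 5 +
    (32 / 45 + 16 / 45 * p ^ 2) * a0 + (16 / 15 * p) * a1 + (14 / 45 + 8 / 15 * p) * a2 + (1 / 30
    * e * p + 11 / 90 * p ^ 2 + 1 / 60 * e * p ^ 2) * a3 + (1 / 120 * e * p + 13 / 1440 * p ^ 2 +
    1 / 192 * e * p ^ 2) * a4 + (1 / 45 + 1 / 12 * p) * a5 + (1 / 240 * p) * a6 + (1 / 5760 * p ^
    2 + 1 / 3840 * e * p ^ 2) * a7 := by
    intros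
    positivity
  unfold gDm gRm gRp
  linear_combination key _ _ _ _ _ _ _ _ _ _ (sub_nonneg.2 he1) (sub_nonneg.2 hp1)
    (sub_nonneg.2 h0.2.1) (sub_nonneg.2 h0.2.2) (sub_nonneg.2 h1.2.1) (sub_nonneg.2 h1.2.2)
    (sub_nonneg.2 h2.2.1) (sub_nonneg.2 h2.2.2) (sub_nonneg.2 h3.2.1) (sub_nonneg.2 h3.2.2)

theorem g_d1m {p e s0 s1 s2 s3 s4 s5 : ℝ}
    (hp0 : 0 ≤ p) (hp1 : p ≤ 1 / 4) (he0 : 0 ≤ e) (he1 : e ≤ 1) (h0 : PS p s0 s1) (h1 : PS (p /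
    4) s1 s2) (h2 : PS (p / 4 / 4) s2 s3) (h3 : PS (p / 4 / 4 / 4) s3 s4) (h4 : PS (p / 4 / 4 / 4
    / 4) s4 s5) :
    2 * gRm p e s0 s1 s2 s3 + gRp p e s0 s1 s2 s3 + gDp (p / 4) e s1 s2 s3 s4 ≤ 0 := by
  have key : ∀ e' p' a0 a1 a2 a3 a4 a5 a6 a7 : ℝ, 0 ≤ e' → 0 ≤ p' → 0 ≤ a0 → 0 ≤ a1 → 0 ≤ a2 →
    0 ≤ a3 → 0 ≤ a4 → 0 ≤ a5 → 0 ≤ a6 → 0 ≤ a7 → 0 ≤ 125559 / 20971520 * e ^ 4 * p ^ 2 * p' +
    28512211 / 419430400 * e ^ 3 * p ^ 2 * e' + 499973 / 503316480 * e * p ^ 3 * p' + 863923 /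
    204800 * p ^ 3 * p' + 4171 / 20480 * e ^ 2 * p * p' + 3080453 / 2013265920 * e * p ^ 2 * p' +
    44345681 / 41779200 * p ^ 2 * p' + 357611 / 2048000 * e ^ 2 * p' + 100832243 / 501350400 * p
    * p' + 182081 / 1024000 * e ^ 3 * p + 92949 / 8192000 * e ^ 2 + 4441 / 7200 + 68533 /
    16777216 * e ^ 3 * p ^ 2 + 4033549 / 2005401600 * p + 83559 / 20971520 * e ^ 3 * p ^ 3 +
    212583 / 5242880 * e ^ 2 * p ^ 3 + 10749 / 64000 * e * p + 95171327 / 1610612736 * e * p ^ 2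
    + 29337 / 5242880 * e ^ 5 * p ^ 3 + 884893 / 737280 * p ^ 5 + 884893 / 2013265920 * e * p ^ 5
    + (64 / 45 + 32 / 45 * p ^ 2) * a0 + (32 / 15 * p) * a1 + (4 / 5 * p + 1 / 60 * e * p ^ 2) *
    a2 + (4 / 5 + 1 / 15 * e * p + 2 / 9 * p ^ 2) * a3 + (2 / 45 + 1 / 48 * e * p + 1 / 90 * p ^
    2) * a4 + (1 / 15 * p + 1 / 192 * e * p ^ 2) * a5 + (1 / 3840 * e * p ^ 2) * a6 + (1 / 960 *
    e * p) * a7 := by
    intros
    positivity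
  unfold gDp gRm gRp
  linear_combination key _ _ _ _ _ _ _ _ _ _ (sub_nonneg.2 he1) (sub_nonneg.2 hp1)
    (sub_nonneg.2 h0.2.1) (sub_nonneg.2 h0.2.2) (sub_nonneg.2 h1.2.1) (sub_nonneg.2 h1.2.2)
    (sub_nonneg.2 h2.2.1) (sub_nonneg.2 h2.2.2) (sub_nonneg.2 h3.2.1) (sub_nonneg.2 h3.2.2)

theorem g_behm {e s0 s1 s2 s3 s4 s5 ρ κ : ℝ}
    (he0 : 0 ≤ e) (he1 : e ≤ 1) (h1 : PS (1 / 4) s1 s2) (h2 : PS (1 / 4 / 4) s2 s3) (h3 : PS (1 /
    4 / 4 / 4) s3 s4) (h4 : PS (1 / 4 / 4 / 4 / 4) s4 s5) (hr : -2 / 3 - 4 / 15 * (e / 4) - 3 /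
    25 * (e / 4) ^ 2 ≤ ρ ∧ ρ ≤ -2 / 3 - 4 / 15 * (e / 4) - 7 / 100 * (e / 4) ^ 2) :
    gDm (1 / 4) e s1 s2 s3 s4 - gRm (1 / 4) e s1 s2 s3 s4 ≤ 4 * (gDm (1 / 4) e s1 s2 s3 s4 - (gRm
    1 e s0 s1 s2 s3 + ρ)) := by
  have key : ∀ e' a0 a1 a2 a3 a4 a5 : ℝ, 0 ≤ e' → 0 ≤ a0 → 0 ≤ a1 → 0 ≤ a2 → 0 ≤ a3 → 0 ≤ a4 →
    0 ≤ a5 → 0 ≤ 693 / 5242880 * e ^ 4 * e' + 2990379 / 838860800 * e ^ 3 * e' + 3424399 /
    131072000 * e * e' + 167778813 / 2097152000 * e ^ 3 + 21132130403 / 21390950400 +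
    3920228865484931 / 18399639896064000 * e + (113 / 4032 * e) * a0 + (9 / 40) * a1 + (1 / 160)
    * a2 + (77 / 46080 * e) * a3 + (1 / 184320 * e) * a4 + (4) * a5 := by
    intros
    positivity
  unfold gDm gRm
  linear_combination key _ _ _ _ _ _ _ (sub_nonneg.2 he1) (sub_nonneg.2 h2.2.1) (sub_nonneg.2
    h2.2.2) (sub_nonneg.2 h3.2.1) (sub_nonneg.2 h3.2.2) (sub_nonneg.2 h4.2.1) (sub_nonneg.2 hr.2)
    - (-4 / 45 - 1 / 105 * e) * h1.1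

theorem g_bhem {e s0 s1 s2 s3 s4 s5 ρ κ : ℝ}
    (he0 : 0 ≤ e) (he1 : e ≤ 1) (h1 : PS (1 / 4) s1 s2) (h2 : PS (1 / 4 / 4) s2 s3) (h3 : PS (1 /
    4 / 4 / 4) s3 s4) (h4 : PS (1 / 4 / 4 / 4 / 4) s4 s5) (hr : -2 / 3 - 4 / 15 * (e / 4) - 3 /
    25 * (e / 4) ^ 2 ≤ ρ ∧ ρ ≤ -2 / 3 - 4 / 15 * (e / 4) - 7 / 100 * (e / 4) ^ 2) (hk : 1 + 2 / 3
    * (e / 4) - 1 / 5 * (e / 4) ^ 2 ≤ κ ∧ κ ≤ 1 + 2 / 3 * (e / 4) + (e / 4) ^ 2) :
    gDm (1 / 4) e s1 s2 s3 s4 - (gRm 1 e s0 s1 s2 s3 + ρ) ≤ 4 * (gDm 1 e s0 s1 s2 s3 - (κ + ρ /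
    2) - (gRm 1 e s0 s1 s2 s3 + ρ)) := by
  have key : ∀ e' a0 a1 a2 a3 a4 a5 : ℝ, 0 ≤ e' → 0 ≤ a0 → 0 ≤ a1 → 0 ≤ a2 → 0 ≤ a3 → 0 ≤ a4 →
    0 ≤ a5 → 0 ≤ 3282891 / 13107200 * e ^ 3 * e' + 94095721 / 131072000 * e * e' + 1130378518677
    / 1996488704000 * e' + 155239647 / 524288000 * e ^ 3 + 10156113738317 / 17968398336000 + 693
    / 20480 * e ^ 5 + (649 / 20160 * e) * a0 + (713 / 10080) * a1 + (23 / 5760) * a2 + (7 / 11520
    * e) * a3 + (5) * a4 + (4) * a5 := by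
    intros
    positivity
  unfold gDm gRm
  linear_combination key _ _ _ _ _ _ _ (sub_nonneg.2 he1) (sub_nonneg.2 h2.2.1) (sub_nonneg.2
    h2.2.2) (sub_nonneg.2 h3.2.1) (sub_nonneg.2 h3.2.2) (sub_nonneg.2 hr.2) (sub_nonneg.2 hk.2) -
    (149 / 945 - 5 / 378 * e) * h1.1

theorem g_bd0 {e s0 s1 s2 s3 s4 s5 ρ κ : ℝ}
    (he0 : 0 ≤ e) (he1 : e ≤ 1) (h1 : PS (1 / 4) s1 s2) (h2 : PS (1 / 4 / 4) s2 s3) (h3 : PS (1 /
    4 / 4 / 4) s3 s4) (h4 : PS (1 / 4 / 4 / 4 / 4) s4 s5) (hr : -2 / 3 - 4 / 15 * (e / 4) - 3 /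
    25 * (e / 4) ^ 2 ≤ ρ ∧ ρ ≤ -2 / 3 - 4 / 15 * (e / 4) - 7 / 100 * (e / 4) ^ 2) :
    2 * gRp 1 e s0 s1 s2 s3 + 2 * (gRm 1 e s0 s1 s2 s3 + ρ) + gDp (1 / 4) e s1 s2 s3 s4 + gDm (1
    / 4) e s1 s2 s3 s4 ≤ 0 := by
  have key : ∀ e' a0 a1 a2 a3 a4 : ℝ, 0 ≤ e' → 0 ≤ a0 → 0 ≤ a1 → 0 ≤ a2 → 0 ≤ a3 → 0 ≤ a4 → 0 ≤
    15028587 / 104857600 * e ^ 3 * e' + 5493257 / 13107200 * e * e' + 2114371345601 /
    1796839833600 + 52253698081 / 299473305600 * e + 34595139 / 104857600 * e ^ 3 + 11781 /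
    1048576 * e ^ 5 + (31 / 1680 * e) * a0 + (713 / 10080) * a1 + (23 / 5760) * a2 + (1 / 960 *
    e) * a3 + (2) * a4 := by
    intros
    positivity
  unfold gDm gDp gRm gRp
  linear_combination key _ _ _ _ _ _ (sub_nonneg.2 he1) (sub_nonneg.2 h2.2.1) (sub_nonneg.2
    h2.2.2) (sub_nonneg.2 h3.2.1) (sub_nonneg.2 h3.2.2) (sub_nonneg.2 hr.2) - (23 / 945 - 2 / 315
    * e) * h1.1

theorem g_bd1p {e s0 s1 s2 s3 s4 s5 ρ κ : ℝ}
    (he0 : 0 ≤ e) (he1 : e ≤ 1) (h1 : PS (1 / 4) s1 s2) (h2 : PS (1 / 4 / 4) s2 s3) (h3 : PS (1 /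
    4 / 4 / 4) s3 s4) (h4 : PS (1 / 4 / 4 / 4 / 4) s4 s5) (hr : -2 / 3 - 4 / 15 * (e / 4) - 3 /
    25 * (e / 4) ^ 2 ≤ ρ ∧ ρ ≤ -2 / 3 - 4 / 15 * (e / 4) - 7 / 100 * (e / 4) ^ 2) :
    2 * gRp 1 e s0 s1 s2 s3 + (gRm 1 e s0 s1 s2 s3 + ρ) + gDm (1 / 4) e s1 s2 s3 s4 ≤ 0 := by
  have key : ∀ e' a0 a1 a2 a3 a4 : ℝ, 0 ≤ e' → 0 ≤ a0 → 0 ≤ a1 → 0 ≤ a2 → 0 ≤ a3 → 0 ≤ a4 → 0 ≤
    1882007 / 13107200 * e ^ 3 * e' + 52982377 / 131072000 * e * e' + 2087231577281 /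
    1796839833600 + 49178222869 / 352321536000 * e + 170087199 / 524288000 * e ^ 3 + 231 / 20480
    * e ^ 5 + (79 / 6720 * e) * a0 + (713 / 10080) * a1 + (23 / 5760) * a2 + (1 / 3840 * e) * a3
    + (1) * a4 := by
    intros
    positivity
  unfold gDm gRm gRp
  linear_combination key _ _ _ _ _ _ (sub_nonneg.2 he1) (sub_nonneg.2 h2.2.1) (sub_nonneg.2
    h2.2.2) (sub_nonneg.2 h3.2.1) (sub_nonneg.2 h3.2.2) (sub_nonneg.2 hr.2) - (13 / 189 - 1 / 210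
    * e) * h1.1

theorem g_bd2 {e s0 s1 s2 s3 s4 s5 ρ κ : ℝ}
    (he0 : 0 ≤ e) (he1 : e ≤ 1) (h1 : PS (1 / 4) s1 s2) (h2 : PS (1 / 4 / 4) s2 s3) (h3 : PS (1 /
    4 / 4 / 4) s3 s4) (h4 : PS (1 / 4 / 4 / 4 / 4) s4 s5) (hr : -2 / 3 - 4 / 15 * (e / 4) - 3 /
    25 * (e / 4) ^ 2 ≤ ρ ∧ ρ ≤ -2 / 3 - 4 / 15 * (e / 4) - 7 / 100 * (e / 4) ^ 2) :
    gRm 1 e s0 s1 s2 s3 + ρ + gDp (1 / 4) e s1 s2 s3 s4 ≤ 0 := by
  have key : ∀ e' a0 a1 a2 : ℝ, 0 ≤ e' → 0 ≤ a0 → 0 ≤ a1 → 0 ≤ a2 → 0 ≤ 231 / 5242880 * e ^ 4 *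
    e' + 1950193 / 131072000 * e * e' + 2751151 / 524288000 * e ^ 3 + 29 / 1920 + 22849 /
    104857600 * e ^ 4 + 69681390949 / 1996488704000 * e + (3 / 448 * e) * a0 + (1 / 1280 * e) *
    a1 + (1) * a2 := by
    intros
    positivity
  unfold gDp gRm
  linear_combination key _ _ _ _ (sub_nonneg.2 he1) (sub_nonneg.2 h2.2.1) (sub_nonneg.2 h3.2.2)
    (sub_nonneg.2 hr.2) - (-2 / 45 - 1 / 630 * e) * h1.1

theorem g_be0 {e s0 s1 s2 s3 s4 s5 ρ κ : ℝ}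
    (he0 : 0 ≤ e) (he1 : e ≤ 1) (h1 : PS (1 / 4) s1 s2) (h2 : PS (1 / 4 / 4) s2 s3) (h3 : PS (1 /
    4 / 4 / 4) s3 s4) (h4 : PS (1 / 4 / 4 / 4 / 4) s4 s5) (hr : -2 / 3 - 4 / 15 * (e / 4) - 3 /
    25 * (e / 4) ^ 2 ≤ ρ ∧ ρ ≤ -2 / 3 - 4 / 15 * (e / 4) - 7 / 100 * (e / 4) ^ 2) (hk : 1 + 2 / 3
    * (e / 4) - 1 / 5 * (e / 4) ^ 2 ≤ κ ∧ κ ≤ 1 + 2 / 3 * (e / 4) + (e / 4) ^ 2) :
    gRp 1 e s0 s1 s2 s3 ≤ gDp 1 e s0 s1 s2 s3 + κ := by
  have key : ∀ e' a0 a1 a2 a3 : ℝ, 0 ≤ e' → 0 ≤ a0 → 0 ≤ a1 → 0 ≤ a2 → 0 ≤ a3 → 0 ≤ 24123 /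
    524288 * e ^ 3 * e' + 83873 / 409600 * e * e' + 5995329 / 32768000 * e ^ 3 + 3643186642051 /
    17968398336000 * e + 16482289 / 21934080 + (41 / 20160 * e) * a0 + (2 / 105) * a1 + (1 /
    11520 * e) * a2 + (1) * a3 := by
    intros
    positivity
  unfold gDp gRp
  linear_combination key _ _ _ _ _ (sub_nonneg.2 he1) (sub_nonneg.2 h2.2.1) (sub_nonneg.2
    h2.2.2) (sub_nonneg.2 h3.2.1) (sub_nonneg.2 hk.1) - (1 / 945 - 1 / 945 * e) * h1.1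

end Pool.Agent.MP_450e1b_mp.H55

end

-- part MP_450e1b_mp.F4
section

/-
The field with four elements, the Hermitian form on its powers, and Gauss sums.
-/

set_option linter.unusedSectionVars false

namespace Pool.Agent.MP_450e1b_mp

open Finset

/-- The field with four elements: `(a, b)` stands for `a + b w` with `w ^ 2 = w + 1`. -/
def F4 : Type := Z2 × Z2

namespace F4

instance : DecidableEq F4 := inferInstanceAs (DecidableEq (Z2 × Z2))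
instance : Fintype F4 := inferInstanceAs (Fintype (Z2 × Z2))
instance : Add F4 := ⟨fun x y => (x.1 + y.1, x.2 + y.2)⟩
instance : Neg F4 := ⟨fun x => x⟩
instance : Zero F4 := ⟨(0, 0)⟩
instance : One F4 := ⟨(1, 0)⟩
instance : Mul F4 := ⟨fun x y => (x.1 * y.1 + x.2 * y.2, x.1 * y.2 + x.2 * y.1 + x.2 * y.2)⟩
instance : Inv F4 := ⟨fun x => (x.1 + x.2, x.2)⟩

instance : Field F4 := Field.ofMinimalAxioms F4 (by decide) (by decide) (by decide) (by decide)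
  (by decide) (by decide) (by decide) (by decide) (by decide) ⟨0, 1, by decide⟩

theorem card_eq : Fintype.card F4 = 4 := by decide

/-- Conjugation. -/
def cj (x : F4) : F4 := (x.1 + x.2, x.2)
/-- The norm to the prime field. -/
def nm (x : F4) : Z2 := x.1 + x.1 * x.2 + x.2
/-- The trace to the prime field. -/
def tr (x : F4) : Z2 := x.2
/-- The inclusion of the prime field. -/
def emb (a : Z2) : F4 := (a, 0)

theorem cj_add : ∀ x y : F4, cj (x + y) = cj x + cj y := by decide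
theorem cj_mul : ∀ x y : F4, cj (x * y) = cj x * cj y := by decide
@[simp] theorem cj_cj : ∀ x : F4, cj (cj x) = x := by decide
@[simp] theorem cj_zero : cj 0 = 0 := by decide
@[simp] theorem cj_one : cj 1 = 1 := by decide
theorem tr_add : ∀ x y : F4, tr (x + y) = tr x + tr y := by decide
@[simp] theorem tr_zero : tr 0 = 0 := by decide
theorem emb_add : ∀ a b : Z2, emb (a + b) = emb a + emb b := by decide
@[simp] theorem emb_zero : emb 0 = 0 := by decide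
theorem emb_eq_zero : ∀ a : Z2, emb a = 0 ↔ a = 0 := by decide
theorem emb_eq_one : ∀ a : Z2, emb a = 1 ↔ a = 1 := by decide
theorem mul_cj : ∀ x : F4, x * cj x = emb (nm x) := by decide
theorem nm_add : ∀ x y : F4, nm (x + y) = nm x + nm y + tr (x * cj y) := by decide
theorem nm_mul : ∀ x y : F4, nm (x * y) = nm x * nm y := by decide
theorem add_self : ∀ x : F4, x + x = 0 := by decide
theorem exists_tr : ∀ x : F4, x ≠ 0 → ∃ c : F4, tr (x * cj c) = 1 := by decide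
theorem sum_sg_nm : ∑ c : F4, sg (nm c) = -2 := by decide
theorem tr_mul_cj : ∀ x y : F4, tr (x * cj y) = y.2 * x.1 + x.2 * y.1 := by decide

theorem cj_sum {ι : Type*} (s : Finset ι) (f : ι → F4) : cj (∑ i ∈ s, f i) = ∑ i ∈ s, cj (f i) :=
  map_sum (AddMonoidHom.mk' cj cj_add) f s
theorem tr_sum {ι : Type*} (s : Finset ι) (f : ι → F4) : tr (∑ i ∈ s, f i) = ∑ i ∈ s, tr (f i) :=
  map_sum (AddMonoidHom.mk' tr tr_add) f s
theorem emb_sum {ι : Type*} (s : Finset ι) (f : ι → Z2) : emb (∑ i ∈ s, f i) = ∑ i ∈ s, emb (f i) :=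
  map_sum (AddMonoidHom.mk' emb emb_add) f s

end F4

open F4

section herm
variable {ι : Type*} [Fintype ι]

/-- The standard Hermitian form. -/
def herm (v w : ι → F4) : F4 := ∑ i, v i * cj (w i)

/-- The Hermitian norm. -/
def qf (v : ι → F4) : Z2 := ∑ i, nm (v i)

theorem herm_add_left (u v w : ι → F4) : herm (u + v) w = herm u w + herm v w := by
  simp [herm, add_mul, Finset.sum_add_distrib]

theorem herm_add_right (u v w : ι → F4) : herm u (v + w) = herm u v + herm u w := by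
  simp [herm, cj_add, mul_add, Finset.sum_add_distrib]

theorem herm_smul_left (c : F4) (v w : ι → F4) : herm (c • v) w = c * herm v w := by
  simp [herm, Finset.mul_sum, mul_assoc]

theorem herm_smul_right (c : F4) (v w : ι → F4) : herm v (c • w) = herm v w * cj c := by
  simp only [herm, Pi.smul_apply, smul_eq_mul, cj_mul, Finset.sum_mul]
  exact Finset.sum_congr rfl fun i _ => by ring

@[simp] theorem herm_zero_left (w : ι → F4) : herm 0 w = 0 := by simp [herm]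
@[simp] theorem herm_zero_right (w : ι → F4) : herm w 0 = 0 := by simp [herm]

theorem herm_swap (v w : ι → F4) : herm w v = cj (herm v w) := by
  simp [herm, cj_sum, cj_mul, mul_comm]

theorem herm_comm_zero {v w : ι → F4} (h : herm v w = 0) : herm w v = 0 := by
  rw [herm_swap, h, cj_zero]

theorem herm_self (v : ι → F4) : herm v v = emb (qf v) := by
  simp [herm, qf, emb_sum, mul_cj]

theorem qf_add (v w : ι → F4) : qf (v + w) = qf v + qf w + tr (herm v w) := by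
  simp [herm, qf, nm_add, tr_sum, Finset.sum_add_distrib]

theorem qf_smul (c : F4) (v : ι → F4) : qf (c • v) = nm c * qf v := by
  simp [qf, nm_mul, Finset.mul_sum]

theorem vec_add_self (v : ι → F4) : v + v = 0 := by
  funext i; exact F4.add_self _

theorem herm_span {κ : Type*} (v : ι → F4) (g : κ → ι → F4) (h : ∀ a, herm v (g a) = 0)
    (u : ι → F4) (hu : u ∈ Submodule.span F4 (Set.range g)) : herm v u = 0 := by
  induction hu using Submodule.span_induction with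
  | mem x hx => obtain ⟨a, rfl⟩ := hx; exact h a
  | zero => simp
  | add x y _ _ hx hy => rw [herm_add_right, hx, hy, add_zero]
  | smul c x _ hx => rw [herm_smul_right, hx, zero_mul]

variable [DecidableEq ι]

theorem sum_sg_qf : ∑ v : ι → F4, sg (qf v) = (-2) ^ Fintype.card ι := by
  have : ∀ v : ι → F4, sg (qf v) = ∏ i, sg (nm (v i)) := by
    intro v
    unfold qf
    induction (univ : Finset ι) using Finset.induction_on with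
    | empty => simp
    | insert a s ha ih => rw [Finset.sum_insert ha, Finset.prod_insert ha, sg_add, ih]
  simp only [this]
  rw [← Fintype.piFinset_univ, ← Finset.prod_univ_sum (fun _ => univ) (fun _ c => sg (nm c))]
  simp [sum_sg_nm]

theorem sum_sg_tr_herm (u : ι → F4) :
    ∑ v : ι → F4, sg (tr (herm v u)) = if u = 0 then 4 ^ Fintype.card ι else 0 := by
  split_ifs with h
  · subst h; simp [card_eq]
  · obtain ⟨i, hi⟩ := Function.ne_iff.mp h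
    have hi' : cj (u i) ≠ 0 := fun h0 => hi (by rw [← cj_cj (u i), h0, cj_zero]; rfl)
    obtain ⟨c, hc⟩ := exists_tr _ hi'
    apply sum_sg_eq_zero _ (by simp) (by simp) (fun v => tr (herm v u))
      (fun a b => by rw [herm_add_left, tr_add]) (Pi.single i (cj c)) (by simp)
    simp only [herm, Pi.single_apply, ite_mul, zero_mul, Finset.sum_ite_eq', Finset.mem_univ,
      if_true]
    rw [mul_comm]; exact hc

open Classical in
theorem sum_span_sg (U : Submodule F4 (ι → F4)) (v : ι → F4) :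
    ∑ u ∈ univ.filter (· ∈ U), sg (tr (herm v u))
      = if ∀ u ∈ U, herm v u = 0 then ((univ.filter (· ∈ U)).card : ℤ) else 0 := by
  split_ifs with h
  · rw [Finset.card_eq_sum_ones]
    push_cast
    apply Finset.sum_congr rfl
    intro u hu
    rw [h u (Finset.mem_filter.mp hu).2]
    simp
  · push Not at h
    obtain ⟨u, hu, hne⟩ := h
    obtain ⟨c, hc⟩ := exists_tr _ hne
    apply sum_sg_eq_zero _ _ _ (fun u => tr (herm v u))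
      (fun a b => by rw [herm_add_right, tr_add]) (c • u)
    · simpa using U.smul_mem c hu
    · rw [herm_smul_right]; exact hc
    · intro a ha b hb
      simpa using U.add_mem (by simpa using ha) (by simpa using hb)
    · intro a ha b hb
      simpa using U.sub_mem (by simpa using ha) (by simpa using hb)

open Classical in
theorem card_span {j : ℕ} (g : Fin j → ι → F4) (hg : LinearIndependent F4 g) :
    (univ.filter (· ∈ Submodule.span F4 (Set.range g))).card = 4 ^ j := by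
  rw [← Fintype.card_subtype, Module.card_eq_pow_finrank (K := F4), finrank_span_eq_card hg,
    card_eq, Fintype.card_fin]

/-- The vectors orthogonal to all members of a family. -/
def perp {κ : Type*} [Fintype κ] (g : κ → ι → F4) : Finset (ι → F4) :=
  univ.filter (fun v => ∀ a, herm v (g a) = 0)

open Classical in
theorem sum_perp {j : ℕ} (g : Fin j → ι → F4) (hg : LinearIndependent F4 g) (f : (ι → F4) → ℤ) :
    4 ^ j * ∑ v ∈ perp g, f v = ∑ u ∈ univ.filter (· ∈ Submodule.span F4 (Set.range g)),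
      ∑ v, sg (tr (herm v u)) * f v := by
  rw [Finset.sum_comm]
  simp only [← Finset.sum_mul, sum_span_sg, card_span g hg]
  unfold perp
  rw [Finset.sum_filter, Finset.mul_sum]
  apply Finset.sum_congr rfl
  intro v _
  by_cases h : ∀ a, herm v (g a) = 0
  · rw [if_pos h, if_pos (herm_span v g h)]
    push_cast; ring
  · rw [if_neg h, if_neg (fun h' => h fun a => h' _ (Submodule.subset_span ⟨a, rfl⟩))]
    simp

theorem card_perp {j : ℕ} (g : Fin j → ι → F4) (hg : LinearIndependent F4 g) :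
    4 ^ j * ((perp g).card : ℤ) = 4 ^ Fintype.card ι := by
  classical
  have := sum_perp g hg (fun _ => 1)
  simp only [mul_one, sum_sg_tr_herm, Finset.sum_const, nsmul_eq_mul] at this
  rw [this, Finset.sum_ite_eq']
  simp

theorem gauss_perp {j : ℕ} (g : Fin j → ι → F4) (hg : LinearIndependent F4 g)
    (hiso : ∀ a b, herm (g a) (g b) = 0) :
    ∑ v ∈ perp g, sg (qf v) = (-2) ^ Fintype.card ι := by
  classical
  have := sum_perp g hg (fun v => sg (qf v))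
  have h2 : ∀ u ∈ univ.filter (· ∈ Submodule.span F4 (Set.range g)),
      ∑ v, sg (tr (herm v u)) * sg (qf v) = (-2) ^ Fintype.card ι := by
    intro u hu
    have hu' := (Finset.mem_filter.mp hu).2
    have hq : qf u = 0 := by
      rw [← emb_eq_zero, ← herm_self]
      exact herm_span u g (fun a => herm_comm_zero (herm_span (g a) g (hiso a) u hu')) u hu'
    rw [← sum_sg_qf, ← Equiv.sum_comp (Equiv.addRight u) (fun v => sg (qf v))]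
    apply Finset.sum_congr rfl
    intro v _
    simp only [Equiv.coe_addRight, qf_add, hq, add_zero, sg_add]
    ring
  rw [Finset.sum_congr rfl h2, Finset.sum_const, card_span g hg, nsmul_eq_mul] at this
  push_cast at this
  exact mul_left_cancel₀ (by positivity) this

theorem two_card_filter (X : Finset (ι → F4)) :
    2 * ((X.filter (fun v => qf v = 0)).card : ℤ) = X.card + ∑ v ∈ X, sg (qf v) ∧
    2 * ((X.filter (fun v => qf v = 1)).card : ℤ) = X.card - ∑ v ∈ X, sg (qf v) := by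
  simp only [Finset.card_filter, Finset.card_eq_sum_ones X]
  push_cast
  simp only [Finset.mul_sum, ← Finset.sum_add_distrib, ← Finset.sum_sub_distrib]
  constructor <;> apply Finset.sum_congr rfl <;> intro v _ <;>
    rcases z2_cases (qf v) with h | h <;> simp [h]

end herm

end Pool.Agent.MP_450e1b_mp

end

-- part MP_450e1b_mp.Count
section

/-
Counting isotropic frames and orthonormal frames in Hermitian spaces over the field of order four.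
-/

set_option linter.unusedSectionVars false

namespace Pool.Agent.MP_450e1b_mp

open Finset F4

theorem card_filter_cons {V : Type*} [Fintype V] [DecidableEq V] {j : ℕ}
    (P : (Fin (j + 1) → V) → Prop) [DecidablePred P] :
    (univ.filter P).card = ∑ g : Fin j → V, (univ.filter (fun w : V => P (Fin.cons w g))).card := by
  simp only [Finset.card_filter]
  rw [← Equiv.sum_comp (Fin.consEquiv (fun _ => V)), Fintype.sum_prod_type_right]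
  rfl

section
variable (ι : Type*) [Fintype ι] [DecidableEq ι]

open Classical in
/-- Linearly independent families spanning a totally isotropic subspace. -/
noncomputable def Iso (κ : Type*) [Fintype κ] [DecidableEq κ] : Finset (κ → ι → F4) :=
  univ.filter (fun g => LinearIndependent F4 g ∧ ∀ a b, herm (g a) (g b) = 0)

variable {ι}

theorem mem_Iso {κ : Type*} [Fintype κ] [DecidableEq κ] {g : κ → ι → F4} :
    g ∈ Iso ι κ ↔ LinearIndependent F4 g ∧ ∀ a b, herm (g a) (g b) = 0 := by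
  simp [Iso]

theorem card_Iso (j : ℕ) : ((Iso ι (Fin j)).card : ℝ) = ∏ t ∈ range j,
    (((4 : ℝ) ^ Fintype.card ι / 4 ^ t + (-2) ^ Fintype.card ι) / 2 - 4 ^ t) := by
  classical
  induction j with
  | zero =>
    have : Iso ι (Fin 0) = univ := by
      apply Finset.eq_univ_of_forall
      intro g
      exact mem_Iso.mpr ⟨linearIndependent_empty_type, fun a => a.elim0⟩
    simp [this]
  | succ j ih =>
    rw [Finset.prod_range_succ, ← ih]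
    have h1 : (Iso ι (Fin (j + 1))).card = ∑ g : Fin j → ι → F4, (univ.filter (fun w : ι → F4 =>
        (Fin.cons w g : Fin (j + 1) → ι → F4) ∈ Iso ι (Fin (j + 1)))).card := by
      rw [← card_filter_cons (fun g => g ∈ Iso ι (Fin (j + 1)))]
      simp
    rw [h1]
    push_cast
    rw [← Finset.sum_filter_add_sum_filter_not univ (fun g => g ∈ Iso ι (Fin j))]
    have hz : ∑ g ∈ univ.filter (fun g => ¬ g ∈ Iso ι (Fin j)),
        ((univ.filter (fun w : ι → F4 =>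
          (Fin.cons w g : Fin (j + 1) → ι → F4) ∈ Iso ι (Fin (j + 1)))).card : ℝ) = 0 := by
      apply Finset.sum_eq_zero
      intro g hg
      rw [Nat.cast_eq_zero, Finset.card_eq_zero, Finset.filter_eq_empty_iff]
      intro w _ hw
      apply (Finset.mem_filter.mp hg).2
      rw [mem_Iso] at hw ⊢
      exact ⟨(linearIndependent_finCons.mp hw.1).1, fun a b => by simpa using hw.2 a.succ b.succ⟩
    rw [hz, add_zero, Finset.filter_mem_eq_inter, Finset.univ_inter, ← nsmul_eq_mul,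
      ← Finset.sum_const]
    apply Finset.sum_congr rfl
    intro g hg
    obtain ⟨hli, hiso⟩ := mem_Iso.mp hg
    have hsub : univ.filter (· ∈ Submodule.span F4 (Set.range g))
        ⊆ (perp g).filter (fun v => qf v = 0) := by
      intro u hu
      have hu' := (Finset.mem_filter.mp hu).2
      have h1 : ∀ a, herm u (g a) = 0 := fun a => herm_comm_zero (herm_span (g a) g (hiso a) u hu')
      refine Finset.mem_filter.mpr ⟨by simpa [perp] using h1, ?_⟩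
      rw [← emb_eq_zero, ← herm_self]
      exact herm_span u g h1 u hu'
    have hset : univ.filter (fun w : ι → F4 =>
          (Fin.cons w g : Fin (j + 1) → ι → F4) ∈ Iso ι (Fin (j + 1)))
        = (perp g).filter (fun v => qf v = 0)
          \ univ.filter (· ∈ Submodule.span F4 (Set.range g)) := by
      ext w
      simp only [mem_Iso, linearIndependent_finCons, Finset.mem_filter, Finset.mem_univ, true_and,
        Finset.mem_sdiff, perp, Fin.forall_fin_succ, Fin.cons_zero, Fin.cons_succ, herm_self,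
        emb_eq_zero]
      constructor
      · rintro ⟨⟨-, h1⟩, ⟨h2, h3⟩, -⟩
        exact ⟨⟨h3, h2⟩, h1⟩
      · rintro ⟨⟨h3, h2⟩, h1⟩
        exact ⟨⟨hli, h1⟩, ⟨h2, h3⟩, fun a => ⟨herm_comm_zero (h3 a), hiso a⟩⟩
    rw [hset, Finset.card_sdiff_of_subset hsub, Nat.cast_sub (Finset.card_le_card hsub),
      card_span g hli]
    have a1 := card_perp g hli
    have a2 := gauss_perp g hli hiso
    have a3 := (two_card_filter (perp g)).1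
    rw [a2] at a3
    have b1 : (4 : ℝ) ^ j * ((perp g).card : ℝ) = 4 ^ Fintype.card ι := by exact_mod_cast a1
    have b3 : 2 * (((perp g).filter (fun v => qf v = 0)).card : ℝ)
        = (perp g).card + (-2) ^ Fintype.card ι := by exact_mod_cast a3
    have b2 : ((perp g).card : ℝ) = 4 ^ Fintype.card ι / 4 ^ j := by
      rw [← b1]; field_simp
    push_cast
    rw [← b2]
    linarith

/-- Orthonormal families orthogonal to a given family. -/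
def Orth {u : ℕ} (U : Fin u → ι → F4) (k : ℕ) : Finset (Fin k → ι → F4) :=
  univ.filter (fun W => (∀ a b, herm (W a) (W b) = if a = b then 1 else 0) ∧
    ∀ a c, herm (W a) (U c) = 0)

/-- The common orthogonal complement of two families. -/
def perp2 {u k : ℕ} (U : Fin u → ι → F4) (W : Fin k → ι → F4) : Finset (ι → F4) :=
  univ.filter (fun v => (∀ c, herm v (U c) = 0) ∧ ∀ a, herm v (W a) = 0)

theorem mem_Orth_cons {u k : ℕ} (U : Fin u → ι → F4) (w : ι → F4) (W : Fin k → ι → F4) :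
    (Fin.cons w W : Fin (k + 1) → ι → F4) ∈ Orth U (k + 1)
      ↔ W ∈ Orth U k ∧ w ∈ (perp2 U W).filter (fun v => qf v = 1) := by
  simp only [Orth, perp2, Finset.mem_filter, Finset.mem_univ, true_and, Fin.forall_fin_succ,
    Fin.cons_zero, Fin.cons_succ, herm_self, if_true, emb_eq_one, Fin.succ_inj,
    Fin.succ_ne_zero, (Fin.succ_ne_zero _).symm, if_false]
  constructor
  · rintro ⟨⟨⟨h1, h2⟩, h3⟩, h4, h5⟩
    exact ⟨⟨fun a => (h3 a).2, h5⟩, ⟨h4, h2⟩, h1⟩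
  · rintro ⟨⟨h3, h5⟩, ⟨h4, h2⟩, h1⟩
    exact ⟨⟨⟨h1, h2⟩, fun a => ⟨herm_comm_zero (h2 a), h3 a⟩⟩, h4, h5⟩

theorem sum_perp2_cons {u k : ℕ} (U : Fin u → ι → F4) (w : ι → F4) (W : Fin k → ι → F4)
    (hw : w ∈ (perp2 U W).filter (fun v => qf v = 1)) (f : Z2 → ℤ) :
    ∑ v ∈ perp2 U W, f (qf v)
      = ∑ v ∈ perp2 U (Fin.cons w W : Fin (k + 1) → ι → F4), ∑ c : F4, f (qf v + nm c) := by
  simp only [perp2, Finset.mem_filter, Finset.mem_univ, true_and] at hw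
  obtain ⟨⟨h1, h2⟩, h3⟩ := hw
  have hww : herm w w = 1 := by rw [herm_self, emb_eq_one, h3]
  rw [← Finset.sum_product']
  symm
  apply Finset.sum_nbij' (fun p => p.1 + p.2 • w) (fun v => (v + herm v w • w, herm v w))
  · rintro ⟨v, c⟩ hv
    simp only [perp2, Finset.mem_product, Finset.mem_filter, Finset.mem_univ,
      true_and, and_true, Fin.forall_fin_succ, Fin.cons_zero, Fin.cons_succ] at hv ⊢
    simp [herm_add_left, herm_smul_left, h1, h2, hv.1, hv.2.2]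
  · intro v hv
    simp only [perp2, Finset.mem_product, Finset.mem_filter, Finset.mem_univ,
      true_and, and_true, Fin.forall_fin_succ, Fin.cons_zero, Fin.cons_succ] at hv ⊢
    simp [herm_add_left, herm_smul_left, h1, h2, hv.1, hv.2, hww, F4.add_self]
  · rintro ⟨v, c⟩ hv
    simp only [perp2, Finset.mem_product, Finset.mem_filter, Finset.mem_univ,
      true_and, and_true, Fin.forall_fin_succ, Fin.cons_zero, Fin.cons_succ] at hv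
    simp only [herm_add_left, herm_smul_left, hv.2.1, hww, zero_add, mul_one]
    rw [add_assoc, vec_add_self, add_zero]
  · intro v _
    simp only
    rw [add_assoc, vec_add_self, add_zero]
  · rintro ⟨v, c⟩ hv
    simp only [perp2, Finset.mem_product, Finset.mem_filter, Finset.mem_univ,
      true_and, and_true, Fin.forall_fin_succ, Fin.cons_zero, Fin.cons_succ] at hv
    simp only [qf_add, qf_smul, h3, mul_one, herm_smul_right, hv.2.1, zero_mul, tr_zero, add_zero]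

theorem perp2_stats {u : ℕ} (U : Fin u → ι → F4) (hU : U ∈ Iso ι (Fin u)) (k : ℕ) :
    ∀ W ∈ Orth U k, 4 ^ u * 4 ^ k * ((perp2 U W).card : ℤ) = 4 ^ Fintype.card ι ∧
      (-2) ^ k * ∑ v ∈ perp2 U W, sg (qf v) = (-2) ^ Fintype.card ι := by
  obtain ⟨hli, hiso⟩ := mem_Iso.mp hU
  induction k with
  | zero =>
    intro W _
    have : perp2 U W = perp U := by
      ext v; simp [perp2, perp]
    rw [this, pow_zero, pow_zero, mul_one, one_mul]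
    exact ⟨card_perp U hli, gauss_perp U hli hiso⟩
  | succ k ih =>
    intro W hW
    rw [← Fin.cons_self_tail W] at hW ⊢
    obtain ⟨h1, h2⟩ := (mem_Orth_cons U _ _).mp hW
    obtain ⟨i1, i2⟩ := ih _ h1
    have s1 := sum_perp2_cons U _ _ h2 (fun _ => 1)
    have s2 := sum_perp2_cons U _ _ h2 sg
    simp only [Finset.sum_const, Finset.card_univ, card_eq, nsmul_eq_mul, mul_one] at s1
    simp only [sg_add, ← Finset.mul_sum, sum_sg_nm, ← Finset.sum_mul] at s2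
    constructor
    · rw [← i1, s1]; push_cast; ring
    · rw [← i2, s2]; ring

theorem card_Orth {u : ℕ} (U : Fin u → ι → F4) (hU : U ∈ Iso ι (Fin u)) (k : ℕ) :
    ((Orth U k).card : ℝ) = ∏ t ∈ range k,
      (((4 : ℝ) ^ Fintype.card ι / (4 ^ u * 4 ^ t) - (-2) ^ Fintype.card ι / (-2) ^ t) / 2) := by
  induction k with
  | zero =>
    have : Orth U 0 = univ := by
      ext g
      simp [Orth]
    simp [this]
  | succ k ih =>
    rw [Finset.prod_range_succ, ← ih]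
    have h1 : (Orth U (k + 1)).card = ∑ g : Fin k → ι → F4, (univ.filter (fun w : ι → F4 =>
        (Fin.cons w g : Fin (k + 1) → ι → F4) ∈ Orth U (k + 1))).card := by
      rw [← card_filter_cons (fun g => g ∈ Orth U (k + 1))]
      simp
    rw [h1]
    push_cast
    rw [← Finset.sum_filter_add_sum_filter_not univ (fun g => g ∈ Orth U k)]
    have hz : ∑ g ∈ univ.filter (fun g => ¬ g ∈ Orth U k),
        ((univ.filter (fun w : ι → F4 =>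
          (Fin.cons w g : Fin (k + 1) → ι → F4) ∈ Orth U (k + 1))).card : ℝ) = 0 := by
      apply Finset.sum_eq_zero
      intro g hg
      rw [Nat.cast_eq_zero, Finset.card_eq_zero, Finset.filter_eq_empty_iff]
      intro w _ hw
      exact (Finset.mem_filter.mp hg).2 ((mem_Orth_cons U w g).mp hw).1
    rw [hz, add_zero, Finset.filter_mem_eq_inter, Finset.univ_inter, ← nsmul_eq_mul,
      ← Finset.sum_const]
    apply Finset.sum_congr rfl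
    intro g hg
    have hset : univ.filter (fun w : ι → F4 =>
          (Fin.cons w g : Fin (k + 1) → ι → F4) ∈ Orth U (k + 1))
        = (perp2 U g).filter (fun v => qf v = 1) := by
      ext w
      rw [Finset.mem_filter, mem_Orth_cons]
      simp only [Finset.mem_univ, hg, true_and]
    rw [hset]
    obtain ⟨a1, a2⟩ := perp2_stats U hU k g hg
    have a3 := (two_card_filter (perp2 U g)).2
    have b1 : (4 : ℝ) ^ u * 4 ^ k * ((perp2 U g).card : ℝ) = 4 ^ Fintype.card ι := by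
      exact_mod_cast a1
    have b2 : (-2 : ℝ) ^ k * ((∑ v ∈ perp2 U g, sg (qf v) : ℤ) : ℝ) = (-2) ^ Fintype.card ι := by
      exact_mod_cast a2
    have b3 : 2 * (((perp2 U g).filter (fun v => qf v = 1)).card : ℝ)
        = (perp2 U g).card - ((∑ v ∈ perp2 U g, sg (qf v) : ℤ) : ℝ) := by exact_mod_cast a3
    rw [← b1, ← b2]
    have : (-2 : ℝ) ^ k ≠ 0 := pow_ne_zero _ (by norm_num)
    field_simp
    linarith

end

end Pool.Agent.MP_450e1b_mp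

end

-- part MP_450e1b_mp.Lower
section

/-
The lower bound: averaging over self-dual codes over the field of order four.
-/

set_option linter.unusedSectionVars false

namespace Pool.Agent.MP_450e1b_mp

open Finset F4 Matrix

theorem exists_unit_ext {k u : ℕ} (M : Fin k → (Fin k ⊕ Fin u) → F4)
    (hM : LinearIndependent F4 M) :
    ∃ g : Matrix (Fin k ⊕ Fin u) (Fin k ⊕ Fin u) F4, IsUnit g ∧ ∀ r a, g r (Sum.inl a) = M a r := by
  obtain ⟨Q, hQ⟩ := (Submodule.span F4 (Set.range M)).exists_isCompl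
  have h1 := Submodule.finrank_add_eq_of_isCompl hQ
  rw [finrank_span_eq_card hM] at h1
  simp only [Fintype.card_fin, Module.finrank_fintype_fun_eq_card, Fintype.card_sum,
    add_right_inj] at h1
  let b := Module.finBasisOfFinrankEq F4 Q h1
  have hb : LinearIndependent F4 (fun c => (b c : (Fin k ⊕ Fin u) → F4)) :=
    b.linearIndependent.map' Q.subtype (Submodule.ker_subtype Q)
  have hs := hM.sum_type hb (hQ.disjoint.mono_right (by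
    rw [Submodule.span_le]
    rintro _ ⟨c, rfl⟩
    exact (b c).2))
  refine ⟨Matrix.of fun r s => Sum.elim M (fun c => (b c : (Fin k ⊕ Fin u) → F4)) s r, ?_,
    fun r a => rfl⟩
  rw [← Matrix.linearIndependent_cols_iff_isUnit]
  exact hs

open Classical in
/-- Generator matrices of self-orthogonal codes whose restriction to `A` is onto. -/
noncomputable def Good {n : ℕ} (ρ : Type) [Fintype ρ] [DecidableEq ρ] (A : Finset (Fin n)) :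
    Finset (ρ → Fin n → F4) :=
  (Iso (Fin n) ρ).filter
    (fun G => ∀ y : Fin n → F4, ∃ x : ρ → F4, ∀ i ∈ A, (x ᵥ* Matrix.of G) i = y i)

theorem herm_vecMul {ι ρ : Type*} [Fintype ι] [Fintype ρ] (G : Matrix ρ ι F4)
    (h : ∀ a b, herm (G a) (G b) = 0) (x y : ρ → F4) : herm (x ᵥ* G) (y ᵥ* G) = 0 := by
  have hm : ∀ z : ρ → F4, z ᵥ* G ∈ Submodule.span F4 (Set.range G) := by
    intro z
    rw [Matrix.vecMul_eq_sum]
    exact Submodule.sum_mem _ fun a _ => Submodule.smul_mem _ _ (Submodule.subset_span ⟨a, rfl⟩)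
  exact herm_span _ G (fun a => herm_comm_zero (herm_span (G a) G (h a) _ (hm x))) _ (hm y)

section normal
variable {n k u : ℕ} (A : Finset (Fin n)) (e : Fin k ≃ {i // i ∈ A})

/-- The normalised generator matrix. -/
def G0 (U : Fin u → {i // i ∉ A} → F4) (W : Fin k → {i // i ∉ A} → F4) :
    Matrix (Fin k ⊕ Fin u) (Fin n) F4 := Matrix.of fun b i =>
  if h : i ∈ A then Sum.elim (fun a => if e a = ⟨i, h⟩ then 1 else 0) (fun _ => 0) b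
  else Sum.elim W U b ⟨i, h⟩

variable (U : Fin u → {i // i ∉ A} → F4) (W : Fin k → {i // i ∉ A} → F4)

theorem G0_in (b : Fin k ⊕ Fin u) (a : Fin k) :
    G0 A e U W b (e a) = if b = Sum.inl a then 1 else 0 := by
  rcases b with b | b <;> simp [G0, (e a).2]

theorem G0_out (b : Fin k ⊕ Fin u) (i : {i // i ∉ A}) :
    G0 A e U W b i = Sum.elim W U b i := by
  simp [G0, i.2]

theorem vecMul_G0_in (x : Fin k ⊕ Fin u → F4) (a : Fin k) :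
    (x ᵥ* G0 A e U W) (e a) = x (Sum.inl a) := by
  simp [Matrix.vecMul, dotProduct, G0_in]

theorem herm_G0 (hU : U ∈ Iso {i // i ∉ A} (Fin u)) (hW : W ∈ Orth U k) (b b' : Fin k ⊕ Fin u) :
    herm (G0 A e U W b) (G0 A e U W b') = 0 := by
  obtain ⟨-, hiso⟩ := mem_Iso.mp hU
  simp only [Orth, Finset.mem_filter, Finset.mem_univ, true_and] at hW
  have h1 : herm (G0 A e U W b) (G0 A e U W b')
      = ∑ a : Fin k, G0 A e U W b (e a) * cj (G0 A e U W b' (e a))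
        + herm (Sum.elim W U b) (Sum.elim W U b') := by
    unfold herm
    rw [← Fintype.sum_subtype_add_sum_subtype (fun i => i ∈ A)]
    congr 1
    · rw [Equiv.sum_comp e (fun i => G0 A e U W b i * cj (G0 A e U W b' i))]
      exact Finset.sum_congr (by ext; simp only [Finset.mem_univ]) fun _ _ => rfl
    · exact Finset.sum_congr rfl fun i _ => by rw [G0_out, G0_out]
  rw [h1]
  simp only [G0_in]
  rcases b with b | b <;> rcases b' with b' | b'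
  · by_cases h : b = b'
    · subst h; simp [hW.1, F4.add_self]
    · simp [hW.1, h, Ne.symm h]
  · simp [hW.2]
  · simp [herm_comm_zero (hW.2 b' b)]
  · simp [hiso]

theorem G0_inj (hU : U ∈ Iso {i // i ∉ A} (Fin u)) :
    Function.Injective (fun x => x ᵥ* G0 A e U W) := by
  obtain ⟨hli, -⟩ := mem_Iso.mp hU
  intro x y hxy
  rw [← sub_eq_zero]
  have h0 : (x - y) ᵥ* G0 A e U W = 0 := by
    rw [Matrix.sub_vecMul]; exact sub_eq_zero.mpr hxy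
  generalize x - y = z at h0
  have h1 : ∀ a, z (Sum.inl a) = 0 := fun a => by rw [← vecMul_G0_in A e U W z a, h0]; rfl
  have h2 := Fintype.linearIndependent_iff.mp hli (fun c => z (Sum.inr c)) (by
    funext i
    have := congrFun h0 i
    simpa [Matrix.vecMul, dotProduct, G0_out, h1] using this)
  funext b
  rcases b with b | b
  · exact h1 b
  · exact h2 b

theorem mul_G0_mem (hU : U ∈ Iso {i // i ∉ A} (Fin u)) (hW : W ∈ Orth U k)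
    (g : Matrix (Fin k ⊕ Fin u) (Fin k ⊕ Fin u) F4) (hg : IsUnit g) :
    (fun r i => (g * G0 A e U W) r i) ∈ Good (Fin k ⊕ Fin u) A := by
  simp only [Good, Finset.mem_filter, mem_Iso]
  refine ⟨⟨?_, ?_⟩, ?_⟩
  · have : Function.Injective (fun x => x ᵥ* (g * G0 A e U W)) := by
      intro x y hxy
      simp only [← Matrix.vecMul_vecMul] at hxy
      exact Matrix.vecMul_injective_iff_isUnit.mpr hg (G0_inj A e U W hU hxy)
    exact Matrix.vecMul_injective_iff.mp this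
  · intro a b
    exact herm_vecMul _ (herm_G0 A e U W hU hW) (g a) (g b)
  · intro y
    obtain ⟨x, hx⟩ := Matrix.vecMul_surjective_iff_isUnit.mpr hg
      (Sum.elim (fun a => y (e a)) (fun _ => 0))
    refine ⟨x, fun i hi => ?_⟩
    have h1 : x ᵥ* (g * G0 A e U W) = Sum.elim (fun a => y (e a)) (fun _ => 0) ᵥ* G0 A e U W := by
      rw [← Matrix.vecMul_vecMul]
      exact congrArg (fun z => z ᵥ* G0 A e U W) hx
    have h2 := vecMul_G0_in A e U W (Sum.elim (fun a => y (e a)) (fun _ => 0)) (e.symm ⟨i, hi⟩)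
    simp only [Equiv.apply_symm_apply, Sum.elim_inl] at h2
    rw [← h2, ← h1]
    rfl

end normal

open Classical in
theorem card_Good_ge {n k u : ℕ} (A : Finset (Fin n)) (hA : A.card = k) :
    (univ.filter (fun M : Fin k → (Fin k ⊕ Fin u) → F4 => LinearIndependent F4 M)).card
      * ∑ U ∈ Iso {i // i ∉ A} (Fin u), (Orth U k).card ≤ (Good (Fin k ⊕ Fin u) A).card := by
  let e : Fin k ≃ {i // i ∈ A} := (Fintype.equivFinOfCardEq (by simpa using hA)).symm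
  have hex : ∀ M : Fin k → (Fin k ⊕ Fin u) → F4,
      ∃ g : Matrix (Fin k ⊕ Fin u) (Fin k ⊕ Fin u) F4,
        LinearIndependent F4 M → IsUnit g ∧ ∀ r a, g r (Sum.inl a) = M a r := by
    intro M
    by_cases hM : LinearIndependent F4 M
    · obtain ⟨g, hg⟩ := exists_unit_ext M hM
      exact ⟨g, fun _ => hg⟩
    · exact ⟨1, fun h => absurd h hM⟩
  choose g hg using hex
  rw [← Finset.card_sigma, ← Finset.card_product]
  apply Finset.card_le_card_of_injOn (fun p r i => (g p.1 * G0 A e p.2.1 p.2.2) r i)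
  · rintro ⟨M, U, W⟩ hp
    simp only [Finset.coe_product, Set.mem_prod, Finset.mem_coe, Finset.mem_filter,
      Finset.mem_univ, true_and, Finset.mem_sigma] at hp
    exact mul_G0_mem A e U W hp.2.1 hp.2.2 _ (hg M hp.1).1
  · rintro ⟨M, U, W⟩ hp ⟨M', U', W'⟩ hp' h
    simp only [Finset.coe_product, Set.mem_prod, Finset.mem_coe, Finset.mem_filter,
      Finset.mem_univ, true_and, Finset.mem_sigma] at hp hp'
    have h' : g M * G0 A e U W = g M' * G0 A e U' W' := h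
    have hM : M = M' := by
      funext a r
      have h1 := vecMul_G0_in A e U W (g M r) a
      have h2 := vecMul_G0_in A e U' W' (g M' r) a
      rw [← (hg M hp.1).2, ← (hg M' hp'.1).2, ← h1, ← h2]
      exact congrFun (congrFun h' r) (e a)
    subst hM
    have h0 : G0 A e U W = G0 A e U' W' := by
      obtain ⟨gu, hgu⟩ := (hg M hp.1).1
      have := congrArg (fun X => (gu⁻¹).val * X) h'
      simp only [← Matrix.mul_assoc, ← hgu, Units.inv_mul, Matrix.one_mul] at this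
      exact this
    have hU : U = U' := by
      funext c i
      have := congrFun (congrFun h0 (Sum.inr c)) i
      simpa [G0_out] using this
    have hW : W = W' := by
      funext c i
      have := congrFun (congrFun h0 (Sum.inl c)) i
      simpa [G0_out] using this
    subst hU hW
    rfl

theorem card_Iso_sum (ι : Type*) [Fintype ι] [DecidableEq ι] (k u : ℕ) :
    (Iso ι (Fin k ⊕ Fin u)).card = (Iso ι (Fin (k + u))).card := by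
  apply Finset.card_nbij' (fun g => g ∘ finSumFinEquiv.symm) (fun g => g ∘ finSumFinEquiv)
  · intro g hg
    rw [Finset.mem_coe, mem_Iso] at hg ⊢
    exact ⟨hg.1.comp _ finSumFinEquiv.symm.injective, fun a b => hg.2 _ _⟩
  · intro g hg
    rw [Finset.mem_coe, mem_Iso] at hg ⊢
    exact ⟨hg.1.comp _ finSumFinEquiv.injective, fun a b => hg.2 _ _⟩
  · intro g _; funext a; simp
  · intro g _; funext a; simp

theorem state_of_code {n : ℕ} {ρ : Type} [Fintype ρ] [DecidableEq ρ] (G : ρ → Fin n → F4)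
    (hG : ∀ a b, herm (G a) (G b) = 0) :
    ∃ ψ : (Fin n → Z2) → ℂ, ∑ x, ‖ψ x‖ ^ 2 = 1 ∧ ∀ A : Finset (Fin n),
      (∀ y : Fin n → F4, ∃ x : ρ → F4, ∀ i ∈ A, (x ᵥ* Matrix.of G) i = y i) → PM ψ A := by
  classical
  let lab : (Fin n → F4) → (Fin n → Z2) × (Fin n → Z2) := fun v => (fun i => (v i).1, fun i => (v i).2)
  have hsp : ∀ v w, sp (lab v) (lab w) = tr (herm v w) := by
    intro v w
    simp only [sp, dot, lab, herm, tr_sum, tr_mul_cj, Finset.sum_add_distrib]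
  obtain ⟨ψ, hψ, h⟩ := exists_stab_state (univ.image (fun x : ρ → F4 => lab (x ᵥ* Matrix.of G))) (by
    intro p hp q hq
    obtain ⟨x, -, rfl⟩ := Finset.mem_image.mp hp
    obtain ⟨y, -, rfl⟩ := Finset.mem_image.mp hq
    rw [hsp, herm_vecMul (Matrix.of G) hG, tr_zero])
  refine ⟨ψ, hψ, fun A hA s t hst hne => ?_⟩
  let w : Fin n → F4 := fun i => (s i, t i)
  have hw : ∃ i, w i ≠ 0 := by
    by_contra hcon
    push Not at hcon
    rcases hne with h | h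
    · exact h (funext fun i => congrArg Prod.fst (hcon i))
    · exact h (funext fun i => congrArg Prod.snd (hcon i))
  obtain ⟨i, hi⟩ := hw
  have hi' : cj (w i) ≠ 0 := fun h0 => hi (by rw [← cj_cj (w i), h0, cj_zero])
  obtain ⟨c, hc⟩ := exists_tr _ hi'
  obtain ⟨x, hx⟩ := hA (Pi.single i (cj c))
  apply h (s, t) ⟨lab (x ᵥ* Matrix.of G), Finset.mem_image.mpr ⟨x, Finset.mem_univ _, rfl⟩, ?_⟩
  have e1 : (s, t) = lab w := rfl
  rw [e1, hsp]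
  have e2 : herm (x ᵥ* Matrix.of G) w = herm (Pi.single i (cj c)) w := by
    unfold herm
    apply Finset.sum_congr rfl
    intro j _
    by_cases hj : j ∈ A
    · rw [hx j hj]
    · have : w j = 0 := Prod.ext (hst j hj).1 (hst j hj).2
      simp [this]
  rw [e2]
  simp only [herm, Pi.single_apply, ite_mul, zero_mul, Finset.sum_ite_eq', Finset.mem_univ,
    if_true]
  rw [mul_comm]; exact hc

/-- The number of isotropic frames of length `j` in dimension `d`. -/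
noncomputable def zIso (d j : ℕ) : ℝ := ∏ t ∈ range j, (((4 : ℝ) ^ d / 4 ^ t + (-2) ^ d) / 2 - 4 ^ t)

/-- The number of normalised good generator matrices times the number of full rank blocks. -/
noncomputable def tGood (k u d : ℕ) : ℝ := (∏ i ∈ range k, ((4 : ℝ) ^ (k + u) - 4 ^ i))
  * (zIso d u * ∏ t ∈ range k, (((4 : ℝ) ^ d / (4 ^ u * 4 ^ t) - (-2) ^ d / (-2) ^ t) / 2))

theorem tGood_le {n k u : ℕ} (A : Finset (Fin n)) (hA : A.card = k) :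
    tGood k u (n - k) ≤ (Good (Fin k ⊕ Fin u) A).card := by
  classical
  have h := card_Good_ge (u := u) A hA
  have hd : Fintype.card {i // i ∉ A} = n - k := by
    rw [Fintype.card_subtype_compl]; simp [hA]
  have h1 : ((univ.filter
      (fun M : Fin k → (Fin k ⊕ Fin u) → F4 => LinearIndependent F4 M)).card : ℝ)
      = ∏ i ∈ range k, ((4 : ℝ) ^ (k + u) - 4 ^ i) := by
    have := card_linearIndependent (K := F4) (V := (Fin k ⊕ Fin u) → F4) (k := k) (by simp)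
    rw [Nat.card_eq_fintype_card, Fintype.card_subtype] at this
    rw [this, card_eq, ← Fin.prod_univ_eq_prod_range (fun i => (4 : ℝ) ^ (k + u) - 4 ^ i)]
    push_cast
    apply Finset.prod_congr rfl
    intro i _
    simp only [Module.finrank_fintype_fun_eq_card, Fintype.card_sum, Fintype.card_fin]
    rw [Nat.cast_sub (Nat.pow_le_pow_right (by norm_num) (by omega))]
    simp
  have h2 : ((∑ U ∈ Iso {i // i ∉ A} (Fin u), (Orth U k).card : ℕ) : ℝ) = zIso (n - k) u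
      * ∏ t ∈ range k, (((4 : ℝ) ^ (n - k) / (4 ^ u * 4 ^ t) - (-2) ^ (n - k) / (-2) ^ t) / 2) := by
    push_cast
    rw [Finset.sum_congr rfl (fun U hU => card_Orth U hU k), Finset.sum_const, nsmul_eq_mul,
      card_Iso, hd]
    rfl
  unfold tGood
  rw [← h1, ← h2]
  exact_mod_cast h

theorem Qex_lower (n k u : ℕ) :
    n.choose k * tGood k u (n - k) ≤ Qex n k * zIso n (k + u) := by
  classical
  have hZ : ((Iso (Fin n) (Fin k ⊕ Fin u)).card : ℝ) = zIso n (k + u) := by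
    rw [card_Iso_sum, card_Iso, Fintype.card_fin]; rfl
  have each : ∀ G ∈ Iso (Fin n) (Fin k ⊕ Fin u),
      (((univ : Finset (Fin n)).powersetCard k).filter
        (fun A => G ∈ Good (Fin k ⊕ Fin u) A)).card ≤ Qex n k := by
    intro G hG
    obtain ⟨ψ, hψ, h⟩ := state_of_code G (mem_Iso.mp hG).2
    refine le_trans ?_ (le_Qex ψ hψ k)
    rw [mixedCount_eq ψ hψ]
    apply Finset.card_le_card
    intro A hA
    obtain ⟨h1, h2⟩ := Finset.mem_filter.mp hA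
    exact Finset.mem_filter.mpr ⟨h1, h A (Finset.mem_filter.mp h2).2⟩
  have dc : ∑ G ∈ Iso (Fin n) (Fin k ⊕ Fin u), (((univ : Finset (Fin n)).powersetCard k).filter
        (fun A => G ∈ Good (Fin k ⊕ Fin u) A)).card
      = ∑ A ∈ (univ : Finset (Fin n)).powersetCard k, (Good (Fin k ⊕ Fin u) A).card := by
    simp only [Finset.card_filter]
    rw [Finset.sum_comm]
    apply Finset.sum_congr rfl
    intro A _
    rw [← Finset.card_filter, Finset.filter_mem_eq_inter]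
    congr 1
    exact Finset.inter_eq_right.mpr (Finset.filter_subset _ _)
  have s1 := Finset.sum_le_sum each
  rw [dc, Finset.sum_const, smul_eq_mul] at s1
  have s2 : ∑ A ∈ (univ : Finset (Fin n)).powersetCard k, tGood k u (n - k)
      ≤ ∑ A ∈ (univ : Finset (Fin n)).powersetCard k, ((Good (Fin k ⊕ Fin u) A).card : ℝ) :=
    Finset.sum_le_sum fun A hA => tGood_le A (Finset.mem_powersetCard.mp hA).2
  rw [Finset.sum_const, Finset.card_powersetCard, Finset.card_univ, Fintype.card_fin,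
    nsmul_eq_mul] at s2
  refine s2.trans ?_
  rw [← hZ, mul_comm]
  exact_mod_cast s1

end Pool.Agent.MP_450e1b_mp

end

-- part MP_450e1b_mp.Asym
section

/-
Asymptotics of the upper and lower bounds.
-/

namespace Pool.Agent.MP_450e1b_mp

open Finset Filter Topology

theorem tendsto_prod_geom (c r : ℝ) (hr : |r| < 1) :
    Tendsto (fun N => ∏ i ∈ range N, (1 - c * r ^ i)) atTop (𝓝 (∏' i : ℕ, (1 - c * r ^ i))) := by
  have hs : Summable (fun i : ℕ => -(c * r ^ i)) :=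
    ((summable_geometric_of_abs_lt_one hr).mul_left c).neg
  have := (Real.multipliable_one_add_of_summable hs).hasProd.tendsto_prod_nat
  simpa only [← sub_eq_add_neg] using this

theorem piU_eq (t j : ℕ) : piU t j
    = (∏ i ∈ range j, (1 - (1 / (2 ^ t * 4) : ℝ) * (1 / 4) ^ i)) / (1 - 1 / (2 ^ t * 4 ^ j)) ^ j := by
  unfold piU
  have hc : (1 - 1 / ((2 : ℝ) ^ t * 4 ^ j)) ^ j = ∏ _i ∈ range j, (1 - 1 / ((2 : ℝ) ^ t * 4 ^ j)) := by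
    rw [Finset.prod_const, Finset.card_range]
  rw [← Finset.prod_range_reflect, hc, ← Finset.prod_div_distrib]
  apply Finset.prod_congr rfl
  intro i hi
  have hij := Finset.mem_range.mp hi
  obtain ⟨l, rfl⟩ : ∃ l, j = i + 1 + l := ⟨j - 1 - i, by omega⟩
  rw [show i + 1 + l - 1 - i = l by omega]
  have h1 : (1 : ℝ) ≤ 2 ^ t := one_le_pow₀ (by norm_num)
  have h5 : (1 : ℝ) < 4 ^ (i + 1 + l) := one_lt_pow₀ (by norm_num) (by omega)
  have h6 : (2 : ℝ) ^ t * 4 ^ (i + 1 + l) - 1 ≠ 0 := by nlinarith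
  have h7 : 1 - 1 / ((2 : ℝ) ^ t * 4 ^ (i + 1 + l))
      = (2 ^ t * 4 ^ (i + 1 + l) - 1) / (2 ^ t * 4 ^ (i + 1 + l)) := by field_simp
  rw [h7, div_div_eq_mul_div]
  congr 1
  rw [one_div_pow]
  field_simp
  ring

theorem tendsto_piU (t : ℕ) :
    Tendsto (piU t) atTop (𝓝 (∏' i : ℕ, (1 - (1 / (2 ^ t * 4) : ℝ) * (1 / 4) ^ i))) := by
  have h1 := tendsto_prod_geom (1 / (2 ^ t * 4)) (1 / 4) (by norm_num [abs_of_pos])
  have h2 : Tendsto (fun j : ℕ => (1 - 1 / ((2 : ℝ) ^ t * 4 ^ j)) ^ j) atTop (𝓝 1) := by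
    have h3 : Tendsto (fun j : ℕ => 1 - (j : ℝ) * (1 / 4) ^ j) atTop (𝓝 1) := by
      have := tendsto_self_mul_const_pow_of_lt_one (r := 1 / 4) (by norm_num) (by norm_num)
      simpa using this.const_sub 1
    apply tendsto_of_tendsto_of_tendsto_of_le_of_le h3 tendsto_const_nhds
    · intro j
      have ht : (1 : ℝ) ≤ 2 ^ t := one_le_pow₀ (by norm_num)
      have h4 : (1 : ℝ) ≤ 4 ^ j := one_le_pow₀ (by norm_num)
      have a1 : 1 / ((2 : ℝ) ^ t * 4 ^ j) ≤ (1 / 4) ^ j := by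
        rw [one_div_pow]
        apply one_div_le_one_div_of_le (by positivity)
        nlinarith
      have a2 : (1 / 4 : ℝ) ^ j ≤ 1 := pow_le_one₀ (by norm_num) (by norm_num)
      have := one_add_mul_le_pow (a := -(1 / ((2 : ℝ) ^ t * 4 ^ j))) (by linarith) j
      have a3 : (j : ℝ) * (1 / ((2 : ℝ) ^ t * 4 ^ j)) ≤ j * (1 / 4) ^ j :=
        mul_le_mul_of_nonneg_left a1 (Nat.cast_nonneg j)
      simp only [← sub_eq_add_neg] at this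
      simp only
      linarith
    · intro j
      have ht : (1 : ℝ) ≤ 2 ^ t := one_le_pow₀ (by norm_num)
      have h4 : (1 : ℝ) ≤ 4 ^ j := one_le_pow₀ (by norm_num)
      have a1 : 1 / ((2 : ℝ) ^ t * 4 ^ j) ≤ 1 := by
        rw [div_le_one (by positivity)]; nlinarith
      have a2 : 0 ≤ 1 / ((2 : ℝ) ^ t * 4 ^ j) := by positivity
      exact pow_le_one₀ (by linarith) (by linarith)
  have := h1.div h2 one_ne_zero
  rw [div_one] at this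
  exact this.congr (fun j => (piU_eq t j).symm)

theorem eventually_upper (t : ℕ) (b : ℝ)
    (hb : ∏' i : ℕ, (1 - (1 / (2 ^ t * 4) : ℝ) * (1 / 4) ^ i) < b) :
    ∀ᶠ k in atTop, (Qex (2 * k + t) k : ℝ) / (2 * k + t).choose k < b := by
  obtain ⟨j, hj⟩ := ((tendsto_piU t).eventually (gt_mem_nhds hb)).exists
  have h1 : Tendsto (fun k : ℕ => ((k + t + j : ℕ) : ℝ) / (k + t + 1 : ℕ)) atTop (𝓝 1) := by
    have h2 : Tendsto (fun k : ℕ => ((j : ℝ) - 1) / ((k + (t + 1) : ℕ) : ℝ)) atTop (𝓝 0) :=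
      (tendsto_const_div_atTop_nhds_zero_nat ((j : ℝ) - 1)).comp (tendsto_add_atTop_nat (t + 1))
    have h3 := h2.const_add 1
    rw [add_zero] at h3
    refine h3.congr (fun k => ?_)
    push_cast
    field_simp
    ring
  have h4 := (h1.pow j).const_mul (piU t j)
  rw [one_pow, mul_one] at h4
  filter_upwards [h4.eventually (gt_mem_nhds hj), eventually_ge_atTop j] with k hk hkj
  exact lt_of_le_of_lt (Qex_upper k t (k - j) j (by omega)) hk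

/-- Partial products of `1 - (-1/2)^s`. -/
noncomputable def eProd (N : ℕ) : ℝ := ∏ s ∈ range N, (1 - (-1 / 2 : ℝ) * (-1 / 2) ^ s)

theorem eProd_pos (N : ℕ) : 0 < eProd N := by
  apply Finset.prod_pos
  intro s _
  have : |(-1 / 2 : ℝ) * (-1 / 2) ^ s| < 1 := by
    rw [← pow_succ', abs_pow]
    exact pow_lt_one₀ (abs_nonneg _) (by norm_num [abs_of_neg]) (by omega)
  linarith [(abs_lt.mp this).2]

theorem eProd_two_mul (m : ℕ) :
    eProd (2 * m) = ∏ i ∈ range m, ((1 - (1 / 4 : ℝ) ^ (i + 1)) * (1 + 2 * (1 / 4) ^ (i + 1))) := by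
  induction m with
  | zero => simp [eProd]
  | succ m ih =>
    rw [Finset.prod_range_succ, ← ih, show 2 * (m + 1) = 2 * m + 1 + 1 by ring]
    unfold eProd
    rw [Finset.prod_range_succ, Finset.prod_range_succ, pow_succ, pow_mul, pow_succ]
    norm_num
    ring

theorem zIso_eq (m : ℕ) :
    zIso (2 * m) m = (∏ t ∈ range m, ((4 : ℝ) ^ (2 * m) / 4 ^ t / 2)) * eProd (2 * m) := by
  rw [eProd_two_mul, ← Finset.prod_range_reflect (fun i => (1 - (1 / 4 : ℝ) ^ (i + 1))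
    * (1 + 2 * (1 / 4) ^ (i + 1))), ← Finset.prod_mul_distrib]
  unfold zIso
  apply Finset.prod_congr rfl
  intro t ht
  have := Finset.mem_range.mp ht
  obtain ⟨l, rfl⟩ : ∃ l, m = t + 1 + l := ⟨m - 1 - t, by omega⟩
  rw [show t + 1 + l - 1 - t = l by omega, pow_mul (-2 : ℝ), one_div_pow]
  norm_num
  field_simp
  ring

/-- The factor coming from the isotropic part. -/
noncomputable def bProd (u k : ℕ) : ℝ := ∏ t ∈ range u,
  (1 + (4 ^ t * (1 / 4) ^ u) * (-1 / 2 : ℝ) ^ k - (2 * 16 ^ t * (1 / 16) ^ u) * (1 / 4) ^ k)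

theorem tendsto_bProd (u : ℕ) : Tendsto (bProd u) atTop (𝓝 1) := by
  have : (1 : ℝ) = ∏ t ∈ range u, (1 + (4 ^ t * (1 / 4) ^ u) * (0 : ℝ)
      - (2 * 16 ^ t * (1 / 16) ^ u) * 0) := by simp
  rw [this]
  apply tendsto_finsetProd
  intro t _
  have h1 := tendsto_pow_atTop_nhds_zero_of_abs_lt_one (r := (-1 / 2 : ℝ)) (by norm_num [abs_of_neg])
  have h2 := tendsto_pow_atTop_nhds_zero_of_abs_lt_one (r := (1 / 4 : ℝ)) (by norm_num [abs_of_pos])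
  exact ((h1.const_mul _).const_add 1).sub (h2.const_mul _)

theorem tGood_eq (k u : ℕ) :
    tGood k u (k + 2 * u) = (∏ t ∈ range (k + u), ((4 : ℝ) ^ (2 * (k + u)) / 4 ^ t / 2))
      * ((∏ i ∈ range k, (1 - (1 / (2 ^ (2 * u) * 4) : ℝ) * (1 / 4) ^ i))
        * bProd u k * eProd k) := by
  have h1 : ∏ i ∈ range k, ((4 : ℝ) ^ (k + u) - 4 ^ i)
      = (∏ _i ∈ range k, (4 : ℝ) ^ (k + u))
        * ∏ i ∈ range k, (1 - (1 / (2 ^ (2 * u) * 4) : ℝ) * (1 / 4) ^ i) := by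
    rw [← Finset.prod_range_reflect, ← Finset.prod_mul_distrib]
    apply Finset.prod_congr rfl
    intro i hi
    have := Finset.mem_range.mp hi
    obtain ⟨l, rfl⟩ : ∃ l, k = i + 1 + l := ⟨k - 1 - i, by omega⟩
    rw [show i + 1 + l - 1 - i = l by omega, pow_mul, one_div_pow]
    norm_num
    field_simp
    ring
  have h2 : zIso (k + 2 * u) u = (∏ t ∈ range u, ((4 : ℝ) ^ (2 * (k + u)) / 4 ^ (k + t) / 2))
      * bProd u k := by
    unfold zIso bProd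
    rw [← Finset.prod_mul_distrib]
    apply Finset.prod_congr rfl
    intro t _
    have e1 : (-2 : ℝ) ^ (k + 2 * u) = 4 ^ k * (-1 / 2) ^ k * 4 ^ u := by
      rw [pow_add, pow_mul, ← mul_pow]; norm_num
    have e2 : (16 : ℝ) ^ t = 4 ^ t * 4 ^ t := by rw [← mul_pow]; norm_num
    have e3 : (16 : ℝ) ^ u = 4 ^ u * 4 ^ u := by rw [← mul_pow]; norm_num
    rw [e1, one_div_pow, one_div_pow, one_div_pow, e2, e3]
    generalize (-1 / 2 : ℝ) ^ k = z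
    field_simp
    ring
  have h3 : ∏ t ∈ range k, (((4 : ℝ) ^ (k + 2 * u) / (4 ^ u * 4 ^ t)
      - (-2) ^ (k + 2 * u) / (-2) ^ t) / 2)
      = (∏ t ∈ range k, ((4 : ℝ) ^ (k + u) / 4 ^ t / 2)) * eProd k := by
    unfold eProd
    rw [← Finset.prod_range_reflect (fun s => 1 - (-1 / 2 : ℝ) * (-1 / 2) ^ s),
      ← Finset.prod_mul_distrib]
    apply Finset.prod_congr rfl
    intro t ht
    have := Finset.mem_range.mp ht
    obtain ⟨l, rfl⟩ : ∃ l, k = t + 1 + l := ⟨k - 1 - t, by omega⟩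
    rw [show t + 1 + l - 1 - t = l by omega]
    have e1 : (-2 : ℝ) ^ (t + 1 + l + 2 * u) = (-2) ^ t * (-2) * (4 ^ l * (-1 / 2) ^ l) * 4 ^ u := by
      rw [pow_add, pow_add, pow_add, pow_mul, ← mul_pow]; norm_num
    have e2 : (-2 : ℝ) ^ t ≠ 0 := pow_ne_zero _ (by norm_num)
    rw [e1]
    generalize (-1 / 2 : ℝ) ^ l = z
    field_simp
    ring
  have h4 : ∏ t ∈ range k, ((4 : ℝ) ^ (2 * (k + u)) / 4 ^ t / 2)
      = (∏ _i ∈ range k, (4 : ℝ) ^ (k + u)) * ∏ t ∈ range k, ((4 : ℝ) ^ (k + u) / 4 ^ t / 2) := by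
    rw [← Finset.prod_mul_distrib]
    apply Finset.prod_congr rfl
    intro t _
    ring
  unfold tGood
  rw [h1, h2, h3, Finset.prod_range_add, h4]
  ring

theorem Qex_lower' (k u : ℕ) :
    (∏ i ∈ range k, (1 - (1 / (2 ^ (2 * u) * 4) : ℝ) * (1 / 4) ^ i)) * bProd u k * eProd k
      / eProd (2 * (k + u)) ≤ (Qex (2 * k + 2 * u) k : ℝ) / (2 * k + 2 * u).choose k := by
  have h := Qex_lower (2 * k + 2 * u) k u
  rw [show 2 * k + 2 * u - k = k + 2 * u by omega, tGood_eq] at h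
  have hz := zIso_eq (k + u)
  rw [show 2 * (k + u) = 2 * k + 2 * u by ring] at hz h ⊢
  rw [hz] at h
  have hp : (0 : ℝ) < ∏ t ∈ range (k + u), ((4 : ℝ) ^ (2 * k + 2 * u) / 4 ^ t / 2) :=
    Finset.prod_pos fun _ _ => by positivity
  have hc : (0 : ℝ) < (2 * k + 2 * u).choose k := by exact_mod_cast Nat.choose_pos (by omega)
  rw [div_le_div_iff₀ (eProd_pos _) hc]
  apply le_of_mul_le_mul_left _ hp
  linarith

theorem tendsto_density (u : ℕ) :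
    Tendsto (fun k => (Qex (2 * k + 2 * u) k : ℝ) / (2 * k + 2 * u).choose k) atTop
      (𝓝 (∏' i : ℕ, (1 - (1 / (2 ^ (2 * u) * 4) : ℝ) * (1 / 4) ^ i))) := by
  rw [tendsto_order]
  refine ⟨fun a ha => ?_, fun b hb => eventually_upper (2 * u) b hb⟩
  have h1 := tendsto_prod_geom (1 / (2 ^ (2 * u) * 4)) (1 / 4) (by norm_num [abs_of_pos])
  have h2 : Tendsto eProd atTop _ := tendsto_prod_geom (-1 / 2) (-1 / 2) (by norm_num [abs_of_neg])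
  have h3 : (∏' i : ℕ, (1 - (-1 / 2 : ℝ) * (-1 / 2) ^ i)) ≠ 0 := by
    simp only [sub_eq_add_neg]
    apply tprod_one_add_ne_zero_of_summable
    · intro s
      have : |(-1 / 2 : ℝ) * (-1 / 2) ^ s| < 1 := by
        rw [← pow_succ', abs_pow]
        exact pow_lt_one₀ (abs_nonneg _) (by norm_num [abs_of_neg]) (by omega)
      linarith [(abs_lt.mp this).2]
    · exact ((summable_geometric_of_abs_lt_one (r := (-1 / 2 : ℝ))
        (by norm_num [abs_of_neg])).mul_left (-1 / 2)).neg.norm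
  have h4 : Tendsto (fun k => eProd (2 * (k + u))) atTop _ :=
    h2.comp (tendsto_atTop_mono (fun k => by simp only [id]; omega) tendsto_id)
  have h5 := ((h1.mul (tendsto_bProd u)).mul h2).div h4 h3
  rw [mul_one, mul_div_assoc, div_self h3, mul_one] at h5
  filter_upwards [h5.eventually (lt_mem_nhds ha)] with k hk
  exact lt_of_lt_of_le hk (Qex_lower' k u)

end Pool.Agent.MP_450e1b_mp

end

-- part MP_450e1b_mp.H55.Seq
section

/-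
The one-dimensional sequences entering the certificate.
-/

namespace Pool.Agent.MP_450e1b_mp.H55

open Filter Topology

/-- A backward recursion with invariant intervals has a solution. Plan: in the compact set
`Set.pi univ (fun a => Icc (L a) (U a))` (`isCompact_univ_pi`) the closed sets
`C N = {x | ∀ a < N, x a = α a + β a * x (a+1)}` are nested and meet the compact set (induction on
`N` for all shifted data, or define `x` downwards from `x N = L N`; by `0 ≤ β a` the map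
`y ↦ α a + β a * y` sends `Icc (L (a+1)) (U (a+1))` into `Icc (L a) (U a)`); use
`IsCompact.nonempty_iInter_of_sequence_nonempty_isCompact_isClosed`. -/
theorem exists_seq (α β L U : ℕ → ℝ) (hβ : ∀ a, 0 ≤ β a) (hLU : ∀ a, L a ≤ U a)
    (hL : ∀ a, L a ≤ α a + β a * L (a + 1)) (hU : ∀ a, α a + β a * U (a + 1) ≤ U a) :
    ∃ x : ℕ → ℝ, ∀ a, L a ≤ x a ∧ x a ≤ U a ∧ x a = α a + β a * x (a + 1) := by
  set S : Set (ℕ → ℝ) := {y | ∀ a, L a ≤ y a ∧ y a ≤ U a ∧ y a ≤ α a + β a * y (a + 1)} with hS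
  have hLS : L ∈ S := fun a => ⟨le_rfl, hLU a, hL a⟩
  have hne : ∀ a, ((fun y : ℕ → ℝ => y a) '' S).Nonempty := fun a => ⟨L a, L, hLS, rfl⟩
  have hbd : ∀ a, BddAbove ((fun y : ℕ → ℝ => y a) '' S) := fun a =>
    ⟨U a, by rintro _ ⟨y, hy, rfl⟩; exact (hy a).2.1⟩
  set x : ℕ → ℝ := fun a => sSup ((fun y : ℕ → ℝ => y a) '' S) with hx
  have hle : ∀ y ∈ S, ∀ a, y a ≤ x a := fun y hy a => le_csSup (hbd a) ⟨y, hy, rfl⟩
  have h1 : ∀ a, L a ≤ x a := fun a => hle L hLS a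
  have h2 : ∀ a, x a ≤ U a := fun a =>
    csSup_le (hne a) (by rintro _ ⟨y, hy, rfl⟩; exact (hy a).2.1)
  have h3 : ∀ a, x a ≤ α a + β a * x (a + 1) := fun a =>
    csSup_le (hne a) (by
      rintro _ ⟨y, hy, rfl⟩
      have := mul_le_mul_of_nonneg_left (hle y hy (a + 1)) (hβ a)
      linarith [(hy a).2.2])
  have h4 : (fun a => α a + β a * x (a + 1)) ∈ S := by
    intro a
    refine ⟨(h1 a).trans (h3 a), ?_, ?_⟩
    · have := mul_le_mul_of_nonneg_left (h2 (a + 1)) (hβ a)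
      linarith [hU a]
    · have := mul_le_mul_of_nonneg_left (h3 (a + 1)) (hβ a)
      linarith
  exact ⟨x, fun a => ⟨h1 a, h2 a, le_antisymm (h3 a) (hle _ h4 a)⟩⟩

noncomputable def seqa_pL (p : ℝ) : ℝ := 1 + 4 / 3 * p + 80 / 51 * p ^ 2 + 17 / 10 * p ^ 3

noncomputable def seqa_pU (p : ℝ) : ℝ := 1 + 4 / 3 * p + 80 / 51 * p ^ 2 + 5 / 2 * p ^ 3

theorem seqa_pLU {p : ℝ} (h0 : 0 < p) : seqa_pL p ≤ seqa_pU p := by
  unfold seqa_pL seqa_pU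
  have : 0 < p ^ 3 := by positivity
  linarith

theorem seqa_frac {p y : ℝ} (h1 : p ≤ 1 / 4) :
    15 / (8 * (2 - p) * (1 - p)) + (1 - 2 * p) / (8 * (2 - p)) * y
      = (15 + (1 - p) * (1 - 2 * p) * y) / (8 * (2 - p) * (1 - p)) := by
  have n1 : (2 - p) ≠ 0 := by linarith
  have n2 : (1 - p) ≠ 0 := by linarith
  field_simp

theorem seqa_pL_le {p : ℝ} (h0 : 0 < p) (h1 : p ≤ 1 / 4) :
    seqa_pL p ≤ 15 / (8 * (2 - p) * (1 - p)) + (1 - 2 * p) / (8 * (2 - p)) * seqa_pL (p * (1 / 4)) := by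
  have hd : 0 < 8 * (2 - p) * (1 - p) := mul_pos (by linarith) (by linarith)
  rw [seqa_frac h1, le_div_iff₀ hd]
  unfold seqa_pL
  have h3 : 0 ≤ p ^ 3 * (1953 / 10880 + p * (308637 / 10880 - 867 / 64 * p)) :=
    mul_nonneg (by positivity) (add_nonneg (by norm_num) (mul_nonneg h0.le (by linarith)))
  linarith

theorem seqa_pU_le {p : ℝ} (h0 : 0 < p) (h1 : p ≤ 1 / 4) :
    15 / (8 * (2 - p) * (1 - p)) + (1 - 2 * p) / (8 * (2 - p)) * seqa_pU (p * (1 / 4)) ≤ seqa_pU p := by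
  have hd : 0 < 8 * (2 - p) * (1 - p) := mul_pos (by linarith) (by linarith)
  rw [seqa_frac h1, div_le_iff₀ hd]
  unfold seqa_pU
  have h3 : 0 ≤ p ^ 3 * (27435 / 2176 - 103425 / 2176 * p + 1275 / 64 * p ^ 2) :=
    mul_nonneg (by positivity) (add_nonneg (by linarith) (by positivity))
  linarith

theorem seqa_gL_le {r : ℝ} (h0 : 0 < r) (h1 : r ≤ 1) :
    1 + r / 3 + 4 / 45 * r ^ 2 ≤
      0 + 1 / (1 - r / 4) * (1 + r * (1 / 4) / 3 + 4 / 45 * (r * (1 / 4)) ^ 2) := by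
  have hd : 0 < 1 - r / 4 := by linarith
  rw [zero_add, one_div_mul_eq_div, le_div_iff₀ hd]
  have h3 : 0 ≤ r ^ 3 := by positivity
  linarith

theorem seqa_gU_le {r : ℝ} (h0 : 0 < r) (h1 : r ≤ 1) :
    0 + 1 / (1 - r / 4) * (1 + r * (1 / 4) / 3 + 1 / 8 * (r * (1 / 4)) ^ 2) ≤
      1 + r / 3 + 1 / 8 * r ^ 2 := by
  have hd : 0 < 1 - r / 4 := by linarith
  rw [zero_add, one_div_mul_eq_div, div_le_iff₀ hd]
  have h3 : 0 ≤ r ^ 2 * (13 / 384 - 1 / 32 * r) := mul_nonneg (by positivity) (by linarith)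
  linarith

theorem seqa_frac2 {r g y : ℝ} (h1 : r ≤ 1) :
    -g / (2 * (1 - r / 8)) + 1 / (4 * (1 - r / 8)) * y = (y / 4 - g / 2) / (1 - r / 8) := by
  have n1 : (1 - r / 8) ≠ 0 := by linarith
  have n2 : (8 - r) ≠ 0 := by linarith
  field_simp
  ring

theorem seqa_rL_le {r g : ℝ} (h0 : 0 < r) (h1 : r ≤ 1) (hg : g ≤ 1 + r / 3 + 1 / 8 * r ^ 2) :
    -2 / 3 - 4 / 15 * r - 3 / 25 * r ^ 2 ≤ -g / (2 * (1 - r / 8)) + 1 / (4 * (1 - r / 8)) *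
      (-2 / 3 - 4 / 15 * (r * (1 / 4)) - 3 / 25 * (r * (1 / 4)) ^ 2) := by
  have hd : 0 < 1 - r / 8 := by linarith
  rw [seqa_frac2 h1, le_div_iff₀ hd]
  have h3 : 0 ≤ r ^ 2 * (107 / 4800 - 3 / 200 * r) := mul_nonneg (by positivity) (by linarith)
  linarith

theorem seqa_rU_le {r g : ℝ} (h0 : 0 < r) (h1 : r ≤ 1) (hg : 1 + r / 3 + 4 / 45 * r ^ 2 ≤ g) :
    -g / (2 * (1 - r / 8)) + 1 / (4 * (1 - r / 8)) *
      (-2 / 3 - 4 / 15 * (r * (1 / 4)) - 7 / 100 * (r * (1 / 4)) ^ 2) ≤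
      -2 / 3 - 4 / 15 * r - 7 / 100 * r ^ 2 := by
  have hd : 0 < 1 - r / 8 := by linarith
  rw [seqa_frac2 h1, div_le_iff₀ hd]
  have h3 : 0 ≤ r ^ 2 * (511 / 57600 + 7 / 800 * r) := mul_nonneg (by positivity) (by linarith)
  linarith

/-- Apply `exists_seq` with the index shifted by one: `p = (1/4)^(a+1) ∈ (0, 1/4]`,
`α = 15 / (8 (2 - p) (1 - p))`, `β = (1 - 2 p) / (8 (2 - p))`. -/
theorem exists_psi : ∃ ψ : ℕ → ℝ, ∀ a, ∀ p : ℝ, p = (1 / 4) ^ (a + 1) →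
    8 * (2 - p) * (1 - p) * ψ (a + 1) = 15 + (1 - p) * (1 - 2 * p) * ψ (a + 2) ∧
    1 + 4 / 3 * p + 80 / 51 * p ^ 2 + 17 / 10 * p ^ 3 ≤ ψ (a + 1) ∧
    ψ (a + 1) ≤ 1 + 4 / 3 * p + 80 / 51 * p ^ 2 + 5 / 2 * p ^ 3 := by
  have hp0 : ∀ a : ℕ, (0 : ℝ) < (1 / 4) ^ (a + 1) := fun a => by positivity
  have hp1 : ∀ a : ℕ, (1 / 4 : ℝ) ^ (a + 1) ≤ 1 / 4 := fun a => by
    rw [pow_succ]
    have : (1 / 4 : ℝ) ^ a ≤ 1 := pow_le_one₀ (by norm_num) (by norm_num)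
    linarith
  obtain ⟨x, hx⟩ := exists_seq
    (fun a => 15 / (8 * (2 - (1 / 4 : ℝ) ^ (a + 1)) * (1 - (1 / 4 : ℝ) ^ (a + 1))))
    (fun a => (1 - 2 * (1 / 4 : ℝ) ^ (a + 1)) / (8 * (2 - (1 / 4 : ℝ) ^ (a + 1))))
    (fun a => seqa_pL ((1 / 4 : ℝ) ^ (a + 1))) (fun a => seqa_pU ((1 / 4 : ℝ) ^ (a + 1)))
    (fun a => div_nonneg (by linarith [hp1 a]) (by linarith [hp1 a]))
    (fun a => seqa_pLU (hp0 a))
    (fun a => by
      have := seqa_pL_le (hp0 a) (hp1 a)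
      rwa [← pow_succ] at this)
    (fun a => by
      have := seqa_pU_le (hp0 a) (hp1 a)
      rwa [← pow_succ] at this)
  refine ⟨fun a => x (a - 1), fun a p hp => ?_⟩
  obtain ⟨h1, h2, h3⟩ := hx a
  have h0 := hp0 a
  have h4 := hp1 a
  rw [← hp] at h0 h1 h2 h3 h4
  refine ⟨?_, h1, h2⟩
  have e1 : a + 1 - 1 = a := by omega
  have e2 : a + 2 - 1 = a + 1 := by omega
  simp only [e1, e2]
  rw [h3]
  have n1 : (2 - p) ≠ 0 := by linarith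
  have n2 : (1 - p) ≠ 0 := by linarith
  field_simp

/-- `exists_seq` with `α = 0`, `β = 1 / (1 - r / 4)`, `r = (1/4)^a ∈ (0, 1]`. For the last part,
`γ u * ∏ i ∈ range N, (1 - (1/4)^(u+1+i)) = γ (u + N) → 1`, and the finite products tend to
the infinite product by `tendsto_prod_geom ((1/4)^(u+1)) (1/4)`. -/
theorem exists_gam : ∃ γ : ℕ → ℝ, (∀ a, ∀ r : ℝ, r = (1 / 4) ^ a →
    γ a * (1 - r / 4) = γ (a + 1) ∧ 1 + r / 3 + 4 / 45 * r ^ 2 ≤ γ a ∧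
      γ a ≤ 1 + r / 3 + 1 / 8 * r ^ 2) ∧
    ∀ u, γ u * ∏' i : ℕ, (1 - (1 / 4 : ℝ) ^ (u + 1 + i)) = 1 := by
  have hp0 : ∀ a : ℕ, (0 : ℝ) < (1 / 4) ^ a := fun a => by positivity
  have hp1 : ∀ a : ℕ, (1 / 4 : ℝ) ^ a ≤ 1 := fun a => pow_le_one₀ (by norm_num) (by norm_num)
  obtain ⟨x, hx⟩ := exists_seq (fun _ => 0) (fun a => 1 / (1 - (1 / 4 : ℝ) ^ a / 4))
    (fun a => 1 + (1 / 4 : ℝ) ^ a / 3 + 4 / 45 * ((1 / 4 : ℝ) ^ a) ^ 2)
    (fun a => 1 + (1 / 4 : ℝ) ^ a / 3 + 1 / 8 * ((1 / 4 : ℝ) ^ a) ^ 2)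
    (fun a => div_nonneg zero_le_one (by linarith [hp1 a]))
    (fun a => by nlinarith [sq_nonneg ((1 / 4 : ℝ) ^ a)])
    (fun a => by
      have := seqa_gL_le (hp0 a) (hp1 a)
      rwa [← pow_succ] at this)
    (fun a => by
      have := seqa_gU_le (hp0 a) (hp1 a)
      rwa [← pow_succ] at this)
  have hrec : ∀ a, x a * (1 - (1 / 4 : ℝ) ^ a / 4) = x (a + 1) := fun a => by
    have n1 : (1 - (1 / 4 : ℝ) ^ a / 4) ≠ 0 := by linarith [hp1 a]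
    rw [(hx a).2.2, zero_add, mul_comm, ← mul_assoc, mul_one_div_cancel n1, one_mul]
  refine ⟨x, fun a r hr => ?_, fun u => ?_⟩
  · subst hr
    exact ⟨hrec a, (hx a).1, (hx a).2.1⟩
  have hN : ∀ N, x u * ∏ i ∈ Finset.range N, (1 - (1 / 4 : ℝ) ^ (u + 1) * (1 / 4) ^ i) = x (u + N) := by
    intro N
    induction N with
    | zero => simp
    | succ N ih =>
      rw [Finset.prod_range_succ, ← mul_assoc, ih, ← add_assoc, ← hrec (u + N)]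
      congr 1
      ring
  have h1 := (tendsto_prod_geom ((1 / 4 : ℝ) ^ (u + 1)) (1 / 4) (by norm_num [abs_of_pos])).const_mul
    (x u)
  simp only [hN] at h1
  have h0 : Tendsto (fun N : ℕ => (1 / 4 : ℝ) ^ (u + N)) atTop (𝓝 0) :=
    (tendsto_pow_atTop_nhds_zero_of_lt_one (by norm_num) (by norm_num)).comp
      (tendsto_atTop_mono (fun k => by simp only [id]; omega) tendsto_id)
  have h2 : Tendsto (fun N : ℕ => x (u + N)) atTop (𝓝 1) := by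
    have h3 : Tendsto (fun N : ℕ => 1 + (1 / 4 : ℝ) ^ (u + N)) atTop (𝓝 1) := by
      simpa using h0.const_add 1
    apply tendsto_of_tendsto_of_tendsto_of_le_of_le tendsto_const_nhds h3
    · intro N
      have := (hx (u + N)).1
      have := hp0 (u + N)
      nlinarith [sq_nonneg ((1 / 4 : ℝ) ^ (u + N))]
    · intro N
      have := (hx (u + N)).2.1
      have := hp0 (u + N)
      have := hp1 (u + N)
      nlinarith
  have h4 := tendsto_nhds_unique h1 h2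
  simpa only [← pow_add] using h4

/-- `exists_seq` with `α = -γ a / (2 (1 - r / 8))`, `β = 1 / (4 (1 - r / 8))`. -/
theorem exists_rho (γ : ℕ → ℝ) (hγ : ∀ a, ∀ r : ℝ, r = (1 / 4) ^ a →
    1 + r / 3 + 4 / 45 * r ^ 2 ≤ γ a ∧ γ a ≤ 1 + r / 3 + 1 / 8 * r ^ 2) :
    ∃ ρ : ℕ → ℝ, ∀ a, ∀ r : ℝ, r = (1 / 4) ^ a →
      ρ a * (1 - r / 8) = ρ (a + 1) / 4 - γ a / 2 ∧
      -2 / 3 - 4 / 15 * r - 3 / 25 * r ^ 2 ≤ ρ a ∧ ρ a ≤ -2 / 3 - 4 / 15 * r - 7 / 100 * r ^ 2 := by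
  have hp0 : ∀ a : ℕ, (0 : ℝ) < (1 / 4) ^ a := fun a => by positivity
  have hp1 : ∀ a : ℕ, (1 / 4 : ℝ) ^ a ≤ 1 := fun a => pow_le_one₀ (by norm_num) (by norm_num)
  obtain ⟨x, hx⟩ := exists_seq (fun a => -γ a / (2 * (1 - (1 / 4 : ℝ) ^ a / 8)))
    (fun a => 1 / (4 * (1 - (1 / 4 : ℝ) ^ a / 8)))
    (fun a => -2 / 3 - 4 / 15 * (1 / 4 : ℝ) ^ a - 3 / 25 * ((1 / 4 : ℝ) ^ a) ^ 2)
    (fun a => -2 / 3 - 4 / 15 * (1 / 4 : ℝ) ^ a - 7 / 100 * ((1 / 4 : ℝ) ^ a) ^ 2)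
    (fun a => div_nonneg zero_le_one (by linarith [hp1 a]))
    (fun a => by nlinarith [sq_nonneg ((1 / 4 : ℝ) ^ a)])
    (fun a => by
      have := seqa_rL_le (hp0 a) (hp1 a) (hγ a _ rfl).2
      rwa [← pow_succ] at this)
    (fun a => by
      have := seqa_rU_le (hp0 a) (hp1 a) (hγ a _ rfl).1
      rwa [← pow_succ] at this)
  refine ⟨x, fun a r hr => ?_⟩
  obtain ⟨h1, h2, h3⟩ := hx a
  have h4 := hp1 a
  rw [← hr] at h1 h2 h3 h4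
  refine ⟨?_, h1, h2⟩
  have n1 : (1 - r / 8) ≠ 0 := by linarith
  have n2 : (8 - r) ≠ 0 := by linarith
  rw [h3]
  field_simp
  ring

/-- The boundary sequences for a given `u`. -/
structure Bd (u : ℕ) (c : ℝ) (ρ κ : ℕ → ℝ) : Prop where
  k0 : ρ 0 / 4 + (if 0 = u then c else 0) = κ 1
  k1 : ∀ b, κ (b + 1) * (1 - (1 / 4) ^ (b + 1) / 2) + (if b + 1 = u then c else 0) = κ (b + 2)
  k2 : ∀ a, -κ (a + 1) / 2 + ρ (a + 1) / 4 = (1 - (1 / 4) ^ (a + 1)) * ρ a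
  r1 : ∀ a, u ≤ a → ∀ r : ℝ, r = (1 / 4) ^ a →
    -2 / 3 - 4 / 15 * r - 3 / 25 * r ^ 2 ≤ ρ a ∧ ρ a ≤ -2 / 3 - 4 / 15 * r - 7 / 100 * r ^ 2
  r2 : ∀ a, a ≤ u → ρ a * (1 / 4) ^ a ≤ -2 / 3 * (1 / 4) ^ u
  k3 : ∀ b, u < b → ∀ r : ℝ, r = (1 / 4) ^ b →
    1 + 2 / 3 * r - 1 / 5 * r ^ 2 ≤ κ b ∧ κ b ≤ 1 + 2 / 3 * r + r ^ 2
  k4 : ∀ b, 1 ≤ b → b ≤ u → ∀ r e : ℝ, r = (1 / 4) ^ b → e = (1 / 4) ^ u →
    -(e / 4) * (2 / 3 + 4 / 9 * r + 2 / 5 * r ^ 2 + 9 / 50 * e) ≤ κ b ∧ κ b ≤ 0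
  bdd : ∀ a, |ρ a| ≤ 2 ∧ |κ a| ≤ 2

theorem seqb_low {r e t t' : ℝ} (h0 : 0 < r) (h1 : r ≤ 1) (he : 0 < e)
    (h : t * (1 - r / 8) = t') (h' : 2 / 3 * e ≤ t') : 2 / 3 * e ≤ t := by
  have h2 : 0 < t := by
    by_contra h3
    have : t * (1 - r / 8) ≤ 0 := mul_nonpos_of_nonpos_of_nonneg (not_lt.mp h3) (by linarith)
    linarith
  nlinarith [mul_pos h2 h0]

theorem seqb_base {e y : ℝ} (h0 : 0 < e) (h1 : e ≤ 1 / 4)
    (h : -2 / 3 - 4 / 15 * e - 3 / 25 * e ^ 2 ≤ y) :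
    -y * e ≤ e * (2 / 3 + e / 9 + e ^ 2 / 40 + 9 / 50 * e) := by
  have h2 : 0 ≤ e * (11 / 450 - 19 / 200 * e) := mul_nonneg h0.le (by linarith)
  have h3 : -y ≤ 2 / 3 + e / 9 + e ^ 2 / 40 + 9 / 50 * e := by linarith
  have := mul_le_mul_of_nonneg_right h3 h0.le
  linarith

theorem seqb_up {r e t : ℝ} (h0 : 0 < r) (h1 : r ≤ 1) (he : 0 < e) (her : e ≤ r * (1 / 4))
    (h : t * (1 - r / 8) ≤
      e * (2 / 3 + r * (1 / 4) / 9 + (r * (1 / 4)) ^ 2 / 40 + 9 / 50 * e)) :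
    t ≤ e * (2 / 3 + r / 9 + r ^ 2 / 40 + 9 / 50 * e) := by
  have hd : 0 < 1 - r / 8 := by linarith
  have h2 : 0 ≤ r * (r * (1 / 4) - e) := mul_nonneg h0.le (by linarith)
  have h3 : 0 ≤ r ^ 2 * (1 - r) := mul_nonneg (by positivity) (by linarith)
  have h4 : 0 ≤ r ^ 2 := by positivity
  have h5 : 2 / 3 + r * (1 / 4) / 9 + (r * (1 / 4)) ^ 2 / 40 + 9 / 50 * e ≤
      (2 / 3 + r / 9 + r ^ 2 / 40 + 9 / 50 * e) * (1 - r / 8) := by linarith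
  have h6 := mul_le_mul_of_nonneg_left h5 he.le
  apply le_of_mul_le_mul_right _ hd
  linarith

theorem seqb_abs {r e y : ℝ} (h0 : 0 < r) (h1 : r ≤ 1) (he : 0 < e) (her : e ≤ r)
    (h : 2 / 3 * e ≤ -y * r) (h' : -y * r ≤ e * (2 / 3 + r / 9 + r ^ 2 / 40 + 9 / 50 * e)) :
    |y| ≤ 2 := by
  have h2 : 2 / 3 + r / 9 + r ^ 2 / 40 + 9 / 50 * e ≤ 2 := by nlinarith
  have h3 := mul_le_mul_of_nonneg_left h2 he.le
  have h4 : -y * r ≤ 2 * r := by linarith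
  have h5 : -y ≤ 2 := le_of_mul_le_mul_right h4 h0
  have h6 : 0 * r ≤ -y * r := by linarith
  have h7 : 0 ≤ -y := le_of_mul_le_mul_right h6 h0
  rw [abs_le]
  constructor <;> linarith

theorem seqb_k3 {r y g : ℝ} (h0 : 0 < 4 * r) (h1 : 4 * r ≤ 1)
    (hy : -2 / 3 - 4 / 15 * (4 * r) - 3 / 25 * (4 * r) ^ 2 ≤ y ∧
      y ≤ -2 / 3 - 4 / 15 * (4 * r) - 7 / 100 * (4 * r) ^ 2)
    (hg : 1 + 4 * r / 3 + 4 / 45 * (4 * r) ^ 2 ≤ g ∧ g ≤ 1 + 4 * r / 3 + 1 / 8 * (4 * r) ^ 2) :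
    1 + 2 / 3 * r - 1 / 5 * r ^ 2 ≤ g + 4 * r * y / 4 ∧
      g + 4 * r * y / 4 ≤ 1 + 2 / 3 * r + r ^ 2 := by
  have h2 := mul_le_mul_of_nonneg_left hy.1 h0.le
  have h3 := mul_le_mul_of_nonneg_left hy.2 h0.le
  have h4 : 0 ≤ r ^ 2 * (5 / 9 - 48 / 25 * r) := mul_nonneg (by positivity) (by linarith)
  have h5 : 0 ≤ r ^ 2 * (1 / 15 + 28 / 25 * r) := mul_nonneg (by positivity) (by linarith)
  constructor <;> linarith [hg.1, hg.2]

/-- Plan. Let `γ`, `ρ'` come from `exists_gam`, `exists_rho`; `c = γ u`. Put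
`ρ a = ρ' a` for `a ≥ u` and `ρ a = ρ' u * ∏ i ∈ Finset.Ico a u, 1 / (4 (1 - (1/4)^i / 8))` for
`a ≤ u`; `g a = if u ≤ a then γ a else 0`; so `ρ a (1 - (1/4)^a / 8) = ρ (a+1) / 4 - g a / 2` for
all `a`. Put `κ 0 = 0`, `κ (a+1) = g a + (1/4)^a * ρ a / 4`. `k0, k1, k2` are algebra (use
`g a (1 - (1/4)^(a+1)) = g (a+1) - (if a+1 = u then c else 0)`). For `a ≤ u` let
`t a = -ρ a * (1/4)^a`, so `t a (1 - r/8) = t (a+1)` with `r = (1/4)^a`; by downward induction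
from `a = u` (`Nat.decreasingInduction` or induction on `u - a`):
`2/3 e ≤ t a`, and for `u ≥ 1`, `t a ≤ e (2/3 + r/9 + r^2/40 + 9/50 e)` (here `e = (1/4)^u`, and
`e ≤ r/4` for `a < u`). This gives `r2`, `k4`, and `|ρ a| ≤ 2` (as `e ≤ r`). `k3` follows from the
bounds on `γ`, `ρ'` at `b - 1`, where `(1/4)^(b-1) = 4 r ≤ 1`. -/
theorem exists_Bd (u : ℕ) : ∃ (c : ℝ) (ρ κ : ℕ → ℝ), Bd u c ρ κ ∧
    c * ∏' i : ℕ, (1 - (1 / 4 : ℝ) ^ (u + 1 + i)) = 1 ∧ 0 < c := by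
  obtain ⟨γ, hγ, hγp⟩ := exists_gam
  obtain ⟨ρ', hρ'⟩ := exists_rho γ (fun a r hr => (hγ a r hr).2)
  have hp0 : ∀ a : ℕ, (0 : ℝ) < (1 / 4) ^ a := fun a => by positivity
  have hp1 : ∀ a : ℕ, (1 / 4 : ℝ) ^ a ≤ 1 := fun a => pow_le_one₀ (by norm_num) (by norm_num)
  have hpm : ∀ a b : ℕ, a ≤ b → (1 / 4 : ℝ) ^ b ≤ (1 / 4) ^ a := fun a b h =>
    pow_le_pow_of_le_one (by norm_num) (by norm_num) h
  obtain ⟨ρ, hρ⟩ : ∃ ρ : ℕ → ℝ, ∀ a, ρ a = ρ' (max a u) *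
      ∏ i ∈ Finset.Ico a u, 1 / (4 * (1 - (1 / 4 : ℝ) ^ i / 8)) := ⟨_, fun _ => rfl⟩
  obtain ⟨g, hg⟩ : ∃ g : ℕ → ℝ, ∀ a, g a = if u ≤ a then γ a else 0 := ⟨_, fun _ => rfl⟩
  have hρ1 : ∀ a, u ≤ a → ρ a = ρ' a := fun a h => by
    rw [hρ, max_eq_left h, Finset.Ico_eq_empty_of_le h, Finset.prod_empty, mul_one]
  have hrec : ∀ a, ρ a * (1 - (1 / 4) ^ a / 8) = ρ (a + 1) / 4 - g a / 2 := fun a => by
    by_cases h : u ≤ a
    · rw [hρ1 a h, hρ1 (a + 1) (by omega), hg, if_pos h]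
      exact (hρ' a _ rfl).1
    · have h' : a < u := by omega
      rw [hρ a, hρ (a + 1), hg, if_neg h, max_eq_right h'.le, max_eq_right (by omega : a + 1 ≤ u),
        Finset.prod_eq_prod_Ico_succ_bot h']
      have n1 : (1 - (1 / 4 : ℝ) ^ a / 8) ≠ 0 := by linarith [hp1 a]
      generalize (1 - (1 / 4 : ℝ) ^ a / 8) = w at n1
      field_simp
      ring
  have hgrec : ∀ a, g a * (1 - (1 / 4) ^ a / 4) + (if a + 1 = u then γ u else 0) = g (a + 1) :=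
    fun a => by
    rw [hg, hg]
    by_cases h : u ≤ a
    · rw [if_pos h, if_neg (by omega), if_pos (by omega), add_zero]
      exact (hγ a _ rfl).1
    · rw [if_neg h, zero_mul, zero_add]
      by_cases h' : a + 1 = u
      · rw [if_pos h', if_pos (by omega), h']
      · rw [if_neg h', if_neg (by omega)]
  have hr1 : ∀ a, u ≤ a → ∀ r : ℝ, r = (1 / 4) ^ a →
      -2 / 3 - 4 / 15 * r - 3 / 25 * r ^ 2 ≤ ρ a ∧
        ρ a ≤ -2 / 3 - 4 / 15 * r - 7 / 100 * r ^ 2 := fun a h r hr => by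
    rw [hρ1 a h]
    exact (hρ' a r hr).2
  have ht : ∀ a, a < u → (-ρ a * (1 / 4) ^ a) * (1 - (1 / 4) ^ a / 8)
      = -ρ (a + 1) * (1 / 4) ^ (a + 1) := fun a h => by
    have := hrec a
    rw [hg, if_neg (by omega)] at this
    rw [pow_succ]
    linear_combination (-(1 / 4 : ℝ) ^ a) * this
  have hlow : ∀ a, a ≤ u → 2 / 3 * (1 / 4 : ℝ) ^ u ≤ -ρ a * (1 / 4) ^ a := by
    intro a ha
    induction ha using Nat.decreasingInduction with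
    | self =>
      have h1 := (hr1 u le_rfl _ rfl).2
      have h2 := hp0 u
      have h3 : ρ u ≤ -2 / 3 := by nlinarith [sq_nonneg ((1 / 4 : ℝ) ^ u)]
      nlinarith
    | of_succ k hk ih =>
      exact seqb_low (hp0 k) (hp1 k) (hp0 u) (ht k hk) ih
  have hup : 1 ≤ u → ∀ a, a ≤ u → -ρ a * (1 / 4) ^ a ≤ (1 / 4 : ℝ) ^ u *
      (2 / 3 + (1 / 4 : ℝ) ^ a / 9 + ((1 / 4 : ℝ) ^ a) ^ 2 / 40 + 9 / 50 * (1 / 4 : ℝ) ^ u) := by
    intro hu a ha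
    induction ha using Nat.decreasingInduction with
    | self =>
      have h1 := (hr1 u le_rfl _ rfl).1
      have h2 := hp0 u
      have h3 := hpm 1 u hu
      rw [pow_one] at h3
      exact seqb_base h2 h3 h1
    | of_succ k hk ih =>
      have h3 := hpm (k + 1) u hk
      have h4 := ht k hk
      rw [← h4] at ih
      rw [pow_succ] at h3 ih
      exact seqb_up (hp0 k) (hp1 k) (hp0 u) h3 ih
  have hρb : ∀ a, |ρ a| ≤ 2 := fun a => by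
    by_cases h : u ≤ a
    · obtain ⟨h1, h2⟩ := hr1 a h _ rfl
      have h3 := hp0 a
      have h4 := hp1 a
      rw [abs_le]
      constructor <;> nlinarith
    · have h1 := hlow a (by omega)
      have h2 := hup (by omega) a (by omega)
      exact seqb_abs (hp0 a) (hp1 a) (hp0 u) (hpm a u (by omega)) h1 h2
  have hgb : ∀ a, 0 ≤ g a ∧ g a ≤ 3 / 2 := fun a => by
    rw [hg]
    split_ifs
    · obtain ⟨-, h1, h2⟩ := hγ a _ rfl
      have h3 := hp0 a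
      have h4 := hp1 a
      constructor <;> nlinarith
    · norm_num
  obtain ⟨κ, hκ0, hκ⟩ : ∃ κ : ℕ → ℝ, κ 0 = 0 ∧ ∀ a, κ (a + 1) = g a + (1 / 4) ^ a * ρ a / 4 :=
    ⟨fun n => Nat.casesOn n 0 (fun a => g a + (1 / 4) ^ a * ρ a / 4), rfl, fun _ => rfl⟩
  refine ⟨γ u, ρ, κ, ⟨?_, fun b => ?_, fun a => ?_, hr1, fun a ha => ?_, fun b hb r hr => ?_,
    fun b hb hbu r e hr he => ?_, fun a => ⟨hρb a, ?_⟩⟩, hγp u, ?_⟩
  · rw [hκ 0, hg, pow_zero]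
    by_cases h : 0 = u
    · rw [if_pos h, if_pos (by omega), ← h]
      ring
    · rw [if_neg h, if_neg (by omega)]
      ring
  · rw [hκ b, hκ (b + 1), ← hgrec b, pow_succ]
    linear_combination ((1 / 4 : ℝ) ^ b / 4) * hrec b
  · rw [hκ a, pow_succ]
    linear_combination (-1 : ℝ) * hrec a
  · linarith [hlow a ha]
  · obtain ⟨a, rfl⟩ : ∃ a, b = a + 1 := ⟨b - 1, by omega⟩
    have h0 : (1 / 4 : ℝ) ^ a = 4 * r := by rw [hr, pow_succ]; ring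
    have h1 := hr1 a (by omega) _ h0.symm
    have h2 := (hγ a _ h0.symm).2
    have h3 := hp0 a
    have h4 := hp1 a
    rw [hκ a, hg, if_pos (by omega), h0]
    rw [h0] at h3 h4
    exact seqb_k3 h3 h4 h1 h2
  · obtain ⟨a, rfl⟩ : ∃ a, b = a + 1 := ⟨b - 1, by omega⟩
    have h0 : (1 / 4 : ℝ) ^ a = 4 * r := by rw [hr, pow_succ]; ring
    have h1 := hlow a (by omega)
    have h2 := hup (by omega) a (by omega)
    have h3 := hp0 u
    rw [hκ a, hg, if_neg (by omega)]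
    rw [← he] at h1 h2 h3
    rw [h0] at h1 h2 ⊢
    constructor <;> linarith
  · cases a with
    | zero => rw [hκ0]; norm_num
    | succ a =>
      rw [hκ a]
      obtain ⟨h1, h2⟩ := hgb a
      obtain ⟨h5, h6⟩ := abs_le.mp (hρb a)
      have h3 := hp0 a
      have h4 := hp1 a
      rw [abs_le]
      constructor <;> nlinarith
  · have h1 := (hγ u _ rfl).2.1
    have h3 := hp0 u
    nlinarith [sq_nonneg ((1 / 4 : ℝ) ^ u)]

end Pool.Agent.MP_450e1b_mp.H55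

end

-- part MP_450e1b_mp.Unif
section

/-
Uniform versions of the asymptotic bounds.
-/

namespace Pool.Agent.MP_450e1b_mp

open Finset Filter Topology

section
variable (c : ℝ) (hc0 : 0 ≤ c) (hc1 : c ≤ 1)
include hc0 hc1

theorem fac_mem (i : ℕ) : 0 ≤ 1 - c * (1 / 4 : ℝ) ^ i ∧ 1 - c * (1 / 4 : ℝ) ^ i ≤ 1 := by
  have h1 : (1 / 4 : ℝ) ^ i ≤ 1 := pow_le_one₀ (by norm_num) (by norm_num)
  have h2 : (0 : ℝ) ≤ (1 / 4 : ℝ) ^ i := by positivity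
  constructor <;> nlinarith

theorem pp_mem (N : ℕ) : 0 ≤ ∏ i ∈ range N, (1 - c * (1 / 4 : ℝ) ^ i) ∧
    ∏ i ∈ range N, (1 - c * (1 / 4 : ℝ) ^ i) ≤ 1 :=
  ⟨Finset.prod_nonneg fun i _ => (fac_mem c hc0 hc1 i).1,
    Finset.prod_le_one (fun i _ => (fac_mem c hc0 hc1 i).1) fun i _ => (fac_mem c hc0 hc1 i).2⟩

theorem pp_tail (j l : ℕ) :
    ∏ i ∈ range j, (1 - c * (1 / 4 : ℝ) ^ i) - 4 / 3 * ((1 / 4) ^ j - (1 / 4) ^ (j + l))
      ≤ ∏ i ∈ range (j + l), (1 - c * (1 / 4 : ℝ) ^ i) ∧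
    ∏ i ∈ range (j + l), (1 - c * (1 / 4 : ℝ) ^ i) ≤ ∏ i ∈ range j, (1 - c * (1 / 4 : ℝ) ^ i) := by
  induction l with
  | zero => simp
  | succ l ih =>
    rw [← add_assoc, Finset.prod_range_succ, pow_succ]
    obtain ⟨h1, h2⟩ := pp_mem c hc0 hc1 (j + l)
    have h3 : (0 : ℝ) ≤ (1 / 4 : ℝ) ^ (j + l) := by positivity
    have h4 : (∏ i ∈ range (j + l), (1 - c * (1 / 4 : ℝ) ^ i)) * c ≤ 1 := mul_le_one₀ h2 hc0 hc1
    have h5 : 0 ≤ (∏ i ∈ range (j + l), (1 - c * (1 / 4 : ℝ) ^ i)) * c := mul_nonneg h1 hc0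
    constructor <;> nlinarith [ih.1, ih.2]

theorem tprod_bounds (j : ℕ) :
    ∏ i ∈ range j, (1 - c * (1 / 4 : ℝ) ^ i) - 4 / 3 * (1 / 4) ^ j
      ≤ ∏' i : ℕ, (1 - c * (1 / 4 : ℝ) ^ i) ∧
    ∏' i : ℕ, (1 - c * (1 / 4 : ℝ) ^ i) ≤ ∏ i ∈ range j, (1 - c * (1 / 4 : ℝ) ^ i) := by
  have h := tendsto_prod_geom c (1 / 4) (by norm_num [abs_of_pos])
  constructor
  · apply ge_of_tendsto h
    filter_upwards [eventually_ge_atTop j] with N hN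
    obtain ⟨l, rfl⟩ := Nat.exists_eq_add_of_le hN
    have : (0 : ℝ) ≤ (1 / 4 : ℝ) ^ (j + l) := by positivity
    linarith [(pp_tail c hc0 hc1 j l).1]
  · apply le_of_tendsto h
    filter_upwards [eventually_ge_atTop j] with N hN
    obtain ⟨l, rfl⟩ := Nat.exists_eq_add_of_le hN
    exact (pp_tail c hc0 hc1 j l).2

end

theorem ct_mem (t : ℕ) : 0 ≤ (1 / (2 ^ t * 4) : ℝ) ∧ (1 / (2 ^ t * 4) : ℝ) ≤ 1 := by
  have ht : (1 : ℝ) ≤ 2 ^ t := one_le_pow₀ (by norm_num)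
  exact ⟨by positivity, by rw [div_le_one (by positivity)]; linarith⟩

theorem uniform_upper (ε : ℝ) (hε : 0 < ε) : ∀ᶠ k in atTop, ∀ t : ℕ,
    (Qex (2 * k + t) k : ℝ) / (2 * k + t).choose k
      < ∏' i : ℕ, (1 - (1 / (2 ^ t * 4) : ℝ) * (1 / 4) ^ i) + ε := by
  have h3 : Tendsto (fun j : ℕ => 1 - (j : ℝ) * (1 / 4) ^ j) atTop (𝓝 1) := by
    have := tendsto_self_mul_const_pow_of_lt_one (r := 1 / 4) (by norm_num) (by norm_num)
    simpa using this.const_sub 1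
  have h4 : Tendsto (fun j : ℕ => 4 / 3 * (1 / 4 : ℝ) ^ j + 1 / (1 - (j : ℝ) * (1 / 4) ^ j)) atTop
      (𝓝 1) := by
    have h5 := (tendsto_pow_atTop_nhds_zero_of_lt_one (r := (1 / 4 : ℝ)) (by norm_num)
      (by norm_num)).const_mul (4 / 3)
    have h6 := h5.add (tendsto_const_nhds (x := (1 : ℝ)).div h3 one_ne_zero)
    simpa using h6
  obtain ⟨j, hj, hw⟩ := ((h4.eventually (gt_mem_nhds (show (1 : ℝ) < 1 + ε by linarith))).and
    (h3.eventually (lt_mem_nhds one_pos))).exists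
  have h1 : Tendsto (fun k : ℕ => 4 / 3 * (1 / 4 : ℝ) ^ j
      + (1 + (j : ℝ) / k) ^ j / (1 - (j : ℝ) * (1 / 4) ^ j)) atTop
      (𝓝 (4 / 3 * (1 / 4 : ℝ) ^ j + 1 / (1 - (j : ℝ) * (1 / 4) ^ j))) := by
    have h2 := (((tendsto_const_div_atTop_nhds_zero_nat (j : ℝ)).const_add 1).pow j).div_const
      (1 - (j : ℝ) * (1 / 4) ^ j)
    simpa using h2.const_add (4 / 3 * (1 / 4 : ℝ) ^ j)
  filter_upwards [h1.eventually (gt_mem_nhds hj), eventually_ge_atTop j, eventually_gt_atTop 0]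
    with k hk hkj hk0 t
  have hU := Qex_upper k t (k - j) j (by omega)
  obtain ⟨c0, c1⟩ := ct_mem t
  obtain ⟨p0, p1⟩ := pp_mem _ c0 c1 j
  have hL := (tprod_bounds _ c0 c1 j).1
  rw [piU_eq] at hU
  set P := ∏ i ∈ range j, (1 - (1 / (2 ^ t * 4) : ℝ) * (1 / 4) ^ i)
  set w := 1 - (j : ℝ) * (1 / 4) ^ j with hwdef
  have hk0' : (0 : ℝ) < k := by exact_mod_cast hk0
  have hw1 : w ≤ 1 := by
    have : 0 ≤ (j : ℝ) * (1 / 4) ^ j := by positivity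
    linarith
  have a0 : w ≤ (1 - 1 / ((2 : ℝ) ^ t * 4 ^ j)) ^ j := by
    have ht : (1 : ℝ) ≤ 2 ^ t := one_le_pow₀ (by norm_num)
    have h4 : (1 : ℝ) ≤ 4 ^ j := one_le_pow₀ (by norm_num)
    have a1 : 1 / ((2 : ℝ) ^ t * 4 ^ j) ≤ (1 / 4) ^ j := by
      rw [one_div_pow]
      apply one_div_le_one_div_of_le (by positivity)
      nlinarith
    have a2 : (1 / 4 : ℝ) ^ j ≤ 1 := pow_le_one₀ (by norm_num) (by norm_num)
    have := one_add_mul_le_pow (a := -(1 / ((2 : ℝ) ^ t * 4 ^ j))) (by linarith) j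
    have a3 : (j : ℝ) * (1 / ((2 : ℝ) ^ t * 4 ^ j)) ≤ j * (1 / 4) ^ j :=
      mul_le_mul_of_nonneg_left a1 (Nat.cast_nonneg j)
    simp only [← sub_eq_add_neg] at this
    linarith
  have a4 : ((k + t + j : ℕ) : ℝ) / (k + t + 1 : ℕ) ≤ 1 + (j : ℝ) / k := by
    rw [div_le_iff₀ (by positivity)]
    push_cast
    have : (j : ℝ) / k * (k + t + 1) = j + j / k * (t + 1) := by field_simp; ring
    have h7 : 0 ≤ (j : ℝ) / k * (t + 1) := by positivity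
    nlinarith
  have a5 : (((k + t + j : ℕ) : ℝ) / (k + t + 1 : ℕ)) ^ j ≤ (1 + (j : ℝ) / k) ^ j :=
    pow_le_pow_left₀ (by positivity) a4 j
  have a6 : (1 : ℝ) ≤ (1 + (j : ℝ) / k) ^ j := one_le_pow₀ (by
    have : 0 ≤ (j : ℝ) / k := by positivity
    linarith)
  have a7 : P / (1 - 1 / ((2 : ℝ) ^ t * 4 ^ j)) ^ j ≤ P / w := div_le_div_of_nonneg_left p0 hw a0
  have a8 : 1 ≤ (1 + (j : ℝ) / k) ^ j / w := by rw [le_div_iff₀ hw]; linarith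
  have a9 : P / (1 - 1 / ((2 : ℝ) ^ t * 4 ^ j)) ^ j * (((k + t + j : ℕ) : ℝ) / (k + t + 1 : ℕ)) ^ j
      ≤ P * ((1 + (j : ℝ) / k) ^ j / w) := by
    calc _ ≤ P / w * (1 + (j : ℝ) / k) ^ j :=
          mul_le_mul a7 a5 (by positivity) (div_nonneg p0 hw.le)
      _ = _ := by ring
  nlinarith

theorem one_sub_sum_le (s : Finset ℕ) (f a : ℕ → ℝ) (h0 : ∀ i ∈ s, 0 ≤ a i)
    (hf : ∀ i ∈ s, 1 - a i ≤ f i) (hs : ∑ i ∈ s, a i ≤ 1) : 1 - ∑ i ∈ s, a i ≤ ∏ i ∈ s, f i := by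
  induction s using Finset.induction_on with
  | empty => simp
  | insert x s hx ih =>
    rw [Finset.sum_insert hx] at hs ⊢
    rw [Finset.prod_insert hx]
    have b0 := h0 x (by simp)
    have b1 := hf x (by simp)
    have b2 : 0 ≤ ∑ i ∈ s, a i := Finset.sum_nonneg fun i hi => h0 i (by simp [hi])
    have b3 := ih (fun i hi => h0 i (by simp [hi])) (fun i hi => hf i (by simp [hi])) (by linarith)
    have : (1 - a x) * (1 - ∑ i ∈ s, a i) ≤ f x * ∏ i ∈ s, f i :=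
      mul_le_mul b1 b3 (by linarith) (by linarith)
    nlinarith

theorem bProd_ge (u k : ℕ) : 1 - (1 / 2 : ℝ) ^ k ≤ bProd u k := by
  have hs : ∑ t ∈ range u, 3 * (4 ^ t * (1 / 4 : ℝ) ^ u) * (1 / 2) ^ k ≤ (1 / 2 : ℝ) ^ k := by
    have e : ∑ t ∈ range u, 3 * (4 ^ t * (1 / 4 : ℝ) ^ u) * (1 / 2) ^ k
        = (∑ t ∈ range u, (4 : ℝ) ^ t) * (4 - 1) * (1 / 4 : ℝ) ^ u * (1 / 2) ^ k := by
      simp only [Finset.sum_mul]
      exact Finset.sum_congr rfl fun _ _ => by ring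
    rw [e, geom_sum_mul]
    have h1 : (4 : ℝ) ^ u * (1 / 4) ^ u = 1 := by rw [← mul_pow]; norm_num
    have h2 : (0 : ℝ) ≤ (1 / 4) ^ u := by positivity
    have h3 : (0 : ℝ) ≤ (1 / 2) ^ k := by positivity
    have h4 : ((4 : ℝ) ^ u - 1) * (1 / 4) ^ u ≤ 1 := by linarith
    nlinarith
  have h5 : (1 / 2 : ℝ) ^ k ≤ 1 := pow_le_one₀ (by norm_num) (by norm_num)
  refine le_trans (by linarith) (one_sub_sum_le (range u) _
    (fun t => 3 * (4 ^ t * (1 / 4 : ℝ) ^ u) * (1 / 2) ^ k) (fun _ _ => by positivity) ?_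
    (hs.trans h5))
  intro t ht
  have htu := (Finset.mem_range.mp ht).le
  set y := 4 ^ t * (1 / 4 : ℝ) ^ u with hy
  have y0 : 0 ≤ y := by positivity
  have y1 : y ≤ 1 := by
    rw [hy, one_div_pow, mul_one_div, div_le_one (by positivity)]
    exact pow_le_pow_right₀ (by norm_num) htu
  have e1 : 2 * 16 ^ t * (1 / 16 : ℝ) ^ u = 2 * (y * y) := by
    rw [hy, show (16 : ℝ) = 4 * 4 by norm_num, show (1 / (4 * 4) : ℝ) = 1 / 4 * (1 / 4) by norm_num,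
      mul_pow, mul_pow]
    ring
  have e2 : (1 / 4 : ℝ) ^ k ≤ (1 / 2) ^ k := pow_le_pow_left₀ (by norm_num) (by norm_num) k
  have e3 : -(1 / 2 : ℝ) ^ k ≤ (-1 / 2 : ℝ) ^ k := by
    have := neg_abs_le ((-1 / 2 : ℝ) ^ k)
    rwa [abs_pow, show |(-1 / 2 : ℝ)| = 1 / 2 by norm_num [abs_of_neg]] at this
  have e4 : (0 : ℝ) ≤ (1 / 4) ^ k := by positivity
  rw [e1]
  have e5 : y * y * (1 / 4 : ℝ) ^ k ≤ y * (1 / 2) ^ k :=
    mul_le_mul (by nlinarith) e2 e4 y0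
  have e6 := mul_le_mul_of_nonneg_left e3 y0
  linarith

theorem uniform_lower (ε : ℝ) (hε : 0 < ε) : ∀ᶠ k in atTop, ∀ u : ℕ,
    ∏' i : ℕ, (1 - (1 / (2 ^ (2 * u) * 4) : ℝ) * (1 / 4) ^ i) - ε
      < (Qex (2 * k + 2 * u) k : ℝ) / (2 * k + 2 * u).choose k := by
  have h2 : Tendsto eProd atTop _ := tendsto_prod_geom (-1 / 2) (-1 / 2) (by norm_num [abs_of_neg])
  have h3 : (∏' i : ℕ, (1 - (-1 / 2 : ℝ) * (-1 / 2) ^ i)) ≠ 0 := by
    simp only [sub_eq_add_neg]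
    apply tprod_one_add_ne_zero_of_summable
    · intro s
      have : |(-1 / 2 : ℝ) * (-1 / 2) ^ s| < 1 := by
        rw [← pow_succ', abs_pow]
        exact pow_lt_one₀ (abs_nonneg _) (by norm_num [abs_of_neg]) (by omega)
      linarith [(abs_lt.mp this).2]
    · exact ((summable_geometric_of_abs_lt_one (r := (-1 / 2 : ℝ))
        (by norm_num [abs_of_neg])).mul_left (-1 / 2)).neg.norm
  have h4 : Tendsto (fun k : ℕ => 1 - (1 / 2 : ℝ) ^ k) atTop (𝓝 1) := by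
    simpa using (tendsto_pow_atTop_nhds_zero_of_lt_one (r := (1 / 2 : ℝ)) (by norm_num)
      (by norm_num)).const_sub 1
  have h5 := ((h4.mul h2).comp (tendsto_fst (g := (atTop : Filter ℕ)))).div
    (h2.comp (tendsto_snd (f := (atTop : Filter ℕ)))) h3
  rw [one_mul, div_self h3] at h5
  have h6 := h5.eventually (lt_mem_nhds (show 1 - ε < 1 by linarith))
  rw [prod_atTop_atTop_eq, eventually_atTop] at h6
  obtain ⟨⟨K₁, K₂⟩, hK⟩ := h6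
  filter_upwards [eventually_ge_atTop K₁, eventually_ge_atTop K₂] with k hk1 hk2 u
  have h7 := hK (k, 2 * (k + u)) ⟨hk1, by simp only; omega⟩
  simp only [Pi.div_apply, Function.comp_apply] at h7
  refine lt_of_lt_of_le ?_ (Qex_lower' k u)
  obtain ⟨c0, c1⟩ := ct_mem (2 * u)
  obtain ⟨p0, p1⟩ := pp_mem _ c0 c1 k
  have hL := (tprod_bounds _ c0 c1 k).2
  set P := ∏ i ∈ range k, (1 - (1 / (2 ^ (2 * u) * 4) : ℝ) * (1 / 4) ^ i)
  have e1 := eProd_pos k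
  have e2 := eProd_pos (2 * (k + u))
  have h8 : (1 - (1 / 2 : ℝ) ^ k) * eProd k / eProd (2 * (k + u))
      ≤ bProd u k * eProd k / eProd (2 * (k + u)) := by
    gcongr
    exact bProd_ge u k
  have e3 : P * bProd u k * eProd k / eProd (2 * (k + u))
      = P * (bProd u k * eProd k / eProd (2 * (k + u))) := by ring
  rw [e3]
  set β := bProd u k * eProd k / eProd (2 * (k + u))
  have h9 : 1 - ε < β := lt_of_lt_of_le h7 h8
  by_cases hβ : 1 ≤ β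
  · nlinarith
  · nlinarith

theorem fac_eq (u i : ℕ) :
    (1 / (2 ^ (2 * u) * 4) : ℝ) * (1 / 4) ^ i = (1 / 4) ^ (u + 1 + i) := by
  rw [pow_mul, pow_add, pow_add, one_div_pow, one_div_pow]
  norm_num
  field_simp

theorem density_uniform :
    TendstoUniformly (fun k u : ℕ => (Qex (2 * k + 2 * u) k : ℝ) / (2 * k + 2 * u).choose k)
      (fun u : ℕ => ∏' i : ℕ, (1 - (1 / 4 : ℝ) ^ (u + 1 + i))) atTop := by
  rw [Metric.tendstoUniformly_iff]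
  intro ε hε
  filter_upwards [uniform_upper ε hε, uniform_lower ε hε] with k h1 h2 u
  have a := h1 (2 * u)
  have b := h2 u
  simp only [fac_eq] at a b
  rw [Real.dist_eq, abs_lt]
  constructor <;> linarith

end Pool.Agent.MP_450e1b_mp

end
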