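import Mathlib
import Pool.Agent.MP_450e1b_mp.Mg.H55_IneqF
import Pool.Agent.MP_450e1b_mp.Mg.Unif
import Pool.Agent.MP_450e1b_mp.Mg.H55_Quantum

/-
The inequalities at the lattice points.
-/

namespace Pool.Agent.MP_450e1b_mp.H55

def PSI (ψ : ℕ → ℝ) : Prop := ∀ a, PS ((1 / 4) ^ (a + 1)) (ψ (a + 1)) (ψ (a + 2))

variable {u : ℕ} {ψ : ℕ → ℝ}

theorem ps0 (hψ : PSI ψ) {m : ℕ} (hm : 1 ≤ m) : PS ((1 / 4) ^ m) (ψ m) (ψ (m + 1)) := by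
  obtain ⟨a, rfl⟩ : ∃ a, m = a + 1 := ⟨m - 1, by omega⟩
  exact hψ a

theorem ps4 (hψ : PSI ψ) (m : ℕ) : PS ((1 / 4) ^ m / 4) (ψ (m + 1)) (ψ (m + 2)) ∧
    PS ((1 / 4) ^ m / 4 / 4) (ψ (m + 2)) (ψ (m + 3)) ∧
    PS ((1 / 4) ^ m / 4 / 4 / 4) (ψ (m + 3)) (ψ (m + 4)) ∧
    PS ((1 / 4) ^ m / 4 / 4 / 4 / 4) (ψ (m + 4)) (ψ (m + 5)) := by
  have h1 := hψ m
  have h2 := hψ (m + 1)
  have h3 := hψ (m + 1 + 1)
  have h4 := hψ (m + 1 + 1 + 1)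
  simp only [q_succ] at h1 h2 h3 h4
  exact ⟨h1, h2, h3, h4⟩

theorem q_le4 {m : ℕ} (hm : 1 ≤ m) : (1 / 4 : ℝ) ^ m ≤ 1 / 4 := by simpa using q_le hm

theorem q_le16 {m : ℕ} (hm : 2 ≤ m) : (1 / 4 : ℝ) ^ m ≤ 1 / 16 :=
  (q_le hm).trans (by norm_num)

structure Inn (Dp Rp Dm Rm Dp' Rp' Dm' Rm' : ℝ) : Prop where
  thp : Dp - Rp ≤ 2 * (Dm - Rm)
  thm : Dm - Rm ≤ 2 * (Dp - Rp)
  ehp : Dp' - Rp' ≤ 4 * (Dp' - Rp)
  ehm : Dm' - Rm' ≤ 4 * (Dm' - Rm)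
  hep : Dp' - Rp ≤ 4 * (Dp - Rp)
  hem : Dm' - Rm ≤ 4 * (Dm - Rm)
  d0 : 2 * Rp + 2 * Rm + Dp' + Dm' ≤ 0
  d1p : 2 * Rp + Rm + Dm' ≤ 0
  d1m : 2 * Rm + Rp + Dp' ≤ 0

theorem scal {z e X x : ℝ} (hz : 0 < z) (h : z * X = e * x) : X = e / z * x := by
  field_simp
  linarith

theorem Inn.scale {Dp Rp Dm Rm Dp' Rp' Dm' Rm' t : ℝ} (ht : 0 ≤ t)
    (h : Inn Dp Rp Dm Rm Dp' Rp' Dm' Rm') :
    Inn (t * Dp) (t * Rp) (t * Dm) (t * Rm) (t * Dp') (t * Rp') (t * Dm') (t * Rm') :=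
  ⟨by linarith [mul_le_mul_of_nonneg_left h.thp ht],
    by linarith [mul_le_mul_of_nonneg_left h.thm ht],
    by linarith [mul_le_mul_of_nonneg_left h.ehp ht],
    by linarith [mul_le_mul_of_nonneg_left h.ehm ht],
    by linarith [mul_le_mul_of_nonneg_left h.hep ht],
    by linarith [mul_le_mul_of_nonneg_left h.hem ht],
    by linarith [mul_le_mul_of_nonneg_left h.d0 ht],
    by linarith [mul_le_mul_of_nonneg_left h.d1p ht],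
    by linarith [mul_le_mul_of_nonneg_left h.d1m ht]⟩

theorem zones (u j : ℕ) : j < u ∨ (u = 0 ∧ j = 0) ∨ (1 ≤ u ∧ j = u + 0) ∨ j = u + 1 ∨
    ∃ l, 2 ≤ l ∧ j = u + l := by
  by_cases h : u + 2 ≤ j
  · exact Or.inr (Or.inr (Or.inr (Or.inr ⟨j - u, by omega, by omega⟩)))
  · omega

theorem inn (hψ : PSI ψ) {m : ℕ} (hm : 1 ≤ m) (j : ℕ) :
    Inn (Dz u ψ m (m + j)) (Rz u ψ m (m + j)) (Dz u ψ (m + j) m) (Rz u ψ (m + j) m)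
      (Dz u ψ (m + 1) (m + 1 + j)) (Rz u ψ (m + 1) (m + 1 + j)) (Dz u ψ (m + 1 + j) (m + 1))
      (Rz u ψ (m + 1 + j) (m + 1)) := by
  have p0 := (q_pos m).le
  have p1 := q_le4 hm
  have p2 := q_le_one m
  have e0 := (q_pos u).le
  have e1 := q_le_one u
  have h0 := ps0 hψ hm
  obtain ⟨h1, h2, h3, h4⟩ := ps4 hψ m
  rcases zones u j with h | ⟨rfl, rfl⟩ | ⟨h, ej⟩ | rfl | ⟨l, h, rfl⟩
  · have z0 := q_pos j
    have z1 := q_le_one j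
    rw [scal z0 (bDp_eq u ψ m j h), scal z0 (bRp_eq u ψ m j h), scal z0 (bDm_eq u ψ m j h),
      scal z0 (bRm_eq u ψ m j h), scal z0 (bDp_eq u ψ (m + 1) j h),
      scal z0 (bRp_eq u ψ (m + 1) j h), scal z0 (bDm_eq u ψ (m + 1) j h),
      scal z0 (bRm_eq u ψ (m + 1) j h), q_succ]
    exact Inn.scale (by positivity) ⟨b_thp p0 p1 z0.le z1, b_thm p0 p1 z0.le z1,
      b_ehp p0 p2 z0.le z1, b_ehm p0 p1 z0.le z1, b_hep p0 p1 z0.le z1, b_hem p0 p1 z0.le z1,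
      b_d0 p0 p1 z0.le z1, b_d1p p0 p1 z0.le z1, b_d1m p0 p1 z0.le z1⟩
  · simp only [add_zero]
    rw [oDp_eq, oRp_eq, oDp_eq, oRp_eq, q_succ]
    exact ⟨o_thp p0 p1 h0 h1 h2 h3 h4, o_thp p0 p1 h0 h1 h2 h3 h4, o_ehp p0 p1 h0 h1 h2 h3 h4,
      o_ehp p0 p1 h0 h1 h2 h3 h4, o_hep p0 p1 h0 h1 h2 h3 h4, o_hep p0 p1 h0 h1 h2 h3 h4,
      o_d0 p0 p1 h0 h1 h2 h3 h4, o_d1p p0 p1 h0 h1 h2 h3 h4, o_d1p p0 p1 h0 h1 h2 h3 h4⟩
  · have e2 := q_le4 h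
    rw [ej, hDp_eq u ψ m h, hRp_eq u ψ m h, hDm_eq u ψ m h, hRm_eq u ψ m h, hDp_eq u ψ (m + 1) h,
      hRp_eq u ψ (m + 1) h, hDm_eq u ψ (m + 1) h, hRm_eq u ψ (m + 1) h, q_succ]
    exact ⟨h_thp p0 p1 e0 e2 h0 h1 h2 h3 h4, h_thm p0 p1 e0 e2 h0 h1 h2 h3 h4,
      h_ehp p0 p2 e0 e2 h1 h2 h3 h4, h_ehm p0 p1 e0 e2 h0 h1 h2 h3 h4,
      h_hep p0 p1 e0 e2 h0 h1 h2 h3 h4, h_hem p0 p1 e0 e2 h0 h1 h2 h3 h4,
      h_d0 p0 p1 e0 e2 h0 h1 h2 h3 h4, h_d1p p0 p1 e0 e2 h0 h1 h2 h3 h4,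
      h_d1m p0 p1 e0 e2 h0 h1 h2 h3 h4⟩
  · rw [gDp_eq u ψ m, gRp_eq u ψ m, gDm_eq u ψ m, gRm_eq u ψ m, gDp_eq u ψ (m + 1),
      gRp_eq u ψ (m + 1), gDm_eq u ψ (m + 1), gRm_eq u ψ (m + 1), q_succ]
    exact ⟨g_thp p0 p1 e0 e1 h0 h1 h2 h3 h4, g_thm p0 p1 e0 e1 h0 h1 h2 h3 h4,
      g_ehp p0 p2 e0 e1 h1 h2 h3 h4, g_ehm p0 p1 e0 e1 h0 h1 h2 h3 h4,
      g_hep p0 p1 e0 e1 h0 h1 h2 h3 h4, g_hem p0 p1 e0 e1 h0 h1 h2 h3 h4,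
      g_d0 p0 p1 e0 e1 h0 h1 h2 h3 h4, g_d1p p0 p1 e0 e1 h0 h1 h2 h3 h4,
      g_d1m p0 p1 e0 e1 h0 h1 h2 h3 h4⟩
  · have w0 := (q_pos l).le
    have w1 := q_le16 h
    rw [fDp_eq u ψ m l h, fRp_eq u ψ m l h, fDm_eq u ψ m l h, fRm_eq u ψ m l h,
      fDp_eq u ψ (m + 1) l h, fRp_eq u ψ (m + 1) l h, fDm_eq u ψ (m + 1) l h,
      fRm_eq u ψ (m + 1) l h, q_succ]
    exact ⟨f_thp p0 p1 e0 e1 w0 w1 h0 h1 h2 h3 h4, f_thm p0 p1 e0 e1 w0 w1 h0 h1 h2 h3 h4,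
      f_ehp p0 p2 e0 e1 w0 w1 h1 h2 h3 h4, f_ehm p0 p1 e0 e1 w0 w1 h0 h1 h2 h3 h4,
      f_hep p0 p1 e0 e1 w0 w1 h0 h1 h2 h3 h4, f_hem p0 p1 e0 e1 w0 w1 h0 h1 h2 h3 h4,
      f_d0 p0 p1 e0 e1 w0 w1 h0 h1 h2 h3 h4, f_d1p p0 p1 e0 e1 w0 w1 h0 h1 h2 h3 h4,
      f_d1m p0 p1 e0 e1 w0 w1 h0 h1 h2 h3 h4⟩

structure Bn1 (Dp Rp Dm Rm Dp' Rp' Dm' Rm' ρ κ : ℝ) : Prop where
  ehp : Dp' - Rp' ≤ 4 * (Dp' - Rp)
  ehm : Dm' - Rm' ≤ 4 * (Dm' - (Rm + ρ))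
  hem : Dm' - (Rm + ρ) ≤ 4 * (Dm - (κ + ρ / 2) - (Rm + ρ))
  d0 : 2 * Rp + 2 * (Rm + ρ) + Dp' + Dm' ≤ 0
  d1p : 2 * Rp + (Rm + ρ) + Dm' ≤ 0
  d2 : Rm + ρ + Dp' ≤ 0
  e0 : Rp ≤ Dp + κ

theorem Bn1.unscale {Dp Rp Dm Rm Dp' Rp' Dm' Rm' ρ κ z : ℝ} (hz : 0 < z)
    (h : Bn1 (z * Dp) (z * Rp) (z * Dm) (z * Rm) (z * Dp') (z * Rp') (z * Dm') (z * Rm') (ρ * z)
      (z * κ)) : Bn1 Dp Rp Dm Rm Dp' Rp' Dm' Rm' ρ κ :=
  ⟨le_of_mul_le_mul_left (by linarith [h.ehp]) hz, le_of_mul_le_mul_left (by linarith [h.ehm]) hz,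
    le_of_mul_le_mul_left (by linarith [h.hem]) hz, le_of_mul_le_mul_left (by linarith [h.d0]) hz,
    le_of_mul_le_mul_left (by linarith [h.d1p]) hz, le_of_mul_le_mul_left (by linarith [h.d2]) hz,
    le_of_mul_le_mul_left (by linarith [h.e0]) hz⟩

variable {c : ℝ} {ρ κ : ℕ → ℝ}

theorem bn1 (hψ : PSI ψ) (hB : Bd u c ρ κ) {j : ℕ} (hj : 1 ≤ j) :
    Bn1 (Dz u ψ 0 (0 + j)) (Rz u ψ 0 (0 + j)) (Dz u ψ (0 + j) 0) (Rz u ψ (0 + j) 0)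
      (Dz u ψ (0 + 1) (0 + 1 + j)) (Rz u ψ (0 + 1) (0 + 1 + j)) (Dz u ψ (0 + 1 + j) (0 + 1))
      (Rz u ψ (0 + 1 + j) (0 + 1)) (ρ j) (κ j) := by
  have e0 := (q_pos u).le
  have e1 := q_le_one u
  obtain ⟨h1, h2, h3, h4⟩ := ps4 hψ 0
  rw [pow_zero] at h1 h2 h3 h4
  rcases zones u j with h | ⟨rfl, rfl⟩ | ⟨h, ej⟩ | rfl | ⟨l, h, rfl⟩
  · have z0 := q_pos j
    have z1 := q_le_one j
    have z2 := q_le4 hj
    have hr := hB.r2 j h.le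
    have hk := hB.k4 j hj h.le _ _ rfl rfl
    have hez : (1 / 4 : ℝ) ^ u ≤ (1 / 4) ^ j / 4 := by rw [← q_succ]; exact q_le h
    apply Bn1.unscale z0
    rw [bDp_eq u ψ 0 j h, bRp_eq u ψ 0 j h, bDm_eq u ψ 0 j h, bRm_eq u ψ 0 j h,
      bDp_eq u ψ (0 + 1) j h, bRp_eq u ψ (0 + 1) j h, bDm_eq u ψ (0 + 1) j h,
      bRm_eq u ψ (0 + 1) j h, q_succ, pow_zero]
    refine ⟨?_, b_behm (κ := 0) z0.le z1 e0 hr, b_bhem z0.le z2 e0 hr hez hk, ?_, ?_,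
      b_bd2 (κ := 0) z0.le z1 e0 hr, b_be0 z0.le z2 e0 hr hez hk⟩
    · linarith [mul_le_mul_of_nonneg_left (b_ehp zero_le_one le_rfl z0.le z1) e0]
    · linarith [b_bd0 (κ := 0) z0.le z1 e0 hr]
    · linarith [b_bd1p (κ := 0) z0.le z2 e0 hr]
  · omega
  · have e2 := q_le4 h
    have hr := hB.r1 u le_rfl _ rfl
    have hk := hB.k4 u h le_rfl _ _ rfl rfl
    rw [ej, hDp_eq u ψ 0 h, hRp_eq u ψ 0 h, hDm_eq u ψ 0 h, hRm_eq u ψ 0 h, hDp_eq u ψ (0 + 1) h,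
      hRp_eq u ψ (0 + 1) h, hDm_eq u ψ (0 + 1) h, hRm_eq u ψ (0 + 1) h, q_succ, pow_zero]
    exact ⟨h_ehp zero_le_one le_rfl e0 e2 h1 h2 h3 h4, h_behm (κ := 0) e0 e2 h1 h2 h3 h4 hr,
      h_bhem e0 e2 h1 h2 h3 h4 hr hk, h_bd0 (κ := 0) e0 e2 h1 h2 h3 h4 hr,
      h_bd1p (κ := 0) e0 e2 h1 h2 h3 h4 hr, h_bd2 (κ := 0) e0 e2 h1 h2 h3 h4 hr,
      h_be0 e0 e2 h1 h2 h3 h4 hr hk⟩
  · have hr := hB.r1 (u + 1) (by omega) _ (q_succ u).symm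
    have hk := hB.k3 (u + 1) (by omega) _ (q_succ u).symm
    rw [gDp_eq u ψ 0, gRp_eq u ψ 0, gDm_eq u ψ 0, gRm_eq u ψ 0, gDp_eq u ψ (0 + 1),
      gRp_eq u ψ (0 + 1), gDm_eq u ψ (0 + 1), gRm_eq u ψ (0 + 1), q_succ, pow_zero]
    exact ⟨g_ehp zero_le_one le_rfl e0 e1 h1 h2 h3 h4, g_behm (κ := 0) e0 e1 h1 h2 h3 h4 hr,
      g_bhem e0 e1 h1 h2 h3 h4 hr hk, g_bd0 (κ := 0) e0 e1 h1 h2 h3 h4 hr,
      g_bd1p (κ := 0) e0 e1 h1 h2 h3 h4 hr, g_bd2 (κ := 0) e0 e1 h1 h2 h3 h4 hr,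
      g_be0 e0 e1 h1 h2 h3 h4 hr hk⟩
  · have w0 := (q_pos l).le
    have w1 := q_le16 h
    have hr := hB.r1 (u + l) (by omega) _ (pow_add _ u l).symm
    have hk := hB.k3 (u + l) (by omega) _ (pow_add _ u l).symm
    rw [fDp_eq u ψ 0 l h, fRp_eq u ψ 0 l h, fDm_eq u ψ 0 l h, fRm_eq u ψ 0 l h,
      fDp_eq u ψ (0 + 1) l h, fRp_eq u ψ (0 + 1) l h, fDm_eq u ψ (0 + 1) l h,
      fRm_eq u ψ (0 + 1) l h, q_succ, pow_zero]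
    exact ⟨f_ehp zero_le_one le_rfl e0 e1 w0 w1 h1 h2 h3 h4,
      f_behm (κ := 0) e0 e1 w0 w1 h1 h2 h3 h4 hr, f_bhem e0 e1 w0 w1 h1 h2 h3 h4 hr hk,
      f_bd0 (κ := 0) e0 e1 w0 w1 h1 h2 h3 h4 hr, f_bd1p (κ := 0) e0 e1 w0 w1 h1 h2 h3 h4 hr,
      f_bd2 (κ := 0) e0 e1 w0 w1 h1 h2 h3 h4 hr, f_be0 e0 e1 w0 w1 h1 h2 h3 h4 hr hk⟩

structure Bn0 (D R D' R' ρ : ℝ) : Prop where
  eh : D' - R' ≤ 4 * (D' - (R + ρ))
  d0 : 2 * R + 2 * (R + ρ) + D' + D' ≤ 0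
  d2 : R + ρ + D' ≤ 0
  e0 : R + ρ ≤ D - ρ / 2
  neg : ρ ≤ 0

theorem bn0 (hψ : PSI ψ) (hB : Bd u c ρ κ) :
    Bn0 (Dz u ψ 0 0) (Rz u ψ 0 0) (Dz u ψ 1 1) (Rz u ψ 1 1) (ρ 0) := by
  have e0 := (q_pos u).le
  obtain ⟨h1, h2, h3, h4⟩ := ps4 hψ 0
  rw [pow_zero] at h1 h2 h3 h4
  have hr := hB.r2 0 (Nat.zero_le u)
  rw [pow_zero, mul_one] at hr
  rcases Nat.eq_zero_or_pos u with rfl | h
  · have hr' := hB.r1 0 le_rfl 1 (pow_zero _).symm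
    rw [oDp_eq, oRp_eq, oDp_eq, oRp_eq, pow_zero, pow_one]
    exact ⟨o_behm (κ := 0) h1 h2 h3 h4 hr', o_bd0 (κ := 0) h1 h2 h3 h4 hr',
      o_bd2 (κ := 0) h1 h2 h3 h4 hr', o_be00 (κ := 0) h1 h2 h3 h4 hr', by linarith⟩
  · have a1 := bDp_eq u ψ 0 0 h
    have a2 := bRp_eq u ψ 0 0 h
    have a3 := bRm_eq u ψ 0 0 h
    have a4 := bDp_eq u ψ 1 0 h
    have a5 := bDm_eq u ψ 1 0 h
    have a6 := bRm_eq u ψ 1 0 h
    simp only [pow_zero, pow_one, one_mul, add_zero] at a1 a2 a3 a4 a5 a6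
    refine ⟨?_, ?_, ?_, ?_, by linarith⟩
    · linarith [b_behm (κ := 0) zero_le_one le_rfl e0 hr]
    · linarith [b_bd0 (κ := 0) zero_le_one le_rfl e0 hr]
    · linarith [b_bd2 (κ := 0) zero_le_one le_rfl e0 hr]
    · linarith [b_be00 (κ := 0) e0 hr]

theorem far_inn (hψ : PSI ψ) {m l : ℕ} (hm : 1 ≤ m) (h : 2 ≤ l) :
    Dz u ψ m (m + (u + l)) ≤ 1 + 10 * (1 / 4) ^ l ∧ -Dz u ψ (m + (u + l)) m ≤ 1 + 10 * (1 / 4) ^ l ∧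
      -Rz u ψ (m + (u + l)) m ≤ 1 + 10 * (1 / 4) ^ l := by
  have p0 := (q_pos m).le
  have p1 := q_le4 hm
  have e0 := (q_pos u).le
  have e1 := q_le_one u
  have w0 := (q_pos l).le
  have w1 := q_le16 h
  have h0 := ps0 hψ hm
  obtain ⟨h1, h2, h3, h4⟩ := ps4 hψ m
  rw [fDp_eq u ψ m l h, fDm_eq u ψ m l h, fRm_eq u ψ m l h]
  exact ⟨f_s1 p0 p1 e0 e1 w0 w1 h0 h1 h2 h3 h4, f_s2 p0 p1 e0 e1 w0 w1 h0 h1 h2 h3 h4,
    f_s3 p0 p1 e0 e1 w0 w1 h0 h1 h2 h3 h4⟩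

theorem far_bn (hψ : PSI ψ) (hB : Bd u c ρ κ) {l : ℕ} (h : 2 ≤ l) :
    Dz u ψ 0 (0 + (u + l)) + κ (u + l) ≤ 1 + 10 * (1 / 4) ^ l ∧
      -(Dz u ψ (0 + (u + l)) 0 - (κ (u + l) + ρ (u + l) / 2)) ≤ 1 + 10 * (1 / 4) ^ l ∧
      -(Rz u ψ (0 + (u + l)) 0 + ρ (u + l)) ≤ 1 + 10 * (1 / 4) ^ l := by
  have e0 := (q_pos u).le
  have e1 := q_le_one u
  have w0 := (q_pos l).le
  have w1 := q_le16 h
  obtain ⟨h1, h2, h3, h4⟩ := ps4 hψ 0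
  rw [pow_zero] at h1 h2 h3 h4
  have hr := hB.r1 (u + l) (by omega) _ (pow_add _ u l).symm
  have hk := hB.k3 (u + l) (by omega) _ (pow_add _ u l).symm
  rw [fDp_eq u ψ 0 l h, fDm_eq u ψ 0 l h, fRm_eq u ψ 0 l h, pow_zero]
  exact ⟨f_bs1 e0 e1 w0 w1 h1 h2 h3 h4 hr hk, f_bs2 e0 e1 w0 w1 h1 h2 h3 h4 hr hk,
    f_bs3 (κ := 0) e0 e1 w0 w1 h1 h2 h3 h4 hr⟩

end Pool.Agent.MP_450e1b_mp.H55

/-
The certificate in terms of edge values.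
-/

namespace Pool.Agent.MP_450e1b_mp.H55

noncomputable def DD (u : ℕ) (ψ ρ κ : ℕ → ℝ) (a b : ℕ) : ℝ :=
  Dz u ψ a b + ((if a = 0 then κ b else 0) - (if b = 0 then κ a + ρ a / 2 else 0))

noncomputable def RR (u : ℕ) (ψ ρ : ℕ → ℝ) (a b : ℕ) : ℝ :=
  Rz u ψ a b + (if b = 0 then ρ a else 0)

variable {u : ℕ} {ψ ρ κ : ℕ → ℝ} {c : ℝ}

theorem DD_ss (a b : ℕ) : DD u ψ ρ κ (a + 1) (b + 1) = Dz u ψ (a + 1) (b + 1) := by simp [DD]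

theorem DD_0s (b : ℕ) : DD u ψ ρ κ 0 (b + 1) = Dz u ψ 0 (b + 1) + κ (b + 1) := by simp [DD]

theorem DD_s0 (a : ℕ) :
    DD u ψ ρ κ (a + 1) 0 = Dz u ψ (a + 1) 0 - (κ (a + 1) + ρ (a + 1) / 2) := by
  simp [DD]
  ring

theorem DD_00 : DD u ψ ρ κ 0 0 = Dz u ψ 0 0 - ρ 0 / 2 := by
  simp [DD]
  ring

theorem RR_s (a b : ℕ) : RR u ψ ρ a (b + 1) = Rz u ψ a (b + 1) := by simp [RR]

theorem RR_0 (a : ℕ) : RR u ψ ρ a 0 = Rz u ψ a 0 + ρ a := by simp [RR]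

theorem inn' (hψ : PSI ψ) {a b : ℕ} (h : a ≤ b) :
    Inn (Dz u ψ (a + 1) (b + 1)) (Rz u ψ (a + 1) (b + 1)) (Dz u ψ (b + 1) (a + 1))
      (Rz u ψ (b + 1) (a + 1)) (Dz u ψ (a + 1 + 1) (b + 1 + 1)) (Rz u ψ (a + 1 + 1) (b + 1 + 1))
      (Dz u ψ (b + 1 + 1) (a + 1 + 1)) (Rz u ψ (b + 1 + 1) (a + 1 + 1)) := by
  have := inn (u := u) hψ (m := a + 1) (by omega) (b - a)
  rwa [show a + 1 + (b - a) = b + 1 by omega, show a + 1 + 1 + (b - a) = b + 1 + 1 by omega] at this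

theorem bn1' (hψ : PSI ψ) (hB : Bd u c ρ κ) (b : ℕ) :
    Bn1 (Dz u ψ 0 (b + 1)) (Rz u ψ 0 (b + 1)) (Dz u ψ (b + 1) 0) (Rz u ψ (b + 1) 0)
      (Dz u ψ (0 + 1) (b + 1 + 1)) (Rz u ψ (0 + 1) (b + 1 + 1)) (Dz u ψ (b + 1 + 1) (0 + 1))
      (Rz u ψ (b + 1 + 1) (0 + 1)) (ρ (b + 1)) (κ (b + 1)) := by
  have := bn1 hψ hB (j := b + 1) (by omega)
  rwa [show 0 + 1 + (b + 1) = b + 1 + 1 by omega, show 0 + (b + 1) = b + 1 by omega] at this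

theorem bn0' (hψ : PSI ψ) (hB : Bd u c ρ κ) :
    Bn0 (Dz u ψ 0 0) (Rz u ψ 0 0) (Dz u ψ (0 + 1) (0 + 1)) (Rz u ψ (0 + 1) (0 + 1)) (ρ 0) :=
  bn0 hψ hB

theorem c_th (hψ : PSI ψ) (a b : ℕ) :
    DD u ψ ρ κ (a + 1) (b + 1) - RR u ψ ρ (a + 1) (b + 1)
      ≤ 2 * (DD u ψ ρ κ (b + 1) (a + 1) - RR u ψ ρ (b + 1) (a + 1)) := by
  simp only [DD_ss, RR_s]
  rcases le_total a b with h | h
  · exact (inn' hψ h).thp
  · exact (inn' hψ h).thm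

theorem c_eh (hψ : PSI ψ) (hB : Bd u c ρ κ) (a b : ℕ) :
    DD u ψ ρ κ (a + 1) (b + 1) - RR u ψ ρ (a + 1) (b + 1)
      ≤ 4 * (DD u ψ ρ κ (a + 1) (b + 1) - RR u ψ ρ a b) := by
  rcases a with _ | a <;> rcases b with _ | b <;> simp only [DD_ss, RR_s, RR_0]
  · exact (bn0' hψ hB).eh
  · exact (bn1' hψ hB b).ehp
  · exact (bn1' hψ hB a).ehm
  · rcases le_total a b with h | h
    · exact (inn' hψ h).ehp
    · exact (inn' hψ h).ehm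

theorem c_he (hψ : PSI ψ) (hB : Bd u c ρ κ) (a b : ℕ) :
    DD u ψ ρ κ (a + 1 + 1) (b + 1) - RR u ψ ρ (a + 1) b
      ≤ 4 * (DD u ψ ρ κ (a + 1) b - RR u ψ ρ (a + 1) b) := by
  rcases b with _ | b <;> simp only [DD_ss, DD_s0, RR_s, RR_0]
  · exact (bn1' hψ hB a).hem
  · rcases le_total a b with h | h
    · exact (inn' hψ h).hep
    · exact (inn' hψ h).hem

theorem c_d0 (hψ : PSI ψ) (hB : Bd u c ρ κ) (a b : ℕ) :
    2 * RR u ψ ρ a b + 2 * RR u ψ ρ b a + DD u ψ ρ κ (a + 1) (b + 1)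
      + DD u ψ ρ κ (b + 1) (a + 1) ≤ 0 := by
  rcases a with _ | a <;> rcases b with _ | b <;> simp only [DD_ss, RR_s, RR_0]
  · linarith [(bn0' hψ hB).d0, (bn0' hψ hB).neg]
  · exact (bn1' hψ hB b).d0
  · linarith [(bn1' hψ hB a).d0]
  · rcases le_total a b with h | h
    · exact (inn' hψ h).d0
    · linarith [(inn' (u := u) hψ h).d0]

theorem c_d1 (hψ : PSI ψ) (hB : Bd u c ρ κ) (a b : ℕ) :
    2 * RR u ψ ρ a (b + 1) + RR u ψ ρ (b + 1) a + DD u ψ ρ κ (b + 1 + 1) (a + 1) ≤ 0 := by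
  rcases a with _ | a <;> simp only [DD_ss, RR_s, RR_0]
  · exact (bn1' hψ hB b).d1p
  · rcases le_total a b with h | h
    · exact (inn' hψ h).d1p
    · exact (inn' hψ h).d1m

theorem c_d2 (hψ : PSI ψ) (hB : Bd u c ρ κ) (a : ℕ) :
    RR u ψ ρ a 0 + DD u ψ ρ κ (0 + 1) (a + 1) ≤ 0 := by
  rcases a with _ | a <;> simp only [DD_ss, RR_0]
  · exact (bn0' hψ hB).d2
  · exact (bn1' hψ hB a).d2

theorem c_e0 (hψ : PSI ψ) (hB : Bd u c ρ κ) (b : ℕ) : RR u ψ ρ 0 b ≤ DD u ψ ρ κ 0 b := by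
  rcases b with _ | b <;> simp only [DD_0s, DD_00, RR_s, RR_0]
  · exact (bn0' hψ hB).e0
  · exact (bn1' hψ hB b).e0

theorem c_far (hψ : PSI ψ) (hB : Bd u c ρ κ) {l : ℕ} (h : 2 ≤ l) (a : ℕ) :
    DD u ψ ρ κ a (a + (u + l)) ≤ 1 + 10 * (1 / 4) ^ l ∧
      -DD u ψ ρ κ (a + (u + l)) a ≤ 1 + 10 * (1 / 4) ^ l ∧
      -RR u ψ ρ (a + (u + l)) a ≤ 1 + 10 * (1 / 4) ^ l := by
  rcases a with _ | a
  · have := far_bn hψ hB h
    obtain ⟨t, ht⟩ : ∃ t, u + l = t + 1 := ⟨u + l - 1, by omega⟩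
    rw [ht, zero_add] at this ⊢
    rw [DD_0s, DD_s0, RR_0]
    exact this
  · have := far_inn (u := u) hψ (m := a + 1) (by omega) h
    rw [show a + 1 + (u + l) = a + (u + l) + 1 by omega] at this ⊢
    rw [DD_ss, DD_ss, RR_s]
    exact this

theorem psi_bdd (hψ : PSI ψ) (h0 : ψ 0 = 0) (a : ℕ) : |ψ a| ≤ 2 := by
  rcases a with _ | a
  · simp [h0]
  · obtain ⟨-, h1, h2⟩ := hψ a
    have p0 := (q_pos (a + 1)).le
    have p1 := q_le4 (m := a + 1) (by omega)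
    generalize (1 / 4 : ℝ) ^ (a + 1) = p at *
    have p2 : p ^ 2 ≤ 1 / 16 := by nlinarith
    have p3 : p ^ 3 ≤ 1 / 64 := by nlinarith [sq_nonneg p]
    have p4 : 0 ≤ p ^ 2 := by positivity
    have p5 : 0 ≤ p ^ 3 := by positivity
    rw [abs_le]
    constructor <;> linarith

theorem drCert (hψ : PSI ψ) (h0 : ψ 0 = 0) (hB : Bd u c ρ κ) :
    DRCert u c (DD u ψ ρ κ) (RR u ψ ρ) where
  eq0 b := by
    have h := z_eq0 u ψ b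
    rcases b with _ | b
    · have k := hB.k0
      simp only [VA, DD_0s, DD_00, RR_0, pow_zero] at h ⊢
      linarith
    · have k := hB.k1 b
      simp only [VA, DD_0s, RR_s] at h ⊢
      linarith
  eqs a b := by
    have h := z_eqs u ψ a b
    rcases b with _ | b
    · have k := hB.k2 a
      simp only [VA, DD_ss, DD_s0, RR_0, pow_zero] at h ⊢
      linarith
    · simpa only [VA, DD_ss, RR_s] using h
  cross a b := by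
    have h := z_cross u ψ a b
    rcases a with _ | a <;> rcases b with _ | b <;>
      simp only [DD_ss, DD_s0, DD_0s, DD_00, RR_s, RR_0] <;> linarith
  e0 := c_e0 hψ hB
  th := c_th hψ
  eh := c_eh hψ hB
  he := c_he hψ hB
  d0 := c_d0 hψ hB
  d1 := c_d1 hψ hB
  d2 := c_d2 hψ hB
  bdd := by
    refine ⟨185, fun a b => ?_⟩
    obtain ⟨h1, h2⟩ := z_bound u ψ (psi_bdd hψ h0) a b
    have h3 := abs_le.mp (hB.bdd a).1
    have h4 := abs_le.mp (hB.bdd a).2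
    have h5 := abs_le.mp (hB.bdd b).2
    have h6 := abs_le.mp h1
    have h7 := abs_le.mp h2
    simp only [DD, RR, abs_le]
    split_ifs <;> refine ⟨⟨?_, ?_⟩, ?_, ?_⟩ <;>
      linarith [h3.1, h3.2, h4.1, h4.2, h5.1, h5.2, h6.1, h6.2, h7.1, h7.2]
  start ε hε := by
    obtain ⟨l, hl⟩ := exists_pow_lt_of_lt_one (show 0 < ε / 10 by positivity)
      (show (1 / 4 : ℝ) < 1 by norm_num)
    have hq : ∀ l', l ≤ l' → 10 * (1 / 4 : ℝ) ^ l' ≤ ε := fun l' h => by linarith [q_le h]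
    refine ⟨u + (l + 2), by omega, fun a => ⟨?_, ?_⟩⟩
    · have h1 := (c_far hψ hB (l := l + 2) (by omega) a).1
      have h2 : RR u ψ ρ a (a + (u + (l + 2))) ≤ DD u ψ ρ κ a (a + (u + (l + 2))) := by
        rcases a with _ | a
        · exact c_e0 hψ hB _
        · rw [show a + 1 + (u + (l + 2)) = a + (u + (l + 2)) + 1 by omega]
          linarith [c_th (u := u) (ρ := ρ) (κ := κ) hψ a (a + (u + (l + 2))),
            c_th (u := u) (ρ := ρ) (κ := κ) hψ (a + (u + (l + 2))) a]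
      have h3 := mul_nonneg (q_pos (a + (u + (l + 2)))).le (sub_nonneg.2 h2)
      have h4 := hq (l + 2) (by omega)
      unfold VA
      linarith
    · obtain ⟨-, h1, h2⟩ := c_far hψ hB (l := l + 3) (by omega) a
      have h4 := hq (l + 3) (by omega)
      rw [show a + (u + (l + 2)) + 1 = a + (u + (l + 3)) by omega]
      have p0 := (q_pos a).le
      have p1 := q_le_one a
      unfold VA
      nlinarith

theorem exists_DRCert (u : ℕ) : ∃ (c : ℝ) (D R : ℕ → ℕ → ℝ), DRCert u c D R ∧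
    c * ∏' i : ℕ, (1 - (1 / 4 : ℝ) ^ (u + 1 + i)) = 1 ∧ 0 < c := by
  obtain ⟨c, ρ, κ, hB, hc⟩ := exists_Bd u
  obtain ⟨ψ, hψ⟩ := exists_psi
  refine ⟨c, _, _, drCert (ψ := fun a => if a = 0 then 0 else ψ a) (fun a => ?_) (by simp) hB, hc⟩
  simpa only [PS, Nat.add_eq_zero_iff, one_ne_zero, and_false, if_false, OfNat.ofNat_ne_zero]
    using hψ a _ rfl

end Pool.Agent.MP_450e1b_mp.H55

/-
The asymptotic density of maximally mixed sets for every number of qubits.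
-/

namespace Pool.Agent.MP_450e1b_mp.H55

open Finset Filter Topology Pool.Agent.MP_450e1b_mp

theorem P_bounds (u : ℕ) : 1 - 4 / 3 * (1 / 4 : ℝ) ^ u ≤ ∏' i : ℕ, (1 - (1 / 4 : ℝ) ^ (u + 1 + i)) ∧
    ∏' i : ℕ, (1 - (1 / 4 : ℝ) ^ (u + 1 + i)) ≤ 1 := by
  constructor
  · have h := tendsto_prod_geom ((1 / 4 : ℝ) ^ (u + 1)) (1 / 4) (by norm_num [abs_of_pos])
    simp only [← pow_add] at h
    apply ge_of_tendsto' h
    intro N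
    have hs : ∑ i ∈ range N, (1 / 4 : ℝ) ^ (u + 1 + i) ≤ 1 / 3 * (1 / 4) ^ u := by
      have e : ∀ N : ℕ, ∑ i ∈ range N, (1 / 4 : ℝ) ^ (u + 1 + i)
          = 1 / 3 * (1 / 4) ^ u * (1 - (1 / 4) ^ N) := by
        intro N
        induction N with
        | zero => simp
        | succ N ih => rw [Finset.sum_range_succ, ih]; ring
      rw [e]
      nlinarith [q_pos u, q_pos N]
    have := one_sub_sum_le (range N) (fun i => 1 - (1 / 4 : ℝ) ^ (u + 1 + i))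
      (fun i => (1 / 4 : ℝ) ^ (u + 1 + i)) (fun i _ => (q_pos _).le) (fun i _ => le_rfl)
      (by linarith [q_le_one u])
    linarith [q_pos u]
  · have h := (tprod_bounds ((1 / 4 : ℝ) ^ (u + 1)) (q_pos _).le (q_le_one _) 0).2
    simpa only [← pow_add, Finset.range_zero, Finset.prod_empty] using h

theorem ratio_le_one (n k : ℕ) : (Qex n k : ℝ) / n.choose k ≤ 1 := by
  classical
  obtain ⟨ψ, hψ, h⟩ := exists_Qex n k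
  apply div_le_one_of_le₀ _ (Nat.cast_nonneg _)
  rw [h, mixedCount_eq ψ hψ]
  exact_mod_cast (Finset.card_filter_le _ _).trans (by simp)

theorem odd_upper (u : ℕ) (ε : ℝ) (hε : 0 < ε) : ∀ᶠ k in atTop,
    (Qex (2 * k + 2 * u + 1) k : ℝ) / (2 * k + 2 * u + 1).choose k
      ≤ ∏' i : ℕ, (1 - (1 / 4 : ℝ) ^ (u + 1 + i)) + ε := by
  classical
  obtain ⟨c, D, R, hDR, hc, hc0⟩ := exists_DRCert u
  obtain ⟨K, hK⟩ := chain hc0.le (realCert_of_latCert hc0.le (latCert_of_DRCert hDR)) ε hε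
  filter_upwards [eventually_ge_atTop K] with k hk
  obtain ⟨ψ, hψ, h⟩ := exists_Qex (2 * k + 2 * u + 1) k
  obtain ⟨w, hw, hw1⟩ := exists_WS ψ hψ
  have h1 := hK k hk w hw
  have h2 : (Qex (2 * k + 2 * u + 1) k : ℝ) / (2 * k + 2 * u + 1).choose k
      ≤ avg (2 * k + 2 * u + 1) k (fun D => if NW w D = 1 then 1 else 0) := by
    unfold avg
    apply div_le_div_of_nonneg_right _ (Nat.cast_nonneg _)
    rw [h, mixedCount_eq ψ hψ, Finset.card_filter]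
    push_cast
    apply Finset.sum_le_sum
    intro D _
    by_cases hD : PM ψ D
    · rw [if_pos hD, if_pos (hw1 D ((maxMixed_iff ψ hψ D).mpr hD))]
    · rw [if_neg hD]
      split_ifs <;> norm_num
  obtain ⟨-, p1⟩ := P_bounds u
  set P := ∏' i : ℕ, (1 - (1 / 4 : ℝ) ^ (u + 1 + i))
  set A := avg (2 * k + 2 * u + 1) k (fun D => if NW w D = 1 then 1 else 0)
  have p0 : 0 < P := by
    by_contra hP
    nlinarith [mul_nonpos_of_nonneg_of_nonpos hc0.le (not_lt.mp hP)]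
  have h3 : A = P * (c * A) := by linear_combination (-A) * hc
  have h4 : P * (c * A) ≤ P * (1 + ε) := mul_le_mul_of_nonneg_left h1 p0.le
  nlinarith

theorem odd_uniform_upper (ε : ℝ) (hε : 0 < ε) : ∀ᶠ k in atTop, ∀ u : ℕ,
    (Qex (2 * k + 2 * u + 1) k : ℝ) / (2 * k + 2 * u + 1).choose k
      ≤ ∏' i : ℕ, (1 - (1 / 4 : ℝ) ^ (u + 1 + i)) + ε := by
  obtain ⟨U, hU⟩ := exists_pow_lt_of_lt_one (show 0 < ε / 2 by positivity)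
    (show (1 / 4 : ℝ) < 1 by norm_num)
  have h := (eventually_all_finset (range U)).mpr fun u _ => odd_upper u ε hε
  filter_upwards [h] with k hk u
  by_cases hu : u < U
  · exact hk u (Finset.mem_range.mpr hu)
  · have h1 := (P_bounds u).1
    have h2 := q_le (not_lt.mp hu)
    linarith [ratio_le_one (2 * k + 2 * u + 1) k]

theorem density_all :
    TendstoUniformly (fun k t : ℕ => (Qex (2 * k + t) k : ℝ) / (2 * k + t).choose k)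
      (fun t : ℕ => ∏' i : ℕ, (1 - (1 / 4 : ℝ) ^ (t / 2 + 1 + i))) atTop := by
  rw [Metric.tendstoUniformly_iff]
  intro ε hε
  have hev := Metric.tendstoUniformly_iff.mp density_uniform ε hε
  have hev' := (tendsto_add_atTop_nat 1).eventually hev
  filter_upwards [hev, hev', odd_uniform_upper (ε / 2) (by positivity)] with k h1 h2 h3 t
  rcases Nat.even_or_odd' t with ⟨u, rfl | rfl⟩
  · rw [show 2 * u / 2 = u by omega]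
    exact h1 u
  · rw [show (2 * u + 1) / 2 = u by omega, ← add_assoc]
    have a := h2 u
    have b := h3 u
    have d := density_project (n := 2 * k + 2 * u + 1) (k := k) (by omega)
    rw [show 2 * (k + 1) + 2 * u = 2 * k + 2 * u + 1 + 1 by ring, Real.dist_eq, abs_lt] at a
    rw [Real.dist_eq, abs_lt]
    constructor <;> linarith [a.1, a.2]

theorem density_project_iter {n k : ℕ} (h : k ≤ n) (j : ℕ) :
    (Qex (n + j) (k + j) : ℝ) / (n + j).choose (k + j) ≤ (Qex n k : ℝ) / n.choose k := by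
  induction j with
  | zero => simp
  | succ j ih => exact (density_project (n := n + j) (k := k + j) (by omega)).trans ih

theorem density_n (ε : ℝ) (hε : 0 < ε) : ∃ N : ℕ, ∀ n ≥ N, ∀ k : ℕ, 2 * k ≤ n →
    |(Qex n k : ℝ) / n.choose k - ∏' i : ℕ, (1 - (1 / 4 : ℝ) ^ ((n - 2 * k) / 2 + 1 + i))| < ε := by
  obtain ⟨K, hK⟩ := eventually_atTop.mp
    (Metric.tendstoUniformly_iff.mp density_all (ε / 2) (by positivity))
  obtain ⟨U, hU⟩ := exists_pow_lt_of_lt_one (show 0 < ε / 4 by positivity)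
    (show (1 / 4 : ℝ) < 1 by norm_num)
  refine ⟨2 * K + 2 * U, fun n hn k hk => ?_⟩
  by_cases hkK : K ≤ k
  · have h := hK k hkK (n - 2 * k)
    rw [show 2 * k + (n - 2 * k) = n by omega, Real.dist_eq, abs_sub_comm] at h
    linarith
  · have h := hK K le_rfl (n + (K - k) - 2 * K)
    have d := density_project_iter (n := n) (k := k) (by omega) (K - k)
    rw [show 2 * K + (n + (K - k) - 2 * K) = n + (K - k) by omega, Real.dist_eq, abs_lt] at h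
    rw [show k + (K - k) = K by omega] at d
    have h1 := (P_bounds ((n + (K - k) - 2 * K) / 2)).1
    have h2 := q_le (show U ≤ (n + (K - k) - 2 * K) / 2 by omega)
    obtain ⟨h3, h4⟩ := P_bounds ((n - 2 * k) / 2)
    have h5 := q_le (show U ≤ (n - 2 * k) / 2 by omega)
    have h6 := ratio_le_one n k
    rw [abs_lt]
    constructor <;> linarith [h.1, h.2]

end Pool.Agent.MP_450e1b_mp.H55
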